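import Pool.Agent.H63.P6.Defs

/-!
# EXC: excess of a triangle in terms of its elongations (field `exc` of `H63.P6.DP`)
-/

set_option autoImplicit false

open Real Pool.Agent.H20.AL Pool.Agent.H63.P6

noncomputable section

namespace Pool.Agent.H84.P6

theorem EXC_core {κ e x y z : ℝ} (_hκ : 0 ≤ κ) (he : 0 ≤ e)
    (h3 : (2 + 12 * κ ^ 2) * e + 4 * e ^ 2 + e ^ 3 ≤ 4 - 12 * κ) (h5 : 12 * κ ^ 2 ≤ 1 - e ^ 2)
    (hx : 0 ≤ x) (hy : 0 ≤ y) (hz : 0 ≤ z) (hxe : x ≤ e) (hxy : y ≤ x) (hxz : z ≤ x) :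
    3 * (1 + 2 * κ * (x + y + z)) ^ 2
      ≤ (3 + (x + y + z)) * (1 + y + z - x) * (1 + x + z - y) * (1 + x + y - z) := by
  obtain ⟨w, hw⟩ : ∃ w, w = y + z := ⟨_, rfl⟩
  have hw0 : 0 ≤ w := by linarith
  have hw2 : w ≤ 2 * x := by linarith
  have he1 : e ≤ 1 := by nlinarith [sq_nonneg κ, mul_nonneg he (sq_nonneg κ), mul_nonneg he (sq_nonneg e)]
  -- reduction to `(x, w, 0)`
  have r1 : (3 + (x + w)) * (1 + (x + w)) * (1 - (x - w) ^ 2)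
      ≤ (3 + (x + y + z)) * (1 + y + z - x) * (1 + x + z - y) * (1 + x + y - z) := by
    have e1 : (3 + (x + y + z)) * (1 + y + z - x) * (1 + x + z - y) * (1 + x + y - z)
        - (3 + (x + w)) * (1 + (x + w)) * (1 - (x - w) ^ 2)
        = 4 * (3 + (x + y + z)) * (1 + y + z - x) * (y * z) := by
      rw [hw]; ring
    have : 0 ≤ 4 * (3 + (x + y + z)) * (1 + y + z - x) * (y * z) := by
      apply mul_nonneg (mul_nonneg _ _) (mul_nonneg hy hz)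
      · linarith
      · linarith
    linarith
  refine le_trans ?_ r1
  rw [show x + y + z = x + w by rw [hw]; ring]
  obtain ⟨S, hS⟩ : ∃ S, S = x + w := ⟨_, rfl⟩
  have hS0 : 0 ≤ S := by linarith
  rw [← hS]
  rcases le_total S e with hc | hc
  · -- small total elongation
    have d2 : (x - w) ^ 2 ≤ S ^ 2 := by
      rw [hS]; nlinarith
    have q1 : (3 + S) * (1 + S) * (1 - S ^ 2) ≤ (3 + S) * (1 + S) * (1 - (x - w) ^ 2) := by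
      apply mul_le_mul_of_nonneg_left _ (by positivity)
      linarith
    refine le_trans ?_ q1
    have b1 : (2 + 12 * κ ^ 2) * S ≤ (2 + 12 * κ ^ 2) * e := mul_le_mul_of_nonneg_left hc (by positivity)
    have b2 : S ^ 2 ≤ e ^ 2 := pow_le_pow_left₀ hS0 hc 2
    have b3 : S ^ 3 ≤ e ^ 3 := pow_le_pow_left₀ hS0 hc 3
    have b4 : 0 ≤ S * (4 - 12 * κ - ((2 + 12 * κ ^ 2) * S + 4 * S ^ 2 + S ^ 3)) :=
      mul_nonneg hS0 (by linarith)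
    nlinarith
  · have d2 : (x - w) ^ 2 ≤ e ^ 2 := by
      apply sq_le_sq'
      · linarith
      · linarith
    have q1 : (3 + S) * (1 + S) * (1 - e ^ 2) ≤ (3 + S) * (1 + S) * (1 - (x - w) ^ 2) := by
      apply mul_le_mul_of_nonneg_left _ (by positivity)
      linarith
    refine le_trans ?_ q1
    -- increasing in `S`
    have c1 : 0 ≤ (4 * (1 - e ^ 2) - 12 * κ) := by
      nlinarith [mul_nonneg he (sq_nonneg κ), pow_nonneg he 3]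
    have c2 : 0 ≤ (1 - e ^ 2) - 12 * κ ^ 2 := by linarith
    have m1 : (4 * (1 - e ^ 2) - 12 * κ) * e ≤ (4 * (1 - e ^ 2) - 12 * κ) * S :=
      mul_le_mul_of_nonneg_left hc c1
    have m2 : ((1 - e ^ 2) - 12 * κ ^ 2) * e ^ 2 ≤ ((1 - e ^ 2) - 12 * κ ^ 2) * S ^ 2 :=
      mul_le_mul_of_nonneg_left (pow_le_pow_left₀ he hc 2) c2
    have m3 : 0 ≤ e * (4 - 12 * κ - ((2 + 12 * κ ^ 2) * e + 4 * e ^ 2 + e ^ 3)) :=
      mul_nonneg he (by linarith)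
    nlinarith

theorem EXC_poly {κ e x y z : ℝ} (hκ : 0 ≤ κ) (he : 0 ≤ e)
    (h3 : (2 + 12 * κ ^ 2) * e + 4 * e ^ 2 + e ^ 3 ≤ 4 - 12 * κ) (h5 : 12 * κ ^ 2 ≤ 1 - e ^ 2)
    (hx : 0 ≤ x) (hy : 0 ≤ y) (hz : 0 ≤ z) (hxe : x ≤ e) (hye : y ≤ e) (hze : z ≤ e) :
    3 * (1 + 2 * κ * (x + y + z)) ^ 2
      ≤ (3 + (x + y + z)) * (1 + y + z - x) * (1 + x + z - y) * (1 + x + y - z) := by
  rcases le_total y x with h1 | h1 <;> rcases le_total z x with h2 | h2 <;> rcases le_total z y with h4 | h4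
  · exact EXC_core hκ he h3 h5 hx hy hz hxe h1 h2
  · exact EXC_core hκ he h3 h5 hx hy hz hxe h1 h2
  · have := EXC_core hκ he h3 h5 hz hx hy hze h2 (h1.trans h2)
    calc _ = 3 * (1 + 2 * κ * (z + x + y)) ^ 2 := by ring
      _ ≤ _ := this
      _ = _ := by ring
  · have := EXC_core hκ he h3 h5 hz hx hy hze h2 h4
    calc _ = 3 * (1 + 2 * κ * (z + x + y)) ^ 2 := by ring
      _ ≤ _ := this
      _ = _ := by ring
  · have := EXC_core hκ he h3 h5 hy hx hz hye h1 h4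
    calc _ = 3 * (1 + 2 * κ * (y + x + z)) ^ 2 := by ring
      _ ≤ _ := this
      _ = _ := by ring
  · have := EXC_core hκ he h3 h5 hz hx hy hze (h1.trans h4) h4
    calc _ = 3 * (1 + 2 * κ * (z + x + y)) ^ 2 := by ring
      _ ≤ _ := this
      _ = _ := by ring
  · have := EXC_core hκ he h3 h5 hy hx hz hye h1 h4
    calc _ = 3 * (1 + 2 * κ * (y + x + z)) ^ 2 := by ring
      _ ≤ _ := this
      _ = _ := by ring
  · have := EXC_core hκ he h3 h5 hz hx hy hze h2 h4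
    calc _ = 3 * (1 + 2 * κ * (z + x + y)) ^ 2 := by ring
      _ ≤ _ := this
      _ = _ := by ring

/-- excess of a triangle with elongations at most `e` -/
theorem EXC {κ e : ℝ} (hκ : 0 ≤ κ) (he : 0 ≤ e)
    (h3 : (2 + 12 * κ ^ 2) * e + 4 * e ^ 2 + e ^ 3 ≤ 4 - 12 * κ) (h5 : 12 * κ ^ 2 ≤ 1 - e ^ 2)
    (w1 w2 : ℂ) (a1 : 1 ≤ ‖w1‖) (a2 : 1 ≤ ‖w2‖) (a3 : 1 ≤ ‖w2 - w1‖)
    (b1 : ‖w1‖ ≤ 1 + e) (b2 : ‖w2‖ ≤ 1 + e) (b3 : ‖w2 - w1‖ ≤ 1 + e) (hc : 0 < cr w1 w2) :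
    κ * ((‖w1‖ - 1) + (‖w2‖ - 1) + (‖w2 - w1‖ - 1)) ≤ cr w1 w2 / √3 - 1 / 2 := by
  have lg := lag w1 w2
  have hcos : ‖w2 - w1‖ ^ 2 = ‖w1‖ ^ 2 + ‖w2‖ ^ 2 - 2 * dt w1 w2 := by
    rw [nsq, nsq, nsq]; simp [dt]; ring
  obtain ⟨x, hx⟩ : ∃ x, x = ‖w1‖ - 1 := ⟨_, rfl⟩
  obtain ⟨y, hy⟩ : ∃ y, y = ‖w2‖ - 1 := ⟨_, rfl⟩
  obtain ⟨z, hz⟩ : ∃ z, z = ‖w2 - w1‖ - 1 := ⟨_, rfl⟩
  have ea : ‖w1‖ = 1 + x := by linarith
  have eb : ‖w2‖ = 1 + y := by linarith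
  have ec : ‖w2 - w1‖ = 1 + z := by linarith
  rw [ea, eb, ec] at hcos
  rw [ea, eb] at lg
  have hp := EXC_poly (x := x) (y := y) (z := z) hκ he h3 h5 (by linarith) (by linarith) (by linarith)
    (by linarith) (by linarith) (by linarith)
  rw [← hx, ← hy, ← hz]
  have hdt : dt w1 w2 = ((1 + x) ^ 2 + (1 + y) ^ 2 - (1 + z) ^ 2) / 2 := by linarith
  have key : 3 * (1 + 2 * κ * (x + y + z)) ^ 2 ≤ (2 * cr w1 w2) ^ 2 := by
    have : (2 * cr w1 w2) ^ 2 = 4 * ((1 + x) ^ 2 * (1 + y) ^ 2 - dt w1 w2 ^ 2) := by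
      linear_combination 4 * lg
    rw [this, hdt]
    refine hp.trans (le_of_eq ?_)
    ring
  have s3 : (√3 : ℝ) ^ 2 = 3 := Real.sq_sqrt (by norm_num)
  have sp : (0 : ℝ) < √3 := Real.sqrt_pos.2 (by norm_num)
  have k0 : 0 ≤ 1 + 2 * κ * (x + y + z) := by
    have : 0 ≤ κ * (x + y + z) := mul_nonneg hκ (by linarith)
    linarith
  have k1 : √3 * (1 + 2 * κ * (x + y + z)) ≤ 2 * cr w1 w2 := by
    apply abs_le_of_sq_le_sq' _ (by linarith) |>.2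
    calc (√3 * (1 + 2 * κ * (x + y + z))) ^ 2 = 3 * (1 + 2 * κ * (x + y + z)) ^ 2 := by
          rw [mul_pow, s3]
      _ ≤ _ := key
  have k2 : (1 + 2 * κ * (x + y + z)) / 2 ≤ cr w1 w2 / √3 := by
    rw [div_le_div_iff₀ (by norm_num) sp]
    linarith
  linarith

/-- `κ = 41/250`, `el = 73/50` -/
theorem EXC_a (w1 w2 : ℂ) (a1 : 1 ≤ ‖w1‖) (a2 : 1 ≤ ‖w2‖) (a3 : 1 ≤ ‖w2 - w1‖)
    (b1 : ‖w1‖ < 73 / 50) (b2 : ‖w2‖ < 73 / 50) (b3 : ‖w2 - w1‖ < 73 / 50) (hc : 0 < cr w1 w2) :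
    41 / 250 * ((‖w1‖ - 1) + (‖w2‖ - 1) + (‖w2 - w1‖ - 1)) ≤ cr w1 w2 / √3 - 1 / 2 :=
  EXC (e := 23 / 50) (by norm_num) (by norm_num) (by norm_num) (by norm_num) w1 w2 a1 a2 a3
    (by linarith) (by linarith) (by linarith) hc

/-- `κ = 4/25`, `el = 147/100` -/
theorem EXC_b (w1 w2 : ℂ) (a1 : 1 ≤ ‖w1‖) (a2 : 1 ≤ ‖w2‖) (a3 : 1 ≤ ‖w2 - w1‖)
    (b1 : ‖w1‖ < 147 / 100) (b2 : ‖w2‖ < 147 / 100) (b3 : ‖w2 - w1‖ < 147 / 100) (hc : 0 < cr w1 w2) :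
    4 / 25 * ((‖w1‖ - 1) + (‖w2‖ - 1) + (‖w2 - w1‖ - 1)) ≤ cr w1 w2 / √3 - 1 / 2 :=
  EXC (e := 47 / 100) (by norm_num) (by norm_num) (by norm_num) (by norm_num) w1 w2 a1 a2 a3
    (by linarith) (by linarith) (by linarith) hc

end Pool.Agent.H84.P6
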