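import Pool.Agent.H78.P6.CL

/-!
# RS2: metric lemmas for the real apex (MP_591ade_co, p = 6)

* `cross_cell`: a segment of length `≤ √3` does not meet both legs if the outer frames are far from each other.
* `ctri_empty`: a triangle with sides `≤ √3, √3, 3/2` contains no point at distance `≥ 1` from the vertices.
* `quad_empty`: the same for a quadrilateral.
-/

set_option autoImplicit false

open Set Real

noncomputable section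

namespace Pool.Agent.H84.P6

open Pool.Agent.H20.AL Pool.Agent.H78.P6

/-- a quadratic form which is convex in each variable, on a box -/
theorem box_lt {α β a1 b1 q G : ℝ} (ha : 1 ≤ α) (ha1 : α ≤ a1) (hb : 1 ≤ β) (hb1 : β ≤ b1) (h1a : 1 < a1) (h1b : 1 < b1)
    (c11 : 2 - q < G) (c21 : a1 ^ 2 + 1 - q * a1 < G) (c12 : 1 + b1 ^ 2 - q * b1 < G)
    (c22 : a1 ^ 2 + b1 ^ 2 - q * (a1 * b1) < G) : α ^ 2 + β ^ 2 - q * (α * β) < G := by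
  set H := (1 + a1) * α - a1 + ((1 + b1) * β - b1) - q * (α * β) with hH
  have k1 : α ^ 2 + β ^ 2 - q * (α * β) ≤ H := by
    have e1 : 0 ≤ (α - 1) * (a1 - α) := mul_nonneg (by linarith) (by linarith)
    have e2 : 0 ≤ (β - 1) * (b1 - β) := mul_nonneg (by linarith) (by linarith)
    rw [hH]; nlinarith
  have p1 : 0 < a1 - 1 := by linarith
  have p2 : 0 < b1 - 1 := by linarith
  have id1 : (a1 - 1) * (b1 - 1) * (G - H) = (a1 - α) * (b1 - β) * (G - (2 - q)) +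
      (α - 1) * (b1 - β) * (G - (a1 ^ 2 + 1 - q * a1)) + (a1 - α) * (β - 1) * (G - (1 + b1 ^ 2 - q * b1)) +
      (α - 1) * (β - 1) * (G - (a1 ^ 2 + b1 ^ 2 - q * (a1 * b1))) := by
    rw [hH]; ring
  have m1 : 0 ≤ (a1 - α) * (b1 - β) := mul_nonneg (by linarith) (by linarith)
  have m2 : 0 ≤ (α - 1) * (b1 - β) := mul_nonneg (by linarith) (by linarith)
  have m3 : 0 ≤ (a1 - α) * (β - 1) := mul_nonneg (by linarith) (by linarith)
  have m4 : 0 ≤ (α - 1) * (β - 1) := mul_nonneg (by linarith) (by linarith)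
  have msum : (a1 - α) * (b1 - β) + (α - 1) * (b1 - β) + (a1 - α) * (β - 1) + (α - 1) * (β - 1) = (a1 - 1) * (b1 - 1) := by
    ring
  obtain ⟨δ, hδ, d1, d2, d3, d4⟩ : ∃ δ : ℝ, 0 < δ ∧ δ ≤ G - (2 - q) ∧ δ ≤ G - (a1 ^ 2 + 1 - q * a1) ∧
      δ ≤ G - (1 + b1 ^ 2 - q * b1) ∧ δ ≤ G - (a1 ^ 2 + b1 ^ 2 - q * (a1 * b1)) := by
    refine ⟨min (min (G - (2 - q)) (G - (a1 ^ 2 + 1 - q * a1)))
      (min (G - (1 + b1 ^ 2 - q * b1)) (G - (a1 ^ 2 + b1 ^ 2 - q * (a1 * b1)))), ?_, ?_, ?_, ?_, ?_⟩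
    · simp only [lt_min_iff]
      exact ⟨⟨by linarith, by linarith⟩, by linarith, by linarith⟩
    · exact (min_le_left _ _).trans (min_le_left _ _)
    · exact (min_le_left _ _).trans (min_le_right _ _)
    · exact (min_le_right _ _).trans (min_le_left _ _)
    · exact (min_le_right _ _).trans (min_le_right _ _)
  have n1 := mul_le_mul_of_nonneg_left d1 m1
  have n2 := mul_le_mul_of_nonneg_left d2 m2
  have n3 := mul_le_mul_of_nonneg_left d3 m3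
  have n4 := mul_le_mul_of_nonneg_left d4 m4
  have pp : 0 < (a1 - 1) * (b1 - 1) := mul_pos p1 p2
  have hfin : (a1 - 1) * (b1 - 1) * δ ≤ (a1 - 1) * (b1 - 1) * (G - H) := by
    rw [id1, ← msum]; linarith
  have := le_of_mul_le_mul_left hfin pp
  linarith

/-- a segment of length `≤ √3` does not meet both legs: the cells -/
theorem cross_cell {p a c z w : ℂ} (h : Crs p a c z w) (hL : ‖w - z‖ ^ 2 ≤ 3) {A1 B1 x0 z0 y1 a1 b1 G : ℝ}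
    (hA1 : ‖a - p‖ ^ 2 ≤ A1) (hB1 : ‖c - p‖ ^ 2 ≤ B1) (hA0 : 1 ≤ ‖a - p‖) (hB0 : 1 ≤ ‖c - p‖)
    (hG : G ≤ ‖a - c‖ ^ 2) (x00 : 0 ≤ x0) (z00 : 0 ≤ z0) (hx : x0 ^ 2 ≤ 1 - A1 / 4) (hz : z0 ^ 2 ≤ 1 - B1 / 4)
    (hy : 17321 / 10000 - x0 - z0 ≤ y1) (ha1 : A1 ≤ a1 ^ 2) (hb1 : B1 ≤ b1 ^ 2) (h1a : 1 < a1) (h1b : 1 < b1)
    (c11 : 2 - (2 - 4 * y1 ^ 2) < G) (c21 : a1 ^ 2 + 1 - (2 - 4 * y1 ^ 2) * a1 < G)
    (c12 : 1 + b1 ^ 2 - (2 - 4 * y1 ^ 2) * b1 < G)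
    (c22 : a1 ^ 2 + b1 ^ 2 - (2 - 4 * y1 ^ 2) * (a1 * b1) < G) : False := by
  obtain ⟨s, σ, t, ρ, s0, s1, σ0, σ1, t0, t1, ρ0, ρ1, h1, h2⟩ := h.ex
  obtain ⟨X, Y, Z, hX, hY, hZ, hsum, gX, gZ, gY⟩ := cross_len s0 s1 σ0 σ1 t0 t1 ρ0 ρ1 h1 h2 h.zp h.za h.zc h.wp h.wa h.wc
  have hdt := CL_dt_le (a - p) (c - p)
  set α := ‖a - p‖ with hα
  set β := ‖c - p‖ with hβ
  set D := dt (a - p) (c - p) with hD
  have hac : ‖a - c‖ ^ 2 = α ^ 2 + β ^ 2 - 2 * D := by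
    rw [hα, hβ, hD, nsq, nsq, nsq]; simp [dt]; ring
  have hx' : x0 ≤ X := by
    have : x0 ^ 2 ≤ X ^ 2 := by linarith
    exact (abs_le_of_sq_le_sq' this hX).2
  have hz' : z0 ≤ Z := by
    have : z0 ^ 2 ≤ Z ^ 2 := by linarith
    exact (abs_le_of_sq_le_sq' this hZ).2
  have hLr : ‖w - z‖ ≤ 17321 / 10000 := by
    have : ‖w - z‖ ^ 2 ≤ (17321 / 10000) ^ 2 := by linarith [show (3 : ℝ) ≤ (17321 / 10000) ^ 2 by norm_num]
    exact (abs_le_of_sq_le_sq' this (by norm_num)).2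
  have hY1 : Y ≤ y1 := by linarith
  have hm0 : 0 ≤ α * β := by positivity
  have gY' : (α * β - D) / 2 ≤ α * β * Y ^ 2 := by
    have : 1 / 4 * (α * β - D) ≤ (1 - ‖w - z‖ ^ 2 / 4) * (α * β - D) :=
      mul_le_mul_of_nonneg_right (by linarith) (by linarith)
    linarith
  have hY2 : Y ^ 2 ≤ y1 ^ 2 := pow_le_pow_left₀ hY hY1 2
  have gY2 : α * β * Y ^ 2 ≤ α * β * y1 ^ 2 := mul_le_mul_of_nonneg_left hY2 hm0
  have hαa : α ≤ a1 := (abs_le_of_sq_le_sq' (by linarith : α ^ 2 ≤ a1 ^ 2) (by linarith)).2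
  have hβb : β ≤ b1 := (abs_le_of_sq_le_sq' (by linarith : β ^ 2 ≤ b1 ^ 2) (by linarith)).2
  have key := box_lt hA0 hαa hB0 hβb h1a h1b c11 c21 c12 c22
  nlinarith

/-- a triangle with two sides `≤ √3` and one side `≤ 3/2` contains no point at distance `≥ 1` from the vertices -/
theorem ctri_empty {a b c z : ℂ} (h : 0 < cr (b - a) (c - a)) (hz : z ∈ CTri a b c) (hab : ‖a - b‖ ^ 2 ≤ 3)
    (hbc : ‖b - c‖ ^ 2 ≤ 9 / 4) (hca : ‖c - a‖ ^ 2 ≤ 3) (ha : 1 ≤ dist z a) (hb : 1 ≤ dist z b) (hc : 1 ≤ dist z c) :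
    False := by
  obtain ⟨y1, y2, y3⟩ := hz
  have hΔ := CRS_sum a b c z
  have hbar := CRS_bary a b c z
  set L1 := cr (b - a) (z - a)
  set L2 := cr (c - b) (z - b)
  set L3 := cr (a - c) (z - c)
  set Δ := cr (b - a) (c - a)
  obtain ⟨l1, l2, l3, hl1, hl2, hl3, hsum, hyl⟩ : ∃ l1 l2 l3 : ℝ, 0 ≤ l1 ∧ 0 ≤ l2 ∧ 0 ≤ l3 ∧
      l1 + l2 + l3 = 1 ∧ z = (l1 : ℂ) * a + (l2 : ℂ) * b + (l3 : ℂ) * c := by
    refine ⟨L2 / Δ, L3 / Δ, L1 / Δ, div_nonneg y2 h.le, div_nonneg y3 h.le,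
      div_nonneg y1 h.le, ?_, ?_⟩
    · field_simp
      linarith
    · have hne : (Δ : ℂ) ≠ 0 := Complex.ofReal_ne_zero.2 h.ne'
      push_cast
      field_simp
      rw [mul_comm z]
      rw [hbar]
  have key : l1 * ‖z - a‖ ^ 2 + l2 * ‖z - b‖ ^ 2 + l3 * ‖z - c‖ ^ 2 =
      l1 * l2 * ‖a - b‖ ^ 2 + l2 * l3 * ‖b - c‖ ^ 2 + l3 * l1 * ‖c - a‖ ^ 2 := by
    have h1 : l1 = 1 - l2 - l3 := by linarith
    rw [hyl, h1]
    simp only [nsq]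
    simp
    ring
  have g1 := CRS_one ha
  have g2 := CRS_one hb
  have g3 := CRS_one hc
  have k1 := mul_le_mul_of_nonneg_left g1 hl1
  have k2 := mul_le_mul_of_nonneg_left g2 hl2
  have k3 := mul_le_mul_of_nonneg_left g3 hl3
  have k4 := mul_le_mul_of_nonneg_left hab (mul_nonneg hl1 hl2)
  have k5 := mul_le_mul_of_nonneg_left hbc (mul_nonneg hl2 hl3)
  have k6 := mul_le_mul_of_nonneg_left hca (mul_nonneg hl3 hl1)
  have e1 : l1 = 1 - l2 - l3 := by linarith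
  subst e1
  nlinarith [sq_nonneg (l2 - l3), sq_nonneg (l2 + l3 - 8 / 13)]

/-- the quadrilateral of a real apex contains no other point -/
theorem quad_empty {p a b c z : ℂ} (h1 : 0 < cr (a - p) (b - p)) (h2 : 0 < cr (b - p) (c - p)) (hz : z ∈ Qd p a b c)
    (la : ‖a - p‖ ^ 2 ≤ 3) (lb : ‖b - p‖ ^ 2 ≤ 3) (lc : ‖c - p‖ ^ 2 ≤ 3) (lab : ‖b - a‖ ≤ 147 / 100)
    (lbc : ‖c - b‖ ≤ 147 / 100) (hp : 1 ≤ dist z p) (ha : 1 ≤ dist z a) (hb : 1 ≤ dist z b) (hc : 1 ≤ dist z c) :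
    False := by
  obtain ⟨q1, q2, q3, q4⟩ := hz
  have sq : ∀ u v : ℂ, ‖v - u‖ ≤ 147 / 100 → ‖u - v‖ ^ 2 ≤ 9 / 4 := by
    intro u v h
    rw [norm_sub_rev]
    have := pow_le_pow_left₀ (norm_nonneg _) h 2
    linarith [show (147 / 100 : ℝ) ^ 2 ≤ 9 / 4 by norm_num]
  rcases le_total (cr (b - p) (z - p)) 0 with hh | hh
  · refine ctri_empty (a := p) (b := a) (c := b) h1 ⟨q1, q2, ?_⟩ (by rw [norm_sub_rev]; exact la) (sq _ _ lab) lb hp ha hb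
    have : cr (p - b) (z - b) = -cr (b - p) (z - p) := by simp [cr]; ring
    rw [this]; linarith
  · exact ctri_empty (a := p) (b := b) (c := c) h2 ⟨hh, q3, q4⟩ (by rw [norm_sub_rev]; exact lb) (sq _ _ lbc) lc hp hb hc

end Pool.Agent.H84.P6
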