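import Pool.Agent.H84.P6.RS1
import Pool.Agent.H84.P6.RS2
import Pool.Agent.H30.P6.DPt

/-!
# RS3: the real apex in local coordinates
-/

set_option autoImplicit false

open Set Real

noncomputable section

namespace Pool.Agent.H84.P6

open Pool.Agent.H20.AL Pool.Agent.H63.P6 Pool.Agent.H16.T3 Pool.Agent.H78.P6
open Pool.Agent.H30.P6 hiding fan

/-- frames with `Phi ≤ 1/3` and a point `u` at distance `≥ 1` from the frames -/
structure RC (u v1 v2 v3 : ℂ) : Prop where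
  hv1 : V30 v1 ≤ 1 / 3
  hv2 : V30 v2 ≤ 1 / 3
  hv3 : V30 v3 ≤ 1 / 3
  hP : Phi V30 (4 / 25) v1 v2 v3 ≤ 1 / 3
  e12 : 1 ≤ ‖(d2 + v2) - (d1 + v1)‖
  e23 : 1 ≤ ‖(d3 + v3) - (d2 + v2)‖
  f12 : ‖(d2 + v2) - (d1 + v1)‖ ≤ 147 / 100
  f23 : ‖(d3 + v3) - (d2 + v2)‖ ≤ 147 / 100
  n1 : 1 ≤ ‖d1 + v1 - u‖
  n2 : 1 ≤ ‖d2 + v2 - u‖
  n3 : 1 ≤ ‖d3 + v3 - u‖
  un : ‖u‖ ≤ 709 / 1000
  lo : -(578 / 1000) ≤ u.im

/-- coordinates of the configuration -/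
structure Co (u v1 v2 v3 : ℂ) (a b X1 Y1 X2 Y2 X3 Y3 V1 V2 V3 p q r s h k : ℝ) : Prop where
  d : Dom a b X1 Y1 X2 Y2 X3 Y3 V1 V2 V3 p q r s h k
  hu0 : 3 * a ^ 2 + b ^ 2 ≤ 502681 / 250000
  hb0 : -(289 / 250) ≤ b
  nu : ‖u‖ ^ 2 = (3 * a ^ 2 + b ^ 2) / 4
  r1 : 2 * (d1 + v1 - u).re / √3 = 1 + X1
  i1 : 2 * (d1 + v1 - u).im = 1 + Y1
  r2 : 2 * (d2 + v2 - u).re / √3 = X2
  i2 : 2 * (d2 + v2 - u).im = 2 + Y2
  r3 : 2 * (d3 + v3 - u).re / √3 = -1 + X3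
  i3 : 2 * (d3 + v3 - u).im = 1 + Y3
  fan : Pool.Agent.H30.P6.fan X1 Y1 X2 Y2 X3 Y3 = fanw (d1 + v1 - u) (d2 + v2 - u) (d3 + v3 - u)
  o1 : V1 + r + s + k ≤ Phi V30 (4 / 25) v1 v2 v3
  o2 : V2 + p + q + r + s + h + k ≤ Phi V30 (4 / 25) v1 v2 v3
  o3 : V3 + p + q + h ≤ Phi V30 (4 / 25) v1 v2 v3

theorem RC.co {u v1 v2 v3 : ℂ} (H : RC u v1 v2 v3) : ∃ a b X1 Y1 X2 Y2 X3 Y3 V1 V2 V3 p q r s h k : ℝ,
    Co u v1 v2 v3 a b X1 Y1 X2 Y2 X3 Y3 V1 V2 V3 p q r s h k := by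
  obtain ⟨hv1, hv2, hv3, hP, e12, e23, f12, f23, g1, g2, g3, hu, lo⟩ := H
  have hs := s3
  have hp := s3p
  have hne := hp.ne'
  have key : ∀ v : ℂ, 2 * (v - u).re / √3 + 2 * u.re / √3 = 2 * v.re / √3 := fun v => by
    rw [Complex.sub_re]; ring
  have key2 : ∀ v : ℂ, 2 * (v - u).im + 2 * u.im = 2 * v.im := fun v => by rw [Complex.sub_im]; ring
  have r1 : 2 * (d1 + v1 - u).re / √3 = 1 + 2 * (v1 - u).re / √3 := by
    simp only [d1, Complex.sub_re, Complex.add_re]; field_simp; ring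
  have i1 : 2 * (d1 + v1 - u).im = 1 + 2 * (v1 - u).im := by simp only [d1, Complex.sub_im, Complex.add_im]; ring
  have r2 : 2 * (d2 + v2 - u).re / √3 = 2 * (v2 - u).re / √3 := by
    simp only [d2, Complex.sub_re, Complex.add_re]; ring
  have i2 : 2 * (d2 + v2 - u).im = 2 + 2 * (v2 - u).im := by simp only [d2, Complex.sub_im, Complex.add_im]; ring
  have r3 : 2 * (d3 + v3 - u).re / √3 = -1 + 2 * (v3 - u).re / √3 := by
    simp only [d3, Complex.sub_re, Complex.add_re]; field_simp; ring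
  have i3 : 2 * (d3 + v3 - u).im = 1 + 2 * (v3 - u).im := by simp only [d3, Complex.sub_im, Complex.add_im]; ring
  have r12 : 2 * ((d2 + v2) - (d1 + v1)).re / √3 = -1 + 2 * (v2 - u).re / √3 - 2 * (v1 - u).re / √3 := by
    simp only [d1, d2, Complex.sub_re, Complex.add_re]; field_simp; ring
  have i12 : 2 * ((d2 + v2) - (d1 + v1)).im = 1 + 2 * (v2 - u).im - 2 * (v1 - u).im := by
    simp only [d1, d2, Complex.sub_im, Complex.add_im]; ring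
  have r23 : 2 * ((d3 + v3) - (d2 + v2)).re / √3 = -1 + 2 * (v3 - u).re / √3 - 2 * (v2 - u).re / √3 := by
    simp only [d3, d2, Complex.sub_re, Complex.add_re]; field_simp; ring
  have i23 : 2 * ((d3 + v3) - (d2 + v2)).im = -1 + 2 * (v3 - u).im - 2 * (v2 - u).im := by
    simp only [d3, d2, Complex.sub_im, Complex.add_im]; ring
  -- the fan
  have hfan : Pool.Agent.H30.P6.fan (2 * (v1 - u).re / √3) (2 * (v1 - u).im) (2 * (v2 - u).re / √3) (2 * (v2 - u).im)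
      (2 * (v3 - u).re / √3) (2 * (v3 - u).im) = fanw (d1 + v1 - u) (d2 + v2 - u) (d3 + v3 - u) := by
    have c1 : ∀ w z : ℂ, cr w z / √3 = (2 * w.re / √3 * (2 * z.im) - 2 * w.im * (2 * z.re / √3)) / 4 := fun w z => by
      simp only [cr]; field_simp; ring
    rw [fanw, add_div, c1, c1, r1, i1, r2, i2, r3, i3, Pool.Agent.H30.P6.fan]; ring
  have P1 := le_max_left (V30 v1 + sig (4 / 25) d3 v3 v2 ‖(d3 + v3) - (d2 + v2)‖)
    (max (V30 v3 + sig (4 / 25) d1 v1 v2 ‖(d2 + v2) - (d1 + v1)‖)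
      (V30 v2 + sig (4 / 25) d1 v1 v2 ‖(d2 + v2) - (d1 + v1)‖ + sig (4 / 25) d3 v3 v2 ‖(d3 + v3) - (d2 + v2)‖))
  have P2 := le_max_right (V30 v1 + sig (4 / 25) d3 v3 v2 ‖(d3 + v3) - (d2 + v2)‖)
    (max (V30 v3 + sig (4 / 25) d1 v1 v2 ‖(d2 + v2) - (d1 + v1)‖)
      (V30 v2 + sig (4 / 25) d1 v1 v2 ‖(d2 + v2) - (d1 + v1)‖ + sig (4 / 25) d3 v3 v2 ‖(d3 + v3) - (d2 + v2)‖))
  have P3 := le_max_left (V30 v3 + sig (4 / 25) d1 v1 v2 ‖(d2 + v2) - (d1 + v1)‖)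
      (V30 v2 + sig (4 / 25) d1 v1 v2 ‖(d2 + v2) - (d1 + v1)‖ + sig (4 / 25) d3 v3 v2 ‖(d3 + v3) - (d2 + v2)‖)
  have P4 := le_max_right (V30 v3 + sig (4 / 25) d1 v1 v2 ‖(d2 + v2) - (d1 + v1)‖)
      (V30 v2 + sig (4 / 25) d1 v1 v2 ‖(d2 + v2) - (d1 + v1)‖ + sig (4 / 25) d3 v3 v2 ‖(d3 + v3) - (d2 + v2)‖)
  have hP' : Phi V30 (4 / 25) v1 v2 v3 = max (V30 v1 + sig (4 / 25) d3 v3 v2 ‖(d3 + v3) - (d2 + v2)‖)
    (max (V30 v3 + sig (4 / 25) d1 v1 v2 ‖(d2 + v2) - (d1 + v1)‖)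
      (V30 v2 + sig (4 / 25) d1 v1 v2 ‖(d2 + v2) - (d1 + v1)‖ + sig (4 / 25) d3 v3 v2 ‖(d3 + v3) - (d2 + v2)‖)) := rfl
  rw [← hP'] at P1 P2
  set Φ := Phi V30 (4 / 25) v1 v2 v3 with hΦ
  have Q1 := P1
  have Q3 := P3.trans P2
  have Q2 := P4.trans P2
  clear P1 P2 P3 P4 hP'
  simp only [sig] at Q1 Q2 Q3
  have h33 : (3 : ℝ) / √3 = √3 := by rw [div_eq_iff hne]; exact hs.symm
  have dt1 : ∀ v : ℂ, -(dt v d1) = -(3 * (2 * v.re / √3) + 2 * v.im) / 4 := fun v => by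
    simp only [dt, d1]
    have : 3 * (2 * v.re / √3) = 2 * √3 * v.re := by
      rw [show 3 * (2 * v.re / √3) = 2 * v.re * (3 / √3) by ring, h33]; ring
    rw [this]; ring
  have dt3 : ∀ v : ℂ, -(dt v d3) = -(-3 * (2 * v.re / √3) + 2 * v.im) / 4 := fun v => by
    simp only [dt, d3]
    have : 3 * (2 * v.re / √3) = 2 * √3 * v.re := by
      rw [show 3 * (2 * v.re / √3) = 2 * v.re * (3 / √3) by ring, h33]; ring
    rw [show -3 * (2 * v.re / √3) = -(3 * (2 * v.re / √3)) by ring, this]; ring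
  have hu2 : 3 * (2 * u.re / √3) ^ 2 + (2 * u.im) ^ 2 ≤ 502681 / 250000 := by
    have h1 := nrm u
    have h2 : ‖u‖ ^ 2 ≤ (709 / 1000) ^ 2 := pow_le_pow_left₀ (norm_nonneg _) hu 2
    norm_num at h2
    linarith
  refine ⟨2 * u.re / √3, 2 * u.im, 2 * (v1 - u).re / √3, 2 * (v1 - u).im, 2 * (v2 - u).re / √3, 2 * (v2 - u).im,
      2 * (v3 - u).re / √3, 2 * (v3 - u).im, V30 v1, V30 v2, V30 v3,
      4 / 25 * max (-(dt v1 d1)) 0, 4 / 25 * max (-(dt v2 d1)) 0, 4 / 25 * max (-(dt v2 d3)) 0,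
      4 / 25 * max (-(dt v3 d3)) 0, 4 / 25 * (‖(d2 + v2) - (d1 + v1)‖ - 1),
      4 / 25 * (‖(d3 + v3) - (d2 + v2)‖ - 1), ⟨?_, hu2, by linarith, nrm u, r1, i1, r2, i2, r3, i3, hfan, ?_, ?_, ?_⟩⟩
  · refine ⟨?_, ?_, ?_, by positivity, by positivity, by positivity, by positivity, ?_, ?_, ?_, ?_, ?_, ?_,
      ?_, ?_, ?_, ?_, ?_, ?_, ?_, ?_, ?_, ?_⟩
    · rw [key, key2]; exact V30_self v1
    · rw [key, key2]; exact V30_self v2
    · rw [key, key2]; exact V30_self v3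
    · rw [key, key2]; linarith [le_max_left (-(dt v1 d1)) 0, dt1 v1]
    · rw [key, key2]; linarith [le_max_left (-(dt v2 d1)) 0, dt1 v2]
    · rw [key, key2]; linarith [le_max_left (-(dt v2 d3)) 0, dt3 v2]
    · rw [key, key2]; linarith [le_max_left (-(dt v3 d3)) 0, dt3 v3]
    · rw [← r12, ← i12]; exact str_of _ e12
    · rw [← r23, ← i23]; exact str_of _ e23
    · linarith
    · linarith
    · linarith
    · linarith
    · linarith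
    · have h1 := nrm (d1 + v1 - u); rw [r1, i1] at h1; linarith [one_le_sq g1]
    · have h1 := nrm (d2 + v2 - u); rw [r2, i2] at h1; linarith [one_le_sq g2]
    · have h1 := nrm (d3 + v3 - u); rw [r3, i3] at h1; linarith [one_le_sq g3]
    · have h1 := nrm ((d2 + v2) - (d1 + v1)); rw [r12, i12] at h1; linarith [one_le_sq e12]
    · have h1 := nrm ((d3 + v3) - (d2 + v2)); rw [r23, i23] at h1; linarith [one_le_sq e23]
  · linarith
  · linarith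
  · linarith

variable {u v1 v2 v3 : ℂ} {a b X1 Y1 X2 Y2 X3 Y3 V1 V2 V3 p q r s h k : ℝ}

theorem re_of {w : ℂ} {t : ℝ} (h : 2 * w.re / √3 = t) : w.re = √3 / 2 * t := by
  have := s3p.ne'
  rw [← h]; field_simp

theorem Co.n1 (c : Co u v1 v2 v3 a b X1 Y1 X2 Y2 X3 Y3 V1 V2 V3 p q r s h k) :
    ‖d1 + v1 - u‖ ^ 2 = (3 * (1 + X1) ^ 2 + (1 + Y1) ^ 2) / 4 := by rw [nrm, c.r1, c.i1]

theorem Co.n2 (c : Co u v1 v2 v3 a b X1 Y1 X2 Y2 X3 Y3 V1 V2 V3 p q r s h k) :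
    ‖d2 + v2 - u‖ ^ 2 = (3 * X2 ^ 2 + (2 + Y2) ^ 2) / 4 := by rw [nrm, c.r2, c.i2]

theorem Co.n3 (c : Co u v1 v2 v3 a b X1 Y1 X2 Y2 X3 Y3 V1 V2 V3 p q r s h k) :
    ‖d3 + v3 - u‖ ^ 2 = (3 * (-1 + X3) ^ 2 + (1 + Y3) ^ 2) / 4 := by rw [nrm, c.r3, c.i3]

theorem Co.n13 (c : Co u v1 v2 v3 a b X1 Y1 X2 Y2 X3 Y3 V1 V2 V3 p q r s h k) :
    ‖(d1 + v1 - u) - (d3 + v3 - u)‖ ^ 2 = G13 X1 Y1 X3 Y3 / 4 := by
  rw [nrm, Complex.sub_re, Complex.sub_im]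
  have e1 : 2 * ((d1 + v1 - u).re - (d3 + v3 - u).re) / √3 = 2 + X1 - X3 := by
    rw [mul_sub, sub_div, c.r1, c.r3]; ring
  have e2 : 2 * ((d1 + v1 - u).im - (d3 + v3 - u).im) = Y1 - Y3 := by rw [mul_sub, c.i1, c.i3]; ring
  rw [e1, e2, G13]

/-- short legs -/
theorem Co.dr (c : Co u v1 v2 v3 a b X1 Y1 X2 Y2 X3 Y3 V1 V2 V3 p q r s h k) (l1 : ‖d1 + v1 - u‖ ^ 2 ≤ 3)
    (l3 : ‖d3 + v3 - u‖ ^ 2 ≤ 3) : DR a b X1 Y1 X2 Y2 X3 Y3 V1 V2 V3 p q r s h k :=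
  ⟨c.d, c.hu0, c.hb0, by have := c.n1; linarith, by have := c.n3; linarith⟩

/-- matched apex: short legs -/
theorem Co.mat (c : Co u v1 v2 v3 a b X1 Y1 X2 Y2 X3 Y3 V1 V2 V3 p q r s h k) (hu : ‖u‖ ≤ 1 / 2) :
    ‖d1 + v1 - u‖ ^ 2 ≤ 3 ∧ ‖d3 + v3 - u‖ ^ 2 ≤ 3 := by
  have h1 : 3 * a ^ 2 + b ^ 2 ≤ 1 := by
    have := c.nu
    have h2 : ‖u‖ ^ 2 ≤ (1 / 2) ^ 2 := pow_le_pow_left₀ (norm_nonneg _) hu 2
    norm_num at h2
    linarith
  have k1 := dom_M1 c.d h1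
  have k2 := dom_M1 c.d.mirror (by linarith [neg_sq a])
  constructor
  · rw [c.n1]; linarith
  · rw [c.n3]; nlinarith

/-- consecutive rays are in the right order: a metric argument -/
theorem order12 {A1 B1 A2 B2 : ℝ} (hB1 : 0 < B1) (hA1 : 2 * B1 < 25 * A1) (hB2 : 0 < B2) (hA2 : 9 * A2 < 4 * B2)
    (l1 : 3 * A1 ^ 2 + B1 ^ 2 ≤ 12) (l2 : 3 * A2 ^ 2 + B2 ^ 2 ≤ 12) (m1 : 4 ≤ 3 * A1 ^ 2 + B1 ^ 2)
    (m2 : 4 ≤ 3 * A2 ^ 2 + B2 ^ 2) (m12 : 4 ≤ 3 * (A2 - A1) ^ 2 + (B2 - B1) ^ 2) : 0 < A1 * B2 - A2 * B1 := by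
  by_contra hcon
  push Not at hcon
  have hA1p : 0 < A1 := by linarith
  have hA2p : 0 < A2 := by
    by_contra hc
    push Not at hc
    nlinarith [mul_pos hA1p hB2, mul_nonneg (neg_nonneg.2 hc) hB1.le]
  -- dt and cr
  set N1 := 3 * A1 ^ 2 + B1 ^ 2 with hN1
  set N2 := 3 * A2 ^ 2 + B2 ^ 2 with hN2
  set d := 3 * A1 * A2 + B1 * B2 with hd
  have hdp : 0 < d := by rw [hd]; positivity
  have k1 : 2 * d ≤ N1 + N2 - 4 := by rw [hd, hN1, hN2]; nlinarith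
  -- (N1 + N2 - 4)^2 ≤ 3 N1 N2
  have k2 : (N1 + N2 - 4) ^ 2 ≤ 3 * (N1 * N2) := by
    nlinarith [mul_nonneg (sub_nonneg.2 m1) (sub_nonneg.2 m2), mul_nonneg (sub_nonneg.2 l1) (sub_nonneg.2 l2),
      mul_nonneg (sub_nonneg.2 m1) (sub_nonneg.2 l1), mul_nonneg (sub_nonneg.2 m2) (sub_nonneg.2 l2),
      mul_nonneg (sub_nonneg.2 m1) (sub_nonneg.2 l2), mul_nonneg (sub_nonneg.2 m2) (sub_nonneg.2 l1)]
  have k3 : (2 * d) ^ 2 ≤ 3 * (N1 * N2) := le_trans (pow_le_pow_left₀ (by positivity) k1 2) k2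
  have k4 : N1 * N2 = d ^ 2 + 3 * (A2 * B1 - A1 * B2) ^ 2 := by rw [hd, hN1, hN2]; ring
  have k5 : d ^ 2 ≤ (3 * (A2 * B1 - A1 * B2)) ^ 2 := by nlinarith
  have k6 : d ≤ 3 * (A2 * B1 - A1 * B2) := (abs_le_of_sq_le_sq' k5 (by linarith)).2
  have k7 : 0 ≤ (A1 - 2 / 25 * B1) * (A2 + B2) := mul_nonneg (by linarith) (by linarith)
  have k8 : 0 ≤ B1 * (4 / 9 * B2 - A2) := mul_nonneg hB1.le (by linarith)
  have k9 : 0 < B1 * B2 := mul_pos hB1 hB2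
  rw [hd] at k6
  nlinarith

/-- the rays of a real apex -/
structure Rays (w1 w2 w3 : ℂ) : Prop where
  up1 : 0 < w1.im
  up3 : 0 < w3.im
  s1 : 0 < dt w1 d1
  s3 : 0 < dt w3 d3
  c12 : 0 < cr w1 w2
  c23 : 0 < cr w2 w3
  c13 : 0 < cr w1 w3
  l2 : ‖w2‖ ^ 2 ≤ 3

theorem Co.rays (c : Co u v1 v2 v3 a b X1 Y1 X2 Y2 X3 Y3 V1 V2 V3 p q r s h k) (l1 : ‖d1 + v1 - u‖ ^ 2 ≤ 3)
    (l3 : ‖d3 + v3 - u‖ ^ 2 ≤ 3) : Rays (d1 + v1 - u) (d2 + v2 - u) (d3 + v3 - u) := by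
  have D := c.dr l1 l3
  have D' := D.mirror
  have hs := Pool.Agent.H30.P6.s3
  have hp := s3p
  have a1 := D.up1
  have a2 := D.ray1
  have a3 := D.ray2
  have a4 := D.l2
  have b1 := D'.up1
  have b2 := D'.ray1
  have b3 := D'.ray2
  have R1 := re_of c.r1
  have R2 := re_of c.r2
  have R3 := re_of c.r3
  have I1 : (d1 + v1 - u).im = (1 + Y1) / 2 := by linarith [c.i1]
  have I2 : (d2 + v2 - u).im = (2 + Y2) / 2 := by linarith [c.i2]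
  have I3 : (d3 + v3 - u).im = (1 + Y3) / 2 := by linarith [c.i3]
  have hY2 : 0 < 2 + Y2 := by linarith
  have g1 := c.d.g1
  have g2 := c.d.g2
  have g3 := c.d.g3
  have g12 := c.d.g12
  have g23 := c.d.g23
  have k1 := order12 a1 a2 hY2 a3 D.l1 a4.le g1 g2 (by nlinarith)
  have k2 := order12 (A1 := 1 - X3) (B1 := 1 + Y3) (A2 := -X2) (B2 := 2 + Y2) b1 (by linarith) hY2 b3
    (by have := D.l3; nlinarith) (by linarith [neg_sq X2]) (by nlinarith) (by linarith [neg_sq X2]) (by nlinarith)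
  refine ⟨by rw [I1]; linarith, by rw [I3]; linarith, ?_, ?_, ?_, ?_, ?_, ?_⟩
  · have : dt (d1 + v1 - u) d1 = (3 * (1 + X1) + (1 + Y1)) / 4 := by
      simp only [dt]; rw [R1, I1]; simp only [d1]; linear_combination (1 + X1) / 4 * hs
    rw [this]; linarith
  · have : dt (d3 + v3 - u) d3 = (3 * (1 - X3) + (1 + Y3)) / 4 := by
      simp only [dt]; rw [R3, I3]; simp only [d3]; linear_combination (1 - X3) / 4 * hs
    rw [this]; linarith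
  · have : cr (d1 + v1 - u) (d2 + v2 - u) = √3 / 4 * ((1 + X1) * (2 + Y2) - X2 * (1 + Y1)) := by
      simp only [cr]; rw [R1, R2, I1, I2]; ring
    rw [this]; positivity
  · have : cr (d2 + v2 - u) (d3 + v3 - u) = √3 / 4 * ((1 - X3) * (2 + Y2) - -X2 * (1 + Y3)) := by
      simp only [cr]; rw [R2, R3, I2, I3]; ring
    rw [this]; positivity
  · have : cr (d1 + v1 - u) (d3 + v3 - u) = √3 / 4 * ((1 + X1) * (1 + Y3) + (1 - X3) * (1 + Y1)) := by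
      simp only [cr]; rw [R1, R3, I1, I3]; ring
    rw [this]
    have h1 : 0 < 1 + X1 := by linarith
    have h2 : 0 < 1 - X3 := by linarith
    positivity
  · rw [c.n2]; linarith

/-- not both legs are long -/
theorem Co.one (c : Co u v1 v2 v3 a b X1 Y1 X2 Y2 X3 Y3 V1 V2 V3 p q r s h k) (l1 : ‖d1 + v1 - u‖ ^ 2 ≤ 3)
    (l3 : ‖d3 + v3 - u‖ ^ 2 ≤ 3) : ‖d1 + v1 - u‖ ^ 2 ≤ 8 / 3 ∨ ‖d3 + v3 - u‖ ^ 2 ≤ 8 / 3 := by
  by_contra hcon
  push Not at hcon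
  have D := c.dr l1 l3
  have := c.n1
  have := c.n3
  exact D.pair (by linarith [hcon.1]) (by linarith [hcon.2])

/-- energy of a fan with a long leg -/
theorem Co.long (c : Co u v1 v2 v3 a b X1 Y1 X2 Y2 X3 Y3 V1 V2 V3 p q r s h k) (l1 : ‖d1 + v1 - u‖ ^ 2 ≤ 3)
    (l3 : ‖d3 + v3 - u‖ ^ 2 ≤ 3) (hl : 8 / 3 < ‖d1 + v1 - u‖ ^ 2 ∨ 8 / 3 < ‖d3 + v3 - u‖ ^ 2) :
    386 / 1000 ≤ fanw (d1 + v1 - u) (d2 + v2 - u) (d3 + v3 - u) + Phi V30 (4 / 25) v1 v2 v3 := by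
  have D := c.dr l1 l3
  have e1 := c.n1
  have e3 := c.n3
  have o1 := c.o1
  have o2 := c.o2
  have o3 := c.o3
  have hf := c.fan
  rcases hl with hl | hl
  · have := D.R6 (E := fanw (d1 + v1 - u) (d2 + v2 - u) (d3 + v3 - u) + Phi V30 (4 / 25) v1 v2 v3)
      (by linarith) (by linarith) (by linarith) (by linarith)
    linarith
  · have hf' : Pool.Agent.H30.P6.fan (-X3) Y3 (-X2) Y2 (-X1) Y1 = Pool.Agent.H30.P6.fan X1 Y1 X2 Y2 X3 Y3 := by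
      unfold Pool.Agent.H30.P6.fan; ring
    have := D.mirror.R6 (E := fanw (d1 + v1 - u) (d2 + v2 - u) (d3 + v3 - u) + Phi V30 (4 / 25) v1 v2 v3)
      (by linarith) (by linarith) (by linarith) (by nlinarith)
    linarith

/-- no segment of length `≤ √3` meets both legs: the first leg is the longer one -/
theorem half (D : DR a b X1 Y1 X2 Y2 X3 Y3 V1 V2 V3 p q r s h k) {y g g' z w : ℂ} (hc : Crs y g g' z w)
    (hL : ‖w - z‖ ^ 2 ≤ 3) (hA : ‖g - y‖ ^ 2 = (3 * (1 + X1) ^ 2 + (1 + Y1) ^ 2) / 4)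
    (hC : ‖g' - y‖ ^ 2 = (3 * (-1 + X3) ^ 2 + (1 + Y3) ^ 2) / 4) (hG : ‖g - g'‖ ^ 2 = G13 X1 Y1 X3 Y3 / 4)
    (hA0 : 1 ≤ ‖g - y‖) (hC0 : 1 ≤ ‖g' - y‖) (hAC : ‖g' - y‖ ^ 2 ≤ ‖g - y‖ ^ 2) : False := by
  have l1 := D.l1
  have c1 := D.c1
  rcases le_total (‖g - y‖ ^ 2) (22 / 10) with q1 | q1
  · exact cross_cell hc hL (A1 := 22 / 10) (B1 := 22 / 10) (x0 := 6708 / 10000) (z0 := 6708 / 10000) (y1 := 3905 / 10000)
      (a1 := 14833 / 10000) (b1 := 14833 / 10000) (G := 1352 / 1000) q1 (by linarith) hA0 hC0 (by linarith)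
      (by norm_num) (by norm_num) (by norm_num) (by norm_num) (by norm_num) (by norm_num) (by norm_num) (by norm_num)
      (by norm_num) (by norm_num) (by norm_num) (by norm_num) (by norm_num)
  rcases le_total (‖g - y‖ ^ 2) (26 / 10) with q2 | q2
  · rcases le_total (‖g' - y‖ ^ 2) (1625 / 1000) with q3 | q3
    · exact cross_cell hc hL (A1 := 26 / 10) (B1 := 1625 / 1000) (x0 := 5916 / 10000) (z0 := 7705 / 10000)
        (y1 := 3700 / 10000) (a1 := 16125 / 10000) (b1 := 12748 / 10000) (G := 1352 / 1000) q2 q3 hA0 hC0 (by linarith)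
        (by norm_num) (by norm_num) (by norm_num) (by norm_num) (by norm_num) (by norm_num) (by norm_num) (by norm_num)
        (by norm_num) (by norm_num) (by norm_num) (by norm_num) (by norm_num)
    rcases le_total (‖g' - y‖ ^ 2) (225 / 100) with q4 | q4
    · have c4 := D.c4 (by linarith) (by linarith)
      exact cross_cell hc hL (A1 := 26 / 10) (B1 := 225 / 100) (x0 := 5916 / 10000) (z0 := 6614 / 10000)
        (y1 := 4791 / 10000) (a1 := 16125 / 10000) (b1 := 15 / 10) (G := 2243 / 1000) q2 q4 hA0 hC0 (by linarith)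
        (by norm_num) (by norm_num) (by norm_num) (by norm_num) (by norm_num) (by norm_num) (by norm_num) (by norm_num)
        (by norm_num) (by norm_num) (by norm_num) (by norm_num) (by norm_num)
    · have c7 := D.c7 (by linarith) (by linarith)
      exact cross_cell hc hL (A1 := 26 / 10) (B1 := 26 / 10) (x0 := 5916 / 10000) (z0 := 5916 / 10000)
        (y1 := 5489 / 10000) (a1 := 16125 / 10000) (b1 := 16125 / 10000) (G := 3143 / 1000) q2 (by linarith) hA0 hC0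
        (by linarith) (by norm_num) (by norm_num) (by norm_num) (by norm_num) (by norm_num) (by norm_num) (by norm_num)
        (by norm_num) (by norm_num) (by norm_num) (by norm_num) (by norm_num) (by norm_num)
  · rcases le_total (‖g' - y‖ ^ 2) (1625 / 1000) with q3 | q3
    · have c3 := D.c3 (by linarith)
      exact cross_cell hc hL (A1 := 3) (B1 := 1625 / 1000) (x0 := 5 / 10) (z0 := 7705 / 10000)
        (y1 := 4616 / 10000) (a1 := 17321 / 10000) (b1 := 12748 / 10000) (G := 2101 / 1000) (by linarith) q3 hA0 hC0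
        (by linarith) (by norm_num) (by norm_num) (by norm_num) (by norm_num) (by norm_num) (by norm_num) (by norm_num)
        (by norm_num) (by norm_num) (by norm_num) (by norm_num) (by norm_num) (by norm_num)
    rcases le_total (‖g' - y‖ ^ 2) (19375 / 10000) with q4 | q4
    · have c5 := D.c5 (by linarith) (by linarith)
      exact cross_cell hc hL (A1 := 3) (B1 := 19375 / 10000) (x0 := 5 / 10) (z0 := 7180 / 10000)
        (y1 := 5141 / 10000) (a1 := 17321 / 10000) (b1 := 1392 / 1000) (G := 2674 / 1000) (by linarith) q4 hA0 hC0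
        (by linarith) (by norm_num) (by norm_num) (by norm_num) (by norm_num) (by norm_num) (by norm_num) (by norm_num)
        (by norm_num) (by norm_num) (by norm_num) (by norm_num) (by norm_num) (by norm_num)
    rcases le_total (‖g' - y‖ ^ 2) (225 / 100) with q5 | q5
    · have c6 := D.c6 (by linarith) (by linarith)
      exact cross_cell hc hL (A1 := 3) (B1 := 225 / 100) (x0 := 5 / 10) (z0 := 6614 / 10000)
        (y1 := 5707 / 10000) (a1 := 17321 / 10000) (b1 := 15 / 10) (G := 3448 / 1000) (by linarith) q5 hA0 hC0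
        (by linarith) (by norm_num) (by norm_num) (by norm_num) (by norm_num) (by norm_num) (by norm_num) (by norm_num)
        (by norm_num) (by norm_num) (by norm_num) (by norm_num) (by norm_num) (by norm_num)
    · exact D.pair (by linarith) (by linarith)

theorem Crs_symm {y g g' z w : ℂ} (hc : Crs y g g' z w) : Crs y g' g z w := by
  obtain ⟨s, σ, t, ρ, s0, s1, σ0, σ1, t0, t1, ρ0, ρ1, h1, h2⟩ := hc.ex
  exact ⟨⟨t, ρ, s, σ, t0, t1, ρ0, ρ1, s0, s1, σ0, σ1, h2, h1⟩, hc.zp, hc.zc, hc.za, hc.wp, hc.wc, hc.wa⟩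

/-- no segment of length `≤ √3` meets both legs -/
theorem Co.cross (c : Co u v1 v2 v3 a b X1 Y1 X2 Y2 X3 Y3 V1 V2 V3 p q r s h k) (l1 : ‖d1 + v1 - u‖ ^ 2 ≤ 3)
    (l3 : ‖d3 + v3 - u‖ ^ 2 ≤ 3) {y g g' z w : ℂ} (hc : Crs y g g' z w) (hL : ‖w - z‖ ^ 2 ≤ 3)
    (hA : ‖g - y‖ = ‖d1 + v1 - u‖) (hC : ‖g' - y‖ = ‖d3 + v3 - u‖)
    (hG : ‖g - g'‖ = ‖(d1 + v1 - u) - (d3 + v3 - u)‖) (hA0 : 1 ≤ ‖g - y‖) (hC0 : 1 ≤ ‖g' - y‖) : False := by
  have D := c.dr l1 l3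
  have eA : ‖g - y‖ ^ 2 = (3 * (1 + X1) ^ 2 + (1 + Y1) ^ 2) / 4 := by rw [hA]; exact c.n1
  have eC : ‖g' - y‖ ^ 2 = (3 * (-1 + X3) ^ 2 + (1 + Y3) ^ 2) / 4 := by rw [hC]; exact c.n3
  have eG : ‖g - g'‖ ^ 2 = G13 X1 Y1 X3 Y3 / 4 := by rw [hG]; exact c.n13
  rcases le_total (‖g' - y‖ ^ 2) (‖g - y‖ ^ 2) with hh | hh
  · exact half D hc hL eA eC eG hA0 hC0 hh
  · refine half D.mirror (Crs_symm hc) hL (by rw [eC]; ring) (by rw [eA]; ring) ?_ hC0 hA0 hh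
    rw [norm_sub_rev, eG, G13, G13]; ring

end Pool.Agent.H84.P6
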