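import Pool.Agent.H84.P6.VOID
import Pool.Agent.H63.P6.Defs

/-!
# VOIDC: the void inequality in complex coordinates (notation of `H63.P6.Defs`)
-/

set_option autoImplicit false

open Real Pool.Agent.H20.AL Pool.Agent.H63.P6

noncomputable section

namespace Pool.Agent.H84.P6

theorem cnorm (a b : ℝ) (w : ℂ) (ha : w.re = a) (hb : w.im = b) : √(a ^ 2 + b ^ 2) = ‖w‖ := by
  rw [← ha, ← hb, ← nsq, Real.sqrt_sq (norm_nonneg _)]

/-- **The void inequality.**  `V` is any potential `≥ Vh`, `κ ≥ 31/200`. -/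
theorem VOIDC {V : ℂ → ℝ} {κ : ℝ} (hV : ∀ u : ℂ, Vh u.re u.im ≤ V u) (hκ : 31 / 200 ≤ κ)
    {v1 v2 v3 : ℂ} (h1 : V v1 ≤ 1 / 3) (h2 : V v2 ≤ 1 / 3) (h3 : V v3 ≤ 1 / 3)
    (h12 : 1 ≤ ‖(d2 + v2) - (d1 + v1)‖) (h23 : 1 ≤ ‖(d3 + v3) - (d2 + v2)‖) :
    1 / 3 ≤ fanw (d1 + v1) (d2 + v2) (d3 + v3)
        + (Real.arccos (dt (d1 + v1) (d2 + v2) / (‖d1 + v1‖ * ‖d2 + v2‖))
          + Real.arccos (dt (d2 + v2) (d3 + v3) / (‖d2 + v2‖ * ‖d3 + v3‖))) / (2 * π)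
        + Phi V κ v1 v2 v3 ∧
    (fanw (d1 + v1) (d2 + v2) (d3 + v3)
        + (Real.arccos (dt (d1 + v1) (d2 + v2) / (‖d1 + v1‖ * ‖d2 + v2‖))
          + Real.arccos (dt (d2 + v2) (d3 + v3) / (‖d2 + v2‖ * ‖d3 + v3‖))) / (2 * π)
        + Phi V κ v1 v2 v3 = 1 / 3 → v1 = 0 ∧ v2 = 0 ∧ v3 = 0) := by
  set σ1 := sig κ d1 v1 v2 ‖(d2 + v2) - (d1 + v1)‖ with hσ1
  set σ3 := sig κ d3 v3 v2 ‖(d3 + v3) - (d2 + v2)‖ with hσ3
  set Φ := Phi V κ v1 v2 v3 with hΦ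
  have hsig : ∀ (d a b : ℂ) (l : ℝ), 1 ≤ l →
      31 / 200 * (max (-(dt a d)) 0 + max (-(dt b d)) 0) ≤ sig κ d a b l := by
    intro d a b l hl
    unfold sig
    have n1 := le_max_right (-(dt a d)) 0
    have n2 := le_max_right (-(dt b d)) 0
    have hκ0 : 0 ≤ κ := by linarith
    calc 31 / 200 * (max (-(dt a d)) 0 + max (-(dt b d)) 0)
        ≤ κ * (max (-(dt a d)) 0 + max (-(dt b d)) 0) := by
          apply mul_le_mul_of_nonneg_right hκ; linarith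
      _ ≤ _ := by
          apply mul_le_mul_of_nonneg_left _ hκ0; linarith
  have e1r : (d1 + v1).re = √3 / 2 + v1.re := by simp [d1]
  have e1i : (d1 + v1).im = 1 / 2 + v1.im := by simp [d1]
  have e2r : (d2 + v2).re = v2.re := by simp [d2]
  have e2i : (d2 + v2).im = 1 + v2.im := by simp [d2]
  have e3r : (d3 + v3).re = -(√3 / 2) + v3.re := by simp [d3]
  have e3i : (d3 + v3).im = 1 / 2 + v3.im := by simp [d3]
  have hsq : ∀ z : ℂ, 1 ≤ ‖z‖ → 1 ≤ z.re ^ 2 + z.im ^ 2 := by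
    intro z hz
    rw [← nsq]; nlinarith
  have t1 := hsig d1 v1 v2 _ h12
  have t3 := hsig d3 v3 v2 _ h23
  have Φ1 : V v1 + σ3 ≤ Φ := le_max_left _ _
  have Φ3 : V v3 + σ1 ≤ Φ := (le_max_left _ _).trans (le_max_right _ _)
  have Φ2 : V v2 + σ1 + σ3 ≤ Φ := (le_max_right _ _).trans (le_max_right _ _)
  have g1 := hV v1
  have g2 := hV v2
  have g3 := hV v3
  have k12 := hsq _ h12
  have k23 := hsq _ h23
  have key := VOID (u1 := v1.re) (w1 := v1.im) (u2 := v2.re) (w2 := v2.im) (u3 := v3.re) (w3 := v3.im)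
    (σ1 := σ1) (σ3 := σ3) (Φ := Φ) (g1.trans h1) (g2.trans h2) (g3.trans h3)
    (by
      refine k12.trans (le_of_eq ?_)
      rw [Complex.sub_re, Complex.sub_im, e1r, e1i, e2r, e2i])
    (by
      refine k23.trans (le_of_eq ?_)
      rw [Complex.sub_re, Complex.sub_im, e3r, e3i, e2r, e2i]; ring)
    (by
      refine le_trans (le_of_eq ?_) t1
      simp only [dt, d1]
      rw [show v1.re * (√3 / 2) + v1.im * (1 / 2) = √3 / 2 * v1.re + v1.im / 2 by ring,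
        show v2.re * (√3 / 2) + v2.im * (1 / 2) = √3 / 2 * v2.re + v2.im / 2 by ring])
    (by
      refine le_trans (le_of_eq ?_) t3
      simp only [dt, d3]
      rw [show v3.re * (-(√3 / 2)) + v3.im * (1 / 2) = -(√3 / 2) * v3.re + v3.im / 2 by ring,
        show v2.re * (-(√3 / 2)) + v2.im * (1 / 2) = -(√3 / 2) * v2.re + v2.im / 2 by ring])
    (by linarith) (by linarith) (by linarith)
  have a12 : angl (√3 / 2 + v1.re) (1 / 2 + v1.im) v2.re (1 + v2.im)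
      = Real.arccos (dt (d1 + v1) (d2 + v2) / (‖d1 + v1‖ * ‖d2 + v2‖)) := by
    unfold angl
    rw [cnorm _ _ _ e1r e1i, cnorm _ _ _ e2r e2i]
    unfold dt
    rw [e1r, e1i, e2r, e2i]
  have a23 : angl v2.re (1 + v2.im) (-(√3 / 2) + v3.re) (1 / 2 + v3.im)
      = Real.arccos (dt (d2 + v2) (d3 + v3) / (‖d2 + v2‖ * ‖d3 + v3‖)) := by
    unfold angl
    rw [cnorm _ _ _ e2r e2i, cnorm _ _ _ e3r e3i]
    unfold dt
    rw [e2r, e2i, e3r, e3i]
  have hf : fanw (d1 + v1) (d2 + v2) (d3 + v3)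
      = (((√3 / 2 + v1.re) * (1 + v2.im) - (1 / 2 + v1.im) * v2.re)
          + (v2.re * (1 / 2 + v3.im) - (1 + v2.im) * (-(√3 / 2) + v3.re))) / √3 - 1 := by
    unfold fanw cr
    rw [e1r, e1i, e2r, e2i, e3r, e3i]
  rw [a12, a23, ← hf] at key
  refine ⟨key.1, fun h => ?_⟩
  obtain ⟨⟨p1, q1⟩, ⟨p2, q2⟩, ⟨p3, q3⟩⟩ := key.2 h
  exact ⟨Complex.ext p1 q1, Complex.ext p2 q2, Complex.ext p3 q3⟩

/-- for the accounting lemma: the two crosses are positive -/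
theorem VOIDC_pos {V : ℂ → ℝ} (hV : ∀ u : ℂ, Vh u.re u.im ≤ V u)
    {v1 v2 v3 : ℂ} (h1 : V v1 ≤ 1 / 3) (h2 : V v2 ≤ 1 / 3) (h3 : V v3 ≤ 1 / 3) :
    0 < cr (d1 + v1) (d2 + v2) ∧ 0 < cr (d2 + v2) (d3 + v3) := by
  have a := ANG ((hV v1).trans h1) ((hV v2).trans h2)
  have h3' : Vh (-v3.re) v3.im ≤ 1 / 3 := by rw [Vh_neg]; exact (hV v3).trans h3
  have h2' : Vh (-v2.re) v2.im ≤ 1 / 3 := by rw [Vh_neg]; exact (hV v2).trans h2
  have b := ANG h3' h2'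
  constructor
  · have := a.1
    simp only [cr, d1, d2, Complex.add_re, Complex.add_im]
    linarith
  · have := b.1
    simp only [cr, d3, d2, Complex.add_re, Complex.add_im]
    linarith

end Pool.Agent.H84.P6
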