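import Pool.Agent.H84.P6.Defs

/-!
# AB: half angle form of `S0`
`A² + B² = 4 r s`, `A² - B² = 2(r²+s²-1)`, so `cos (2 arctan (B/A)) = (A²-B²)/(A²+B²) = (r²+s²-1)/(2rs)` and
`0 ≤ 2 arctan (B/A) < π`, hence `arccos (..) = 2 arctan (B/A)`; `√((..)(..)) = A B` (`Real.sqrt_mul`).
(`Real.cos_two_mul`, `Real.cos_sq_arctan` or `Real.cos_arctan`, `Real.arccos_cos`.)
-/

set_option autoImplicit false

open Real

noncomputable section

namespace Pool.Agent.H84.P6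

theorem AB {r s : ℝ} (hr : 0 < r) (hs : 0 < s) (h1 : 1 < r + s) (h2 : (r - s) ^ 2 ≤ 1) :
    S0 r s = √((r + s) ^ 2 - 1) * √(1 - (r - s) ^ 2) / (2 * √3)
      + Real.arctan (√(1 - (r - s) ^ 2) / √((r + s) ^ 2 - 1)) / π - 2 / 3 := by
  have hA0 : 0 < (r + s) ^ 2 - 1 := by nlinarith
  have hB0 : 0 ≤ 1 - (r - s) ^ 2 := by linarith
  set A : ℝ := √((r + s) ^ 2 - 1) with hA
  set B : ℝ := √(1 - (r - s) ^ 2) with hB
  have hApos : 0 < A := Real.sqrt_pos.2 hA0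
  have hBnn : 0 ≤ B := Real.sqrt_nonneg _
  have hA2 : A ^ 2 = (r + s) ^ 2 - 1 := Real.sq_sqrt hA0.le
  have hB2 : B ^ 2 = 1 - (r - s) ^ 2 := Real.sq_sqrt hB0
  have hrs : 0 < r * s := mul_pos hr hs
  have h3 : (r ^ 2 + s ^ 2 - 1) / (2 * r * s) = Real.cos (2 * Real.arctan (B / A)) := by
    rw [Real.cos_two_mul, Real.cos_sq_arctan]
    have h4 : 1 + (B / A) ^ 2 = 4 * (r * s) / A ^ 2 := by
      rw [div_pow]
      have : A ^ 2 ≠ 0 := by positivity
      field_simp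
      rw [hA2, hB2]
      ring
    rw [h4]
    have hA2' : A ^ 2 ≠ 0 := by positivity
    field_simp
    rw [hA2]
    ring
  have h5 : 0 ≤ Real.arctan (B / A) := Real.arctan_nonneg.2 (by positivity)
  have h6 : Real.arctan (B / A) < π / 2 := Real.arctan_lt_pi_div_two _
  have h7 : Real.arccos ((r ^ 2 + s ^ 2 - 1) / (2 * r * s)) = 2 * Real.arctan (B / A) := by
    rw [h3, Real.arccos_cos (by linarith) (by linarith)]
  have h8 : √(((r + s) ^ 2 - 1) * (1 - (r - s) ^ 2)) = A * B := Real.sqrt_mul hA0.le _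
  unfold S0
  rw [h7, h8, mul_div_mul_left _ _ (two_ne_zero)]

end Pool.Agent.H84.P6
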