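import Pool.Agent.H84.P6.Defs

/-!
# ANG: the angle between two neighbouring frames is in `(0, 120°]`
-/

set_option autoImplicit false

open Real

noncomputable section

namespace Pool.Agent.H84.P6

/-- the seven faces of the potential -/
theorem Vh_faces (x y : ℝ) :
    0 ≤ Vh x y ∧ -(19 / 20) * y ≤ Vh x y ∧ x / √3 - 2 / 5 * y ≤ Vh x y ∧ -x / √3 - 2 / 5 * y ≤ Vh x y ∧
    8 / 5 * (√3 / 2 * x + y / 2) ≤ Vh x y ∧ 8 / 5 * (-(√3 / 2) * x + y / 2) ≤ Vh x y ∧
    17 / 5 * y ≤ Vh x y := by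
  unfold Vh
  refine ⟨le_max_left _ _, ?_, ?_, ?_, ?_, ?_, ?_⟩
  · exact (le_max_left _ _).trans (le_max_right _ _)
  · exact (le_max_left _ _).trans ((le_max_right _ _).trans (le_max_right _ _))
  · exact (le_max_left _ _).trans ((le_max_right _ _).trans ((le_max_right _ _).trans (le_max_right _ _)))
  · exact (le_max_left _ _).trans ((le_max_right _ _).trans ((le_max_right _ _).trans
      ((le_max_right _ _).trans (le_max_right _ _))))
  · exact (le_max_left _ _).trans ((le_max_right _ _).trans ((le_max_right _ _).trans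
      ((le_max_right _ _).trans ((le_max_right _ _).trans (le_max_right _ _)))))
  · exact (le_max_right _ _).trans ((le_max_right _ _).trans ((le_max_right _ _).trans
      ((le_max_right _ _).trans ((le_max_right _ _).trans (le_max_right _ _)))))

theorem div_sq3 (x : ℝ) : x / √3 = x * √3 / 3 := by
  have h3 := sq3
  have hp : (0 : ℝ) < √3 := by linarith [sq3_lo]
  rw [div_eq_div_iff hp.ne' (by norm_num)]
  linear_combination (-x) * h3

/-- the coordinate ranges on `{Vh ≤ 1/3}` -/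
theorem Vh_box {x y : ℝ} (h : Vh x y ≤ 1 / 3) :
    |x| ≤ 0.3938 ∧ -0.3509 ≤ y ∧ y ≤ 0.0981 := by
  obtain ⟨-, h1, h2, h3, h4, h5, h6⟩ := Vh_faces x y
  rw [div_sq3] at h2 h3
  have a1 := sq3_lo
  have a2 := sq3_hi
  refine ⟨?_, by linarith, by linarith⟩
  rw [abs_le]
  constructor
  · by_contra hc
    push Not at hc
    nlinarith
  · by_contra hc
    push Not at hc
    nlinarith

theorem Vh_le {x y c : ℝ} (h0 : 0 ≤ c) (h1 : -(19 / 20) * y ≤ c) (h2 : x / √3 - 2 / 5 * y ≤ c)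
    (h3 : -x / √3 - 2 / 5 * y ≤ c) (h4 : 8 / 5 * (√3 / 2 * x + y / 2) ≤ c)
    (h5 : 8 / 5 * (-(√3 / 2) * x + y / 2) ≤ c) (h6 : 17 / 5 * y ≤ c) : Vh x y ≤ c :=
  max_le h0 (max_le h1 (max_le h2 (max_le h3 (max_le h4 (max_le h5 h6)))))

theorem Vh_neg (x y : ℝ) : Vh (-x) y = Vh x y := by
  have key : ∀ x y : ℝ, Vh (-x) y ≤ Vh x y := by
    intro x y
    obtain ⟨h0, h1, h2, h3, h4, h5, h6⟩ := Vh_faces x y
    apply Vh_le h0 h1 h3 _ _ _ h6
    · rw [neg_neg]; exact h2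
    · calc 8 / 5 * (√3 / 2 * -x + y / 2) = 8 / 5 * (-(√3 / 2) * x + y / 2) := by ring
        _ ≤ _ := h5
    · calc 8 / 5 * (-(√3 / 2) * -x + y / 2) = 8 / 5 * (√3 / 2 * x + y / 2) := by ring
        _ ≤ _ := h4
  apply le_antisymm (key x y)
  have := key (-x) y
  rwa [neg_neg] at this

theorem Vh_eq_zero {x y : ℝ} (h : Vh x y ≤ 0) : x = 0 ∧ y = 0 := by
  obtain ⟨-, h1, h2, h3, h4, h5, h6⟩ := Vh_faces x y
  have hy : y = 0 := by linarith
  subst hy
  have hp : (0 : ℝ) < √3 := by linarith [sq3_lo]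
  refine ⟨?_, rfl⟩
  nlinarith

/-- cross product positive, angle at most 120 degrees -/
theorem ANG {u1 w1 u2 w2 : ℝ} (h1 : Vh u1 w1 ≤ 1 / 3) (h2 : Vh u2 w2 ≤ 1 / 3) :
    0 < (√3 / 2 + u1) * (1 + w2) - (1 / 2 + w1) * u2 ∧
    0 ≤ (√3 / 2 + u1) * u2 + (1 / 2 + w1) * (1 + w2) + 1 / 2 * ((√3 / 2 + u1) * (1 + w2)) := by
  obtain ⟨b1, b2, b3⟩ := Vh_box h1
  obtain ⟨c1, c2, c3⟩ := Vh_box h2
  rw [abs_le] at b1 c1
  have a1 := sq3_lo
  have a2 := sq3_hi
  obtain ⟨-, g1, g2, g3, g4, g5, g6⟩ := Vh_faces u2 w2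
  rw [div_sq3] at g2 g3
  have e : -(3 / 100) ≤ u2 + 1 / 2 * (1 + w2) := by
    by_contra hc
    push Not at hc
    nlinarith
  have ea : 0.47 ≤ √3 / 2 + u1 := by linarith
  have ea' : √3 / 2 + u1 ≤ 1.27 := by linarith
  have eb : 0.149 ≤ 1 / 2 + w1 := by linarith
  have eb' : 1 / 2 + w1 ≤ 0.5982 := by linarith
  have ed : 0.649 ≤ 1 + w2 := by linarith
  constructor
  · have k1 : 0.47 * 0.649 ≤ (√3 / 2 + u1) * (1 + w2) := by
      apply mul_le_mul ea ed (by norm_num) (by linarith)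
    have k2 : (1 / 2 + w1) * u2 ≤ 0.5982 * 0.3938 := by
      rcases le_total 0 u2 with hu | hu
      · exact mul_le_mul eb' (by linarith) hu (by norm_num)
      · have : (1 / 2 + w1) * u2 ≤ 0 := mul_nonpos_of_nonneg_of_nonpos (by linarith) hu
        linarith
    norm_num at k1 k2 ⊢
    linarith
  · have k1 : 0.149 * 0.649 ≤ (1 / 2 + w1) * (1 + w2) := by
      apply mul_le_mul eb ed (by norm_num) (by linarith)
    have k2 : -(1.27 * (3 / 100)) ≤ (√3 / 2 + u1) * (u2 + 1 / 2 * (1 + w2)) := by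
      rcases le_total 0 (u2 + 1 / 2 * (1 + w2)) with hu | hu
      · have : 0 ≤ (√3 / 2 + u1) * (u2 + 1 / 2 * (1 + w2)) := mul_nonneg (by linarith) hu
        norm_num at this ⊢
        linarith
      · have := mul_le_mul ea' (by linarith : -(u2 + 1 / 2 * (1 + w2)) ≤ 3 / 100) (by linarith) (by norm_num)
        linarith
    norm_num at k1 k2
    linarith

end Pool.Agent.H84.P6
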