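import Pool.Agent.H84.P6.Defs

/-!
# CB: concavity in `B`
`B ↦ A B/(2√3) + arctan(B/A)/π + (1-B²)/4` is concave on `[0,∞)` (arctan is concave on `[0,∞)`: derivative `1/(1+x²)` antitone,
`AntitoneOn.concaveOn_of_deriv`), hence `≥ min` of the values at the ends of an interval (`ConcaveOn.min_le_of_mem_Icc`).
-/

set_option autoImplicit false

open Real

noncomputable section

namespace Pool.Agent.H84.P6

/-- the function of `CB` -/
def hAB (A B : ℝ) : ℝ := A * B / (2 * √3) + Real.arctan (B / A) / π + (1 - B ^ 2) / 4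

theorem CB_deriv {A : ℝ} (B : ℝ) :
    HasDerivAt (hAB A) (A / (2 * √3) + (1 / (1 + (B / A) ^ 2) * (1 / A)) / π - B / 2) B := by
  have h1 : HasDerivAt (fun B : ℝ => A * B / (2 * √3)) (A / (2 * √3)) B := by
    have := ((hasDerivAt_id B).const_mul A).div_const (2 * √3)
    simpa using this
  have h2 : HasDerivAt (fun B : ℝ => Real.arctan (B / A) / π)
      ((1 / (1 + (B / A) ^ 2) * (1 / A)) / π) B :=
    (((hasDerivAt_id B).div_const A).arctan).div_const π
  have h3 : HasDerivAt (fun B : ℝ => (1 - B ^ 2) / 4) (-(B / 2)) B := by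
    have h := (((hasDerivAt_id' B).mul (hasDerivAt_id' B)).const_sub 1).div_const 4
    have e : (fun B : ℝ => (1 - B ^ 2) / 4) = fun B : ℝ => (1 - B * B) / 4 := by
      funext B
      ring
    rw [e]
    refine h.congr_deriv ?_
    ring
  have := (h1.add h2).add h3
  exact this

theorem CB_concave {A : ℝ} (hA : 0 < A) : ConcaveOn ℝ (Set.Ici 0) (hAB A) := by
  have hdiff : Differentiable ℝ (hAB A) := fun B => (CB_deriv B).differentiableAt
  refine AntitoneOn.concaveOn_of_deriv (convex_Ici 0) hdiff.continuous.continuousOn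
    hdiff.differentiableOn ?_
  intro x hx y hy hxy
  rw [interior_Ici] at hx hy
  have hx0 : 0 < x := hx
  rw [(CB_deriv x).deriv, (CB_deriv y).deriv]
  have h1 : 1 / (1 + (y / A) ^ 2) ≤ 1 / (1 + (x / A) ^ 2) := by
    apply one_div_le_one_div_of_le (by positivity)
    have : x / A ≤ y / A := div_le_div_of_nonneg_right hxy hA.le
    have h0 : 0 ≤ x / A := by positivity
    nlinarith
  have h2 : 1 / (1 + (y / A) ^ 2) * (1 / A) / π ≤ 1 / (1 + (x / A) ^ 2) * (1 / A) / π := by
    have : 0 ≤ 1 / A := by positivity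
    exact div_le_div_of_nonneg_right (mul_le_mul_of_nonneg_right h1 this) Real.pi_pos.le
  linarith

theorem CB {A B0 B : ℝ} (hA : 0 < A) (h0 : 0 ≤ B0) (h1 : B0 ≤ B) (h2 : B ≤ 1) :
    min (hAB A B0) (hAB A 1) ≤ hAB A B :=
  (CB_concave hA).min_le_of_mem_Icc (x := B0) (y := 1) h0 (by simp) ⟨h1, h2⟩

end Pool.Agent.H84.P6
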