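import Mathlib

/-!
# Terminal (void) inequality T2 of the three-wedge scheme for MP_591ade_co, p = 6

`/team-store/H84_p6_T2.md` is the paper proof, `/team-store/H78_p6.md` the scheme.

`S r s θ` is the waste of a triangle with virtual apex, sides `r`, `s` at the apex and angle `θ`;
`S0 r s` is its value when the third side is 1.
-/

set_option autoImplicit false

open Real

noncomputable section

namespace Pool.Agent.H84.P6

/-- waste of a triangle with virtual apex -/
def S (r s θ : ℝ) : ℝ := r * s * Real.sin θ / √3 + θ / (2 * π) - 2 / 3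

/-- waste of a triangle with virtual apex and opposite side 1 -/
def S0 (r s : ℝ) : ℝ :=
  √(((r + s) ^ 2 - 1) * (1 - (r - s) ^ 2)) / (2 * √3)
    + Real.arccos ((r ^ 2 + s ^ 2 - 1) / (2 * r * s)) / (2 * π) - 2 / 3

/-- the potential of the wedge with axis 90 degrees -/
def Vh (x y : ℝ) : ℝ :=
  max 0 (max (-(19 / 20) * y) (max (x / √3 - 2 / 5 * y) (max (-x / √3 - 2 / 5 * y)
    (max (8 / 5 * (√3 / 2 * x + y / 2)) (max (8 / 5 * (-(√3 / 2) * x + y / 2)) (17 / 5 * y))))))

/-- bound for the waste of one triangle in terms of `P = 1 - r`, `Q = 1 - s` -/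
def Bd (P Q : ℝ) : ℝ :=
  if 0 ≤ P then (if 0 ≤ Q then (P + Q) / 4 + (P - Q) ^ 2 / 4 else P / 4 + P ^ 2 / 4 + 1 / 4 * (-Q))
  else (if 0 ≤ Q then Q / 4 + Q ^ 2 / 4 + 11 / 50 * (-P) else 0)

theorem sq3 : (√3 : ℝ) ^ 2 = 3 := Real.sq_sqrt (by norm_num)
theorem sq3_lo : (1.73205 : ℝ) < √3 := Real.lt_sqrt_of_sq_lt (by norm_num)
theorem sq3_hi : √3 < (1.732051 : ℝ) := by
  rw [Real.sqrt_lt' (by norm_num)]; norm_num

theorem S0_comm (r s : ℝ) : S0 r s = S0 s r := by
  unfold S0
  rw [show (r + s) = s + r by ring, show (r - s) ^ 2 = (s - r) ^ 2 by ring,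
    show r ^ 2 + s ^ 2 - 1 = s ^ 2 + r ^ 2 - 1 by ring, show 2 * r * s = 2 * s * r by ring]

theorem S_comm (r s θ : ℝ) : S r s θ = S s r θ := by unfold S; ring

end Pool.Agent.H84.P6
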