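import Pool.Agent.H84.P6.Defs

/-!
# E1
`g(A) = A/(2√3) + arctan(1/A)/π - 2/3 + (2-√(1+A²))/4`, `g(√3) = 1/2 + 1/6 - 2/3 + 0 = 0`, and `g' ≤ 0` on `(0,√3]`, because
`(1+A²) g' = (1+A²)/(2√3) - 1/π - (A/4)√(1+A²)`.  With `z = A² ∈ [0,3]`: if the first two terms are `≤ 0` it is clear; otherwise square:
`z(1+z)/16 ≥ ((1+z)/(2√3) - 1/π)²` (the difference is concave in `z`: about `-.0208 z² + .0796 z - .00088`, positive for `z ∈ [.1,3]`).
(use `arctan (1/A) = π/2 - arctan A`, `Real.arctan_inv_of_pos`).  `.3183 < 1/π < .3184`.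
-/

set_option autoImplicit false

open Real

noncomputable section

namespace Pool.Agent.H84.P6

theorem E1_deriv {A : ℝ} (h0 : 0 < A) (h1 : A < √3) :
    1 / (2 * √3) - 1 / (π * (1 + A ^ 2)) - A / (4 * √(1 + A ^ 2)) ≤ 0 := by
  have hpi := Real.pi_pos
  have h3 : (0 : ℝ) < √3 := Real.sqrt_pos.mpr (by norm_num)
  have hz3 : A ^ 2 < 3 := by nlinarith [sq3]
  have hz0 : 0 < A ^ 2 := by positivity
  have hw0 : 0 < √(1 + A ^ 2) := Real.sqrt_pos.mpr (by positivity)
  have hw2 : √(1 + A ^ 2) ^ 2 = 1 + A ^ 2 := Real.sq_sqrt (by positivity)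
  set w : ℝ := √(1 + A ^ 2) with hw
  set a : ℝ := 1 / (2 * √3) with ha
  set b : ℝ := 1 / π with hb
  have ha2 : a ^ 2 = 1 / 12 := by
    rw [ha, div_pow, mul_pow, sq3]; norm_num
  have hapos : 0 < a := by rw [ha]; positivity
  have halo : (0.28867 : ℝ) < a := by nlinarith
  have hahi : a < (0.28868 : ℝ) := by nlinarith
  have hblo : (0.3183 : ℝ) < b := by
    rw [hb, lt_div_iff₀ hpi]
    nlinarith [Real.pi_lt_d4]
  have hbhi : b < (0.3184 : ℝ) := by
    rw [hb, div_lt_iff₀ hpi]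
    nlinarith [Real.pi_gt_d4]
  have key : a * (1 + A ^ 2) - b ≤ A * w / 4 := by
    rcases le_or_gt (a * (1 + A ^ 2) - b) 0 with hneg | hpos
    · have : 0 ≤ A * w / 4 := by positivity
      linarith
    · have hz1 : (0.1 : ℝ) < A ^ 2 := by nlinarith
      apply le_of_sq_le_sq _ (by positivity)
      have e : (A * w / 4) ^ 2 = A ^ 2 * (1 + A ^ 2) / 16 := by
        rw [div_pow, mul_pow, hw2]; ring
      rw [e]
      set z : ℝ := A ^ 2 with hz
      have e2 : (a * (1 + z) - b) ^ 2 = (1 + z) ^ 2 / 12 - 2 * (a * b) * (1 + z) + b ^ 2 := by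
        have : (a * (1 + z) - b) ^ 2 = a ^ 2 * (1 + z) ^ 2 - 2 * (a * b) * (1 + z) + b ^ 2 := by
          ring
        rw [this, ha2]; ring
      rw [e2]
      have hab : (0.28867 * 0.3183 : ℝ) ≤ a * b :=
        mul_le_mul halo.le hblo.le (by norm_num) hapos.le
      have hb2 : b ^ 2 ≤ 0.3184 ^ 2 := by nlinarith
      nlinarith
  have e1 : 1 / (π * (1 + A ^ 2)) = b / (1 + A ^ 2) := by
    rw [hb]; field_simp
  have e2 : A / (4 * w) = (A * w / 4) / (1 + A ^ 2) := by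
    rw [← hw2]; field_simp
  rw [e1, e2]
  have e3 : a - b / (1 + A ^ 2) - A * w / 4 / (1 + A ^ 2) =
      (a * (1 + A ^ 2) - b - A * w / 4) / (1 + A ^ 2) := by
    field_simp
  rw [e3]
  exact div_nonpos_of_nonpos_of_nonneg (by linarith) (by positivity)

theorem E1 {A : ℝ} (h0 : 0 < A) (h1 : A ≤ √3) :
    0 ≤ A / (2 * √3) + Real.arctan (1 / A) / π - 2 / 3 + (2 - √(1 + A ^ 2)) / 4 := by
  have hpi := Real.pi_pos
  have h3 : (0 : ℝ) < √3 := Real.sqrt_pos.mpr (by norm_num)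
  let g : ℝ → ℝ := fun t =>
    t / (2 * √3) + (π / 2 - Real.arctan t) / π - 2 / 3 + (2 - √(1 + t ^ 2)) / 4
  have hg : ∀ t, HasDerivAt g
      (1 / (2 * √3) - 1 / (π * (1 + t ^ 2)) - t / (4 * √(1 + t ^ 2))) t := by
    intro t
    have hp : (0 : ℝ) < 1 + t ^ 2 := by positivity
    have d1 : HasDerivAt (fun t : ℝ => t / (2 * √3)) (1 / (2 * √3)) t :=
      (hasDerivAt_id t).div_const _
    have d2 : HasDerivAt (fun t : ℝ => (π / 2 - Real.arctan t) / π) (-(1 / (1 + t ^ 2)) / π) t :=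
      ((Real.hasDerivAt_arctan t).const_sub (π / 2)).div_const _
    have d3 : HasDerivAt (fun t : ℝ => 1 + t ^ 2) (2 * t) t := by
      have := ((hasDerivAt_id t).pow 2).const_add 1
      simpa using this
    have d4 := d3.sqrt hp.ne'
    have d5 := ((d1.add d2).sub_const (2 / 3)).add ((d4.const_sub 2).div_const 4)
    refine HasDerivAt.congr_deriv d5 ?_
    have hsq : 0 < √(1 + t ^ 2) := Real.sqrt_pos.mpr hp
    field_simp
    ring
  have hanti : AntitoneOn g (Set.Ioc 0 √3) := by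
    apply antitoneOn_of_deriv_nonpos (convex_Ioc _ _)
    · exact fun t _ => (hg t).continuousAt.continuousWithinAt
    · exact fun t _ => (hg t).differentiableAt.differentiableWithinAt
    · intro t ht
      rw [interior_Ioc] at ht
      rw [(hg t).deriv]
      exact E1_deriv ht.1 ht.2
  have h := hanti ⟨h0, h1⟩ ⟨h3, le_refl _⟩ h1
  have hend : g √3 = 0 := by
    simp only [g]
    have ht : Real.arctan √3 = π / 3 := Real.arctan_sqrt_three
    rw [ht, sq3]
    have : √(1 + 3 : ℝ) = 2 := by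
      rw [show (1 + 3 : ℝ) = 2 ^ 2 by norm_num]
      exact Real.sqrt_sq (by norm_num)
    rw [this]
    field_simp
    norm_num
  rw [hend] at h
  have hA : g A = A / (2 * √3) + Real.arctan (1 / A) / π - 2 / 3 + (2 - √(1 + A ^ 2)) / 4 := by
    simp only [g]
    rw [one_div, Real.arctan_inv_of_pos h0]
  rw [← hA]
  exact h

end Pool.Agent.H84.P6
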