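import Pool.Agent.H84.P6.Defs

/-!
# E2
`G(α)` vanishes at `α = π/3` and `G' = (4u²-2)/√3 + 1/(2π) + sin α (3/2-2u) ≥ 0` on `[π/3, π/2]`, `u = cos α ∈ [0,1/2]`.
With `t = 1/2 - u ∈ [0,1/2]`: `sin α = √(1-u²) ≥ √3/2 + t/√3 - (4/5) t²` (square it), and
`G' ≥ .0148 - .2887 t + 3.064 t² - 1.6 t³ > 0`.  (`1/(2π) > .15915`.)
-/

set_option autoImplicit false

open Real

noncomputable section

namespace Pool.Agent.H84.P6

theorem E2_deriv {x : ℝ} (h0 : π / 3 ≤ x) (h1 : x ≤ π / 2) :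
    0 ≤ 2 * Real.cos (2 * x) / √3 + 1 / (2 * π) + Real.sin x / 2
      + (1 - 2 * Real.cos x) * Real.sin x := by
  have hpi := Real.pi_pos
  have h3 : (0 : ℝ) < √3 := Real.sqrt_pos.mpr (by norm_num)
  have hu0 : 0 ≤ Real.cos x := Real.cos_nonneg_of_mem_Icc ⟨by linarith, h1⟩
  have hu1 : Real.cos x ≤ 1 / 2 := by
    rw [← Real.cos_pi_div_three]
    exact Real.cos_le_cos_of_nonneg_of_le_pi (by positivity) (by linarith) h0
  have hs0 : 0 ≤ Real.sin x := Real.sin_nonneg_of_nonneg_of_le_pi (by linarith) (by linarith)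
  have hs2 : Real.sin x ^ 2 = 1 - Real.cos x ^ 2 := by
    linarith [Real.sin_sq_add_cos_sq x]
  set t : ℝ := 1 / 2 - Real.cos x with ht
  have hct : Real.cos x = 1 / 2 - t := by linarith
  have ht0 : 0 ≤ t := by linarith
  have ht1 : t ≤ 1 / 2 := by linarith
  set q : ℝ := 1 / √3 with hq
  have hq3 : √3 = 3 * q := by
    rw [hq]
    field_simp
    exact sq3
  have hq2 : q ^ 2 = 1 / 3 := by
    rw [hq, div_pow, sq3]; norm_num
  have hqpos : 0 < q := by rw [hq]; positivity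
  have hqlo : (0.57735 : ℝ) < q := by nlinarith
  have hqhi : q < (0.57736 : ℝ) := by nlinarith
  have hb : (0.15915 : ℝ) < 1 / (2 * π) := by
    rw [lt_div_iff₀ (by positivity)]
    nlinarith [Real.pi_lt_d4]
  have hsin : 3 / 2 * q + t * q - 4 / 5 * t ^ 2 ≤ Real.sin x := by
    apply le_of_sq_le_sq _ hs0
    rw [hs2, hct]
    have e : (3 / 2 * q + t * q - 4 / 5 * t ^ 2) ^ 2 =
        q ^ 2 * (3 / 2 + t) ^ 2 - 8 / 5 * q * t ^ 2 * (3 / 2 + t) + 16 / 25 * t ^ 4 := by ring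
    rw [e, hq2]
    have hX : 0 ≤ t ^ 2 * (3 / 2 + t) := by positivity
    have h5 : 0.57735 * (t ^ 2 * (3 / 2 + t)) ≤ q * (t ^ 2 * (3 / 2 + t)) :=
      mul_le_mul_of_nonneg_right hqlo.le hX
    have h6 : t ^ 4 ≤ t ^ 3 / 2 := by
      have : 0 ≤ t ^ 3 := by positivity
      nlinarith
    nlinarith [sq_nonneg t, pow_nonneg ht0 3]
  have hcos2 : Real.cos (2 * x) = 2 * (1 / 2 - t) ^ 2 - 1 := by
    rw [Real.cos_two_mul, hct]
  have e0 : 2 * Real.cos (2 * x) / √3 = 2 * (2 * (1 / 2 - t) ^ 2 - 1) * q := by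
    rw [hcos2, hq]; ring
  rw [e0, hct]
  have h7 : (3 / 2 * q + t * q - 4 / 5 * t ^ 2) * (1 / 2 + 2 * t) ≤ Real.sin x * (1 / 2 + 2 * t) :=
    mul_le_mul_of_nonneg_right hsin (by linarith)
  have h8 : 0 ≤ 2 * (2 * (1 / 2 - t) ^ 2 - 1) * q + 0.15915
      + (3 / 2 * q + t * q - 4 / 5 * t ^ 2) * (1 / 2 + 2 * t) := by
    have e : 2 * (2 * (1 / 2 - t) ^ 2 - 1) * q + 0.15915
      + (3 / 2 * q + t * q - 4 / 5 * t ^ 2) * (1 / 2 + 2 * t) =
      q * (-1 / 4 - 1 / 2 * t + 6 * t ^ 2) + 0.15915 - 2 / 5 * t ^ 2 - 8 / 5 * t ^ 3 := by ring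
    rw [e]
    have h9 : t ^ 3 ≤ t ^ 2 / 2 := by nlinarith [sq_nonneg t]
    nlinarith [sq_nonneg t, mul_nonneg ht0 (sub_nonneg.mpr hqhi.le),
      mul_nonneg (sq_nonneg t) (sub_nonneg.mpr hqlo.le), sq_nonneg (t - 0.0637)]
  nlinarith

theorem E2 {α : ℝ} (h0 : π / 3 ≤ α) (h1 : α ≤ π / 2) :
    0 ≤ Real.sin (2 * α) / √3 + α / (2 * π) - 2 / 3 + (1 - 2 * Real.cos α) / 4
      + (1 - 2 * Real.cos α) ^ 2 / 4 := by
  have hpi := Real.pi_pos
  have h3 : (0 : ℝ) < √3 := Real.sqrt_pos.mpr (by norm_num)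
  let g : ℝ → ℝ := fun x =>
    Real.sin (2 * x) / √3 + x / (2 * π) - 2 / 3 + (1 - 2 * Real.cos x) / 4
      + (1 - 2 * Real.cos x) ^ 2 / 4
  let g' : ℝ → ℝ := fun x =>
    2 * Real.cos (2 * x) / √3 + 1 / (2 * π) + Real.sin x / 2
      + (1 - 2 * Real.cos x) * Real.sin x
  have hg : ∀ x, HasDerivAt g (g' x) x := by
    intro x
    have d0 : HasDerivAt (fun x : ℝ => 2 * x) 2 x := by
      simpa using (hasDerivAt_id x).const_mul 2
    have d1 : HasDerivAt (fun x : ℝ => Real.sin (2 * x) / √3) (Real.cos (2 * x) * 2 / √3) x :=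
      d0.sin.div_const _
    have d2 : HasDerivAt (fun x : ℝ => x / (2 * π)) (1 / (2 * π)) x :=
      (hasDerivAt_id x).div_const _
    have d3 : HasDerivAt (fun x : ℝ => 1 - 2 * Real.cos x) (-(2 * -Real.sin x)) x :=
      ((Real.hasDerivAt_cos x).const_mul 2).const_sub 1
    have d4 := (((d1.add d2).sub_const (2 / 3)).add (d3.div_const 4)).add
      ((d3.pow 2).div_const 4)
    refine HasDerivAt.congr_deriv d4 ?_
    simp only [g']
    push_cast
    ring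
  have hmono : MonotoneOn g (Set.Icc (π / 3) (π / 2)) := by
    apply monotoneOn_of_deriv_nonneg (convex_Icc _ _)
    · exact fun t _ => (hg t).continuousAt.continuousWithinAt
    · exact fun t _ => (hg t).differentiableAt.differentiableWithinAt
    · intro x hx
      rw [interior_Icc] at hx
      rw [(hg x).deriv]
      exact E2_deriv hx.1.le hx.2.le
  have h := hmono ⟨le_refl _, by linarith⟩ ⟨h0, h1⟩ h0
  have hend : g (π / 3) = 0 := by
    simp only [g]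
    have hsin : Real.sin (2 * (π / 3)) = √3 / 2 := by
      rw [show 2 * (π / 3) = π - π / 3 by ring, Real.sin_pi_sub, Real.sin_pi_div_three]
    rw [hsin, Real.cos_pi_div_three]
    field_simp
    norm_num
  rw [hend] at h
  exact h

end Pool.Agent.H84.P6
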