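import Pool.Agent.H84.P6.Defs

/-!
# FIS: final inequality in three variables, with slack
`P = 1 - r`.  `V1, V2, V3` are the potentials, `σ1 ≥ .155 P1⁺`, `σ3 ≥ .155 P3⁺`, `σ1+σ3 ≥ .155 (P1⁺+P2⁺+P3⁺)`, `Φ` is at least each of
`V1+σ3, V3+σ1, V2+σ1+σ3`.  Then `Bd P1 P2 + Bd P3 P2 ≤ Φ`, strictly unless `P1=P2=P3=0` (margin at least `.02 max |P|`, checked numerically).
Cases (by symmetry `P3 ≤ P1`):
1. `P2 ≥ 0, P1 ≥ P3 ≥ 0`. If `.545 P1 ≥ 1.105 P2` use `.7 P1 + .155 P3`, else `1.105 P2 + .155 (P1+P3)`.  With `P2 = a P1`, `P3 = b P1`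
   the first is `P1/4 ((1-a)²+(b-a)²) ≤ .45 - .095 b - .5 a` for `0≤a≤.4933`, `0≤b≤1`, `P1 ≤ .4762` (convex left side, check the 4 vertices:
   `.119 ≤ .45`, `.239 ≤ .355`, `.06 ≤ .203`, `.062 ≤ .108`).
2. `P2 ≥ 0, P1 ≥ 0 > P3 = -p`: weight `.1865` on `V3+σ1 ≥ 1.18 p + .155 P1`, the rest on one of the other two.
3. `P2 ≥ 0 > P1 ≥ ..`, both negative: weight `.373` on `1.18 p`, the rest on `1.105 P2`: `P2/2+P2²/2 ≤ .627·1.105 P2` (`P2 ≤ .351`).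
4. `P2 = -q < 0`, `P1 ≥ P3 ≥ 0`: `(P1+P3)/4+(P1²+P3²)/4+q/2 ≤` weight `.1701` on `2.94 q + .155 (P1+P3)`, rest on `.7 P1 + .155 P3`.
5. `P2 < 0`, `P1 ≥ 0 > P3`: easier.  6. `P2 < 0`, both negative: left side 0.
-/

set_option autoImplicit false

open Real

noncomputable section

namespace Pool.Agent.H84.P6

theorem FIS_aux {P1 P2 P3 V1 V2 V3 σ1 σ3 Φ : ℝ}
    (h13 : P3 ≤ P1)
    (h1 : P1 ≤ 0.4762) (h1' : -0.282 ≤ P1) (h3 : P3 ≤ 0.4762) (h3' : -0.282 ≤ P3)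
    (h2 : P2 ≤ 0.351) (h2' : -0.1135 ≤ P2)
    (hV1 : 7 / 10 * P1 ≤ V1) (hV1' : 59 / 50 * (-P1) ≤ V1)
    (hV3 : 7 / 10 * P3 ≤ V3) (hV3' : 59 / 50 * (-P3) ≤ V3)
    (hV2 : 19 / 20 * P2 ≤ V2) (hV2' : 147 / 50 * (-P2) ≤ V2)
    (hσ1 : 31 / 200 * max P1 0 ≤ σ1) (hσ3 : 31 / 200 * max P3 0 ≤ σ3)
    (hσ : 31 / 200 * (max P1 0 + max P2 0 + max P3 0) ≤ σ1 + σ3)
    (hΦ1 : V1 + σ3 ≤ Φ) (hΦ3 : V3 + σ1 ≤ Φ) (hΦ2 : V2 + σ1 + σ3 ≤ Φ) :
    Bd P1 P2 + Bd P3 P2 + (|P1| + |P2| + |P3|) / 100 ≤ Φ := by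
  unfold Bd
  norm_num at h1 h1' h3 h3' h2 h2'
  rcases le_or_gt 0 P1 with a1 | a1 <;> rcases le_or_gt 0 P2 with a2 | a2 <;>
    rcases le_or_gt 0 P3 with a3 | a3
  · -- all nonneg
    rw [max_eq_left a1] at hσ1 hσ
    rw [max_eq_left a3] at hσ3 hσ
    rw [max_eq_left a2] at hσ
    rw [if_pos a1, if_pos a2, if_pos a3, if_pos a2, abs_of_nonneg a1, abs_of_nonneg a2, abs_of_nonneg a3]
    rcases le_total (221 / 200 * P2) (109 / 200 * P1) with hc | hc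
    · have hb : 7 / 10 * P1 + 31 / 200 * P3 ≤ Φ := by linarith
      nlinarith [mul_nonneg a1 a2, mul_nonneg a2 a3, mul_nonneg a1 a3, mul_nonneg a2 (sub_nonneg.2 hc),
        mul_nonneg a3 (sub_nonneg.2 h13), mul_nonneg (sub_nonneg.2 hc) (sub_nonneg.2 h13),
        mul_nonneg a2 (sub_nonneg.2 h13), mul_nonneg a3 (sub_nonneg.2 hc),
        mul_nonneg a1 (sub_nonneg.2 h1), mul_nonneg a2 (sub_nonneg.2 h1), mul_nonneg a3 (sub_nonneg.2 h1),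
        mul_nonneg (sub_nonneg.2 hc) (sub_nonneg.2 h1), mul_nonneg (sub_nonneg.2 h13) (sub_nonneg.2 h1)]
    · have hb : 221 / 200 * P2 + 31 / 200 * (P1 + P3) ≤ Φ := by linarith
      nlinarith [mul_nonneg a1 a2, mul_nonneg a2 a3, mul_nonneg a1 a3, mul_nonneg a2 (sub_nonneg.2 hc),
        mul_nonneg a3 (sub_nonneg.2 h13), mul_nonneg (sub_nonneg.2 hc) (sub_nonneg.2 h13),
        mul_nonneg a2 (sub_nonneg.2 h13), mul_nonneg a3 (sub_nonneg.2 hc), mul_nonneg a1 (sub_nonneg.2 hc),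
        mul_nonneg a1 (sub_nonneg.2 h1), mul_nonneg a2 (sub_nonneg.2 h2), mul_nonneg a3 (sub_nonneg.2 h1),
        mul_nonneg (sub_nonneg.2 hc) (sub_nonneg.2 h1), mul_nonneg (sub_nonneg.2 h13) (sub_nonneg.2 h1),
        mul_nonneg a2 (sub_nonneg.2 h1)]
  · -- P1 ≥ 0, P2 ≥ 0, P3 < 0
    rw [max_eq_left a1] at hσ1 hσ
    rw [max_eq_right a3.le] at hσ3 hσ
    rw [max_eq_left a2] at hσ
    rw [if_pos a1, if_pos a2, if_neg (not_le.2 a3), if_pos a2, abs_of_nonneg a1, abs_of_nonneg a2,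
      abs_of_neg a3]
    have hA : 59 / 50 * (-P3) + 31 / 200 * P1 ≤ Φ := by linarith
    have hB : 7 / 10 * P1 ≤ Φ := by linarith
    have hC : 221 / 200 * P2 + 31 / 200 * P1 ≤ Φ := by linarith
    rcases le_total (221 / 200 * P2) (109 / 200 * P1) with hc | hc
    · nlinarith [mul_nonneg a1 a2, mul_nonneg a2 (sub_nonneg.2 hc),
        mul_nonneg a1 (sub_nonneg.2 h1), mul_nonneg a2 (sub_nonneg.2 h1),
        mul_nonneg (sub_nonneg.2 hc) (sub_nonneg.2 h1), mul_nonneg a1 (sub_nonneg.2 hc)]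
    · nlinarith [mul_nonneg a1 a2, mul_nonneg a2 (sub_nonneg.2 hc), mul_nonneg a1 (sub_nonneg.2 hc),
        mul_nonneg a1 (sub_nonneg.2 h1), mul_nonneg a2 (sub_nonneg.2 h2),
        mul_nonneg (sub_nonneg.2 hc) (sub_nonneg.2 h1), mul_nonneg a2 (sub_nonneg.2 h1),
        mul_nonneg (sub_nonneg.2 hc) (sub_nonneg.2 h2), mul_nonneg a1 (sub_nonneg.2 h2)]
  · -- P1 ≥ 0, P2 < 0, P3 ≥ 0
    rw [max_eq_left a1] at hσ1 hσ
    rw [max_eq_left a3] at hσ3 hσ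
    rw [max_eq_right a2.le] at hσ
    rw [if_pos a1, if_neg (not_le.2 a2), if_pos a3, if_neg (not_le.2 a2), abs_of_nonneg a1, abs_of_neg a2,
      abs_of_nonneg a3]
    have hA : 147 / 50 * (-P2) + 31 / 200 * (P1 + P3) ≤ Φ := by linarith
    have hB : 7 / 10 * P1 + 31 / 200 * P3 ≤ Φ := by linarith
    nlinarith [mul_nonneg a1 (sub_nonneg.2 h1), mul_nonneg a3 (sub_nonneg.2 h3)]
  · -- P1 ≥ 0, P2 < 0, P3 < 0
    rw [max_eq_left a1] at hσ1 hσ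
    rw [max_eq_right a3.le] at hσ3 hσ
    rw [max_eq_right a2.le] at hσ
    rw [if_pos a1, if_neg (not_le.2 a2), if_neg (not_le.2 a3), if_neg (not_le.2 a2), abs_of_nonneg a1,
      abs_of_neg a2, abs_of_neg a3]
    have hA : 147 / 50 * (-P2) + 31 / 200 * P1 ≤ Φ := by linarith
    have hB : 7 / 10 * P1 ≤ Φ := by linarith
    have hC : 59 / 50 * (-P3) ≤ Φ := by linarith
    nlinarith [mul_nonneg a1 (sub_nonneg.2 h1)]
  · linarith
  · -- P1 < 0, P2 ≥ 0, P3 < 0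
    rw [max_eq_right a1.le] at hσ1 hσ
    rw [max_eq_right a3.le] at hσ3 hσ
    rw [max_eq_left a2] at hσ
    rw [if_neg (not_le.2 a1), if_pos a2, if_neg (not_le.2 a3), if_pos a2, abs_of_neg a1, abs_of_nonneg a2,
      abs_of_neg a3]
    have hA : 59 / 50 * (-P3) ≤ Φ := by linarith
    have hB : 221 / 200 * P2 ≤ Φ := by linarith
    nlinarith [mul_nonneg a2 (sub_nonneg.2 h2)]
  · linarith
  · -- all negative
    rw [max_eq_right a1.le] at hσ1 hσ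
    rw [max_eq_right a3.le] at hσ3 hσ
    rw [max_eq_right a2.le] at hσ
    rw [if_neg (not_le.2 a1), if_neg (not_le.2 a2), if_neg (not_le.2 a3), if_neg (not_le.2 a2), abs_of_neg a1,
      abs_of_neg a2, abs_of_neg a3]
    have hA : 59 / 50 * (-P3) ≤ Φ := by linarith
    have hB : 147 / 50 * (-P2) ≤ Φ := by linarith
    have hC : 59 / 50 * (-P1) ≤ Φ := by linarith
    linarith

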