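import Pool.Agent.H84.P6.Defs

/-!
# MM: both radii at least 1
`(r²-1)(s²-1) ≥ 0` gives `r²+s² ≤ 1 + (rs)²`, so with `N = rs`: `1 ≤ 1 + N² - 2N cos θ`, i.e. `N ≥ 2 cos θ`.
* If `θ ≥ π/3`: `S ≥ sin θ/√3 + θ/(2π) - 2/3 ≥ 0` on `[π/3, 2π/3]` (concave, values `0` and `1/6` at the ends).
* If `θ < π/3`: `S ≥ 2 cos θ sin θ/√3 + θ/(2π) - 2/3 = sin 2θ/√3 + θ/(2π) - 2/3`, concave in `θ ∈ [0,π/2]`, value `0` at `π/3`, and
  `θ ≥ 11π/45` (44 degrees): `cos θ ≤ N/2 ≤ .715 < cos(44°) = .7193`.  At a left end `θ1` one needs `sin 2θ1/√3 + θ1/(2π) - 2/3 ≥ 0`: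
  take `θ1 = 7π/30` (42 degrees: `.5742+.1167-.6667 = .0242`; `sin 84° ≥ .99` from `cos 6° ≥ 1 - (π/30)²/2`), and
  `cos (7π/30) ≥ .715`: e.g. `cos(π/4 - π/60) = (√2/2)(cos (π/60) + sin (π/60)) ≥ .7071(1-(π/60)²/2 + π/60 - (π/60)³/4) > .73`.
-/

set_option autoImplicit false

open Real

noncomputable section

namespace Pool.Agent.H84.P6

/-- the sine is at least `√3/2` between 60 and 120 degrees -/
theorem MM_sin {θ : ℝ} (h1 : π / 3 ≤ θ) (h2 : θ ≤ 2 * π / 3) : √3 / 2 ≤ Real.sin θ := by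
  have hpi := Real.pi_pos
  have hc : Real.sin (π / 3) = √3 / 2 := Real.sin_pi_div_three
  by_cases h : θ ≤ π / 2
  · rw [← hc]
    exact Real.sin_le_sin_of_le_of_le_pi_div_two (by linarith) h h1
  · push Not at h
    rw [← hc, ← Real.sin_pi_sub θ]
    exact Real.sin_le_sin_of_le_of_le_pi_div_two (by linarith) (by linarith) (by linarith)

/-- the double angle bound between 42 and 60 degrees -/
theorem MM_dbl {θ : ℝ} (h1 : 7 * π / 30 ≤ θ) (h2 : θ ≤ π / 3) :
    0 ≤ Real.sin (2 * θ) / √3 + θ / (2 * π) - 2 / 3 := by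
  have hpi := Real.pi_pos
  have hpi4 := Real.pi_lt_d4
  have hs3 := sq3
  have hlo := sq3_lo
  have hhi := sq3_hi
  have hs0 : (0 : ℝ) < √3 := by linarith
  set t : ℝ := (θ - 7 * π / 30) / (π / 10) with ht
  have ht0 : 0 ≤ t := div_nonneg (by linarith) (by linarith)
  have ht1 : t ≤ 1 := by
    rw [ht, div_le_one (by linarith)]; linarith
  have hθ : θ = 7 * π / 30 + t * (π / 10) := by
    rw [ht]; field_simp; ring
  have hm1 : 7 * π / 15 ∈ Set.Icc (0 : ℝ) π := ⟨by linarith, by linarith⟩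
  have hm2 : 2 * π / 3 ∈ Set.Icc (0 : ℝ) π := ⟨by linarith, by linarith⟩
  have hconc := strictConcaveOn_sin_Icc.concaveOn.2 hm1 hm2
    (show (0 : ℝ) ≤ 1 - t by linarith) ht0 (by ring)
  simp only [smul_eq_mul] at hconc
  have he : (1 - t) * (7 * π / 15) + t * (2 * π / 3) = 2 * θ := by
    rw [hθ]; ring
  rw [he] at hconc
  have hA : (0.9945 : ℝ) ≤ Real.sin (7 * π / 15) := by
    have : Real.sin (7 * π / 15) = Real.cos (π / 30) := by
      rw [← Real.cos_pi_div_two_sub]; congr 1; ring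
    rw [this]
    have h := Real.one_sub_sq_div_two_le_cos (x := π / 30)
    nlinarith
  have hB : Real.sin (2 * π / 3) = √3 / 2 := by
    rw [show 2 * π / 3 = π - π / 3 by ring, Real.sin_pi_sub, Real.sin_pi_div_three]
  rw [hB] at hconc
  have hdiv : θ / (2 * π) = 7 / 60 + t / 20 := by
    rw [hθ]; field_simp; ring
  rw [hdiv]
  have hS : (1 - t) * 0.9945 + t * (√3 / 2) ≤ Real.sin (2 * θ) := by
    have : (1 - t) * 0.9945 ≤ (1 - t) * Real.sin (7 * π / 15) :=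
      mul_le_mul_of_nonneg_left hA (by linarith)
    linarith
  have hd : (1 - t) * 0.574 + t / 2 ≤ Real.sin (2 * θ) / √3 := by
    rw [le_div_iff₀ hs0]
    have : (1 - t) * (0.574 * √3) ≤ (1 - t) * 0.9945 :=
      mul_le_mul_of_nonneg_left (by linarith) (by linarith)
    nlinarith
  nlinarith

theorem MM {r s θ : ℝ} (hr : 1 ≤ r) (hs : 1 ≤ s) (hN : r * s ≤ 1.43)
    (hθ0 : 0 ≤ θ) (hθ : θ ≤ 2 * π / 3) (h : 1 ≤ r ^ 2 + s ^ 2 - 2 * r * s * Real.cos θ) :
    0 ≤ S r s θ := by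
  have hpi := Real.pi_pos
  have hpi4 := Real.pi_lt_d4
  have hlo := sq3_lo
  have hs0 : (0 : ℝ) < √3 := by linarith
  have hN1 : 1 ≤ r * s := by nlinarith
  have hsin0 : 0 ≤ Real.sin θ := Real.sin_nonneg_of_nonneg_of_le_pi hθ0 (by linarith)
  have hprod : 0 ≤ (r ^ 2 - 1) * (s ^ 2 - 1) := by
    apply mul_nonneg <;> nlinarith
  have hcos : 2 * Real.cos θ ≤ r * s := by
    have h2 : (r * s) * (2 * Real.cos θ) ≤ (r * s) * (r * s) := by nlinarith
    exact le_of_mul_le_mul_left h2 (by linarith)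
  unfold S
  by_cases hc : π / 3 ≤ θ
  · have hsn := MM_sin hc hθ
    have h1 : 1 / 2 ≤ r * s * Real.sin θ / √3 := by
      rw [le_div_iff₀ hs0]
      nlinarith
    have h2 : 1 / 6 ≤ θ / (2 * π) := by
      rw [le_div_iff₀ (by linarith)]; linarith
    linarith
  · push Not at hc
    have h42 : 7 * π / 30 ≤ θ := by
      by_contra hcon
      push Not at hcon
      have h1 : Real.cos (7 * π / 30) ≤ Real.cos θ :=
        Real.cos_le_cos_of_nonneg_of_le_pi hθ0 (by linarith) hcon.le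
      have h2 := Real.one_sub_sq_div_two_le_cos (x := 7 * π / 30)
      nlinarith
    have hd := MM_dbl h42 hc.le
    have h3 : Real.sin (2 * θ) / √3 ≤ r * s * Real.sin θ / √3 := by
      apply div_le_div_of_nonneg_right _ hs0.le
      rw [Real.sin_two_mul]
      nlinarith
    linarith

end Pool.Agent.H84.P6
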