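import Pool.Agent.H84.P6.E2

/-!
# OC: one radius `r ≥ 1`, the other `s ≤ 1`: concavity in the angle `γ` at the vertex between the sides `s` and `1`
For `γ ∈ (0,π)` let `r(γ) = √(1+s²-2s cos γ)`, `w = s cos γ`,
`J(γ) = s sin γ/√3 + (π/2 - arctan((s-cos γ)/sin γ))/(2π) + κ r(γ)`.
* If `r = r(γ)`, then `S0 r s = s sin γ/√3 + (π/2 - arctan((s-cos γ)/sin γ))/(2π) - 2/3`  (area `= ½ s sin γ`, `cos` of the apex angle
  `= (r²+s²-1)/(2rs) = (s-cos γ)/r`, `sin = sin γ/r`).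
* `J' = s cos γ/√3 - (1-w)/(2π r²) + κ s sin γ/r = F(w)`, `F(w) = w/√3 - (1-w)/(2π(1+s²-2w)) + κ √((s²-w²)/(1+s²-2w))`.
  `F` is increasing for `w ≤ s²/2`: `d/dw (1-w)/(1+s²-2w) = (1-s²)/r⁴ ≤ 3/4` (as `r ≥ 1`, `s ≥ 1/2`), so the first two terms have derivative
  `≥ 1/√3 - (3/4)/(2π) > 0`; and `d/dw (s²-w²)/(1+s²-2w) = 2(s²-w)(1-w)/r⁴ ≥ 0`.  (No derivatives needed: compare two values `w' < w`.)
  `w` is antitone in `γ`, so `J'` is antitone and `J` is concave on `[γ0,γR]`, where `cos γ0 = s/2` (`r = 1`) and `r(γR) = R`.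
* `J(γ) ≥ min(J(γ0), J(γR))`.  At `γ0`: `S0 1 s + (1-s)/4 + (1-s)²/4 ≥ 0` by `E2` with `α = arccos (s/2)` (`S0 1 s = sin 2α/√3+α/(2π)-2/3`).
  At `γR`: hypothesis `hend`.
-/

set_option autoImplicit false

open Real

noncomputable section

namespace Pool.Agent.H84.P6

private def OC_J (s κ γ : ℝ) : ℝ :=
  s * Real.sin γ / √3 + (π / 2 - Real.arctan ((s - Real.cos γ) / Real.sin γ)) / (2 * π) +
    κ * √(1 + s ^ 2 - 2 * s * Real.cos γ)

private def OC_D (s κ w : ℝ) : ℝ :=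
  w / √3 - (1 - w) / (1 + s ^ 2 - 2 * w) / (2 * π) +
    κ * √((s ^ 2 - w ^ 2) / (1 + s ^ 2 - 2 * w))

private theorem OC_r2 {s γ : ℝ} (hs : 0 < s) (h0 : 0 < γ) (h1 : γ < π) :
    0 < 1 + s ^ 2 - 2 * s * Real.cos γ := by
  have h2 : Real.cos γ < 1 := by
    rw [← Real.cos_zero]
    exact Real.cos_lt_cos_of_nonneg_of_le_pi le_rfl h1.le h0
  have h3 := mul_pos hs (sub_pos.2 h2)
  nlinarith [sq_nonneg (1 - s)]

private theorem OC_deriv {s κ γ : ℝ} (hs : 0 < s) (h0 : 0 < γ) (h1 : γ < π) :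
    HasDerivAt (OC_J s κ) (OC_D s κ (s * Real.cos γ)) γ := by
  have hsin : 0 < Real.sin γ := Real.sin_pos_of_pos_of_lt_pi h0 h1
  have hr2 := OC_r2 hs h0 h1
  have hpi := Real.pi_pos
  have d1 : HasDerivAt (fun γ => s * Real.sin γ / √3) (s * Real.cos γ / √3) γ :=
    ((Real.hasDerivAt_sin γ).const_mul s).div_const _
  have d2 : HasDerivAt (fun γ => (s - Real.cos γ) / Real.sin γ)
      ((Real.sin γ * Real.sin γ - (s - Real.cos γ) * Real.cos γ) / Real.sin γ ^ 2) γ := by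
    have := ((Real.hasDerivAt_cos γ).const_sub s).div (Real.hasDerivAt_sin γ) hsin.ne'
    rw [neg_neg] at this
    exact this
  have d3 := ((d2.arctan.const_sub (π / 2)).div_const (2 * π))
  have d4 : HasDerivAt (fun γ => 1 + s ^ 2 - 2 * s * Real.cos γ) (2 * s * Real.sin γ) γ := by
    have := ((Real.hasDerivAt_cos γ).const_mul (2 * s)).const_sub (1 + s ^ 2)
    exact this.congr_deriv (by ring)
  have d5 := (d4.sqrt hr2.ne').const_mul κ
  have d := (d1.add d3).add d5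
  refine d.congr_deriv ?_
  unfold OC_D
  have hcs := Real.sin_sq_add_cos_sq γ
  have e1 : 1 + ((s - Real.cos γ) / Real.sin γ) ^ 2 =
      (1 + s ^ 2 - 2 * s * Real.cos γ) / Real.sin γ ^ 2 := by
    rw [div_pow, eq_div_iff (by positivity), add_mul, div_mul_cancel₀ _ (by positivity)]
    linear_combination hcs
  have e2 : Real.sin γ * Real.sin γ - (s - Real.cos γ) * Real.cos γ = 1 - s * Real.cos γ := by
    linear_combination hcs
  have e3 : √((s ^ 2 - (s * Real.cos γ) ^ 2) / (1 + s ^ 2 - 2 * (s * Real.cos γ))) =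
      s * Real.sin γ / √(1 + s ^ 2 - 2 * s * Real.cos γ) := by
    have h3 : s ^ 2 - (s * Real.cos γ) ^ 2 = (s * Real.sin γ) ^ 2 := by
      linear_combination (-(s ^ 2)) * hcs
    have h4 : 1 + s ^ 2 - 2 * (s * Real.cos γ) = 1 + s ^ 2 - 2 * s * Real.cos γ := by ring
    rw [h3, h4, Real.sqrt_div (sq_nonneg _), Real.sqrt_sq (by positivity)]
  have e4 : 1 + s ^ 2 - 2 * (s * Real.cos γ) = 1 + s ^ 2 - 2 * s * Real.cos γ := by ring
  rw [e1, e2, e3, e4]
  have hsq : 0 < √(1 + s ^ 2 - 2 * s * Real.cos γ) := Real.sqrt_pos.2 hr2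
  have hs3 : (0:ℝ) < √3 := by linarith [sq3_lo]
  field_simp
  ring

/-- monotonicity of the derivative -/
private theorem OC_mono {s κ w w' : ℝ} (hs : 1 / 2 ≤ s) (hs1 : s ≤ 1) (hκ : 0 ≤ κ)
    (hw : w ≤ s ^ 2 / 2) (hww : w' ≤ w) : OC_D s κ w' ≤ OC_D s κ w := by
  have hs2 : s ^ 2 ≤ 1 := by nlinarith
  have hs3 : 1 / 4 ≤ s ^ 2 := by nlinarith
  have hr : 1 ≤ 1 + s ^ 2 - 2 * w := by linarith
  have hr' : 1 ≤ 1 + s ^ 2 - 2 * w' := by linarith
  have hpi := Real.pi_gt_three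
  have h1 : (1 - w) / (1 + s ^ 2 - 2 * w) - (1 - w') / (1 + s ^ 2 - 2 * w') ≤ 3 / 4 * (w - w') := by
    have e : (1 - w) / (1 + s ^ 2 - 2 * w) - (1 - w') / (1 + s ^ 2 - 2 * w') =
        (1 - s ^ 2) * (w - w') / ((1 + s ^ 2 - 2 * w) * (1 + s ^ 2 - 2 * w')) := by
      have a1 : 1 + s ^ 2 - 2 * w ≠ 0 := by linarith
      have a2 : 1 + s ^ 2 - 2 * w' ≠ 0 := by linarith
      rw [div_sub_div _ _ a1 a2]
      congr 1
      ring
    rw [e]
    have h2 : 1 ≤ (1 + s ^ 2 - 2 * w) * (1 + s ^ 2 - 2 * w') := by nlinarith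
    refine (div_le_self (mul_nonneg (by linarith) (by linarith)) h2).trans ?_
    exact mul_le_mul_of_nonneg_right (by linarith) (by linarith)
  have h2 : ((1 - w) / (1 + s ^ 2 - 2 * w) - (1 - w') / (1 + s ^ 2 - 2 * w')) / (2 * π) ≤
      1 / 8 * (w - w') := by
    rw [div_le_iff₀ (by positivity)]
    refine h1.trans ?_
    have h3 : 0 ≤ w - w' := by linarith
    nlinarith
  have h3 : 1 / 8 * (w - w') ≤ w / √3 - w' / √3 := by
    rw [← sub_div, le_div_iff₀ (by linarith [sq3_lo])]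
    have h4 : 0 ≤ w - w' := by linarith
    have h5 : √3 < 2 := by linarith [sq3_hi]
    nlinarith
  have h4 : √((s ^ 2 - w' ^ 2) / (1 + s ^ 2 - 2 * w')) ≤
      √((s ^ 2 - w ^ 2) / (1 + s ^ 2 - 2 * w)) := by
    apply Real.sqrt_le_sqrt
    rw [div_le_div_iff₀ (by linarith) (by linarith)]
    have h5 : 0 ≤ (w - w') * ((s ^ 2 - w) * (1 - w') + (s ^ 2 - w') * (1 - w)) := by
      refine mul_nonneg (by linarith) (add_nonneg (mul_nonneg ?_ ?_) (mul_nonneg ?_ ?_)) <;>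
        linarith
    nlinarith
  have h5 := mul_le_mul_of_nonneg_left h4 hκ
  unfold OC_D
  rw [sub_div] at h2
  linarith

/-- the value in terms of the radius -/
private theorem OC_val {s κ r : ℝ} (hs : 1 / 2 ≤ s) (hs1 : s ≤ 1) (h1 : 1 ≤ r)
    (hr : r ≤ 13 / 10) :
    -1 < (1 + s ^ 2 - r ^ 2) / (2 * s) ∧ (1 + s ^ 2 - r ^ 2) / (2 * s) ≤ s / 2 ∧
    OC_J s κ (Real.arccos ((1 + s ^ 2 - r ^ 2) / (2 * s))) = S0 r s + 2 / 3 + κ * r := by
  have hs0 : 0 < s := by linarith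
  have hr0 : 0 < r := by linarith
  set c := (1 + s ^ 2 - r ^ 2) / (2 * s) with hc
  have hc1 : 2 * s * c = 1 + s ^ 2 - r ^ 2 := by
    rw [hc]
    field_simp
  have hcl : -1 < c := by
    rw [hc, lt_div_iff₀ (by positivity)]
    nlinarith
  have hcu : c ≤ s / 2 := by
    rw [hc, div_le_div_iff₀ (by positivity) (by norm_num)]
    nlinarith
  refine ⟨hcl, hcu, ?_⟩
  clear_value c
  have hc2 : c ^ 2 < 1 := by nlinarith
  have hpos : 0 < 1 - c ^ 2 := by linarith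
  unfold OC_J S0
  rw [Real.cos_arccos hcl.le (by linarith), Real.sin_arccos]
  have e1 : 1 + s ^ 2 - 2 * s * c = r ^ 2 := by linear_combination (-1) * hc1
  have e2 : ((r + s) ^ 2 - 1) * (1 - (r - s) ^ 2) = (2 * s) ^ 2 * (1 - c ^ 2) := by
    have : (2 * s) ^ 2 * (1 - c ^ 2) = (2 * s) ^ 2 - (2 * s * c) ^ 2 := by ring
    rw [this, hc1]
    ring
  have e3 : √(((r + s) ^ 2 - 1) * (1 - (r - s) ^ 2)) = 2 * s * √(1 - c ^ 2) := by
    rw [e2, Real.sqrt_mul (sq_nonneg _), Real.sqrt_sq (by positivity)]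
  have e4 : (r ^ 2 + s ^ 2 - 1) / (2 * r * s) = (s - c) / r := by
    rw [div_eq_div_iff (by positivity) (by positivity)]
    linear_combination r * hc1
  have e5 : 1 - ((s - c) / r) ^ 2 = (1 - c ^ 2) / r ^ 2 := by
    rw [div_pow, eq_div_iff (by positivity), sub_mul, div_mul_cancel₀ _ (by positivity)]
    linear_combination (-1) * e1
  have e6 : √(1 - ((s - c) / r) ^ 2) = √(1 - c ^ 2) / r := by
    rw [e5, Real.sqrt_div hpos.le, Real.sqrt_sq hr0.le]
  have e7 : |(s - c) / r| < 1 := by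
    rw [← sq_lt_one_iff_abs_lt_one]
    have : 0 < (1 - c ^ 2) / r ^ 2 := by positivity
    linarith
  have e8 : Real.arccos ((r ^ 2 + s ^ 2 - 1) / (2 * r * s)) =
      π / 2 - Real.arctan ((s - c) / √(1 - c ^ 2)) := by
    rw [e4, Real.arccos_eq_pi_div_two_sub_arcsin, Real.arcsin_eq_arctan (abs_lt.1 e7), e6]
    congr 2
    field_simp
  rw [e8, e3, e1, Real.sqrt_sq hr0.le]
  ring

theorem OC {s κ R r : ℝ} (hs : 1 / 2 ≤ s) (hs1 : s ≤ 1) (hκ : 0 ≤ κ) (h1 : 1 ≤ r) (hR : r ≤ R)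
    (hR2 : R ≤ 13 / 10)
    (hend : 0 ≤ S0 R s + (1 - s) / 4 + (1 - s) ^ 2 / 4 + κ * (R - 1)) :
    0 ≤ S0 r s + (1 - s) / 4 + (1 - s) ^ 2 / 4 + κ * (r - 1) := by
  have hs0 : 0 < s := by linarith
  have h1R : 1 ≤ R := h1.trans hR
  obtain ⟨a1, a2, a3⟩ := OC_val (κ := κ) hs hs1 h1 (hR.trans hR2)
  obtain ⟨b1, b2, b3⟩ := OC_val (κ := κ) hs hs1 h1R hR2
  obtain ⟨c1, c2, c3⟩ := OC_val (κ := κ) (r := 1) hs hs1 le_rfl (by norm_num)
  set γ0 := Real.arccos ((1 + s ^ 2 - 1 ^ 2) / (2 * s)) with hγ0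
  set γ := Real.arccos ((1 + s ^ 2 - r ^ 2) / (2 * s)) with hγ
  set γR := Real.arccos ((1 + s ^ 2 - R ^ 2) / (2 * s)) with hγR
  have m1 : γ0 ≤ γ := by
    apply Real.arccos_le_arccos
    apply div_le_div_of_nonneg_right _ (by positivity)
    nlinarith
  have m2 : γ ≤ γR := by
    apply Real.arccos_le_arccos
    apply div_le_div_of_nonneg_right _ (by positivity)
    nlinarith
  have hc0 : (1 + s ^ 2 - 1 ^ 2) / (2 * s) = s / 2 := by
    field_simp
    ring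
  have p0 : 0 < γ0 := by
    rw [hγ0, hc0, Real.arccos_pos]
    linarith
  have pR : γR < π := by
    rw [hγR, Real.arccos_lt_pi]
    exact b1
  have hcos0 : Real.cos γ0 = s / 2 := by
    rw [hγ0, hc0, Real.cos_arccos (by linarith) (by linarith)]
  have hconc : ConcaveOn ℝ (Set.Icc γ0 γR) (OC_J s κ) := by
    have hd : ∀ x ∈ Set.Icc γ0 γR, HasDerivAt (OC_J s κ) (OC_D s κ (s * Real.cos x)) x :=
      fun x hx => OC_deriv hs0 (p0.trans_le hx.1) (hx.2.trans_lt pR)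
    refine AntitoneOn.concaveOn_of_deriv (convex_Icc _ _)
      (fun x hx => (hd x hx).continuousAt.continuousWithinAt)
      (fun x hx => (hd x (interior_subset hx)).differentiableAt.differentiableWithinAt) ?_
    intro x hx y hy hxy
    have hx' := interior_subset hx
    have hy' := interior_subset hy
    rw [(hd x hx').deriv, (hd y hy').deriv]
    have hcx : Real.cos x ≤ Real.cos γ0 :=
      Real.cos_le_cos_of_nonneg_of_le_pi p0.le (hx'.2.trans pR.le) hx'.1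
    have hcxy : Real.cos y ≤ Real.cos x :=
      Real.cos_le_cos_of_nonneg_of_le_pi (p0.le.trans hx'.1) (hy'.2.trans pR.le) hxy
    refine OC_mono hs hs1 hκ ?_ (mul_le_mul_of_nonneg_left hcxy hs0.le)
    rw [hcos0] at hcx
    nlinarith
  have hmin := hconc.min_le_of_mem_Icc (Set.left_mem_Icc.2 (m1.trans m2))
    (Set.right_mem_Icc.2 (m1.trans m2)) ⟨m1, m2⟩
  rw [a3, b3, c3] at hmin
  -- the left end
  have hE := E2 (α := γ0) (by
    rw [← Real.arccos_cos (x := π / 3) (by positivity) (by linarith [Real.pi_pos]),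
      Real.cos_pi_div_three, hγ0, hc0]
    exact Real.arccos_le_arccos (by linarith)) (by
    rw [← Real.arccos_zero, hγ0, hc0]
    exact Real.arccos_le_arccos (by linarith))
  have hleft : 0 ≤ S0 1 s + (1 - s) / 4 + (1 - s) ^ 2 / 4 := by
    rw [hcos0] at hE
    have e1 : 1 - 2 * (s / 2) = 1 - s := by ring
    rw [e1] at hE
    have e2 : S0 1 s = Real.sin (2 * γ0) / √3 + γ0 / (2 * π) - 2 / 3 := by
      unfold S0
      have q1 : (1 ^ 2 + s ^ 2 - 1) / (2 * 1 * s) = (1 + s ^ 2 - 1 ^ 2) / (2 * s) := by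
        congr 1 <;> ring
      rw [q1, ← hγ0]
      have q2 : ((1 + s) ^ 2 - 1) * (1 - (1 - s) ^ 2) = (2 * s) ^ 2 * (1 - (s / 2) ^ 2) := by ring
      have q3 : Real.sin γ0 = √(1 - (s / 2) ^ 2) := by rw [hγ0, hc0, Real.sin_arccos]
      rw [q2, Real.sqrt_mul (sq_nonneg _), Real.sqrt_sq (by positivity), Real.sin_two_mul, q3,
        hcos0]
      have hs3 : (0:ℝ) < √3 := by linarith [sq3_lo]
      field_simp
    rw [e2]
    exact hE
  rcases min_le_iff.1 hmin with h | h <;> linarith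

end Pool.Agent.H84.P6
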