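import Pool.Agent.H84.P6.Defs

/-!
# OE1: endpoint inequality for `OC`
Formula: with `c = (R²+s²-1)/(2Rs)`: `√(((R+s)²-1)(1-(R-s)²)) = 2 R s √(1-c²)`, so `S0 R s = R s √(1-c²)/√3 + arccos c/(2π) - 2/3`.
`R = 1.282`, `s ∈ [.649,1]`: `c ≤ .641` (`s² - 2·1.282·.641 s + .643524 ≤ 0` on the interval, convex: check the ends), so
`√(1-c²) ≥ .7675`, `arccos c ≥ .8748` (check `cos .8748 ≥ .641`), hence the expression is
`≥ 1.282·.7675/√3 s + .8748/(2π) - 2/3 + (1-s)/4 + (1-s)²/4 + .22·.282`, a quadratic in `s`, about `.1027 - .318 Q + .25 Q²` (`Q = 1-s ≤ .351`),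
`≥ .02`.
-/

set_option autoImplicit false

open Real

noncomputable section

namespace Pool.Agent.H84.P6

theorem OE1_cos : (0.641 : ℝ) ≤ Real.cos 0.86 := by
  have h1 : (0.9767 : ℝ) ≤ Real.cos 0.215 := by
    have := Real.cos_bound (x := 0.215) (by rw [abs_of_pos (by norm_num)]; norm_num)
    rw [abs_le] at this
    have h2 := this.1
    rw [abs_of_pos (by norm_num : (0:ℝ) < 0.215)] at h2
    norm_num at h2 ⊢
    linarith
  have h2 : (0.9078 : ℝ) ≤ Real.cos 0.43 := by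
    have h : Real.cos 0.43 = 2 * Real.cos 0.215 ^ 2 - 1 := by
      rw [← Real.cos_two_mul]; norm_num
    rw [h]
    nlinarith
  have h : Real.cos 0.86 = 2 * Real.cos 0.43 ^ 2 - 1 := by
    rw [← Real.cos_two_mul]; norm_num
  rw [h]
  nlinarith

theorem OE1 {s : ℝ} (hs : 0.649 ≤ s) (hs1 : s ≤ 1) :
    0 ≤ S0 1.282 s + (1 - s) / 4 + (1 - s) ^ 2 / 4 + 11 / 50 * (1.282 - 1) := by
  have hs0 : 0 < s := by linarith
  have hu : (1.282 : ℝ) ^ 2 + s ^ 2 - 1 ≤ 1.643524 * s := by nlinarith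
  have hu0 : 0 ≤ (1.282 : ℝ) ^ 2 + s ^ 2 - 1 := by nlinarith
  have hc : ((1.282 : ℝ) ^ 2 + s ^ 2 - 1) / (2 * 1.282 * s) ≤ 0.641 := by
    rw [div_le_iff₀ (by positivity)]
    linarith
  have ha : (0.86 : ℝ) ≤ Real.arccos (((1.282 : ℝ) ^ 2 + s ^ 2 - 1) / (2 * 1.282 * s)) := by
    have hpi := Real.pi_gt_three
    rw [← Real.arccos_cos (by norm_num : (0:ℝ) ≤ 0.86) (by linarith)]
    exact Real.arccos_le_arccos (hc.trans OE1_cos)
  have hpi := Real.pi_lt_d4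
  have hpi0 := Real.pi_pos
  have h2 : (0.1368 : ℝ) ≤
      Real.arccos (((1.282 : ℝ) ^ 2 + s ^ 2 - 1) / (2 * 1.282 * s)) / (2 * π) := by
    rw [le_div_iff₀ (by positivity)]
    nlinarith
  have hX : 1.967 * s ≤ √((((1.282 : ℝ) + s) ^ 2 - 1) * (1 - (1.282 - s) ^ 2)) := by
    apply Real.le_sqrt_of_sq_le
    have e : (((1.282 : ℝ) + s) ^ 2 - 1) * (1 - (1.282 - s) ^ 2)
        = 4 * 1.282 ^ 2 * s ^ 2 - ((1.282 : ℝ) ^ 2 + s ^ 2 - 1) ^ 2 := by ring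
    rw [e]
    have h3 : ((1.282 : ℝ) ^ 2 + s ^ 2 - 1) ^ 2 ≤ (1.643524 * s) ^ 2 :=
      pow_le_pow_left₀ hu0 hu 2
    nlinarith [sq_nonneg s]
  have h3 : 0.5678 * s ≤
      √((((1.282 : ℝ) + s) ^ 2 - 1) * (1 - (1.282 - s) ^ 2)) / (2 * √3) := by
    have h4 := sq3_hi
    have h5 := sq3_lo
    rw [le_div_iff₀ (by linarith)]
    nlinarith
  unfold S0
  nlinarith

end Pool.Agent.H84.P6
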