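import Pool.Agent.H84.P6.Defs

/-!
# OE2: endpoint inequality for `OC`
Formula: with `c = (R²+s²-1)/(2Rs)`: `√(((R+s)²-1)(1-(R-s)²)) = 2 R s √(1-c²)`, so `S0 R s = R s √(1-c²)/√3 + arccos c/(2π) - 2/3`.
`R = 1.1135`, `s ∈ [.5238,1]`: `c(s) = (s + .23988/s)/2.227` is convex in `s`, `c(.5238) = .44086`, `c(1) = .55675`; so
`c ≤ L(s) := .441 + .2435 (s - .5238)`, and by concavity of `√(1-c²)` and `arccos` on `[0,1]`:
`√(1-c²) ≥ .8975 - .141 (s-.5238)`, `arccos c ≥ 1.1140 - .282 (s-.5238)`.  With `x = s-.5238 ∈ [0,.4762]` everything is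
`≥ .016 - .004 x + .159 x² > 0` (κ = 1/4).  (Any other proof is welcome: e.g. split the interval; true minimum is `.01704`.)
-/

set_option autoImplicit false

open Real

noncomputable section

namespace Pool.Agent.H84.P6

theorem OE2_cos {y a b c d : ℝ} (h0 : a ≤ 1 - y ^ 2 / 2) (ha : 0 ≤ a) (h1 : b ≤ 2 * a ^ 2 - 1)
    (hb : 0 ≤ b) (h2 : c ≤ 2 * b ^ 2 - 1) (hc : 0 ≤ c) (h3 : d ≤ 2 * c ^ 2 - 1) :
    d ≤ Real.cos (8 * y) := by
  have e0 : a ≤ Real.cos y := h0.trans (Real.one_sub_sq_div_two_le_cos)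
  have e1 : b ≤ Real.cos (2 * y) := by
    rw [Real.cos_two_mul]
    have := pow_le_pow_left₀ ha e0 2
    linarith
  have e2 : c ≤ Real.cos (2 * (2 * y)) := by
    rw [Real.cos_two_mul]
    have := pow_le_pow_left₀ hb e1 2
    linarith
  have e3 : d ≤ Real.cos (2 * (2 * (2 * y))) := by
    rw [Real.cos_two_mul]
    have := pow_le_pow_left₀ hc e2 2
    linarith
  rw [show 8 * y = 2 * (2 * (2 * y)) by ring]
  exact e3

theorem OE2_c0 : (0.441 : ℝ) ≤ Real.cos 1.11 := by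
  have h := OE2_cos (y := 0.13875) (a := 0.99037) (b := 0.96166) (c := 0.8495) (d := 0.441)
    (by norm_num) (by norm_num) (by norm_num) (by norm_num) (by norm_num) (by norm_num)
    (by norm_num)
  rwa [show (8 : ℝ) * 0.13875 = 1.11 by norm_num] at h

theorem OE2_c1 : (0.557 : ℝ) ≤ Real.cos 0.975 := by
  have h := OE2_cos (y := 0.121875) (a := 0.99257) (b := 0.97039) (c := 0.8833) (d := 0.557)
    (by norm_num) (by norm_num) (by norm_num) (by norm_num) (by norm_num) (by norm_num)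
    (by norm_num)
  rwa [show (8 : ℝ) * 0.121875 = 0.975 by norm_num] at h

theorem OE2 {s : ℝ} (hs : 0.5238 ≤ s) (hs1 : s ≤ 1) :
    0 ≤ S0 1.1135 s + (1 - s) / 4 + (1 - s) ^ 2 / 4 + 1 / 4 * (1.1135 - 1) := by
  have hs0 : 0 < s := by linarith
  have hprod : 0 ≤ (s - 0.5238) * (1 - s) := mul_nonneg (by linarith) (by linarith)
  -- the cosine
  have hnum : (1.1135 : ℝ) ^ 2 + s ^ 2 - 1 ≤
      2 * 1.1135 * s * (0.441 + 0.2435 * (s - 0.5238)) := by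
    nlinarith
  have hnum0 : (0 : ℝ) ≤ (1.1135 : ℝ) ^ 2 + s ^ 2 - 1 := by nlinarith [sq_nonneg s]
  have hL0 : (0 : ℝ) ≤ 0.441 + 0.2435 * (s - 0.5238) := by nlinarith
  have hc : ((1.1135 : ℝ) ^ 2 + s ^ 2 - 1) / (2 * 1.1135 * s) ≤
      0.441 + 0.2435 * (s - 0.5238) := by
    rw [div_le_iff₀ (by positivity)]
    linarith
  -- the square root
  have hy0 : (0 : ℝ) ≤ 0.8975 - 0.141 * (s - 0.5238) := by nlinarith
  have hyL : (0.8975 - 0.141 * (s - 0.5238)) ^ 2 + (0.441 + 0.2435 * (s - 0.5238)) ^ 2 ≤ 1 := by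
    nlinarith
  have hsq : 2 * 1.1135 * s * (0.8975 - 0.141 * (s - 0.5238)) ≤
      √(((1.1135 + s) ^ 2 - 1) * (1 - (1.1135 - s) ^ 2)) := by
    apply Real.le_sqrt_of_sq_le
    have e1 : ((1.1135 + s) ^ 2 - 1) * (1 - (1.1135 - s) ^ 2) =
        (2 * 1.1135 * s) ^ 2 - ((1.1135 : ℝ) ^ 2 + s ^ 2 - 1) ^ 2 := by ring
    have e2 : ((1.1135 : ℝ) ^ 2 + s ^ 2 - 1) ^ 2 ≤
        (2 * 1.1135 * s * (0.441 + 0.2435 * (s - 0.5238))) ^ 2 := pow_le_pow_left₀ hnum0 hnum 2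
    have e3 : (2 * 1.1135 * s) ^ 2 * ((0.8975 - 0.141 * (s - 0.5238)) ^ 2 +
        (0.441 + 0.2435 * (s - 0.5238)) ^ 2) ≤ (2 * 1.1135 * s) ^ 2 * 1 :=
      mul_le_mul_of_nonneg_left hyL (sq_nonneg _)
    rw [e1]
    calc (2 * 1.1135 * s * (0.8975 - 0.141 * (s - 0.5238))) ^ 2
        = (2 * 1.1135 * s) ^ 2 * ((0.8975 - 0.141 * (s - 0.5238)) ^ 2 +
        (0.441 + 0.2435 * (s - 0.5238)) ^ 2) -
          (2 * 1.1135 * s * (0.441 + 0.2435 * (s - 0.5238))) ^ 2 := by ring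
      _ ≤ (2 * 1.1135 * s) ^ 2 - ((1.1135 : ℝ) ^ 2 + s ^ 2 - 1) ^ 2 := by linarith
  have h3 : (0 : ℝ) < √3 := by linarith [sq3_lo]
  have hA : 1.1135 * s * (0.8975 - 0.141 * (s - 0.5238)) * 0.57735 ≤
      √(((1.1135 + s) ^ 2 - 1) * (1 - (1.1135 - s) ^ 2)) / (2 * √3) := by
    rw [le_div_iff₀ (by positivity)]
    have e1 : (0.57735 : ℝ) * √3 ≤ 1 := by nlinarith [sq3_hi]
    have e2 : 0 ≤ 2 * 1.1135 * s * (0.8975 - 0.141 * (s - 0.5238)) := by positivity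
    have e3 := mul_le_mul_of_nonneg_left e1 e2
    calc 1.1135 * s * (0.8975 - 0.141 * (s - 0.5238)) * 0.57735 * (2 * √3)
        = 2 * 1.1135 * s * (0.8975 - 0.141 * (s - 0.5238)) * (0.57735 * √3) := by ring
      _ ≤ 2 * 1.1135 * s * (0.8975 - 0.141 * (s - 0.5238)) * 1 := e3
      _ ≤ _ := by rw [mul_one]; exact hsq
  -- the angle
  set l : ℝ := (s - 0.5238) / 0.4762 with hl
  have hl0 : 0 ≤ l := div_nonneg (by linarith) (by norm_num)
  have hl1 : l ≤ 1 := by rw [hl, div_le_one (by norm_num)]; linarith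
  have hsl : s - 0.5238 = 0.4762 * l := by rw [hl]; field_simp
  have hcos : 0.441 + 0.2435 * (s - 0.5238) ≤ Real.cos (1.11 - 0.135 * l) := by
    have m1 : (1.11 : ℝ) ∈ Set.Icc (-(π / 2)) (π / 2) := by
      constructor <;> linarith [Real.pi_gt_three]
    have m2 : (0.975 : ℝ) ∈ Set.Icc (-(π / 2)) (π / 2) := by
      constructor <;> linarith [Real.pi_gt_three]
    have hcc := strictConcaveOn_cos_Icc.concaveOn.2 m1 m2 (show 0 ≤ 1 - l by linarith) hl0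
      (by ring)
    simp only [smul_eq_mul] at hcc
    rw [show (1 - l) * 1.11 + l * 0.975 = 1.11 - 0.135 * l by ring] at hcc
    have e1 := mul_le_mul_of_nonneg_left OE2_c0 (show 0 ≤ 1 - l by linarith)
    have e2 := mul_le_mul_of_nonneg_left OE2_c1 hl0
    rw [hsl]
    nlinarith
  have hth0 : 0 ≤ 1.11 - 0.135 * l := by linarith
  have hB : 1.11 - 0.135 * l ≤ Real.arccos (((1.1135 : ℝ) ^ 2 + s ^ 2 - 1) / (2 * 1.1135 * s)) := by
    have e1 := Real.arccos_le_arccos (hc.trans hcos)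
    rwa [Real.arccos_cos hth0 (by linarith [Real.pi_gt_three])] at e1
  have hC : (1.11 - 0.135 * l) * 0.15915 ≤
      Real.arccos (((1.1135 : ℝ) ^ 2 + s ^ 2 - 1) / (2 * 1.1135 * s)) / (2 * π) := by
    rw [le_div_iff₀ (by positivity)]
    have e1 : (0.15915 : ℝ) * (2 * π) ≤ 1 := by nlinarith [Real.pi_lt_d6]
    have e2 := mul_le_mul_of_nonneg_left e1 hth0
    calc (1.11 - 0.135 * l) * 0.15915 * (2 * π) = (1.11 - 0.135 * l) * (0.15915 * (2 * π)) := by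
          ring
      _ ≤ (1.11 - 0.135 * l) * 1 := e2
      _ ≤ _ := by rw [mul_one]; exact hB
  have hl' : 0.135 * l = 0.135 / 0.4762 * (s - 0.5238) := by rw [hsl]; ring
  unfold S0
  have hfin : 0 ≤ 1.1135 * s * (0.8975 - 0.141 * (s - 0.5238)) * 0.57735 +
      (1.11 - 0.135 * l) * 0.15915 - 2 / 3 + (1 - s) / 4 + (1 - s) ^ 2 / 4 +
      1 / 4 * (1.1135 - 1) := by
    rw [hl']
    nlinarith [sq_nonneg (s - 0.5355)]
  linarith

end Pool.Agent.H84.P6
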