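import Pool.Agent.H84.P6.E1
import Pool.Agent.H84.P6.E2
import Pool.Agent.H84.P6.CB
import Pool.Agent.H84.P6.AB

/-!
# PP: both radii at most 1
`A = √((r+s)²-1)`, `B = √(1-(r-s)²)`, `U = 2-r-s ∈ [0,1)`, `B0 = √(1-U²)`: `|r-s| ≤ U`, so `B0 ≤ B ≤ 1`, and by `AB`
`S0 r s + U/4 + (r-s)²/4 = hAB A B - 2/3 + U/4` (because `(r-s)² = 1-B²`).  By `CB` it suffices:
* `hAB A 1 - 2/3 + U/4 ≥ 0`: this is `E1`, `√(1+A²) = r+s`, `A ≤ √3`;
* `hAB A B0 - 2/3 + U/4 ≥ 0`: let `u = (1-U)/2 ∈ (0,1/2]`, `α = arccos u ∈ [π/3, π/2)`.  `A² = 4u(1+u)`, `B0² = 4u(1-u)`,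
  `A B0 = 4u √(1-u²) = 2 sin 2α`, `B0/A = tan (α/2)` so `arctan (B0/A) = α/2`, `(1-B0²)/4 = U²/4`, `U = 1-2 cos α`: this is `E2`.
-/

set_option autoImplicit false

open Real

noncomputable section

namespace Pool.Agent.H84.P6

theorem PP {r s : ℝ} (hr : 0 < r) (hr1 : r ≤ 1) (hs : 0 < s) (hs1 : s ≤ 1) (h : 1 < r + s) :
    0 ≤ S0 r s + (2 - r - s) / 4 + (r - s) ^ 2 / 4 := by
  have hU0 : 0 ≤ 2 - r - s := by linarith
  have hU1 : 2 - r - s < 1 := by linarith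
  have hd : (r - s) ^ 2 ≤ (2 - r - s) ^ 2 := by nlinarith
  have hUsq : (2 - r - s) ^ 2 ≤ 1 := by nlinarith
  have hd1 : (r - s) ^ 2 ≤ 1 := hd.trans hUsq
  have hA2 : 0 < (r + s) ^ 2 - 1 := by nlinarith
  have hA : 0 < √((r + s) ^ 2 - 1) := Real.sqrt_pos.mpr hA2
  have hAsq : √((r + s) ^ 2 - 1) ^ 2 = (r + s) ^ 2 - 1 := Real.sq_sqrt hA2.le
  have hBsq : √(1 - (r - s) ^ 2) ^ 2 = 1 - (r - s) ^ 2 := Real.sq_sqrt (by linarith)
  have hB1 : √(1 - (r - s) ^ 2) ≤ 1 := by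
    rw [Real.sqrt_le_left (by norm_num)]
    nlinarith [sq_nonneg (r - s)]
  have hB0B : √(1 - (2 - r - s) ^ 2) ≤ √(1 - (r - s) ^ 2) := Real.sqrt_le_sqrt (by linarith)
  have hcb := CB hA (Real.sqrt_nonneg _) hB0B hB1
  have hS := AB hr hs h hd1
  have key : S0 r s + (2 - r - s) / 4 + (r - s) ^ 2 / 4
      = hAB (√((r + s) ^ 2 - 1)) (√(1 - (r - s) ^ 2)) - 2 / 3 + (2 - r - s) / 4 := by
    rw [hS]
    unfold hAB
    rw [hBsq]
    ring
  rw [key]
  -- the end point `B = 1`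
  have k1 : 0 ≤ hAB (√((r + s) ^ 2 - 1)) 1 - 2 / 3 + (2 - r - s) / 4 := by
    have e := E1 hA (Real.sqrt_le_sqrt (by nlinarith))
    have e2 : √(1 + √((r + s) ^ 2 - 1) ^ 2) = r + s := by
      rw [hAsq, show 1 + ((r + s) ^ 2 - 1) = (r + s) ^ 2 by ring, Real.sqrt_sq (by linarith)]
    rw [e2] at e
    unfold hAB
    rw [mul_one]
    linarith
  -- the end point `B = B0`
  have k2 : 0 ≤ hAB (√((r + s) ^ 2 - 1)) (√(1 - (2 - r - s) ^ 2)) - 2 / 3 + (2 - r - s) / 4 := by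
    set u : ℝ := (r + s - 1) / 2 with hu
    have hu0 : 0 < u := by rw [hu]; linarith
    have hu1 : u ≤ 1 / 2 := by rw [hu]; linarith
    set α : ℝ := Real.arccos u with hα
    have hcos : Real.cos α = u := Real.cos_arccos (by linarith) (by linarith)
    have hα1 : α ≤ π / 2 := Real.arccos_le_pi_div_two.mpr hu0.le
    have hα0 : π / 3 ≤ α := by
      have : Real.arccos (1 / 2) = π / 3 := by
        rw [← Real.cos_pi_div_three, Real.arccos_cos (by positivity) (by linarith [Real.pi_pos])]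
      rw [← this, hα]
      exact Real.arccos_le_arccos hu1
    have e := E2 hα0 hα1
    set β : ℝ := α / 2 with hβ
    have hπ := Real.pi_pos
    have hβ0 : 0 < β := by rw [hβ]; linarith
    have hβ1 : β < π / 2 := by rw [hβ]; linarith
    have hsinβ : 0 < Real.sin β := Real.sin_pos_of_pos_of_lt_pi hβ0 (by linarith)
    have hcosβ : 0 < Real.cos β := Real.cos_pos_of_mem_Ioo ⟨by linarith, hβ1⟩
    have h2β : α = 2 * β := by rw [hβ]; ring
    have hc2 : 2 * Real.cos β ^ 2 = 1 + u := by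
      have := Real.cos_two_mul β
      rw [← h2β, hcos] at this
      linarith
    have hs2 : 2 * Real.sin β ^ 2 = 1 - u := by
      have := Real.sin_sq_add_cos_sq β
      linarith
    have hc : 0 < √(8 * u) := Real.sqrt_pos.mpr (by linarith)
    have hcsq : √(8 * u) ^ 2 = 8 * u := Real.sq_sqrt (by linarith)
    have eA : √((r + s) ^ 2 - 1) = √(8 * u) * Real.cos β := by
      have : (r + s) ^ 2 - 1 = (√(8 * u) * Real.cos β) ^ 2 := by
        rw [mul_pow, hcsq]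
        have : 8 * u * Real.cos β ^ 2 = 4 * u * (1 + u) := by rw [← hc2]; ring
        rw [this, hu]
        ring
      rw [this, Real.sqrt_sq (by positivity)]
    have eB : √(1 - (2 - r - s) ^ 2) = √(8 * u) * Real.sin β := by
      have : 1 - (2 - r - s) ^ 2 = (√(8 * u) * Real.sin β) ^ 2 := by
        rw [mul_pow, hcsq]
        have : 8 * u * Real.sin β ^ 2 = 4 * u * (1 - u) := by rw [← hs2]; ring
        rw [this, hu]
        ring
      rw [this, Real.sqrt_sq (by positivity)]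
    have eBsq : √(1 - (2 - r - s) ^ 2) ^ 2 = 1 - (2 - r - s) ^ 2 := Real.sq_sqrt (by linarith)
    have eat : Real.arctan (√(1 - (2 - r - s) ^ 2) / √((r + s) ^ 2 - 1)) = β := by
      rw [eA, eB, mul_div_mul_left _ _ hc.ne', ← Real.tan_eq_sin_div_cos,
        Real.arctan_tan (by linarith) hβ1]
    have eprod : √((r + s) ^ 2 - 1) * √(1 - (2 - r - s) ^ 2) = 2 * Real.sin (2 * α) := by
      rw [eA, eB, Real.sin_two_mul, hcos, h2β, Real.sin_two_mul]
      linear_combination (Real.cos β * Real.sin β) * hcsq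
    unfold hAB
    rw [eBsq, eat, eprod]
    rw [hcos] at e
    have hs3 : (0 : ℝ) < √3 := by positivity
    have e3 : 2 * Real.sin (2 * α) / (2 * √3) = Real.sin (2 * α) / √3 := by
      rw [mul_div_mul_left _ _ (two_ne_zero)]
    have e4 : β / π = α / (2 * π) := by
      rw [h2β, mul_div_mul_left _ _ (two_ne_zero)]
    have e5 : (1 - (1 - (2 - r - s) ^ 2)) / 4 = (1 - 2 * u) ^ 2 / 4 := by
      rw [hu]; ring
    have e6 : (2 - r - s) / 4 = (1 - 2 * u) / 4 := by rw [hu]; ring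
    rw [e3, e4, e5, e6]
    linarith
  rcases le_total (hAB (√((r + s) ^ 2 - 1)) (√(1 - (2 - r - s) ^ 2))) (hAB (√((r + s) ^ 2 - 1)) 1) with h3 | h3
  · rw [min_eq_left h3] at hcb
    linarith
  · rw [min_eq_right h3] at hcb
    linarith

end Pool.Agent.H84.P6
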