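import Pool.Agent.H84.P6.RRows

/-! certificate c1 (generated) -/

set_option autoImplicit false
set_option maxRecDepth 100000

namespace Pool.Agent.H84.P6

open Pool.Agent.H30.P6 Pool.Agent.H78.P6

def prm_c1 : Prm := ⟨32, 4096, rR ++ gDat_c1.map gRow, []⟩

def tree_c1_0m : Tree := .N 6 (.N 6 (.L ⟨[(156, 1)], 0, 0, 0, 0, 0, []⟩) (.N 1 (.L ⟨[], 1, 0, 0, 0, 0, []⟩) (.N 1 (.L ⟨[], 1, 0, 0, 0, 0, []⟩) (.N 3 (.L ⟨[(0, 168), (1, 532), (2, 56), (13, 261), (14, 243), (15, 1596), (34, 168), (40, 1764), (42, 2100)], 0, 20944, 0, 107520, 0, []⟩) (.N 2 (.N 3 (.L ⟨[], 1, 0, 0, 6, 0, []⟩) (.N 4 (.L ⟨[(156, 1)], 0, 0, 0, 0, 0, []⟩) (.N 5 (.L ⟨[(157, 1)], 151, 0, 960, 0, 0, []⟩) (.N 2 (.N 6 (.L ⟨[(0, 826), (2, 2346), (11, 2478), (30, 2622), (32, 4416), (39, 7038), (40, 7038), (42, 2478), (157, 413)], 157530, 0, 89267, 114991, 226560, []⟩) (.N 5 (.N 6 (.L ⟨[(0, 16520), (2, 46920),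 (11, 49560), (30, 52440), (32, 88320), (39, 140760), (40, 140760), (42, 49560), (157, 3717)], 1585920, 0, 0, 791308, 1068844, []⟩) (.N 6 (.L ⟨[(0, 2478), (2, 7038), (11, 7434), (30, 7866), (32, 13248), (39, 21114), (40, 21114), (42, 7434), (156, 413)], 99120, 0, 0, 47082, 0, []⟩) (.L ⟨[(0, 15500), (2, 34500), (11, 46500), (32, 103500), (39, 103500), (40, 103500), (42, 46500), (107, 1311)], 629280, 0, 0, 246468, 0, []⟩))) (.L ⟨[(1, 125), (26, 375), (39, 375), (42, 375), (107, 81)], 16362, 0, 0, 33453, 155520, []⟩))) (.L ⟨[], 1, 0, 0, 2, 0, []⟩))))) (.L ⟨[], 1, 0, 0, 3, 0, []⟩)))))) (.N 1 (.L ⟨[], 1, 0, 0, 0, 0, []⟩) (.N 6 (.N 1 (.L ⟨[], 1, 0, 0, 0, 0, []⟩) (.N 6 (.N 4 (.N 5 (.L ⟨[(0, 123), (2, 322), (11, 300), (13, 69), (30, 966), (42, 369), (158, 23)], 11040, 0, 0, 0, 0, []⟩) (.N 3 (.L ⟨[(0, 481), (1, 2114), (2, 252), (13, 252), (14, 1191), (15, 6342), (34, 756),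 (40, 7098)], 7812, 0, 0, 120960, 7560, []⟩) (.N 2 (.N 2 (.N 3 (.L ⟨[(157, 1), (158, 2)], 662, 0, 0, 1920, 1920, []⟩) (.N 4 (.L ⟨[(156, 1)], 0, 0, 0, 0, 0, []⟩) (.N 4 (.L ⟨[(156, 1)], 0, 0, 0, 0, 0, []⟩) (.N 6 (.N 6 (.L ⟨[(0, 249808), (2, 448592), (11, 749424), (32, 1285884), (34, 59892), (39, 1345776), (42, 749424), (107, 32085), (156, 38502)], 8213760, 0, 0, 0, 0, []⟩) (.L ⟨[(0, 67077), (2, 120773), (11, 201231), (32, 347346), (34, 14973), (39, 362319), (42, 201231), (107, 8556), (156, 10695)], 2053440, 0, 0, 0, 0, []⟩)) (.N 6 (.L ⟨[(0, 16522), (2, 29578), (11, 49566), (32, 84456), (34, 4278), (39, 88734), (42, 49566), (107, 2139), (156, 2139)], 513360, 0, 0, 0, 0, []⟩) (.L ⟨[(0, 63594), (2, 29532), (11, 190782), (32, 22839), (34, 65757), (39, 88596), (42, 190782), (100, 7383), (157, 4922)], 2362560, 0, 0, 0, 0, []⟩)))))) (.L ⟨[(1, 125), (26, 375), (107, 84)],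 21336, 0, 0, 80640, 0, []⟩)) (.L ⟨[(0, 616), (1, 787), (11, 1848), (22, 336), (24, 2025), (107, 336)], 59472, 0, 0, 161280, 0, []⟩)))) (.L ⟨[(0, 16522), (2, 29578), (11, 49566), (32, 84456), (34, 4278), (39, 88734), (42, 49566), (107, 2139)], 513360, 0, 0, 0, 0, []⟩)) (.L ⟨[(0, 9893), (2, 2245), (11, 29679), (34, 6735), (39, 6735), (42, 29679), (101, 828), (102, 414), (157, 414)], 397440, 0, 0, 0, 0, []⟩))) (.L ⟨[(0, 20), (11, 60), (103, 3)], 720, 0, 0, 0, 0, []⟩)))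

theorem ok_c1_0m : tree_c1_0m.check prm_c1 ⟨-32, -32, -64, 64, -32, 32, -64, 64, -32, 32, -64, 64, 0, 5376⟩ = true := by decide +kernel

def tree_c1_0p : Tree := .N 6 (.N 6 (.L ⟨[(156, 1)], 0, 0, 0, 0, 0, []⟩) (.L ⟨[(156, 1)], 0, 0, 0, 0, 0, []⟩)) (.L ⟨[(156, 1)], 0, 0, 0, 0, 0, []⟩)

theorem ok_c1_0p : tree_c1_0p.check prm_c1 ⟨32, 32, -64, 64, -32, 32, -64, 64, -32, 32, -64, 64, 0, 5376⟩ = true := by decide +kernel

def tree_c1_1m : Tree := .N 6 (.N 6 (.L ⟨[(178, 1)], 480, 0, 480, 0, 0, []⟩) (.L ⟨[(178, 1)], 480, 0, 480, 0, 0, []⟩)) (.N 3 (.N 3 (.N 2 (.L ⟨[(0, 131207), (1, 86218), (2, 7860), (3, 393621), (21, 215424), (23, 43230), (34, 23580), (39, 282234), (40, 282234), (42, 652275), (67, 11790), (179, 3930)], 1296900, 15091200, 0, 0, 0, []⟩) (.L ⟨[(0, 358943), (1, 100218), (3, 1041537), (5, 35292), (22, 300654), (39, 300654), (41, 1377483), (76, 26988), (178,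 2076)], 0, 31887360, 799260, 0, 0, []⟩)) (.L ⟨[(0, 1296), (1, 276), (3, 2430), (5, 1458), (26, 828), (39, 828), (42, 4716), (178, 23)], 0, 44160, 0, 0, 0, []⟩)) (.L ⟨[(0, 14), (1, 3), (3, 42), (26, 9)], 0, 0, 0, 0, 0, []⟩))

theorem ok_c1_1m : tree_c1_1m.check prm_c1 ⟨-32, 32, -64, -64, -32, 32, -64, 64, -32, 32, -64, 64, 0, 5376⟩ = true := by decide +kernel

def tree_c1_1p : Tree := .N 6 (.N 6 (.L ⟨[(156, 1)], 0, 0, 0, 0, 0, []⟩) (.N 0 (.N 3 (.L ⟨[(0, 980), (1, 2247), (2, 528), (13, 2412), (14, 528), (15, 6741), (34, 1584), (39, 8325), (40, 8325), (41, 9681), (42, 9681), (157, 176)], 0, 0, 0, 42240, 38016, []⟩) (.N 2 (.N 5 (.L ⟨[(0, 24), (2, 79), (13, 72), (27, 12), (28, 225), (42, 72), (158, 24)], 0, 0, 11520, 0, 0, []⟩) (.N 4 (.L ⟨[(156, 1)], 0, 0, 0, 0, 0, []⟩) (.N 6 (.L ⟨[(0, 47908), (2, 136068), (11, 143724), (30, 152076), (32, 256128), (39, 408204), (40,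 408204), (42, 143724), (157, 16933)], 0, 0, 0, 5039013, 6343680, []⟩) (.N 6 (.N 0 (.L ⟨[(0, 15500), (2, 34500), (11, 46500), (32, 103500), (39, 103500), (40, 103500), (42, 46500), (107, 1311), (157, 3726)], 0, 0, 0, 845388, 1059840, []⟩) (.L ⟨[(0, 46500), (2, 103500), (11, 139500), (32, 310500), (39, 310500), (40, 310500), (42, 139500), (107, 3933), (157, 11799)], 0, 0, 0, 2090608, 3356160, []⟩)) (.L ⟨[(0, 58351), (2, 81199), (11, 175053), (32, 147798), (34, 95799), (39, 243597), (42, 175053), (107, 11868), (157, 8901)], 0, 0, 0, 0, 0, []⟩))))) (.L ⟨[(156, 1)], 0, 0, 0, 1920, 0, []⟩))) (.L ⟨[(156, 1)], 0, 0, 0, 0, 0, []⟩))) (.L ⟨[(0, 29125), (2, 1125), (13, 12375), (14, 75000), (36, 3375), (39, 3375), (42, 87375), (107, 18201), (156, 375)], 0, 0, 0, 0, 0, []⟩)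

theorem ok_c1_1p : tree_c1_1p.check prm_c1 ⟨-32, 32, 64, 64, -32, 32, -64, 64, -32, 32, -64, 64, 0, 5376⟩ = true := by decide +kernel

def tree_c1_2m : Tree := .N 6 (.N 6 (.L ⟨[(156, 1)], 0, 0, 240, 0, 240, []⟩) (.N 4 (.L ⟨[(156, 1)], 0, 0, 0, 0, 0, []⟩) (.N 5 (.L ⟨[(0, 1239), (1, 413), (2, 4752), (11, 3717), (23, 1239), (30, 4728), (32, 9528), (39, 15495), (40, 15495), (42, 4956), (157, 1239)], 379960, 0, 792960, 0, 0, []⟩) (.N 6 (.L ⟨[(1, 1239), (2, 3699), (23, 3717), (30, 2385), (32, 8712), (39, 14814), (40, 14814), (42, 3717), (157, 413)], 101598, 0, 18585, 0, 396480, []⟩) (.N 3 (.L ⟨[], 0, 7, 0, 0, 30, []⟩) (.L ⟨[(1, 2065), (2, 6165), (23, 6195), (30, 3975), (32, 14520), (39, 24690), (40, 24690), (42, 6195), (45, 2469), (157, 413)], 20650, 0, 0, 0, 198240, []⟩)))))) (.N 1 (.L ⟨[(1, 74894), (2, 76256), (21, 212748), (23, 11934), (32, 206304), (34, 22464),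 (40, 453450), (42, 224682), (47, 45345), (65, 702), (156, 7020)], 5391360, 0, 0, 0, 0, []⟩) (.N 6 (.N 6 (.N 6 (.L ⟨[(0, 7449), (1, 27587), (2, 64720), (11, 22347), (21, 60987), (23, 21774), (32, 185565), (34, 8595), (39, 276921), (40, 276921), (42, 105108), (156, 5157)], 0, 0, 0, 0, 0, []⟩) (.L ⟨[(0, 7449), (1, 27587), (2, 64720), (11, 22347), (21, 60987), (23, 21774), (32, 185565), (34, 8595), (39, 276921), (40, 276921), (42, 105108), (156, 5157)], 0, 0, 0, 0, 0, []⟩)) (.L ⟨[(0, 58446), (1, 218873), (2, 513905), (11, 175338), (21, 480135), (23, 176484), (32, 1475247), (34, 66468), (39, 2198334), (40, 2198334), (42, 831957), (156, 42402)], 0, 0, 0, 0, 0, []⟩)) (.L ⟨[(0, 195237), (1, 602794), (2, 455553), (11, 585711), (21, 1551165), (23, 257217), (32, 580353), (34, 786306), (39, 3175041), (40, 3175041), (42, 2394093), (103, 46485), (157, 58881)], 11900160, 0,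 0, 0, 0, []⟩)))

theorem ok_c1_2m : tree_c1_2m.check prm_c1 ⟨-32, 32, -64, 64, -32, -32, -64, 64, -32, 32, -64, 64, 0, 5376⟩ = true := by decide +kernel

def tree_c1_2p : Tree := .N 6 (.N 6 (.L ⟨[(156, 1)], 240, 0, 0, 240, 0, []⟩) (.N 4 (.L ⟨[(0, 10025), (1, 7175), (9, 30075), (20, 15675), (22, 5850), (39, 21525), (41, 51600), (53, 5160), (156, 1032), (179, 516)], 106812, 0, 0, 247680, 0, []⟩) (.N 0 (.N 1 (.L ⟨[(0, 4752), (1, 413), (2, 1239), (7, 4728), (9, 9528), (22, 1239), (34, 3717), (39, 4956), (41, 15495), (42, 15495), (179, 1239)], 792960, 0, 379960, 0, 0, []⟩) (.N 6 (.L ⟨[(0, 3699), (1, 1239), (7, 2385), (9, 8712), (22, 3717), (39, 3717), (41, 14814), (42, 14814), (179, 413)], 18585, 0, 101598, 396480, 0, []⟩) (.N 3 (.L ⟨[], 0, 7, 0, 30, 0, []⟩) (.L ⟨[(0, 6165), (1, 2065), (7, 3975), (9, 14520), (22, 6195), (39, 6195), (41, 24690), (42, 24690), (54, 2469),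 (179, 413)], 0, 0, 20650, 198240, 0, []⟩)))) (.L ⟨[(156, 1)], 0, 0, 0, 0, 0, []⟩)))) (.N 5 (.L ⟨[(0, 76256), (1, 74894), (9, 206304), (11, 22464), (20, 212748), (22, 11934), (39, 224682), (41, 453450), (52, 45345), (77, 702), (156, 7020)], 0, 0, 5391360, 0, 0, []⟩) (.N 6 (.N 6 (.N 6 (.L ⟨[(0, 64720), (1, 27587), (2, 7449), (9, 185565), (11, 8595), (20, 60987), (22, 21774), (34, 22347), (39, 105108), (41, 276921), (42, 276921), (156, 5157)], 0, 0, 0, 0, 0, []⟩) (.L ⟨[(0, 64720), (1, 27587), (2, 7449), (9, 185565), (11, 8595), (20, 60987), (22, 21774), (34, 22347), (39, 105108), (41, 276921), (42, 276921), (156, 5157)], 0, 0, 0, 0, 0, []⟩)) (.L ⟨[(0, 513905), (1, 218873), (2, 58446), (9, 1475247), (11, 66468), (20, 480135), (22, 176484), (34, 175338), (39, 831957), (41, 2198334), (42, 2198334), (156, 42402)], 0, 0, 0, 0, 0, []⟩)) (.L ⟨[(0, 455553), (1, 602794),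 (2, 195237), (9, 580353), (11, 786306), (20, 1551165), (22, 257217), (34, 585711), (39, 2394093), (41, 3175041), (42, 3175041), (87, 46485), (179, 58881)], 0, 0, 11900160, 0, 0, []⟩)))

theorem ok_c1_2p : tree_c1_2p.check prm_c1 ⟨-32, 32, -64, 64, 32, 32, -64, 64, -32, 32, -64, 64, 0, 5376⟩ = true := by decide +kernel

def tree_c1_3m : Tree := .N 6 (.N 6 (.L ⟨[], 0, 1, 0, 0, 0, []⟩) (.L ⟨[], 0, 1, 0, 0, 0, []⟩)) (.L ⟨[(0, 528), (1, 6193), (2, 528), (11, 1584), (15, 18579), (34, 1584), (39, 20163), (40, 20163), (41, 20163), (42, 20163), (71, 528), (156, 144)], 0, 368640, 0, 0, 0, []⟩)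

theorem ok_c1_3m : tree_c1_3m.check prm_c1 ⟨-32, 32, -64, 64, -32, 32, -64, -64, -32, 32, -64, 64, 0, 5376⟩ = true := by decide +kernel

def tree_c1_3p : Tree := .N 6 (.N 6 (.L ⟨[(156, 1)], 240, 0, 240, 145, 145, []⟩) (.N 0 (.N 4 (.L ⟨[(156, 1)], 0, 0, 0, 0, 0, []⟩) (.N 5 (.L ⟨[(1, 2), (2, 9), (26, 6), (27, 27), (39, 6), (42, 6), (157, 2)], 594, 0, 1920, 0, 0, []⟩) (.N 1 (.L ⟨[(179, 1)], 960, 0, 182, 0, 0, []⟩) (.N 6 (.N 6 (.N 2 (.L ⟨[(156, 1), (157, 1)], 763, 0, 763, 566, 960, []⟩) (.L ⟨[(156, 1), (179, 1)], 763, 0, 763, 960, 566, []⟩)) (.N 6 (.N 2 (.L ⟨[(0, 2065), (2, 5865), (11, 6195), (30, 6555), (32, 11040), (39, 17595), (40, 17595), (42, 6195), (156, 1239)], 331639, 0, 340312, 251517, 396480, []⟩) (.L ⟨[(0, 5865), (2, 2065), (7, 6555), (9, 11040), (34, 6195), (39, 6195), (41, 17595), (42, 17595), (156, 1239)], 340312, 0, 331639, 396480, 251517, []⟩)) (.N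 6 (.N 6 (.N 2 (.L ⟨[(0, 189571), (2, 289777), (9, 384123), (11, 184590), (32, 869331), (39, 869331), (40, 869331), (42, 568713), (156, 44730)], 8970570, 0, 8893080, 6989220, 9676800, []⟩) (.L ⟨[(0, 289777), (2, 189571), (9, 869331), (32, 384123), (34, 184590), (39, 568713), (41, 869331), (42, 869331), (156, 44730)], 8893080, 0, 8970570, 9676800, 6989220, []⟩)) (.N 6 (.L ⟨[(0, 1925), (2, 1925), (9, 5313), (11, 462), (32, 5313), (34, 462), (39, 5775), (42, 5775), (156, 174)], 0, 0, 0, 0, 0, []⟩) (.L ⟨[(0, 7675), (2, 7675), (9, 21183), (11, 1842), (32, 21183), (34, 1842), (39, 23025), (42, 23025), (156, 684)], 0, 0, 0, 0, 0, []⟩))) (.N 6 (.N 6 (.L ⟨[(0, 1925), (2, 1925), (9, 5313), (11, 462), (32, 5313), (34, 462), (39, 5775), (42, 5775), (156, 171)], 0, 0, 0, 0, 0, []⟩) (.L ⟨[(0, 1925), (2, 1925), (9, 5313), (11, 462), (32, 5313), (34, 462), (39, 5775), (42, 5775),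 (156, 171)], 0, 0, 0, 0, 0, []⟩)) (.N 6 (.L ⟨[(0, 1925), (2, 1925), (9, 5313), (11, 462), (32, 5313), (34, 462), (39, 5775), (42, 5775), (156, 171)], 0, 0, 0, 0, 0, []⟩) (.L ⟨[(0, 1925), (2, 1925), (9, 5313), (11, 462), (32, 5313), (34, 462), (39, 5775), (42, 5775), (156, 171)], 0, 0, 0, 0, 0, []⟩)))))) (.N 6 (.N 6 (.N 6 (.N 6 (.N 6 (.L ⟨[(0, 1925), (2, 1925), (9, 5313), (11, 462), (32, 5313), (34, 462), (39, 5775), (42, 5775), (156, 171)], 0, 0, 0, 0, 0, []⟩) (.L ⟨[(0, 1925), (2, 1925), (9, 5313), (11, 462), (32, 5313), (34, 462), (39, 5775), (42, 5775), (156, 171)], 0, 0, 0, 0, 0, []⟩)) (.N 6 (.L ⟨[(0, 1925), (2, 1925), (9, 5313), (11, 462), (32, 5313), (34, 462), (39, 5775), (42, 5775), (156, 171)], 0, 0, 0, 0, 0, []⟩) (.L ⟨[(0, 1925), (2, 1925), (9, 5313), (11, 462), (32, 5313), (34, 462), (39, 5775), (42, 5775), (156, 171)], 0, 0, 0, 0, 0, []⟩))) (.N 6 (.N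 6 (.L ⟨[(0, 1925), (2, 1925), (9, 5313), (11, 462), (32, 5313), (34, 462), (39, 5775), (42, 5775), (156, 171)], 0, 0, 0, 0, 0, []⟩) (.L ⟨[(0, 1925), (2, 1925), (9, 5313), (11, 462), (32, 5313), (34, 462), (39, 5775), (42, 5775), (156, 171)], 0, 0, 0, 0, 0, []⟩)) (.N 6 (.L ⟨[(0, 1925), (2, 1925), (9, 5313), (11, 462), (32, 5313), (34, 462), (39, 5775), (42, 5775), (156, 171)], 0, 0, 0, 0, 0, []⟩) (.L ⟨[(0, 1925), (2, 1925), (9, 5313), (11, 462), (32, 5313), (34, 462), (39, 5775), (42, 5775), (156, 171)], 0, 0, 0, 0, 0, []⟩)))) (.N 6 (.N 6 (.N 6 (.L ⟨[(0, 1925), (2, 1925), (9, 5313), (11, 462), (32, 5313), (34, 462), (39, 5775), (42, 5775), (156, 171)], 0, 0, 0, 0, 0, []⟩) (.L ⟨[(0, 1925), (2, 1925), (9, 5313), (11, 462), (32, 5313), (34, 462), (39, 5775), (42, 5775), (156, 171)], 0, 0, 0, 0, 0, []⟩)) (.N 6 (.L ⟨[(0, 1925), (2, 1925), (9, 5313), (11, 462), (32,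 5313), (34, 462), (39, 5775), (42, 5775), (156, 171)], 0, 0, 0, 0, 0, []⟩) (.L ⟨[(0, 1925), (2, 1925), (9, 5313), (11, 462), (32, 5313), (34, 462), (39, 5775), (42, 5775), (156, 171)], 0, 0, 0, 0, 0, []⟩))) (.N 6 (.N 6 (.L ⟨[(0, 1925), (2, 1925), (9, 5313), (11, 462), (32, 5313), (34, 462), (39, 5775), (42, 5775), (156, 171)], 0, 0, 0, 0, 0, []⟩) (.L ⟨[(0, 1925), (2, 1925), (9, 5313), (11, 462), (32, 5313), (34, 462), (39, 5775), (42, 5775), (156, 171)], 0, 0, 0, 0, 0, []⟩)) (.N 6 (.L ⟨[(0, 1925), (2, 1925), (9, 5313), (11, 462), (32, 5313), (34, 462), (39, 5775), (42, 5775), (156, 171)], 0, 0, 0, 0, 0, []⟩) (.L ⟨[(0, 1925), (2, 1925), (9, 5313), (11, 462), (32, 5313), (34, 462), (39, 5775), (42, 5775), (156, 171)], 0, 0, 0, 0, 0, []⟩))))) (.N 6 (.N 6 (.N 6 (.N 6 (.L ⟨[(0, 1925), (2, 1925), (9, 5313), (11, 462), (32, 5313), (34, 462), (39, 5775), (42, 5775),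 (156, 171)], 0, 0, 0, 0, 0, []⟩) (.L ⟨[(0, 1925), (2, 1925), (9, 5313), (11, 462), (32, 5313), (34, 462), (39, 5775), (42, 5775), (156, 171)], 0, 0, 0, 0, 0, []⟩)) (.N 6 (.L ⟨[(0, 1925), (2, 1925), (9, 5313), (11, 462), (32, 5313), (34, 462), (39, 5775), (42, 5775), (156, 171)], 0, 0, 0, 0, 0, []⟩) (.L ⟨[(0, 1925), (2, 1925), (9, 5313), (11, 462), (32, 5313), (34, 462), (39, 5775), (42, 5775), (156, 171)], 0, 0, 0, 0, 0, []⟩))) (.N 6 (.N 6 (.L ⟨[(0, 1925), (2, 1925), (9, 5313), (11, 462), (32, 5313), (34, 462), (39, 5775), (42, 5775), (156, 171)], 0, 0, 0, 0, 0, []⟩) (.L ⟨[(0, 1925), (2, 1925), (9, 5313), (11, 462), (32, 5313), (34, 462), (39, 5775), (42, 5775), (156, 171)], 0, 0, 0, 0, 0, []⟩)) (.N 6 (.L ⟨[(0, 1925), (2, 1925), (9, 5313), (11, 462), (32, 5313), (34, 462), (39, 5775), (42, 5775), (156, 171)], 0, 0, 0, 0, 0, []⟩) (.L ⟨[(0, 1925), (2, 1925), (9,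 5313), (11, 462), (32, 5313), (34, 462), (39, 5775), (42, 5775), (156, 171)], 0, 0, 0, 0, 0, []⟩)))) (.N 6 (.N 6 (.N 6 (.L ⟨[(0, 1925), (2, 1925), (9, 5313), (11, 462), (32, 5313), (34, 462), (39, 5775), (42, 5775), (156, 171)], 0, 0, 0, 0, 0, []⟩) (.L ⟨[(0, 1925), (2, 1925), (9, 5313), (11, 462), (32, 5313), (34, 462), (39, 5775), (42, 5775), (156, 171)], 0, 0, 0, 0, 0, []⟩)) (.N 6 (.L ⟨[(0, 1925), (2, 1925), (9, 5313), (11, 462), (32, 5313), (34, 462), (39, 5775), (42, 5775), (156, 171)], 0, 0, 0, 0, 0, []⟩) (.L ⟨[(0, 702), (1, 7951), (2, 702), (11, 2106), (26, 23853), (34, 2106), (39, 25959), (42, 25959), (107, 5346), (156, 189)], 0, 0, 0, 0, 0, []⟩))) (.L ⟨[(0, 702), (1, 7951), (2, 702), (11, 2106), (26, 23853), (34, 2106), (39, 25959), (42, 25959), (107, 5346), (156, 162)], 0, 0, 0, 0, 0, []⟩)))))))) (.L ⟨[(156, 1)], 0, 0, 0, 0, 0, []⟩))) (.L ⟨[(0, 243),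 (1, 6257), (2, 243), (13, 729), (26, 18771), (36, 729), (39, 19500), (42, 19500), (107, 4212), (156, 81)], 0, 0, 0, 0, 0, []⟩)

theorem ok_c1_3p : tree_c1_3p.check prm_c1 ⟨-32, 32, -64, 64, -32, 32, 64, 64, -32, 32, -64, 64, 0, 5376⟩ = true := by decide +kernel

def tree_c1_4m : Tree := .N 6 (.N 6 (.L ⟨[(156, 1)], 0, 0, 0, 0, 0, []⟩) (.L ⟨[(156, 1)], 0, 0, 0, 0, 0, []⟩)) (.L ⟨[(156, 1)], 0, 0, 0, 0, 0, []⟩)

theorem ok_c1_4m : tree_c1_4m.check prm_c1 ⟨-32, 32, -64, 64, -32, 32, -64, 64, -32, -32, -64, 64, 0, 5376⟩ = true := by decide +kernel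

def tree_c1_4p : Tree := .N 6 (.N 6 (.L ⟨[(156, 1)], 0, 0, 0, 0, 0, []⟩) (.N 5 (.L ⟨[], 0, 0, 1, 0, 0, []⟩) (.N 5 (.L ⟨[], 0, 0, 1, 0, 0, []⟩) (.N 3 (.L ⟨[(0, 56), (1, 532), (2, 168), (11, 168), (15, 1596), (36, 261), (38, 243), (39, 2100), (41, 1764)], 0, 20944, 0, 0, 107520, []⟩) (.N 2 (.L ⟨[], 0, 0, 1, 0, 3, []⟩) (.N 3 (.L ⟨[], 0, 0, 1, 0, 6, []⟩) (.N 0 (.N 1 (.L ⟨[(179, 1)], 960, 0, 151, 0, 0, []⟩) (.N 2 (.L ⟨[], 0, 0, 1, 0, 2, []⟩) (.N 6 (.L ⟨[(0, 2346), (2, 826), (7, 2622), (9, 4416), (34, 2478), (39, 2478), (41, 7038), (42, 7038), (179, 413)], 89267, 0, 157530, 226560, 114991, []⟩) (.N 1 (.N 6 (.L ⟨[(0, 46920), (2, 16520), (7, 52440), (9, 88320), (34, 49560), (39, 49560), (41, 140760), (42, 140760), (179, 3717)], 0, 0, 1585920, 1068844, 791308, []⟩) (.N 6 (.L ⟨[(0, 7038), (2, 2478), (7, 7866), (9, 13248), (34, 7434), (39, 7434), (41, 21114), (42, 21114),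 (156, 413)], 0, 0, 99120, 0, 47082, []⟩) (.L ⟨[(0, 34500), (2, 15500), (9, 103500), (34, 46500), (39, 46500), (41, 103500), (42, 103500), (107, 1311)], 0, 0, 629280, 0, 246468, []⟩))) (.L ⟨[(1, 125), (26, 375), (39, 375), (42, 375), (107, 81)], 0, 0, 16362, 155520, 33453, []⟩))))) (.L ⟨[(156, 1)], 0, 0, 0, 0, 0, []⟩)))))))) (.N 5 (.L ⟨[], 0, 0, 1, 0, 0, []⟩) (.N 6 (.N 5 (.L ⟨[], 0, 0, 1, 0, 0, []⟩) (.N 6 (.N 3 (.L ⟨[(0, 84), (1, 278), (2, 105), (11, 252), (15, 834), (36, 315), (39, 876), (41, 1086), (179, 21)], 0, 0, 2016, 0, 20160, []⟩) (.N 2 (.L ⟨[(1, 787), (2, 616), (23, 336), (25, 2025), (34, 1848), (107, 336)], 0, 0, 59472, 0, 161280, []⟩) (.N 2 (.L ⟨[(1, 125), (26, 375), (107, 84)], 0, 0, 21336, 0, 80640, []⟩) (.N 3 (.L ⟨[], 0, 0, 1, 0, 15, []⟩) (.N 1 (.L ⟨[(0, 2254), (2, 861), (7, 6762), (34, 2100), (36, 483), (39, 2583), (178, 138)], 0, 0, 66240, 0, 0,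 []⟩) (.N 0 (.L ⟨[(0, 29578), (2, 16522), (9, 84456), (11, 4278), (34, 49566), (39, 49566), (42, 88734), (107, 2139)], 0, 0, 513360, 0, 0, []⟩) (.N 0 (.N 0 (.N 6 (.N 6 (.L ⟨[(0, 448592), (2, 249808), (9, 1285884), (11, 59892), (34, 749424), (39, 749424), (42, 1345776), (107, 32085), (156, 38502)], 0, 0, 8213760, 0, 0, []⟩) (.L ⟨[(0, 120773), (2, 67077), (9, 347346), (11, 14973), (34, 201231), (39, 201231), (42, 362319), (107, 8556), (156, 10695)], 0, 0, 2053440, 0, 0, []⟩)) (.N 6 (.L ⟨[(0, 29578), (2, 16522), (9, 84456), (11, 4278), (34, 49566), (39, 49566), (42, 88734), (107, 2139), (156, 2139)], 0, 0, 513360, 0, 0, []⟩) (.L ⟨[(0, 29532), (2, 63594), (9, 22839), (11, 65757), (34, 190782), (39, 190782), (42, 88596), (90, 7383), (179, 4922)], 0, 0, 2362560, 0, 0, []⟩))) (.L ⟨[(156, 1)], 0, 0, 0, 0, 0, []⟩)) (.L ⟨[(156, 1)], 0, 0, 0, 0, 0, []⟩)))))))) (.L ⟨[(0,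 2245), (2, 9893), (11, 6735), (34, 29679), (39, 29679), (42, 6735), (88, 414), (89, 828), (179, 414)], 0, 0, 397440, 0, 0, []⟩))) (.L ⟨[(2, 20), (34, 60), (87, 3)], 0, 0, 720, 0, 0, []⟩)))

theorem ok_c1_4p : tree_c1_4p.check prm_c1 ⟨-32, 32, -64, 64, -32, 32, -64, 64, 32, 32, -64, 64, 0, 5376⟩ = true := by decide +kernel

def tree_c1_5m : Tree := .N 6 (.N 6 (.L ⟨[(158, 1)], 480, 0, 480, 0, 0, []⟩) (.L ⟨[(158, 1)], 480, 0, 480, 0, 0, []⟩)) (.N 3 (.N 3 (.N 2 (.L ⟨[(1, 100218), (2, 358943), (23, 300654), (27, 1041537), (28, 35292), (40, 1377483), (42, 300654), (66, 26988), (158, 2076)], 799260, 31887360, 0, 0, 0, []⟩) (.L ⟨[(0, 7860), (1, 86218), (2, 131207), (11, 23580), (20, 215424), (22, 43230), (27, 393621), (39, 652275), (41, 282234), (42, 282234), (75, 11790), (157, 3930)], 0, 15091200, 1296900, 0, 0, []⟩)) (.L ⟨[(1, 276), (2, 1296), (26, 828), (27, 2430),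 (28, 1458), (39, 4716), (42, 828), (158, 23)], 0, 44160, 0, 0, 0, []⟩)) (.L ⟨[(1, 3), (2, 14), (26, 9), (27, 42)], 0, 0, 0, 0, 0, []⟩))

theorem ok_c1_5m : tree_c1_5m.check prm_c1 ⟨-32, 32, -64, 64, -32, 32, -64, 64, -32, 32, -64, -64, 0, 5376⟩ = true := by decide +kernel

def tree_c1_5p : Tree := .N 6 (.N 6 (.L ⟨[(156, 1)], 0, 0, 0, 0, 0, []⟩) (.N 4 (.L ⟨[(156, 1)], 0, 0, 0, 0, 0, []⟩) (.N 0 (.N 3 (.L ⟨[(0, 784), (1, 5019), (2, 2016), (11, 2352), (15, 15057), (36, 3942), (38, 2106), (39, 21105), (40, 21105), (41, 17409), (42, 17409), (179, 336)], 0, 0, 0, 107520, 98784, []⟩) (.N 2 (.L ⟨[(156, 1)], 0, 0, 0, 0, 1920, []⟩) (.N 1 (.L ⟨[(178, 1)], 960, 0, 0, 0, 0, []⟩) (.N 6 (.L ⟨[(0, 136068), (2, 47908), (7, 152076), (9, 256128), (34, 143724), (39, 143724), (41, 408204), (42, 408204), (179, 16933)], 0, 0, 0, 6343680, 5039013, []⟩) (.N 6 (.N 0 (.L ⟨[(0, 25152), (2,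 9912), (7, 15964), (9, 59492), (34, 29736), (39, 29736), (41, 75456), (42, 75456), (107, 413), (179, 2478)], 0, 0, 0, 792960, 447692, []⟩) (.L ⟨[(0, 5604), (2, 2124), (7, 4528), (9, 12284), (34, 6372), (39, 6372), (41, 16812), (42, 16812), (107, 59), (179, 649)], 0, 0, 0, 226560, 175643, []⟩)) (.L ⟨[(0, 81199), (2, 58351), (9, 147798), (11, 95799), (34, 175053), (39, 175053), (42, 243597), (107, 11868), (179, 8901)], 0, 0, 0, 0, 0, []⟩)))))) (.L ⟨[(156, 1)], 0, 0, 0, 0, 0, []⟩)))) (.L ⟨[(0, 1125), (2, 29125), (13, 3375), (36, 12375), (38, 75000), (39, 87375), (42, 3375), (107, 18201), (156, 375)], 0, 0, 0, 0, 0, []⟩)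

theorem ok_c1_5p : tree_c1_5p.check prm_c1 ⟨-32, 32, -64, 64, -32, 32, -64, 64, -32, 32, 64, 64, 0, 5376⟩ = true := by decide +kernel

end Pool.Agent.H84.P6
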