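import Pool.Agent.H84.P6.RRows

/-! certificate c3 (generated) -/

set_option autoImplicit false
set_option maxRecDepth 100000

namespace Pool.Agent.H84.P6

open Pool.Agent.H30.P6 Pool.Agent.H78.P6

def prm_c3 : Prm := ⟨64, 1024, rR ++ gDat_c3.map gRow, [(0, 104000)]⟩

def tree_c3_0m : Tree := .N 6 (.N 6 (.L ⟨[], 0, 0, 0, 0, 0, [1]⟩) (.L ⟨[], 0, 0, 0, 0, 0, [1]⟩)) (.L ⟨[(0, 3611), (11, 8568), (13, 2265), (102, 560)], 0, 0, 0, 0, 0, [358400]⟩)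

theorem ok_c3_0m : tree_c3_0m.check prm_c3 ⟨-64, -64, -128, 128, -64, 64, -128, 128, -64, 64, -128, 128, 0, 1344⟩ = true := by decide +kernel

def tree_c3_0p : Tree := .N 6 (.N 6 (.L ⟨[], 0, 0, 0, 0, 0, [1]⟩) (.L ⟨[(156, 1)], 0, 0, 0, 0, 0, [0]⟩)) (.L ⟨[(156, 1)], 0, 0, 0, 0, 0, [0]⟩)

theorem ok_c3_0p : tree_c3_0p.check prm_c3 ⟨64, 64, -128, 128, -64, 64, -128, 128, -64, 64, -128, 128, 0, 1344⟩ = true := by decide +kernel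

def tree_c3_1m : Tree := .N 6 (.N 6 (.L ⟨[], 0, 0, 0, 0, 0, [1]⟩) (.L ⟨[], 0, 0, 0, 0, 0, [1]⟩)) (.N 0 (.L ⟨[], 0, 0, 0, 0, 0, [1]⟩) (.L ⟨[(0, 15343), (2, 3120), (3, 46029), (34, 9360), (39, 9360), (41, 10167), (42, 46029), (46, 936), (74, 72), (75, 1080), (179, 1584)], 0, 0, 552960, 0, 0, [532800]⟩))

theorem ok_c3_1m : tree_c3_1m.check prm_c3 ⟨-64, 64, -128, -128, -64, 64, -128, 128, -64, 64, -128, 128, 0, 1344⟩ = true := by decide +kernel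

def tree_c3_1p : Tree := .N 6 (.N 6 (.L ⟨[], 0, 0, 0, 0, 0, [1]⟩) (.N 0 (.L ⟨[], 0, 0, 0, 0, 0, [1]⟩) (.N 6 (.L ⟨[(156, 1)], 0, 0, 0, 0, 0, [240]⟩) (.N 6 (.L ⟨[(156, 1)], 0, 0, 0, 0, 0, [480]⟩) (.N 6 (.L ⟨[(156, 3)], 0, 0, 0, 0, 0, [1280]⟩) (.N 3 (.L ⟨[(0, 3), (1, 14), (14, 9), (15, 42)], 0, 0, 0, 0, 0, [0]⟩) (.N 4 (.L ⟨[(156, 1)], 0, 0, 0, 0, 0, [240]⟩) (.N 5 (.L ⟨[(158, 1)], 0, 0, 480, 0, 0, [243]⟩) (.N 2 (.L ⟨[(1, 4750), (2, 4050), (21, 12864), (23, 1386), (32, 5664), (34, 6486), (40, 26400), (42, 14250), (48, 2640), (107, 231), (157, 495)], 0, 0, 0, 0, 0, [253440]⟩) (.N 5 (.L ⟨[(157, 1)], 0, 0, 960, 0, 0, [486]⟩) (.N 3 (.L ⟨[(156, 1), (157, 3)], 0, 0, 0, 1920, 1920, [0]⟩) (.N 4 (.L ⟨[(156, 1)], 0, 0, 0, 0, 0, [240]⟩) (.N 4 (.L ⟨[(156, 1)], 0, 0, 0, 0, 0, [480]⟩) (.N 3 (.L ⟨[(157, 3)], 0, 0, 427, 1448, 1920, [137]⟩) (.N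 2 (.L ⟨[(1, 10750), (26, 32250), (39, 32250), (42, 32250), (107, 6966), (157, 6885)], 0, 0, 1986687, 0, 4976640, [2847150]⟩) (.N 0 (.L ⟨[(157, 1)], 0, 0, 205, 960, 607, [0]⟩) (.L ⟨[(157, 1)], 0, 0, 162, 441, 480, [0]⟩))))))))))))))))) (.L ⟨[(0, 125), (14, 375), (107, 84)], 0, 0, 0, 0, 0, [0]⟩)

theorem ok_c3_1p : tree_c3_1p.check prm_c3 ⟨-64, 64, 128, 128, -64, 64, -128, 128, -64, 64, -128, 128, 0, 1344⟩ = true := by decide +kernel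

def tree_c3_2m : Tree := .N 6 (.N 6 (.L ⟨[], 0, 0, 0, 0, 0, [1]⟩) (.L ⟨[(1, 7175), (2, 10025), (21, 15675), (23, 5850), (32, 30075), (40, 51600), (42, 21525), (47, 5160), (156, 688), (157, 344)], 0, 0, 15480, 0, 112488, [660480]⟩)) (.N 0 (.L ⟨[(0, 1582860), (1, 11322555), (2, 3825575), (14, 4748580), (21, 31625460), (23, 2342205), (32, 1957185), (34, 9519540), (40, 45444390), (42, 38716245), (48, 4544439), (100, 737955), (107, 149730), (157, 609615)], 0, 0, 0, 0, 0, [657100800]⟩) (.L ⟨[(1, 2515), (2, 2845), (21, 6735), (23, 810), (32, 7455), (34, 1080), (40, 16080), (42, 7545), (48, 1608), (156, 270)], 0, 0, 0, 0, 0, [0]⟩))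

theorem ok_c3_2m : tree_c3_2m.check prm_c3 ⟨-64, 64, -128, 128, -64, -64, -128, 128, -64, 64, -128, 128, 0, 1344⟩ = true := by decide +kernel

def tree_c3_2p : Tree := .N 6 (.N 6 (.L ⟨[], 0, 0, 0, 0, 0, [1]⟩) (.N 0 (.L ⟨[], 0, 0, 0, 0, 0, [1]⟩) (.N 6 (.L ⟨[(156, 1)], 0, 0, 0, 0, 0, [240]⟩) (.N 6 (.L ⟨[(156, 1)], 0, 0, 0, 0, 0, [480]⟩) (.N 6 (.L ⟨[(156, 3)], 0, 0, 0, 0, 0, [1280]⟩) (.N 1 (.L ⟨[], 0, 0, 0, 0, 0, [1]⟩) (.N 3 (.L ⟨[(0, 3), (1, 14), (14, 9), (15, 42), (156, 3)], 0, 0, 0, 2880, 0, [24]⟩) (.N 1 (.L ⟨[(156, 1)], 0, 0, 0, 0, 0, [480]⟩) (.L ⟨[(156, 1)], 0, 0, 0, 480, 0, [163]⟩))))))))) (.N 5 (.L ⟨[(0, 183185), (1, 187485), (9, 494565), (11, 54990), (20, 535740), (22, 26715), (39, 562455), (41, 1112010), (52, 111201), (78, 2145), (156, 15795), (179, 975)], 0, 0, 11980800, 0, 0, [0]⟩) (.N 0 (.L ⟨[(0, 16688), (1, 24656),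 (11, 50064), (20, 65412), (22, 8556), (39, 73968), (41, 124032), (107, 2139)], 0, 0, 0, 0, 0, [1026720]⟩) (.N 4 (.L ⟨[(156, 1)], 0, 0, 0, 0, 0, [0]⟩) (.N 6 (.N 1 (.L ⟨[(179, 5)], 0, 0, 671, 0, 0, [1920]⟩) (.N 4 (.L ⟨[(0, 104940), (1, 157780), (11, 314820), (20, 430560), (22, 42780), (39, 473340), (41, 788160), (51, 78816), (107, 12834), (156, 23529), (179, 2139)], 0, 0, 0, 0, 0, [4106880]⟩) (.N 6 (.N 3 (.L ⟨[(0, 556), (1, 2073), (2, 108), (13, 288), (14, 1380), (15, 6219), (38, 324), (39, 6543), (40, 6543), (41, 7887), (42, 7887), (156, 324)], 0, 0, 10692, 276480, 0, [0]⟩) (.N 5 (.L ⟨[(0, 44207), (1, 72093), (11, 132621), (22, 216279), (39, 216279), (41, 348900), (42, 348900), (53, 34890), (90, 8694), (156, 21735)], 0, 0, 33384960, 5199012, 0, [4377429]⟩) (.N 1 (.N 0 (.L ⟨[], 0, 0, 0, 0, 0, [1]⟩) (.L ⟨[(156, 1)], 0, 0, 0, 0,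 0, [320]⟩)) (.N 0 (.L ⟨[(1, 433), (24, 1299), (91, 84)], 0, 0, 0, 161280, 0, [42672]⟩) (.N 3 (.L ⟨[(156, 1)], 0, 0, 0, 480, 0, [0]⟩) (.L ⟨[(1, 8115970), (22, 1802340), (24, 22545570), (39, 24347910), (41, 24347910), (42, 24347910), (53, 2434791), (90, 1464720), (156, 3187920), (179, 344640)], 0, 0, 0, 1323417600, 0, [592436160]⟩)))))) (.N 5 (.N 4 (.L ⟨[(0, 2753705), (1, 5015325), (11, 8261115), (20, 13854645), (22, 1191330), (39, 15045975), (41, 23307090), (42, 23307090), (51, 2330709), (88, 185535), (156, 624960)], 0, 0, 599961600, 0, 0, [87084270]⟩) (.N 4 (.N 1 (.N 3 (.L ⟨[(0, 749), (1, 3501), (2, 153), (14, 2247), (15, 10503), (38, 459), (41, 12750), (87, 51), (156, 357)], 0, 0, 33813, 391680, 0, [0]⟩) (.L ⟨[(1, 134150), (2, 66869), (22, 402450), (36, 195471), (38, 5136), (39, 603057), (41, 402450), (42, 402450), (88, 30816),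 (156, 20544)], 0, 0, 39444480, 6204288, 0, [5392800]⟩)) (.L ⟨[(0, 349120), (1, 863520), (11, 222690), (13, 824670), (20, 2410695), (22, 179865), (39, 2590560), (41, 3637920), (42, 3637920), (51, 363792), (88, 59955), (156, 42825)], 0, 0, 131558400, 0, 0, [0]⟩)) (.L ⟨[], 0, 0, 1, 0, 0, [0]⟩))) (.N 3 (.L ⟨[(0, 42), (1, 573), (2, 126), (11, 126), (15, 1719), (38, 378), (39, 270), (41, 1845), (156, 14)], 0, 0, 13440, 2926, 0, [0]⟩) (.N 5 (.N 6 (.N 1 (.N 0 (.L ⟨[], 0, 0, 0, 0, 0, [1]⟩) (.N 3 (.L ⟨[(2, 2355), (34, 5706), (36, 1359), (39, 7065), (88, 336), (179, 1008)], 0, 0, 265552, 430080, 203168, [112896]⟩) (.L ⟨[(1, 90275), (22, 154710), (24, 116115), (39, 270825), (41, 270825), (42, 270825), (88, 14360), (179, 18668)], 0, 0, 2092252, 5514240, 0, [3328648]⟩))) (.N 3 (.L ⟨[(156, 1)], 0, 0, 0, 960, 0, [0]⟩) (.L ⟨[(1, 51589), (2,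 2872), (22, 95370), (24, 59397), (36, 8616), (39, 163383), (41, 154767), (42, 154767), (88, 8616), (156, 5744)], 0, 0, 0, 5514240, 0, [0]⟩))) (.N 3 (.N 0 (.L ⟨[(1, 3611), (22, 8568), (24, 2265), (88, 560)], 0, 0, 0, 1075200, 0, [274960]⟩) (.L ⟨[(1, 39284), (2, 46477), (22, 117852), (34, 62082), (36, 77349), (39, 257283), (41, 117852), (42, 117852), (88, 12880), (179, 8050)], 0, 0, 3656310, 4945920, 0, [65688]⟩)) (.L ⟨[(1, 14000), (22, 37500), (24, 4500), (41, 42000), (87, 2211)], 0, 0, 0, 0, 0, [0]⟩))) (.N 1 (.L ⟨[(1, 404590), (2, 523105), (22, 1213770), (36, 1312515), (38, 256800), (39, 2783085), (41, 1213770), (42, 1213770), (90, 154080), (179, 51360)], 0, 0, 0, 19722240, 0, [6913056]⟩) (.L ⟨[(1, 167454), (2, 264649), (22, 502362), (36, 711771), (38, 82176), (39, 1296309), (41, 502362), (42, 502362), (90, 71904), (179, 25680)],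 0, 0, 0, 19722240, 0, [0]⟩)))))))) (.N 5 (.N 4 (.L ⟨[(0, 2845), (1, 2515), (9, 7455), (11, 1080), (20, 6735), (22, 810), (39, 7545), (41, 16080), (51, 1608), (156, 270)], 0, 0, 0, 0, 0, [0]⟩) (.N 4 (.L ⟨[(0, 487215), (1, 5451005), (2, 649620), (11, 1461645), (20, 15355530), (22, 997485), (38, 1948860), (39, 18301875), (41, 17814660), (51, 1781466), (87, 415035), (156, 126315)], 0, 0, 138585600, 0, 0, [0]⟩) (.L ⟨[(0, 1204650), (1, 53632220), (2, 13147640), (14, 3613950), (20, 152303490), (22, 8593170), (36, 5541390), (38, 33901530), (39, 200339580), (41, 164510610), (42, 164510610), (51, 16451061), (88, 6023250), (156, 722790)], 0, 0, 2467123200, 0, 0, [0]⟩))) (.L ⟨[(0, 26208), (1, 1051232), (2, 337652), (14, 78624), (20, 2987712), (22, 165984), (36, 452511), (38, 560445), (39, 4166652), (41, 3232320), (42, 3232320), (51, 323232),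 (88, 131040), (156, 13104)], 0, 0, 0, 0, 0, [0]⟩))))))

theorem ok_c3_2p : tree_c3_2p.check prm_c3 ⟨-64, 64, -128, 128, 64, 64, -128, 128, -64, 64, -128, 128, 0, 1344⟩ = true := by decide +kernel

def tree_c3_3m : Tree := .N 6 (.N 6 (.L ⟨[], 0, 0, 0, 0, 0, [1]⟩) (.L ⟨[], 0, 1, 0, 0, 0, [0]⟩)) (.L ⟨[(0, 15), (1, 820), (2, 15), (14, 45), (15, 2460), (38, 45), (39, 2505), (40, 2505), (41, 2505), (42, 2505), (71, 69), (156, 9)], 0, 46080, 0, 0, 0, [0]⟩)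

theorem ok_c3_3m : tree_c3_3m.check prm_c3 ⟨-64, 64, -128, 128, -64, 64, -128, -128, -64, 64, -128, 128, 0, 1344⟩ = true := by decide +kernel

def tree_c3_3p : Tree := .N 6 (.N 6 (.L ⟨[], 0, 0, 0, 0, 0, [1]⟩) (.N 0 (.L ⟨[], 0, 0, 0, 0, 0, [1]⟩) (.N 6 (.L ⟨[(156, 1)], 0, 0, 0, 0, 0, [240]⟩) (.N 6 (.L ⟨[(156, 1)], 0, 0, 0, 0, 0, [480]⟩) (.N 6 (.L ⟨[(156, 3)], 0, 0, 0, 0, 0, [1280]⟩) (.N 4 (.L ⟨[(156, 1)], 0, 0, 0, 0, 0, [240]⟩) (.N 5 (.L ⟨[(157, 1), (158, 1)], 0, 0, 960, 0, 0, [486]⟩) (.N 2 (.L ⟨[(1, 5750), (2, 6250), (23, 17250), (34, 18750), (40, 36000), (42, 17250), (46, 3600), (107, 1587), (157, 1058)], 0, 0, 106329, 0, 0, [507840]⟩) (.N 1 (.L ⟨[], 0, 0, 0, 0, 0, [1]⟩) (.N 5 (.L ⟨[(157, 1)], 0, 0, 960, 0, 0, [486]⟩) (.N 4 (.L ⟨[(156, 1)], 0, 0, 0, 0, 0, [240]⟩) (.N 4 (.L ⟨[(156, 1)], 0, 0, 0, 0, 0, [480]⟩) (.N 2 (.L ⟨[(1,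 1375), (26, 4125), (39, 4125), (42, 4125), (107, 891), (157, 891)], 0, 0, 294759, 0, 622080, [370737]⟩) (.N 0 (.L ⟨[(156, 1)], 0, 0, 235, 480, 351, [480]⟩) (.L ⟨[(1, 125), (26, 375), (39, 375), (42, 375), (107, 81), (156, 162)], 0, 0, 25515, 35721, 38880, [35073]⟩))))))))))))))) (.L ⟨[(1, 2875), (26, 8625), (39, 8625), (42, 8625), (107, 1863), (156, 27)], 0, 0, 0, 0, 0, [0]⟩)

theorem ok_c3_3p : tree_c3_3p.check prm_c3 ⟨-64, 64, -128, 128, -64, 64, 128, 128, -64, 64, -128, 128, 0, 1344⟩ = true := by decide +kernel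

def tree_c3_4m : Tree := .N 6 (.N 6 (.L ⟨[], 0, 0, 0, 0, 0, [1]⟩) (.L ⟨[(156, 1)], 0, 0, 0, 0, 0, [480]⟩)) (.L ⟨[(142, 1), (157, 2)], 0, 0, 0, 0, 0, [480]⟩)

theorem ok_c3_4m : tree_c3_4m.check prm_c3 ⟨-64, 64, -128, 128, -64, 64, -128, 128, -64, -64, -128, 128, 0, 1344⟩ = true := by decide +kernel

def tree_c3_4p : Tree := .N 6 (.N 6 (.L ⟨[], 0, 0, 0, 0, 0, [1]⟩) (.N 0 (.L ⟨[], 0, 0, 0, 0, 0, [1]⟩) (.N 6 (.L ⟨[(156, 1)], 0, 0, 0, 0, 0, [240]⟩) (.N 6 (.L ⟨[(156, 1)], 0, 0, 0, 0, 0, [480]⟩) (.N 6 (.L ⟨[(156, 3)], 0, 0, 0, 0, 0, [1280]⟩) (.N 1 (.L ⟨[], 0, 0, 0, 0, 0, [1]⟩) (.N 1 (.L ⟨[(156, 1)], 0, 0, 0, 0, 0, [480]⟩) (.N 1 (.L ⟨[(156, 1)], 0, 0, 0, 0, 0, [480]⟩) (.N 1 (.L ⟨[(156, 3)], 0, 0, 0, 0, 0, [1280]⟩) (.N 3 (.L ⟨[(0, 3), (1, 14), (14, 9), (15, 42)], 0, 0, 0, 0, 0, [0]⟩) (.N 2 (.L ⟨[(1, 925), (2, 1075), (21, 2424), (23,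 351), (32, 2874), (34, 351), (40, 6000), (42, 2775), (48, 600)], 0, 0, 0, 0, 0, [10530]⟩) (.N 5 (.L ⟨[], 0, 0, 1, 0, 0, [0]⟩) (.N 5 (.L ⟨[], 0, 0, 1, 0, 0, [0]⟩) (.N 2 (.L ⟨[], 0, 0, 1, 0, 3, [0]⟩) (.N 3 (.L ⟨[], 0, 0, 1, 6, 6, [0]⟩) (.N 0 (.L ⟨[], 0, 0, 6, 15, 12, [5]⟩) (.N 0 (.L ⟨[(1, 500), (26, 1500), (39, 1500), (42, 1500), (107, 324), (156, 459)], 0, 0, 103032, 188838, 207360, [62532]⟩) (.L ⟨[(156, 1)], 0, 0, 0, 0, 0, [0]⟩)))))))))))))))))) (.N 2 (.L ⟨[(1, 2711), (2, 3353), (21, 6729), (23, 1404), (32, 9357), (34, 702), (40, 18192), (42, 8133)], 0, 0, 0, 0, 0, [0]⟩) (.N 5 (.L ⟨[], 0, 0, 1, 0, 0, [0]⟩) (.N 6 (.N 5 (.L ⟨[], 0, 0, 1, 0, 0, [0]⟩) (.N 1 (.L ⟨[(0, 7291), (2, 5496), (3, 21873), (36, 16488), (39, 16488), (88, 600), (179, 1400)], 0, 0, 496200, 0, 0, [768000]⟩) (.N 3 (.L ⟨[(1, 4), (2, 1), (15, 12), (38, 3), (40,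 12), (41, 12)], 0, 0, 30, 0, 240, [0]⟩) (.N 0 (.L ⟨[(0, 250), (2, 230), (11, 750), (34, 690), (42, 750), (107, 69)], 0, 0, 5796, 0, 0, [8280]⟩) (.N 2 (.L ⟨[(1, 145625), (2, 102182), (26, 436875), (34, 306546), (42, 436875), (90, 24300), (107, 72900)], 0, 0, 20995200, 0, 93312000, [0]⟩) (.N 3 (.L ⟨[(2, 785), (34, 1902), (36, 453), (39, 2355), (88, 112)], 0, 0, 211680, 0, 27525120, [0]⟩) (.N 5 (.N 6 (.N 3 (.N 2 (.L ⟨[], 0, 0, 1, 0, 2, [0]⟩) (.N 1 (.N 0 (.L ⟨[], 0, 0, 0, 0, 0, [1]⟩) (.L ⟨[(156, 1)], 0, 0, 0, 0, 0, [320]⟩)) (.N 0 (.L ⟨[], 0, 0, 0, 30, 0, [11]⟩) (.L ⟨[(1, 152375), (2, 17670), (24, 457125), (34, 53010), (39, 510135), (41, 457125), (42, 457125), (90, 30360), (156, 113088)], 0, 0, 27003294, 43740318, 54282240, [15129054]⟩)))) (.N 5 (.N 6 (.L ⟨[], 0, 0, 1, 0, 0, [0]⟩) (.N 2 (.L ⟨[(1, 263500), (26, 790500), (42, 790500),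 (90, 4500), (107, 166773)], 0, 0, 69120000, 0, 57910500, [0]⟩) (.N 3 (.N 0 (.L ⟨[(1, 334187), (22, 74214), (24, 928347), (39, 1002561), (41, 1002561), (42, 1002561), (90, 60312)], 0, 0, 66170880, 8159352, 28484496, [5686560]⟩) (.N 1 (.L ⟨[(156, 1)], 0, 0, 0, 0, 0, [320]⟩) (.N 2 (.L ⟨[(1, 620633), (22, 137826), (24, 1724073), (39, 1861899), (41, 1861899), (42, 1861899), (90, 112008), (156, 36618)], 0, 0, 132341760, 11452818, 59407320, [3989208]⟩) (.L ⟨[(1, 2530273), (22, 561906), (24, 7028913), (39, 7590819), (41, 7590819), (42, 7590819), (90, 456648), (156, 189552)], 0, 0, 529367040, 65386824, 227324544, [25511976]⟩)))) (.L ⟨[(1, 263500), (26, 790500), (42, 790500), (90, 4500), (107, 166773)], 0, 0, 69120000, 0, 0, [0]⟩)))) (.N 6 (.N 1 (.L ⟨[(156, 1)], 0, 0, 0, 0, 0, [480]⟩) (.N 0 (.N 1 (.L ⟨[], 0, 0, 0, 0, 0, [1]⟩) (.L ⟨[(1,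 875), (26, 2625), (39, 2625), (42, 2625), (107, 567)], 0, 0, 78975, 155520, 124983, [69822]⟩)) (.N 0 (.N 0 (.N 1 (.L ⟨[(1, 250), (26, 750), (39, 750), (42, 750), (107, 162), (156, 297)], 0, 0, 19521, 30240, 31941, [103680]⟩) (.N 2 (.L ⟨[(1, 1250), (26, 3750), (39, 3750), (42, 3750), (107, 810), (156, 459)], 0, 0, 131868, 163026, 207360, [72387]⟩) (.L ⟨[(1, 625), (26, 1875), (39, 1875), (42, 1875), (107, 405), (156, 513)], 0, 0, 0, 207360, 3024, [94770]⟩))) (.L ⟨[(156, 1)], 0, 0, 0, 0, 0, [0]⟩)) (.L ⟨[(156, 1)], 0, 0, 0, 0, 0, [0]⟩)))) (.N 2 (.L ⟨[(1, 263500), (26, 790500), (42, 790500), (90, 4500), (107, 166773)], 0, 0, 43015500, 0, 69120000, [0]⟩) (.N 3 (.N 1 (.N 0 (.L ⟨[], 0, 0, 0, 0, 0, [1]⟩) (.L ⟨[(156, 1)], 0, 0, 0, 0, 0, [320]⟩)) (.N 0 (.L ⟨[], 0, 0, 0, 30, 16, [15]⟩) (.N 6 (.N 6 (.N 0 (.L ⟨[(1, 1844500), (26, 5533500),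 (39, 5533500), (41, 5533500), (42, 5533500), (90, 31500), (107, 1123143), (156, 760500)], 0, 0, 147681000, 276480000, 260604000, [138033000]⟩) (.L ⟨[(156, 1)], 0, 0, 0, 0, 0, [0]⟩)) (.L ⟨[(1, 2625755), (22, 583110), (24, 7294155), (39, 7877265), (41, 7877265), (42, 7877265), (90, 473880), (156, 249864)], 0, 0, 146446152, 81955392, 264683520, [34644936]⟩)) (.L ⟨[(1, 334187), (22, 74214), (24, 928347), (39, 1002561), (41, 1002561), (42, 1002561), (90, 60312), (156, 34464)], 0, 0, 0, 10141032, 33085440, [4230456]⟩)))) (.L ⟨[(1, 131750), (26, 395250), (41, 395250), (42, 395250), (90, 4500), (107, 78237)], 0, 0, 121500, 0, 540000, [0]⟩)))))) (.N 5 (.N 3 (.N 3 (.L ⟨[(0, 14360), (1, 836465), (14, 43080), (22, 1545714), (24, 963681), (39, 2509395), (41, 2552475), (42, 2552475), (88, 134984), (156, 8616)], 0, 0, 43200624, 0, 88227840,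 [0]⟩) (.L ⟨[(0, 2154), (1, 120587), (14, 6462), (22, 201081), (24, 160680), (39, 361761), (41, 368223), (42, 368223), (88, 14360), (89, 5385), (156, 1077)], 0, 0, 6528415, 0, 11028480, [0]⟩)) (.L ⟨[(1, 33125), (2, 884), (24, 99375), (34, 2652), (41, 99375), (42, 99375), (90, 6600)], 0, 0, 2580396, 0, 3394560, [0]⟩)) (.L ⟨[(0, 7728), (2, 407993), (14, 23184), (34, 1048926), (36, 175053), (39, 1223979), (41, 23184), (42, 23184), (88, 59248), (156, 3864)], 0, 0, 0, 0, 57960, [0]⟩))) (.N 6 (.N 2 (.L ⟨[], 0, 0, 0, 0, 1, [0]⟩) (.N 6 (.N 1 (.L ⟨[(156, 1)], 0, 0, 0, 0, 0, [480]⟩) (.N 0 (.L ⟨[(1, 125), (26, 375), (39, 375), (42, 375), (107, 81)], 0, 0, 0, 38880, 23085, [19359]⟩) (.N 1 (.L ⟨[(1, 263500), (26, 790500), (39, 790500), (41, 790500), (42, 790500), (90, 4500), (107, 160449), (156, 445500)], 0, 0, 0, 45729000, 47569500, [138240000]⟩)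 (.L ⟨[(1, 250), (26, 750), (39, 750), (42, 750), (107, 162), (156, 135)], 0, 0, 0, 51840, 51840, [19440]⟩)))) (.N 3 (.L ⟨[(1, 111384), (22, 113204), (24, 220948), (39, 334152), (41, 334152), (42, 334152), (89, 18668), (156, 1795)], 0, 0, 0, 566143, 22056960, [0]⟩) (.N 3 (.N 3 (.N 0 (.L ⟨[(1, 1219), (2, 416), (24, 3657), (34, 1248), (39, 4905), (42, 3657), (90, 276)], 0, 0, 0, 264960, 224940, [210588]⟩) (.L ⟨[(1, 17136), (22, 17416), (24, 33992), (39, 51408), (41, 51408), (42, 51408), (89, 2872), (156, 359)], 0, 0, 0, 73236, 1378560, [0]⟩)) (.L ⟨[(1, 143223), (22, 31806), (24, 397863), (39, 429669), (41, 429669), (42, 429669), (90, 25848), (156, 2872)], 0, 0, 0, 600248, 11028480, [0]⟩)) (.L ⟨[(1, 7750), (24, 23250), (41, 23250), (42, 23250), (90, 1500), (107, 39)], 0, 0, 0, 0, 299520, [0]⟩))))) (.L ⟨[(2, 47741), (34, 43848),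 (36, 99375), (90, 8400)], 0, 0, 0, 0, 0, [0]⟩))))))))) (.L ⟨[(2, 20), (34, 60), (87, 3)], 0, 0, 720, 0, 0, [0]⟩))))

theorem ok_c3_4p : tree_c3_4p.check prm_c3 ⟨-64, 64, -128, 128, -64, 64, -128, 128, 64, 64, -128, 128, 0, 1344⟩ = true := by decide +kernel

def tree_c3_5m : Tree := .N 6 (.N 6 (.L ⟨[], 0, 0, 0, 0, 0, [1]⟩) (.L ⟨[(158, 1)], 0, 0, 480, 0, 0, [480]⟩)) (.N 0 (.L ⟨[(0, 3), (2, 14), (14, 9), (27, 42)], 0, 0, 0, 0, 0, [720]⟩) (.N 1 (.L ⟨[(2, 4185), (27, 2610), (28, 9945), (74, 240), (156, 176), (157, 144)], 0, 0, 122880, 0, 0, [106448]⟩) (.L ⟨[(160, 1)], 0, 0, 240, 0, 0, [145]⟩)))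

theorem ok_c3_5m : tree_c3_5m.check prm_c3 ⟨-64, 64, -128, 128, -64, 64, -128, 128, -64, 64, -128, -128, 0, 1344⟩ = true := by decide +kernel

def tree_c3_5p : Tree := .N 6 (.N 6 (.L ⟨[], 0, 0, 0, 0, 0, [1]⟩) (.N 0 (.L ⟨[], 0, 0, 0, 0, 0, [1]⟩) (.N 6 (.L ⟨[(156, 1)], 0, 0, 0, 0, 0, [240]⟩) (.N 6 (.L ⟨[(156, 1)], 0, 0, 0, 0, 0, [480]⟩) (.N 6 (.L ⟨[(156, 3)], 0, 0, 0, 0, 0, [1280]⟩) (.N 1 (.L ⟨[], 0, 0, 0, 0, 0, [1]⟩) (.N 1 (.L ⟨[(179, 1)], 0, 0, 0, 0, 0, [240]⟩) (.N 1 (.L ⟨[(156, 1)], 0, 0, 0, 0, 0, [480]⟩) (.N 1 (.L ⟨[(156, 3)], 0, 0, 0, 0, 0, [1280]⟩) (.N 2 (.L ⟨[(1, 78890), (2, 52470), (21, 215280), (23, 21390), (34, 157410), (40, 394080), (42, 236670), (48, 39408), (107, 6417), (156, 8556)], 0, 0, 0, 0, 0, [4106880]⟩) (.N 3 (.L ⟨[(1, 14), (2, 3), (15, 42), (38, 9)], 0, 0, 0, 0, 0, [0]⟩) (.N 4 (.L ⟨[(156, 1)], 0, 0, 0, 0,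 0, [240]⟩) (.N 2 (.L ⟨[(156, 3)], 0, 0, 0, 0, 1920, [1208]⟩) (.L ⟨[(156, 3)], 0, 0, 0, 1920, 1379, [0]⟩)))))))))))))) (.L ⟨[(2, 125), (38, 375), (107, 84)], 0, 0, 0, 0, 0, [0]⟩)

theorem ok_c3_5p : tree_c3_5p.check prm_c3 ⟨-64, 64, -128, 128, -64, 64, -128, 128, -64, 64, 128, 128, 0, 1344⟩ = true := by decide +kernel

end Pool.Agent.H84.P6
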