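import Pool.Agent.H84.P6.RRows

/-! certificate c4 (generated) -/

set_option autoImplicit false
set_option maxRecDepth 100000

namespace Pool.Agent.H84.P6

open Pool.Agent.H30.P6 Pool.Agent.H78.P6

def prm_c4 : Prm := ⟨32, 1024, rR ++ gDat_c4.map gRow, [(0, 88000), (2, 65000)]⟩

def tree_c4_0m : Tree := .N 6 (.N 6 (.L ⟨[], 0, 0, 0, 0, 0, [1, 0]⟩) (.L ⟨[], 0, 0, 0, 0, 0, [1, 0]⟩)) (.L ⟨[(0, 16433), (11, 42504), (13, 6795), (102, 1680), (103, 840)], 0, 0, 0, 0, 0, [1612800, 0]⟩)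

theorem ok_c4_0m : tree_c4_0m.check prm_c4 ⟨-32, -32, -64, 64, -32, 32, -64, 64, -32, 32, -64, 64, 0, 1344⟩ = true := by decide +kernel

def tree_c4_0p : Tree := .N 6 (.N 6 (.L ⟨[], 0, 0, 0, 0, 0, [1, 0]⟩) (.L ⟨[(156, 1)], 0, 0, 0, 0, 0, [0, 480]⟩)) (.L ⟨[(156, 1)], 0, 0, 0, 0, 0, [0, 0]⟩)

theorem ok_c4_0p : tree_c4_0p.check prm_c4 ⟨32, 32, -64, 64, -32, 32, -64, 64, -32, 32, -64, 64, 0, 1344⟩ = true := by decide +kernel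

def tree_c4_1m : Tree := .N 6 (.N 6 (.L ⟨[], 0, 0, 0, 0, 0, [1, 0]⟩) (.L ⟨[(178, 1)], 0, 0, 0, 0, 0, [480, 480]⟩)) (.N 0 (.L ⟨[], 0, 0, 0, 0, 0, [1, 0]⟩) (.L ⟨[(0, 39836), (2, 8660), (3, 119508), (34, 25980), (39, 25980), (42, 119508), (75, 2898), (179, 4347)], 0, 0, 0, 0, 0, [1314243, 1391040]⟩))

theorem ok_c4_1m : tree_c4_1m.check prm_c4 ⟨-32, 32, -64, -64, -32, 32, -64, 64, -32, 32, -64, 64, 0, 1344⟩ = true := by decide +kernel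

def tree_c4_1p : Tree := .N 6 (.N 6 (.L ⟨[], 0, 0, 0, 0, 0, [1, 0]⟩) (.N 0 (.L ⟨[], 0, 0, 0, 0, 0, [1, 0]⟩) (.N 4 (.L ⟨[(156, 1)], 0, 0, 0, 0, 0, [240, 0]⟩) (.N 6 (.L ⟨[(156, 1)], 0, 0, 0, 0, 0, [290, 480]⟩) (.N 4 (.L ⟨[(0, 14225), (2, 225), (13, 4500), (14, 38175), (38, 675), (39, 675), (42, 42675), (107, 9033), (156, 21375)], 0, 0, 0, 0, 0, [9216000, 0]⟩) (.N 0 (.N 0 (.N 4 (.N 6 (.L ⟨[], 0, 0, 0, 0, 0, [0, 1]⟩) (.N 4 (.N 6 (.L ⟨[], 0, 0, 0, 0, 0, [0, 1]⟩) (.N 6 (.L ⟨[(156, 1)], 0, 0, 0, 0, 0, [571, 960]⟩) (.N 5 (.L ⟨[], 0, 0, 0, 0, 0, [0, 1]⟩) (.N 5 (.L ⟨[], 0, 0, 0, 0, 0, [0, 1]⟩) (.N 5 (.L ⟨[], 0, 0, 0, 0, 0, [0, 1]⟩) (.N 2 (.L ⟨[], 0, 1, 0, 0, 15, [0, 0]⟩) (.N 3 (.L ⟨[], 0, 30, 0, 30, 13, [0, 0]⟩) (.L ⟨[(156, 1)], 0, 0, 0, 960, 755, [0, 178]⟩)))))))) (.L ⟨[], 0, 0, 0, 0, 0, [0, 1]⟩))) (.L ⟨[], 0, 0,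 0, 0, 0, [0, 1]⟩)) (.L ⟨[(156, 1)], 0, 0, 0, 0, 0, [0, 1280]⟩)) (.L ⟨[(156, 1)], 0, 0, 0, 0, 0, [0, 960]⟩))))))) (.L ⟨[(0, 125), (14, 375), (107, 84)], 0, 0, 0, 0, 0, [0, 0]⟩)

theorem ok_c4_1p : tree_c4_1p.check prm_c4 ⟨-32, 32, 64, 64, -32, 32, -64, 64, -32, 32, -64, 64, 0, 1344⟩ = true := by decide +kernel

def tree_c4_2m : Tree := .N 6 (.N 6 (.L ⟨[], 0, 0, 0, 0, 0, [1, 0]⟩) (.L ⟨[(1, 4945), (2, 4735), (21, 14835), (32, 10695), (34, 3510), (40, 29040), (42, 14835), (46, 2904), (156, 792)], 0, 0, 0, 0, 0, [506880, 163680]⟩)) (.N 0 (.N 6 (.L ⟨[(0, 104544), (1, 469781), (2, 333659), (14, 313632), (21, 1284471), (23, 124872), (32, 389787), (34, 611190), (40, 2410320), (42, 1722975), (48, 241032), (100, 5808), (107, 81312), (157, 43560)], 0, 0, 0, 0, 0, [44605440, 0]⟩) (.L ⟨[(0, 3500730), (1, 29178020), (2,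 2129310), (14, 10502190), (21, 82711350), (23, 4822710), (34, 5269140), (36, 1118790), (40, 93921990), (42, 98036250), (48, 9392199), (103, 2021040), (104, 252630), (156, 613530)], 0, 0, 0, 0, 0, [1108684800, 0]⟩)) (.L ⟨[(1, 2515), (2, 2845), (21, 6735), (23, 810), (32, 7455), (34, 1080), (40, 16080), (42, 7545), (48, 1608), (156, 270)], 0, 0, 0, 0, 0, [0, 0]⟩))

theorem ok_c4_2m : tree_c4_2m.check prm_c4 ⟨-32, 32, -64, 64, -32, -32, -64, 64, -32, 32, -64, 64, 0, 1344⟩ = true := by decide +kernel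

def tree_c4_2p : Tree := .N 6 (.N 6 (.L ⟨[], 0, 0, 0, 0, 0, [1, 0]⟩) (.N 6 (.L ⟨[(156, 1)], 0, 0, 0, 0, 0, [480, 480]⟩) (.N 4 (.L ⟨[(156, 1)], 0, 0, 0, 0, 0, [480, 0]⟩) (.N 0 (.L ⟨[], 0, 0, 0, 0, 0, [1, 0]⟩) (.N 4 (.L ⟨[(0, 36985), (1, 56695), (11, 110955), (20, 159390), (22, 10695), (39, 170085), (41, 281040), (51, 28104), (107, 4278), (156, 23529)], 0, 0, 0, 0, 0, [8213760, 0]⟩) (.L ⟨[(0, 902345), (1, 1396215), (2, 256680), (11, 2707035), (20, 3835710), (22, 352935), (38, 770040), (39, 4958685), (41, 6895680), (51, 689568), (107, 278070), (156, 267375)], 0, 0, 0, 0, 0, [56694195, 328550400]⟩)))))) (.N 5 (.L ⟨[(0, 253945), (1, 255325), (9, 712695), (11, 49140), (20, 730875), (22, 35100), (39, 765975), (41, 1527810), (51, 21060), (52, 131721), (77, 3510), (156, 17550)], 0, 0, 0, 0, 0, [0, 13478400]⟩) (.N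 4 (.L ⟨[(0, 2845), (1, 2515), (9, 7455), (11, 1080), (20, 6735), (22, 810), (39, 7545), (41, 16080), (51, 1608), (156, 270)], 0, 0, 0, 0, 0, [0, 0]⟩) (.N 6 (.N 5 (.L ⟨[(0, 1075), (1, 925), (9, 2874), (11, 351), (20, 2424), (22, 351), (39, 2775), (41, 6000), (51, 600), (156, 117)], 0, 0, 0, 0, 0, [0, 112320]⟩) (.N 6 (.N 4 (.L ⟨[(0, 1701895), (1, 1947465), (9, 2589231), (11, 2516454), (20, 5273211), (22, 569184), (39, 5842395), (41, 10948080), (51, 1094808), (107, 87120), (179, 200376)], 0, 0, 0, 0, 0, [0, 22302720]⟩) (.N 5 (.L ⟨[], 0, 0, 0, 0, 0, [0, 1]⟩) (.N 6 (.N 6 (.N 6 (.L ⟨[(0, 11624800), (1, 16885710), (2, 13201279), (9, 10103298), (11, 24771102), (20, 46207302), (22, 4449828), (38, 39603837), (39, 90260967), (41, 85531530), (51, 8553153), (107, 9629136), (179, 1696041)], 0, 0, 0, 0, 0, [0, 2240962560]⟩)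 (.L ⟨[(0, 2778465), (1, 4090805), (2, 3363035), (9, 2297862), (11, 6037533), (20, 11196432), (22, 1075983), (38, 10089105), (39, 22361520), (41, 20607810), (51, 2060781), (107, 2443758), (179, 419451)], 0, 0, 0, 0, 0, [0, 560240640]⟩)) (.L ⟨[(0, 1339575), (1, 2003875), (2, 1711805), (9, 1039509), (11, 2979216), (20, 5500989), (22, 510636), (38, 5135415), (39, 11147040), (41, 10030350), (51, 1003035), (107, 1240116), (179, 200607)], 0, 0, 0, 0, 0, [0, 280120320]⟩)) (.L ⟨[(0, 1905930), (1, 5295850), (2, 3513515), (11, 5717790), (20, 14793405), (22, 1094145), (38, 10540545), (39, 26428095), (41, 21605340), (51, 2160534), (90, 247065), (107, 2117700), (179, 352950)], 0, 0, 0, 0, 0, [0, 542131200]⟩)))) (.L ⟨[(0, 51150), (1, 511480), (2, 130820), (11, 153450), (20, 1446710), (22, 87730), (38, 392460), (39, 1926900),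 (41, 1687890), (42, 113425), (51, 168789), (90, 53630), (156, 13330)], 0, 0, 0, 0, 0, [0, 19046400]⟩))) (.L ⟨[(0, 98826), (1, 3742784), (2, 664200), (13, 127062), (14, 169416), (20, 10621278), (22, 607074), (38, 1992600), (39, 13220952), (41, 11524830), (51, 1152483), (88, 352950), (156, 56472)], 0, 0, 0, 0, 0, [0, 108426240]⟩))))

theorem ok_c4_2p : tree_c4_2p.check prm_c4 ⟨-32, 32, -64, 64, 32, 32, -64, 64, -32, 32, -64, 64, 0, 1344⟩ = true := by decide +kernel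

def tree_c4_3m : Tree := .N 6 (.N 6 (.L ⟨[], 0, 1, 0, 0, 0, [0, 0]⟩) (.L ⟨[], 0, 1, 0, 0, 0, [0, 0]⟩)) (.L ⟨[(1, 250), (15, 750), (40, 750), (41, 750), (71, 21)], 0, 13440, 0, 0, 0, [0, 0]⟩)

theorem ok_c4_3m : tree_c4_3m.check prm_c4 ⟨-32, 32, -64, 64, -32, 32, -64, -64, -32, 32, -64, 64, 0, 1344⟩ = true := by decide +kernel

def tree_c4_3p : Tree := .N 6 (.N 6 (.L ⟨[], 0, 0, 0, 0, 0, [1, 0]⟩) (.N 0 (.L ⟨[], 0, 0, 0, 0, 0, [1, 0]⟩) (.N 4 (.L ⟨[(156, 1)], 0, 0, 0, 0, 0, [240, 0]⟩) (.N 6 (.L ⟨[(156, 1)], 0, 0, 0, 0, 0, [290, 480]⟩) (.N 4 (.L ⟨[(1, 625), (26, 1875), (39, 1875), (42, 1875), (107, 405), (156, 972)], 0, 0, 0, 0, 0, [414720, 0]⟩) (.N 0 (.N 2 (.L ⟨[], 0, 0, 0, 0, 13, [0, 30]⟩) (.N 2 (.L ⟨[(156, 5)], 0, 0, 0, 830, 1661, [1920, 3840]⟩) (.L ⟨[(1, 6500), (26, 19500), (39, 19500), (42, 19500), (107,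 4212), (156, 2835)], 0, 0, 0, 486324, 326754, [1085481, 2488320]⟩))) (.L ⟨[(156, 1)], 0, 0, 0, 0, 0, [0, 960]⟩))))))) (.L ⟨[(1, 125), (26, 375), (107, 84)], 0, 0, 0, 0, 0, [0, 0]⟩)

theorem ok_c4_3p : tree_c4_3p.check prm_c4 ⟨-32, 32, -64, 64, -32, 32, 64, 64, -32, 32, -64, 64, 0, 1344⟩ = true := by decide +kernel

def tree_c4_4m : Tree := .N 6 (.N 6 (.L ⟨[], 0, 0, 0, 0, 0, [1, 0]⟩) (.L ⟨[(156, 1)], 0, 0, 0, 0, 0, [480, 0]⟩)) (.L ⟨[(156, 1)], 0, 0, 0, 0, 0, [0, 0]⟩)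

theorem ok_c4_4m : tree_c4_4m.check prm_c4 ⟨-32, 32, -64, 64, -32, 32, -64, 64, -32, -32, -64, 64, 0, 1344⟩ = true := by decide +kernel

def tree_c4_4p : Tree := .N 6 (.N 6 (.L ⟨[], 0, 0, 0, 0, 0, [0, 1]⟩) (.L ⟨[], 0, 0, 0, 0, 0, [0, 1]⟩)) (.N 6 (.L ⟨[(2, 3991699), (34, 5019672), (36, 6955425), (89, 285600), (90, 394800)], 0, 0, 0, 0, 0, [0, 516096000]⟩) (.N 5 (.L ⟨[], 0, 0, 0, 0, 0, [0, 1]⟩) (.L ⟨[(2, 153), (34, 259), (36, 200), (89, 25)], 0, 0, 0, 0, 0, [0, 6000]⟩)))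

theorem ok_c4_4p : tree_c4_4p.check prm_c4 ⟨-32, 32, -64, 64, -32, 32, -64, 64, 32, 32, -64, 64, 0, 1344⟩ = true := by decide +kernel

def tree_c4_5m : Tree := .N 6 (.N 6 (.L ⟨[], 0, 0, 0, 0, 0, [0, 1]⟩) (.L ⟨[(158, 1)], 0, 0, 0, 0, 0, [480, 480]⟩)) (.N 0 (.L ⟨[(0, 3), (2, 14), (14, 9), (27, 42)], 0, 0, 0, 0, 0, [720, 0]⟩) (.L ⟨[(0, 16), (2, 930), (14, 48), (27, 2017), (28, 773), (42, 48), (72, 56), (157, 64)], 0, 0, 0, 0, 0, [21152, 30720]⟩))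

theorem ok_c4_5m : tree_c4_5m.check prm_c4 ⟨-32, 32, -64, 64, -32, 32, -64, 64, -32, 32, -64, -64, 0, 1344⟩ = true := by decide +kernel

def tree_c4_5p : Tree := .N 6 (.N 6 (.L ⟨[], 0, 0, 0, 0, 0, [1, 0]⟩) (.N 0 (.L ⟨[], 0, 0, 0, 0, 0, [1, 0]⟩) (.N 4 (.L ⟨[(156, 1)], 0, 0, 0, 0, 0, [240, 0]⟩) (.N 6 (.L ⟨[(156, 1)], 0, 0, 0, 0, 0, [290, 480]⟩) (.N 4 (.L ⟨[(0, 575), (2, 575), (14, 1725), (38, 1725), (39, 1725), (42, 1725), (107, 759), (156, 1775)], 0, 0, 0, 0, 0, [768000, 0]⟩) (.N 0 (.N 0 (.N 4 (.N 6 (.L ⟨[], 0, 0, 0, 0, 0, [0, 1]⟩) (.N 4 (.N 6 (.L ⟨[], 0, 0, 0, 0, 0, [0, 1]⟩) (.N 6 (.L ⟨[(156, 1)], 0, 0, 0, 0, 0, [571, 960]⟩) (.N 2 (.L ⟨[], 0, 1, 0, 0, 6, [0, 0]⟩) (.N 1 (.L ⟨[], 0, 0, 0, 0, 0, [1, 0]⟩) (.N 1 (.L ⟨[], 0, 0, 0, 0, 0, [1, 0]⟩) (.N 3 (.L ⟨[(1, 14), (2, 3), (15, 42), (38, 9)], 0, 0, 0, 360, 282,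 [0, 0]⟩) (.N 2 (.L ⟨[(156, 1)], 0, 0, 0, 594, 960, [201, 0]⟩) (.L ⟨[(156, 1)], 0, 0, 0, 480, 252, [163, 279]⟩)))))))) (.L ⟨[], 0, 0, 0, 0, 0, [0, 1]⟩))) (.L ⟨[], 0, 0, 0, 0, 0, [0, 1]⟩)) (.L ⟨[(156, 1)], 0, 0, 0, 0, 0, [0, 1280]⟩)) (.L ⟨[(156, 1)], 0, 0, 0, 0, 0, [0, 960]⟩))))))) (.L ⟨[(2, 125), (38, 375), (107, 84)], 0, 0, 0, 0, 0, [0, 0]⟩)

theorem ok_c4_5p : tree_c4_5p.check prm_c4 ⟨-32, 32, -64, 64, -32, 32, -64, 64, -32, 32, 64, 64, 0, 1344⟩ = true := by decide +kernel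

end Pool.Agent.H84.P6
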