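import Pool.Agent.H84.P6.RRows

/-! certificate c5 (generated) -/

set_option autoImplicit false
set_option maxRecDepth 100000

namespace Pool.Agent.H84.P6

open Pool.Agent.H30.P6 Pool.Agent.H78.P6

def prm_c5 : Prm := ⟨32, 256, rR ++ gDat_c5.map gRow, [(0, 104000), (2, 65000)]⟩

def tree_c5_0m : Tree := .N 6 (.N 6 (.L ⟨[], 0, 0, 0, 0, 0, [1, 0]⟩) (.L ⟨[], 0, 0, 0, 0, 0, [1, 0]⟩)) (.L ⟨[(0, 3611), (11, 8568), (13, 2265), (102, 560)], 0, 0, 0, 0, 0, [358400, 0]⟩)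

theorem ok_c5_0m : tree_c5_0m.check prm_c5 ⟨-32, -32, -64, 64, -32, 32, -64, 64, -32, 32, -64, 64, 0, 336⟩ = true := by decide +kernel

def tree_c5_0p : Tree := .N 6 (.N 6 (.L ⟨[], 0, 0, 0, 0, 0, [1, 0]⟩) (.L ⟨[(156, 1)], 0, 0, 0, 0, 0, [0, 480]⟩)) (.L ⟨[(156, 1)], 0, 0, 0, 0, 0, [0, 0]⟩)

theorem ok_c5_0p : tree_c5_0p.check prm_c5 ⟨32, 32, -64, 64, -32, 32, -64, 64, -32, 32, -64, 64, 0, 336⟩ = true := by decide +kernel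

def tree_c5_1m : Tree := .N 6 (.N 6 (.L ⟨[], 0, 0, 0, 0, 0, [1, 0]⟩) (.L ⟨[], 0, 0, 0, 0, 0, [1, 0]⟩)) (.N 0 (.L ⟨[], 0, 0, 0, 0, 0, [1, 0]⟩) (.L ⟨[(0, 15343), (2, 3120), (3, 46029), (34, 9360), (39, 9360), (41, 10167), (42, 46029), (46, 936), (74, 72), (75, 1080), (179, 1584)], 0, 0, 0, 0, 0, [532800, 552960]⟩))

theorem ok_c5_1m : tree_c5_1m.check prm_c5 ⟨-32, 32, -64, -64, -32, 32, -64, 64, -32, 32, -64, 64, 0, 336⟩ = true := by decide +kernel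

def tree_c5_1p : Tree := .N 6 (.N 6 (.L ⟨[], 0, 0, 0, 0, 0, [1, 0]⟩) (.N 0 (.L ⟨[], 0, 0, 0, 0, 0, [1, 0]⟩) (.N 4 (.L ⟨[(156, 1)], 0, 0, 0, 0, 0, [240, 0]⟩) (.N 4 (.L ⟨[(156, 3)], 0, 0, 0, 0, 0, [1280, 0]⟩) (.N 0 (.L ⟨[(156, 9)], 0, 0, 0, 0, 0, [4467, 10240]⟩) (.L ⟨[(156, 1)], 0, 0, 0, 0, 0, [0, 960]⟩)))))) (.L ⟨[(0, 125), (14, 375), (107, 84)], 0, 0, 0, 0, 0, [0, 0]⟩)

theorem ok_c5_1p : tree_c5_1p.check prm_c5 ⟨-32, 32, 64, 64, -32, 32, -64, 64, -32, 32, -64, 64, 0, 336⟩ = true := by decide +kernel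

def tree_c5_2m : Tree := .N 6 (.N 6 (.L ⟨[], 0, 0, 0, 0, 0, [1, 0]⟩) (.L ⟨[(1, 34500), (2, 21500), (21, 103500), (34, 64500), (40, 168000), (42, 103500), (47, 16800), (107, 2139), (156, 6417)], 0, 0, 0, 0, 0, [4106880, 1745424]⟩)) (.N 6 (.L ⟨[(0, 136230), (1, 381083), (2, 115107), (10, 130662), (12, 278028), (21, 1065474), (23, 77775), (34, 345321), (40, 1488570), (42, 1551939), (48, 148857), (107, 46665), (157, 21777)], 0, 0, 0, 0, 0, [23892480, 0]⟩) (.N 0 (.L ⟨[(0, 4950), (1, 40240), (2, 3300), (14, 14850), (21, 114120), (23, 6600), (34, 9900), (40, 130620), (42, 82230), (48, 13062), (103, 3300), (156, 825)], 0, 0, 0, 0, 0, [1584000, 0]⟩) (.L ⟨[(0, 3510), (1, 38000), (2, 37490), (10, 10530), (21, 103470), (23, 10530), (32, 105450), (34, 7020), (40, 226470), (42, 124530), (48, 22647), (156, 3510)], 0, 0, 0, 0, 0, [0,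 0]⟩)))

theorem ok_c5_2m : tree_c5_2m.check prm_c5 ⟨-32, 32, -64, 64, -32, -32, -64, 64, -32, 32, -64, 64, 0, 336⟩ = true := by decide +kernel

def tree_c5_2p : Tree := .N 6 (.N 6 (.L ⟨[], 0, 0, 0, 0, 0, [1, 0]⟩) (.N 4 (.L ⟨[(156, 1)], 0, 0, 0, 0, 0, [480, 0]⟩) (.N 0 (.L ⟨[], 0, 0, 0, 0, 0, [1, 0]⟩) (.N 4 (.L ⟨[(156, 3)], 0, 0, 0, 0, 0, [1280, 0]⟩) (.N 0 (.L ⟨[(0, 3500), (13, 1125), (14, 9375), (41, 10500), (52, 1050), (107, 2184), (156, 2275)], 0, 0, 0, 0, 0, [1127525, 2688000]⟩) (.L ⟨[(156, 1)], 0, 0, 0, 0, 0, [0, 960]⟩)))))) (.N 5 (.L ⟨[(0, 241925), (1, 247295), (9, 676635), (11, 49140), (20, 699765), (22, 42120), (39, 741885), (41, 1467660), (51, 38610), (52, 108156), (78, 3510), (156, 17550)], 0, 0, 0, 0, 0, [0, 13478400]⟩) (.N 4 (.L ⟨[(0, 37490), (1, 38000), (2, 3510), (9, 105450), (11, 7020), (20, 103470), (22,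 10530), (35, 10530), (39, 124530), (41, 226470), (51, 22647), (156, 3510)], 0, 0, 0, 0, 0, [0, 0]⟩) (.N 6 (.N 5 (.L ⟨[(0, 49910), (1, 48170), (9, 121650), (11, 28080), (20, 137490), (22, 7020), (39, 144510), (41, 294240), (52, 29424), (156, 5265)], 0, 0, 0, 0, 0, [407160, 6739200]⟩) (.N 0 (.L ⟨[(0, 19344), (1, 24656), (11, 58032), (20, 62100), (22, 11868), (41, 132000), (107, 2967)], 0, 0, 0, 0, 0, [1424160, 0]⟩) (.N 3 (.L ⟨[(0, 240), (1, 2430), (2, 480), (11, 720), (15, 3645), (16, 3645), (38, 1440), (39, 8730), (41, 8010), (50, 801), (156, 80)], 0, 0, 0, 0, 0, [0, 76800]⟩) (.N 1 (.L ⟨[(0, 14), (2, 3), (3, 42), (38, 9), (178, 1)], 0, 0, 0, 0, 0, [243, 480]⟩) (.N 6 (.N 5 (.L ⟨[(0, 125341), (1, 259379), (11, 376023), (20, 650910), (22, 127227), (39, 778137), (41, 1154160), (51, 115416), (90, 10992), (156, 38472)], 0, 0,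 0, 2978832, 0, [6617184, 42209280]⟩) (.N 1 (.N 0 (.L ⟨[], 0, 0, 0, 0, 0, [1, 0]⟩) (.L ⟨[(2, 24500), (36, 7875), (38, 65625), (39, 73500), (107, 15288), (179, 5625)], 0, 0, 0, 0, 0, [1936125, 4320000]⟩)) (.N 0 (.L ⟨[(1, 433), (24, 1299), (91, 84)], 0, 0, 0, 161280, 0, [42672, 0]⟩) (.N 6 (.N 3 (.L ⟨[(156, 1), (179, 2)], 0, 0, 0, 1920, 1027, [0, 254]⟩) (.L ⟨[(1, 240000), (2, 101500), (22, 720000), (38, 304500), (39, 1024500), (41, 720000), (53, 72000), (90, 49500), (107, 18723), (179, 40500)], 0, 0, 0, 18090000, 0, [2700000, 34560000]⟩)) (.L ⟨[(1, 735000), (2, 1019000), (22, 2205000), (38, 3057000), (39, 5262000), (41, 2205000), (52, 220500), (90, 139500), (107, 543903), (179, 148500)], 0, 0, 0, 84604500, 0, [2673000, 138240000]⟩))))) (.N 4 (.L ⟨[(0, 171105), (1, 1683805), (2, 413550), (11, 513315), (20, 4755870), (22, 295545),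 (37, 1240650), (39, 6292065), (41, 5564730), (51, 556473), (89, 93330), (156, 46665)], 0, 0, 0, 0, 0, [0, 29865600]⟩) (.L ⟨[(0, 38010), (1, 1009670), (2, 288585), (13, 86880), (14, 27150), (20, 2871540), (22, 157470), (38, 865755), (39, 3894765), (41, 3143040), (51, 314304), (90, 119460), (156, 16290)], 0, 0, 0, 0, 0, [0, 41702400]⟩))))))) (.L ⟨[(0, 197652), (1, 7489238), (2, 1329603), (13, 254124), (14, 338832), (20, 21267684), (22, 1200030), (38, 3988809), (39, 26456523), (41, 23060670), (51, 2306067), (88, 705900), (156, 98826)], 0, 0, 0, 0, 0, [0, 216852480]⟩))))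

theorem ok_c5_2p : tree_c5_2p.check prm_c5 ⟨-32, 32, -64, 64, 32, 32, -64, 64, -32, 32, -64, 64, 0, 336⟩ = true := by decide +kernel

def tree_c5_3m : Tree := .N 6 (.N 6 (.L ⟨[], 0, 0, 0, 0, 0, [1, 0]⟩) (.L ⟨[], 0, 1, 0, 0, 0, [0, 0]⟩)) (.L ⟨[(1, 250), (15, 750), (40, 750), (41, 750), (71, 21)], 0, 13440, 0, 0, 0, [0, 0]⟩)

theorem ok_c5_3m : tree_c5_3m.check prm_c5 ⟨-32, 32, -64, 64, -32, 32, -64, -64, -32, 32, -64, 64, 0, 336⟩ = true := by decide +kernel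

def tree_c5_3p : Tree := .N 6 (.N 6 (.L ⟨[], 0, 0, 0, 0, 0, [1, 0]⟩) (.N 0 (.L ⟨[], 0, 0, 0, 0, 0, [1, 0]⟩) (.N 4 (.L ⟨[(156, 1)], 0, 0, 0, 0, 0, [240, 0]⟩) (.N 4 (.L ⟨[(156, 3)], 0, 0, 0, 0, 0, [1280, 0]⟩) (.N 0 (.L ⟨[(156, 9)], 0, 0, 0, 0, 0, [4467, 10240]⟩) (.L ⟨[(156, 1)], 0, 0, 0, 0, 0, [0, 960]⟩)))))) (.L ⟨[(1, 125), (26, 375), (107, 84)], 0, 0, 0, 0, 0, [0, 0]⟩)

theorem ok_c5_3p : tree_c5_3p.check prm_c5 ⟨-32, 32, -64, 64, -32, 32, 64, 64, -32, 32, -64, 64, 0, 336⟩ = true := by decide +kernel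

def tree_c5_4m : Tree := .N 6 (.N 6 (.L ⟨[], 0, 0, 0, 0, 0, [1, 0]⟩) (.L ⟨[(156, 1)], 0, 0, 0, 0, 0, [480, 0]⟩)) (.L ⟨[(142, 1), (157, 2)], 0, 0, 0, 0, 0, [480, 0]⟩)

theorem ok_c5_4m : tree_c5_4m.check prm_c5 ⟨-32, 32, -64, 64, -32, 32, -64, 64, -32, -32, -64, 64, 0, 336⟩ = true := by decide +kernel

def tree_c5_4p : Tree := .N 6 (.N 6 (.L ⟨[], 0, 0, 0, 0, 0, [0, 1]⟩) (.L ⟨[], 0, 0, 0, 0, 0, [0, 1]⟩)) (.N 6 (.L ⟨[(2, 3991699), (34, 5019672), (36, 6955425), (89, 285600), (90, 394800)], 0, 0, 0, 0, 0, [0, 516096000]⟩) (.N 5 (.L ⟨[], 0, 0, 0, 0, 0, [0, 1]⟩) (.L ⟨[(2, 153), (34, 259), (36, 200), (89, 25)], 0, 0, 0, 0, 0, [0, 6000]⟩)))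

theorem ok_c5_4p : tree_c5_4p.check prm_c5 ⟨-32, 32, -64, 64, -32, 32, -64, 64, 32, 32, -64, 64, 0, 336⟩ = true := by decide +kernel

def tree_c5_5m : Tree := .N 6 (.N 6 (.L ⟨[], 0, 0, 0, 0, 0, [1, 0]⟩) (.L ⟨[(158, 1)], 0, 0, 0, 0, 0, [480, 480]⟩)) (.N 0 (.L ⟨[(0, 3), (2, 14), (14, 9), (27, 42)], 0, 0, 0, 0, 0, [720, 0]⟩) (.L ⟨[(0, 3192), (2, 48223), (10, 6720), (12, 2856), (27, 144669), (42, 9576), (72, 3192), (157, 3192)], 0, 0, 0, 0, 0, [1207032, 1751040]⟩))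

theorem ok_c5_5m : tree_c5_5m.check prm_c5 ⟨-32, 32, -64, 64, -32, 32, -64, 64, -32, 32, -64, -64, 0, 336⟩ = true := by decide +kernel

def tree_c5_5p : Tree := .N 6 (.N 6 (.L ⟨[], 0, 0, 0, 0, 0, [1, 0]⟩) (.N 0 (.L ⟨[], 0, 0, 0, 0, 0, [1, 0]⟩) (.N 4 (.L ⟨[(156, 1)], 0, 0, 0, 0, 0, [240, 0]⟩) (.N 4 (.L ⟨[(156, 3)], 0, 0, 0, 0, 0, [1280, 0]⟩) (.N 0 (.L ⟨[(156, 9)], 0, 0, 0, 0, 0, [4467, 10240]⟩) (.L ⟨[(156, 1)], 0, 0, 0, 0, 0, [0, 960]⟩)))))) (.L ⟨[(2, 125), (38, 375), (107, 84)], 0, 0, 0, 0, 0, [0, 0]⟩)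

theorem ok_c5_5p : tree_c5_5p.check prm_c5 ⟨-32, 32, -64, 64, -32, 32, -64, 64, -32, 32, 64, 64, 0, 336⟩ = true := by decide +kernel

end Pool.Agent.H84.P6
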