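import Pool.Agent.H84.P6.RRows

/-! certificate c6 (generated) -/

set_option autoImplicit false
set_option maxRecDepth 100000

namespace Pool.Agent.H84.P6

open Pool.Agent.H30.P6 Pool.Agent.H78.P6

def prm_c6 : Prm := ⟨32, 256, rR ++ gDat_c6.map gRow, [(0, 104000), (2, 77500)]⟩

def tree_c6_0m : Tree := .N 6 (.N 6 (.L ⟨[], 0, 0, 0, 0, 0, [1, 0]⟩) (.L ⟨[], 0, 0, 0, 0, 0, [1, 0]⟩)) (.L ⟨[(0, 3611), (11, 8568), (13, 2265), (102, 560)], 0, 0, 0, 0, 0, [358400, 0]⟩)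

theorem ok_c6_0m : tree_c6_0m.check prm_c6 ⟨-32, -32, -64, 64, -32, 32, -64, 64, -32, 32, -64, 64, 0, 336⟩ = true := by decide +kernel

def tree_c6_0p : Tree := .N 6 (.N 6 (.L ⟨[], 0, 0, 0, 0, 0, [1, 0]⟩) (.L ⟨[(156, 1)], 0, 0, 0, 0, 0, [0, 480]⟩)) (.N 6 (.N 4 (.L ⟨[(156, 1)], 0, 0, 0, 0, 0, [0, 0]⟩) (.L ⟨[(2, 125), (38, 375), (107, 84), (110, 40), (179, 76)], 0, 0, 0, 0, 0, [0, 61440]⟩)) (.L ⟨[(0, 280), (2, 60), (3, 840), (38, 180), (46, 18), (109, 135), (179, 63)], 0, 0, 0, 0, 0, [0, 34560]⟩))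

theorem ok_c6_0p : tree_c6_0p.check prm_c6 ⟨32, 32, -64, 64, -32, 32, -64, 64, -32, 32, -64, 64, 0, 336⟩ = true := by decide +kernel

def tree_c6_1m : Tree := .N 6 (.N 6 (.L ⟨[], 0, 0, 0, 0, 0, [1, 0]⟩) (.L ⟨[], 0, 0, 0, 0, 0, [1, 0]⟩)) (.N 4 (.L ⟨[(0, 278), (2, 6), (3, 834), (38, 18), (71, 18), (179, 21)], 0, 0, 0, 0, 0, [11520, 6954]⟩) (.L ⟨[(0, 14), (2, 3), (3, 42), (38, 9)], 0, 0, 0, 0, 0, [0, 960]⟩))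

theorem ok_c6_1m : tree_c6_1m.check prm_c6 ⟨-32, 32, -64, -64, -32, 32, -64, 64, -32, 32, -64, 64, 0, 336⟩ = true := by decide +kernel

def tree_c6_1p : Tree := .N 6 (.N 6 (.L ⟨[], 0, 0, 0, 0, 0, [1, 0]⟩) (.N 6 (.L ⟨[(156, 1)], 0, 0, 0, 0, 0, [480, 480]⟩) (.N 6 (.L ⟨[(156, 53)], 0, 0, 0, 0, 0, [30720, 30720]⟩) (.N 0 (.L ⟨[], 0, 0, 0, 0, 0, [1, 0]⟩) (.N 4 (.L ⟨[(156, 1)], 0, 0, 0, 0, 0, [480, 0]⟩) (.N 0 (.L ⟨[(2, 21125), (38, 63375), (107, 14196), (156, 12012)], 0, 0, 0, 0, 0, [5957616, 10321920]⟩) (.L ⟨[(156, 1)], 0, 0, 0, 0, 0, [0, 960]⟩))))))) (.L ⟨[(0, 125), (14, 375), (107, 84)], 0, 0, 0, 0, 0, [0, 0]⟩)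

theorem ok_c6_1p : tree_c6_1p.check prm_c6 ⟨-32, 32, 64, 64, -32, 32, -64, 64, -32, 32, -64, 64, 0, 336⟩ = true := by decide +kernel

def tree_c6_2m : Tree := .N 6 (.N 6 (.L ⟨[], 0, 0, 0, 0, 0, [1, 0]⟩) (.N 0 (.L ⟨[], 0, 0, 0, 0, 0, [1, 0]⟩) (.L ⟨[(0, 1090), (1, 2610), (10, 3270), (19, 3990), (21, 3840), (40, 7830), (42, 11100), (47, 783), (156, 243)], 0, 0, 0, 0, 0, [207360, 121338]⟩))) (.N 0 (.N 6 (.L ⟨[(0, 41157), (1, 56000), (10, 83496), (12, 39975), (21, 159600), (23, 8400), (40, 168000), (48, 16800), (107, 8400)], 0, 0, 0, 0, 0, [4032000, 0]⟩) (.L ⟨[(0, 62305), (1, 264040), (12, 186915), (21, 752640), (23, 39480), (40, 792120), (48, 79212), (103, 19740)], 0, 0, 0, 0, 0, [9475200, 0]⟩)) (.L ⟨[(0, 8810), (1, 19830), (2, 2280), (10, 26430), (21, 57780), (23, 1710), (34, 6840), (40, 66330), (42, 85920),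 (47, 6633), (107, 1140), (156, 570)], 0, 0, 0, 0, 0, [547200, 0]⟩))

theorem ok_c6_2m : tree_c6_2m.check prm_c6 ⟨-32, 32, -64, 64, -32, -32, -64, 64, -32, 32, -64, 64, 0, 336⟩ = true := by decide +kernel

def tree_c6_2p : Tree := .N 6 (.N 6 (.L ⟨[], 0, 0, 0, 0, 0, [1, 0]⟩) (.N 4 (.L ⟨[(1, 808170), (2, 436910), (20, 2364660), (22, 59850), (35, 1310730), (39, 3735240), (41, 2424510), (52, 242451), (107, 43890), (156, 438900)], 0, 0, 0, 0, 0, [245145600, 29350440]⟩) (.N 0 (.L ⟨[], 0, 0, 0, 0, 0, [1, 0]⟩) (.N 0 (.L ⟨[(1, 262550), (2, 177954), (20, 742500), (22, 45150), (35, 533862), (41, 787650), (51, 78765), (107, 25800), (156, 90300)], 0, 0, 0, 0, 0, [43402050, 99072000]⟩) (.L ⟨[(156, 1)], 0, 0, 0, 0, 0, [0, 960]⟩))))) (.N 4 (.L ⟨[(0, 12690), (1, 102040), (2, 65230), (11, 38070), (20, 306120), (33, 166080),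 (35, 29610), (39, 501810), (41, 344190), (53, 34419), (156, 4230)], 0, 0, 0, 0, 0, [0, 0]⟩) (.N 5 (.L ⟨[], 0, 0, 0, 0, 0, [0, 1]⟩) (.N 6 (.N 6 (.N 4 (.N 6 (.L ⟨[(1, 56000), (2, 45907), (20, 159600), (22, 8400), (35, 41496), (37, 96225), (41, 168000), (51, 16800), (107, 12600)], 0, 0, 0, 0, 0, [0, 4032000]⟩) (.L ⟨[(1, 56000), (2, 45907), (20, 159600), (22, 8400), (35, 41496), (37, 96225), (41, 168000), (51, 16800), (107, 12600)], 0, 0, 0, 0, 0, [0, 4032000]⟩)) (.L ⟨[(2, 125), (38, 375), (107, 84)], 0, 0, 0, 0, 0, [0, 40320]⟩)) (.L ⟨[(1, 2920680), (2, 1124821), (20, 8304072), (22, 457968), (37, 2726991), (38, 647472), (41, 8762040), (51, 876204), (90, 276360)], 0, 0, 0, 0, 0, [0, 121282560]⟩)) (.L ⟨[(1, 98960), (2, 24480), (20, 281580), (22, 15300), (37, 43275), (38, 30165), (41, 296880), (51, 29688), (88,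 9180)], 0, 0, 0, 0, 0, [0, 2937600]⟩))))

theorem ok_c6_2p : tree_c6_2p.check prm_c6 ⟨-32, 32, -64, 64, 32, 32, -64, 64, -32, 32, -64, 64, 0, 336⟩ = true := by decide +kernel

def tree_c6_3m : Tree := .N 6 (.N 6 (.L ⟨[], 0, 0, 0, 0, 0, [1, 0]⟩) (.L ⟨[], 0, 1, 0, 0, 0, [0, 0]⟩)) (.L ⟨[(1, 250), (15, 750), (40, 750), (41, 750), (71, 21)], 0, 13440, 0, 0, 0, [0, 0]⟩)

theorem ok_c6_3m : tree_c6_3m.check prm_c6 ⟨-32, 32, -64, 64, -32, 32, -64, -64, -32, 32, -64, 64, 0, 336⟩ = true := by decide +kernel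

def tree_c6_3p : Tree := .N 6 (.N 6 (.L ⟨[], 0, 0, 0, 0, 0, [1, 0]⟩) (.N 6 (.L ⟨[(156, 1)], 0, 0, 0, 0, 0, [480, 480]⟩) (.N 6 (.L ⟨[(156, 53)], 0, 0, 0, 0, 0, [30720, 30720]⟩) (.N 0 (.L ⟨[], 0, 0, 0, 0, 0, [1, 0]⟩) (.N 4 (.L ⟨[(156, 1)], 0, 0, 0, 0, 0, [480, 0]⟩) (.N 0 (.L ⟨[(1, 4750), (26, 14250), (46, 1425), (53, 1425), (107, 3192), (156, 2625)], 0, 0, 0, 0, 0, [1329825, 2304000]⟩) (.L ⟨[(156, 1)], 0, 0, 0, 0, 0, [0, 960]⟩))))))) (.L ⟨[(1, 125), (26, 375), (107, 84)], 0, 0, 0, 0, 0, [0, 0]⟩)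

theorem ok_c6_3p : tree_c6_3p.check prm_c6 ⟨-32, 32, -64, 64, -32, 32, 64, 64, -32, 32, -64, 64, 0, 336⟩ = true := by decide +kernel

def tree_c6_4m : Tree := .N 6 (.N 6 (.L ⟨[], 0, 0, 0, 0, 0, [1, 0]⟩) (.L ⟨[(156, 1)], 0, 0, 0, 0, 0, [480, 0]⟩)) (.L ⟨[(0, 683), (13, 1299), (14, 750), (99, 84), (107, 168), (142, 336), (157, 672)], 0, 0, 0, 0, 0, [322560, 0]⟩)

theorem ok_c6_4m : tree_c6_4m.check prm_c6 ⟨-32, 32, -64, 64, -32, 32, -64, 64, -32, -32, -64, 64, 0, 336⟩ = true := by decide +kernel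

def tree_c6_4p : Tree := .N 6 (.N 6 (.L ⟨[], 0, 0, 0, 0, 0, [0, 1]⟩) (.L ⟨[], 0, 0, 0, 0, 0, [0, 1]⟩)) (.N 5 (.L ⟨[], 0, 0, 0, 0, 0, [0, 1]⟩) (.L ⟨[(2, 433), (36, 1299), (91, 84)], 0, 0, 0, 0, 0, [0, 46080]⟩))

theorem ok_c6_4p : tree_c6_4p.check prm_c6 ⟨-32, 32, -64, 64, -32, 32, -64, 64, 32, 32, -64, 64, 0, 336⟩ = true := by decide +kernel

def tree_c6_5m : Tree := .N 6 (.N 6 (.L ⟨[], 0, 0, 0, 0, 0, [1, 0]⟩) (.L ⟨[(158, 1)], 0, 0, 0, 0, 0, [480, 480]⟩)) (.N 4 (.L ⟨[(0, 1440), (2, 21536), (14, 4320), (27, 64608), (39, 45234), (40, 4779), (41, 945), (42, 4320), (54, 432), (70, 1188), (157, 1647)], 0, 0, 0, 0, 0, [829440, 554985]⟩) (.L ⟨[], 0, 0, 0, 0, 0, [0, 1]⟩))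

theorem ok_c6_5m : tree_c6_5m.check prm_c6 ⟨-32, 32, -64, 64, -32, 32, -64, 64, -32, 32, -64, -64, 0, 336⟩ = true := by decide +kernel

def tree_c6_5p : Tree := .N 6 (.N 6 (.L ⟨[], 0, 0, 0, 0, 0, [1, 0]⟩) (.N 6 (.L ⟨[(156, 1)], 0, 0, 0, 0, 0, [480, 480]⟩) (.N 6 (.L ⟨[(156, 53)], 0, 0, 0, 0, 0, [30720, 30720]⟩) (.N 0 (.L ⟨[], 0, 0, 0, 0, 0, [1, 0]⟩) (.N 4 (.L ⟨[(156, 1)], 0, 0, 0, 0, 0, [480, 0]⟩) (.N 0 (.L ⟨[(0, 17681), (2, 3444), (14, 53043), (38, 10332), (107, 14196), (156, 12012)], 0, 0, 0, 0, 0, [5957616, 10321920]⟩) (.L ⟨[(156, 1)], 0, 0, 0, 0, 0, [0, 960]⟩))))))) (.L ⟨[(2, 125), (38, 375), (107, 84)], 0, 0, 0, 0, 0, [0, 0]⟩)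

theorem ok_c6_5p : tree_c6_5p.check prm_c6 ⟨-32, 32, -64, 64, -32, 32, -64, 64, -32, 32, 64, 64, 0, 336⟩ = true := by decide +kernel

end Pool.Agent.H84.P6
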