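import Pool.Agent.H84.P6.RRows

/-! certificate c7 (generated) -/

set_option autoImplicit false
set_option maxRecDepth 100000

namespace Pool.Agent.H84.P6

open Pool.Agent.H30.P6 Pool.Agent.H78.P6

def prm_c7 : Prm := ⟨32, 256, rR ++ gDat_c7.map gRow, [(0, 88000), (2, 90000)]⟩

def tree_c7_0m : Tree := .N 6 (.N 6 (.L ⟨[], 0, 0, 0, 0, 0, [1, 0]⟩) (.L ⟨[], 0, 0, 0, 0, 0, [1, 0]⟩)) (.L ⟨[(0, 16433), (11, 42504), (13, 6795), (102, 1680), (103, 840)], 0, 0, 0, 0, 0, [1612800, 0]⟩)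

theorem ok_c7_0m : tree_c7_0m.check prm_c7 ⟨-32, -32, -64, 64, -32, 32, -64, 64, -32, 32, -64, 64, 0, 336⟩ = true := by decide +kernel

def tree_c7_0p : Tree := .N 6 (.N 6 (.L ⟨[], 0, 0, 0, 0, 0, [0, 1]⟩) (.L ⟨[(156, 1)], 0, 0, 0, 0, 0, [0, 480]⟩)) (.L ⟨[(2, 47741), (34, 43848), (36, 99375), (90, 8400), (110, 16800), (179, 33600)], 0, 0, 0, 0, 0, [0, 16128000]⟩)

theorem ok_c7_0p : tree_c7_0p.check prm_c7 ⟨32, 32, -64, 64, -32, 32, -64, 64, -32, 32, -64, 64, 0, 336⟩ = true := by decide +kernel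

def tree_c7_1m : Tree := .N 6 (.N 6 (.L ⟨[], 0, 0, 0, 0, 0, [1, 0]⟩) (.L ⟨[(178, 1)], 0, 0, 0, 0, 0, [480, 480]⟩)) (.N 0 (.L ⟨[], 0, 0, 0, 0, 0, [1, 0]⟩) (.L ⟨[(0, 91651), (2, 8280), (3, 274953), (36, 15012), (38, 9828), (39, 24840), (40, 5400), (41, 26439), (42, 274953), (45, 2484), (73, 5508), (179, 7452)], 0, 0, 0, 0, 0, [2499984, 3317760]⟩))

theorem ok_c7_1m : tree_c7_1m.check prm_c7 ⟨-32, 32, -64, -64, -32, 32, -64, 64, -32, 32, -64, 64, 0, 336⟩ = true := by decide +kernel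

def tree_c7_1p : Tree := .N 6 (.N 6 (.L ⟨[], 0, 0, 0, 0, 0, [0, 1]⟩) (.N 0 (.L ⟨[], 0, 0, 0, 0, 0, [1, 0]⟩) (.N 4 (.L ⟨[(156, 1)], 0, 0, 0, 0, 0, [240, 240]⟩) (.L ⟨[], 0, 0, 0, 0, 0, [0, 1]⟩)))) (.L ⟨[(0, 125), (14, 375), (107, 84)], 0, 0, 0, 0, 0, [0, 0]⟩)

theorem ok_c7_1p : tree_c7_1p.check prm_c7 ⟨-32, 32, 64, 64, -32, 32, -64, 64, -32, 32, -64, 64, 0, 336⟩ = true := by decide +kernel

def tree_c7_2m : Tree := .N 6 (.N 6 (.L ⟨[], 0, 0, 0, 0, 0, [0, 1]⟩) (.N 0 (.L ⟨[], 0, 0, 0, 0, 0, [1, 0]⟩) (.L ⟨[(0, 95470), (1, 174890), (10, 286410), (21, 504720), (23, 19950), (40, 524670), (42, 811080), (48, 52467), (107, 9975), (156, 29925)], 0, 0, 0, 0, 0, [19152000, 16329075]⟩))) (.N 0 (.N 1 (.L ⟨[], 0, 0, 0, 0, 0, [1, 0]⟩) (.N 6 (.N 0 (.L ⟨[(0, 125), (14, 375), (107, 84)], 0, 0, 0, 0, 0, [40320, 0]⟩) (.L ⟨[(0, 4816060),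 (1, 6892960), (2, 311100), (12, 14448180), (21, 19558920), (23, 1119960), (36, 622200), (38, 311100), (40, 21612180), (42, 35127060), (48, 2161218), (107, 1586610), (156, 139995)], 0, 0, 0, 0, 0, [477849600, 0]⟩)) (.L ⟨[(0, 1277), (1, 4480), (12, 1119), (14, 2712), (21, 12768), (23, 672), (40, 13440), (48, 1344), (101, 504)], 0, 0, 0, 0, 0, [161280, 0]⟩))) (.L ⟨[(0, 260), (1, 1675), (2, 1265), (10, 780), (21, 5025), (32, 3405), (34, 390), (40, 8820), (42, 5805), (46, 882), (156, 130)], 0, 0, 0, 0, 0, [0, 0]⟩))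

theorem ok_c7_2m : tree_c7_2m.check prm_c7 ⟨-32, 32, -64, 64, -32, -32, -64, 64, -32, 32, -64, 64, 0, 336⟩ = true := by decide +kernel

def tree_c7_2p : Tree := .N 6 (.N 6 (.L ⟨[], 0, 0, 0, 0, 0, [0, 1]⟩) (.N 4 (.L ⟨[(1, 174890), (2, 95470), (20, 504720), (22, 19950), (35, 286410), (39, 811080), (41, 524670), (51, 52467), (107, 9975), (156, 29925)], 0, 0, 0, 0, 0, [16329075, 19152000]⟩) (.L ⟨[], 0, 0, 0, 0, 0, [0, 1]⟩))) (.N 4 (.L ⟨[(0, 1265), (1, 1675), (2, 260), (9, 3405), (11, 390), (20, 5025), (35, 780), (39, 5805), (41, 8820), (53, 882), (156, 130)], 0, 0, 0, 0, 0, [0, 0]⟩) (.N 5 (.L ⟨[], 0, 0, 0, 0, 0, [0, 1]⟩) (.N 6 (.N 4 (.L ⟨[(0, 155550), (1, 3368980), (2, 2354280), (13, 311100), (14, 155550), (20, 9546960), (22, 559980), (37, 7062840), (39, 17169780), (41, 10573590), (51, 1057359), (107, 777750), (156,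 62220)], 0, 0, 0, 0, 0, [0, 238924800]⟩) (.L ⟨[(2, 125), (38, 375), (107, 84)], 0, 0, 0, 0, 0, [0, 40320]⟩)) (.L ⟨[(1, 4480), (2, 1277), (20, 12768), (22, 672), (37, 1119), (38, 2712), (41, 13440), (51, 1344), (89, 504)], 0, 0, 0, 0, 0, [0, 161280]⟩))))

theorem ok_c7_2p : tree_c7_2p.check prm_c7 ⟨-32, 32, -64, 64, 32, 32, -64, 64, -32, 32, -64, 64, 0, 336⟩ = true := by decide +kernel

def tree_c7_3m : Tree := .N 6 (.N 6 (.L ⟨[], 0, 1, 0, 0, 0, [0, 0]⟩) (.L ⟨[], 0, 1, 0, 0, 0, [0, 0]⟩)) (.L ⟨[(1, 250), (15, 750), (40, 750), (41, 750), (71, 21)], 0, 13440, 0, 0, 0, [0, 0]⟩)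

theorem ok_c7_3m : tree_c7_3m.check prm_c7 ⟨-32, 32, -64, 64, -32, 32, -64, -64, -32, 32, -64, 64, 0, 336⟩ = true := by decide +kernel

def tree_c7_3p : Tree := .N 6 (.N 6 (.L ⟨[], 0, 0, 0, 0, 0, [0, 1]⟩) (.N 0 (.L ⟨[], 0, 0, 0, 0, 0, [1, 0]⟩) (.N 4 (.L ⟨[(156, 1)], 0, 0, 0, 0, 0, [240, 240]⟩) (.L ⟨[], 0, 0, 0, 0, 0, [0, 1]⟩)))) (.L ⟨[(1, 125), (26, 375), (107, 84)], 0, 0, 0, 0, 0, [0, 0]⟩)

theorem ok_c7_3p : tree_c7_3p.check prm_c7 ⟨-32, 32, -64, 64, -32, 32, 64, 64, -32, 32, -64, 64, 0, 336⟩ = true := by decide +kernel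

def tree_c7_4m : Tree := .N 6 (.N 6 (.L ⟨[], 0, 0, 0, 0, 0, [0, 1]⟩) (.L ⟨[(156, 1)], 0, 0, 0, 0, 0, [480, 0]⟩)) (.L ⟨[(0, 47741), (11, 43848), (13, 99375), (100, 8400), (142, 17850), (157, 34650)], 0, 0, 0, 0, 0, [16128000, 0]⟩)

theorem ok_c7_4m : tree_c7_4m.check prm_c7 ⟨-32, 32, -64, 64, -32, 32, -64, 64, -32, -32, -64, 64, 0, 336⟩ = true := by decide +kernel

def tree_c7_4p : Tree := .N 6 (.N 6 (.L ⟨[], 0, 0, 0, 0, 0, [0, 1]⟩) (.L ⟨[], 0, 0, 0, 0, 0, [0, 1]⟩)) (.L ⟨[(2, 16433), (34, 42504), (36, 6795), (87, 840), (88, 1680)], 0, 0, 0, 0, 0, [0, 1612800]⟩)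

theorem ok_c7_4p : tree_c7_4p.check prm_c7 ⟨-32, 32, -64, 64, -32, 32, -64, 64, 32, 32, -64, 64, 0, 336⟩ = true := by decide +kernel

def tree_c7_5m : Tree := .N 6 (.N 6 (.L ⟨[], 0, 0, 0, 0, 0, [0, 1]⟩) (.L ⟨[(158, 1)], 0, 0, 0, 0, 0, [480, 480]⟩)) (.N 0 (.L ⟨[(0, 3), (2, 14), (14, 9), (27, 42)], 0, 0, 0, 0, 0, [720, 0]⟩) (.L ⟨[(0, 2712), (2, 93403), (14, 8136), (27, 280209), (42, 8136), (71, 5616), (72, 216), (157, 6048)], 0, 0, 0, 0, 0, [2008152, 3317760]⟩))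

theorem ok_c7_5m : tree_c7_5m.check prm_c7 ⟨-32, 32, -64, 64, -32, 32, -64, 64, -32, 32, -64, -64, 0, 336⟩ = true := by decide +kernel

def tree_c7_5p : Tree := .N 6 (.N 6 (.L ⟨[], 0, 0, 0, 0, 0, [0, 1]⟩) (.N 0 (.L ⟨[], 0, 0, 0, 0, 0, [1, 0]⟩) (.N 4 (.L ⟨[(156, 1)], 0, 0, 0, 0, 0, [240, 240]⟩) (.L ⟨[], 0, 0, 0, 0, 0, [0, 1]⟩)))) (.L ⟨[(2, 125), (38, 375), (107, 84)], 0, 0, 0, 0, 0, [0, 0]⟩)

theorem ok_c7_5p : tree_c7_5p.check prm_c7 ⟨-32, 32, -64, 64, -32, 32, -64, 64, -32, 32, 64, 64, 0, 336⟩ = true := by decide +kernel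

end Pool.Agent.H84.P6
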