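import Pool.Agent.H84.P6.RRows

/-! certificate ray1 (generated) -/

set_option autoImplicit false
set_option maxRecDepth 100000

namespace Pool.Agent.H84.P6

open Pool.Agent.H30.P6 Pool.Agent.H78.P6

def prm_ray1 : Prm := ⟨128, 4096, rR ++ [⟨0, 25, -2, 0, 0, 0, 0, 0, 0, 0, 0, 0, 0, 0, 0, 0, 0, 0, 0, 0, 23⟩], []⟩

def tree_ray1_0m : Tree := .N 6 (.N 6 (.L ⟨[(156, 1)], 0, 0, 0, 0, 0, []⟩) (.L ⟨[(156, 1)], 0, 0, 0, 0, 0, []⟩)) (.N 1 (.L ⟨[], 1, 0, 0, 0, 0, []⟩) (.N 2 (.N 4 (.N 1 (.L ⟨[(0, 20), (11, 60), (103, 3)], 3072, 0, 0, 0, 0, []⟩) (.N 3 (.L ⟨[(0, 1), (1, 4), (14, 3), (15, 12), (40, 12), (41, 12)], 27, 0, 0, 120, 0, []⟩) (.N 5 (.L ⟨[(0, 270), (2, 1205), (14, 810), (27, 3615), (39, 108), (40, 882), (41, 180), (42, 810), (54, 81)], 34560, 0, 0, 0, 0, []⟩) (.N 6 (.N 3 (.L ⟨[(0, 3611), (11, 8568), (13, 2265), (102, 560)], 1062320, 0, 0, 137625600,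 0, []⟩) (.N 2 (.N 6 (.N 6 (.L ⟨[(156, 1)], 0, 0, 0, 0, 0, []⟩) (.N 6 (.L ⟨[(156, 1)], 0, 0, 0, 0, 0, []⟩) (.L ⟨[(0, 153), (11, 259), (13, 200), (101, 25), (156, 8000)], 0, 0, 0, 0, 0, []⟩))) (.N 1 (.N 1 (.N 3 (.N 3 (.N 1 (.L ⟨[(0, 344), (1, 1695), (13, 1032), (23, 3636), (25, 1449), (39, 5085), (40, 5085), (102, 344)], 330240, 0, 0, 175440, 0, []⟩) (.L ⟨[(1, 198605), (23, 330396), (25, 265419), (39, 595815), (40, 595815), (102, 34056)], 10805040, 0, 0, 23777280, 0, []⟩)) (.L ⟨[(1, 126385), (23, 210252), (25, 168903), (39, 379155), (40, 379155), (102, 21672)], 7043400, 0, 0, 11888640, 0, []⟩)) (.L ⟨[(0, 884), (1, 33125), (11, 2652), (25, 99375), (39, 99375), (40, 99375), (100, 6600)], 2580396, 0, 0, 3394560, 0, []⟩)) (.L ⟨[(0, 3611), (11, 8568), (13, 2265), (102, 560)], 0, 0, 0, 0, 0, []⟩)) (.L ⟨[(0, 47741), (11, 43848), (13, 99375), (100, 8400)],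 0, 0, 0, 0, 0, []⟩))) (.L ⟨[(1, 125), (26, 375), (107, 84)], 16296, 0, 0, 40320, 0, []⟩))) (.L ⟨[(0, 3611), (11, 8568), (13, 2265), (102, 560)], 134400, 0, 0, 0, 0, []⟩))))) (.L ⟨[(0, 16522), (2, 29578), (11, 49566), (32, 84456), (34, 4278), (39, 88734), (42, 49566), (107, 2139)], 684480, 0, 0, 0, 0, []⟩)) (.L ⟨[(0, 16688), (1, 24656), (11, 50064), (20, 65412), (22, 8556), (39, 73968), (41, 124032), (107, 2139)], 513360, 0, 0, 0, 0, []⟩)))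

theorem ok_ray1_0m : tree_ray1_0m.check prm_ray1 ⟨-128, -128, -256, 256, -128, 128, -256, 256, -128, 128, -256, 256, 0, 5376⟩ = true := by decide +kernel

def tree_ray1_0p : Tree := .N 6 (.N 6 (.L ⟨[(156, 1)], 0, 0, 0, 0, 0, []⟩) (.L ⟨[(156, 1)], 0, 0, 0, 0, 0, []⟩)) (.L ⟨[(156, 1)], 0, 0, 0, 0, 0, []⟩)

theorem ok_ray1_0p : tree_ray1_0p.check prm_ray1 ⟨128, 128, -256, 256, -128, 128, -256, 256, -128, 128, -256, 256, 0, 5376⟩ = true := by decide +kernel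

def tree_ray1_1m : Tree := .N 6 (.N 6 (.L ⟨[(156, 2)], 15, 0, 0, 0, 0, []⟩) (.L ⟨[(156, 2)], 15, 0, 0, 0, 0, []⟩)) (.L ⟨[(0, 433), (5, 1299), (67, 24), (156, 3792)], 23040, 0, 0, 0, 0, []⟩)

theorem ok_ray1_1m : tree_ray1_1m.check prm_ray1 ⟨-128, 128, -256, -256, -128, 128, -256, 256, -128, 128, -256, 256, 0, 5376⟩ = true := by decide +kernel

def tree_ray1_1p : Tree := .N 6 (.N 6 (.L ⟨[(156, 1)], 0, 0, 0, 0, 0, []⟩) (.L ⟨[(156, 1)], 0, 0, 0, 0, 0, []⟩)) (.L ⟨[(0, 125), (14, 375), (107, 84)], 0, 0, 0, 0, 0, []⟩)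

theorem ok_ray1_1p : tree_ray1_1p.check prm_ray1 ⟨-128, 128, 256, 256, -128, 128, -256, 256, -128, 128, -256, 256, 0, 5376⟩ = true := by decide +kernel

def tree_ray1_2m : Tree := .N 6 (.N 6 (.L ⟨[(156, 1)], 0, 0, 0, 0, 0, []⟩) (.L ⟨[(156, 1)], 0, 0, 0, 0, 0, []⟩)) (.N 0 (.N 1 (.L ⟨[(156, 1)], 30, 0, 0, 0, 0, []⟩) (.N 4 (.N 0 (.N 6 (.N 0 (.N 6 (.N 6 (.L ⟨[(156, 1)], 0, 0, 0, 0, 0, []⟩) (.N 6 (.L ⟨[(156, 1)], 0, 0, 0, 0, 0, []⟩) (.L ⟨[(0, 153), (11, 259), (13, 200), (101, 25), (156, 9600)], 0, 0, 0, 0, 0, []⟩))) (.N 1 (.N 0 (.L ⟨[], 1, 0, 0, 0, 0, []⟩) (.L ⟨[(0, 81405), (1, 91240), (13, 244215), (21, 259560), (23, 14160), (39, 273720), (40, 273720), (48, 27372), (102, 21240), (156, 1416000)], 36249600, 0, 0, 0, 0, []⟩)) (.N 3 (.L ⟨[(0, 125), (1, 500), (14, 375), (15, 1500), (40, 1500), (103, 6), (156, 390)], 11520, 0, 0, 0, 0, []⟩) (.N 5 (.L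 ⟨[(0, 250), (2, 1000), (14, 750), (27, 3000), (40, 3000), (42, 750), (46, 108), (54, 75), (103, 9), (156, 333)], 17280, 0, 0, 0, 0, []⟩) (.N 6 (.N 1 (.N 0 (.N 6 (.N 0 (.N 6 (.N 6 (.L ⟨[(0, 3611), (11, 8568), (13, 2265), (102, 560), (156, 134400)], 0, 0, 0, 0, 0, []⟩) (.N 6 (.L ⟨[(0, 3611), (11, 8568), (13, 2265), (102, 560), (156, 134400)], 0, 0, 0, 0, 0, []⟩) (.L ⟨[(0, 46943), (11, 111384), (13, 29445), (102, 7280), (156, 2150400)], 0, 0, 0, 0, 0, []⟩))) (.N 1 (.N 1 (.L ⟨[(156, 1)], 30, 0, 0, 0, 0, []⟩) (.N 3 (.L ⟨[(156, 2)], 1, 0, 0, 15, 0, []⟩) (.N 6 (.L ⟨[(0, 5745), (1, 10200), (13, 17235), (23, 30600), (39, 30600), (40, 30600), (102, 2640), (156, 129888)], 675840, 0, 0, 558272, 0, []⟩) (.L ⟨[(0, 383), (1, 680), (13, 1149), (23, 2040), (39, 2040), (40, 2040), (102, 176), (156, 8096)], 42240, 0, 0, 35024, 0, []⟩)))) (.L ⟨[(0, 3611), (11,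 8568), (13, 2265), (102, 560), (156, 16800)], 0, 0, 0, 0, 0, []⟩))) (.L ⟨[(156, 1)], 0, 0, 0, 0, 0, []⟩)) (.N 1 (.N 3 (.N 3 (.L ⟨[(156, 1)], 0, 0, 0, 10, 0, []⟩) (.N 3 (.L ⟨[(156, 2)], 2, 0, 0, 15, 0, []⟩) (.N 5 (.N 4 (.N 6 (.N 6 (.L ⟨[(0, 1149), (1, 2040), (13, 3447), (23, 6120), (39, 6120), (40, 6120), (102, 528), (156, 32736)], 120560, 0, 0, 168960, 0, []⟩) (.L ⟨[(0, 1149), (1, 2040), (13, 3447), (23, 6120), (39, 6120), (40, 6120), (102, 528), (156, 32560)], 119504, 0, 0, 168960, 0, []⟩)) (.N 6 (.L ⟨[(0, 1149), (1, 2040), (13, 3447), (23, 6120), (39, 6120), (40, 6120), (102, 528), (156, 32384)], 118448, 0, 0, 168960, 0, []⟩) (.L ⟨[(0, 1149), (1, 2040), (13, 3447), (23, 6120), (39, 6120), (40, 6120), (102, 528), (156, 32208)], 117392, 0, 0, 168960, 0, []⟩))) (.L ⟨[(0, 3744), (1, 13532), (2, 5795), (14, 11232), (23, 40596), (27, 17385), (39,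 57981), (40, 57981), (42, 51828), (102, 2496), (156, 27456)], 599040, 0, 0, 0, 512928, []⟩)) (.L ⟨[(142, 1)], 0, 0, 0, 0, 960, []⟩)))) (.L ⟨[(0, 5745), (1, 36640), (14, 17235), (23, 109920), (39, 109920), (40, 109920), (46, 10992), (102, 6960), (156, 20880)], 835200, 0, 0, 0, 0, []⟩)) (.L ⟨[(0, 153), (11, 259), (13, 200), (101, 25), (156, 1200)], 0, 0, 0, 0, 0, []⟩))) (.L ⟨[(156, 1)], 0, 0, 0, 0, 0, []⟩)) (.L ⟨[(0, 47741), (11, 43848), (13, 99375), (100, 8400), (156, 252000)], 0, 0, 0, 0, 0, []⟩)) (.N 1 (.N 1 (.N 3 (.N 5 (.N 4 (.N 6 (.N 0 (.N 3 (.L ⟨[(156, 1)], 0, 0, 0, 10, 0, []⟩) (.N 0 (.L ⟨[(0, 3611), (11, 8568), (13, 2265), (102, 560)], 134400, 0, 0, 0, 0, []⟩) (.N 6 (.N 1 (.N 1 (.L ⟨[(0, 1149), (1, 2040), (13, 3447), (23, 6120), (39, 6120), (40, 6120), (102, 528), (156, 49632)], 675840, 0, 0, 203104, 0, []⟩) (.N 6 (.L ⟨[(0, 1915), (1, 3400),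 (13, 5745), (23, 10200), (39, 10200), (40, 10200), (102, 880), (156, 63712)], 203984, 0, 0, 337920, 0, []⟩) (.N 3 (.L ⟨[(0, 383), (1, 680), (13, 1149), (23, 2040), (39, 2040), (40, 2040), (102, 176), (156, 14960)], 40304, 0, 0, 84480, 0, []⟩) (.L ⟨[(0, 383), (1, 680), (13, 1149), (23, 2040), (39, 2040), (40, 2040), (102, 176), (156, 2816)], 21120, 0, 0, 0, 0, []⟩)))) (.L ⟨[(0, 10833), (11, 25704), (13, 6795), (102, 1680), (156, 89600)], 0, 0, 0, 0, 0, []⟩)) (.N 3 (.N 1 (.N 6 (.L ⟨[(0, 3447), (1, 6120), (13, 10341), (23, 18360), (39, 18360), (40, 18360), (102, 1584), (156, 121088)], 342496, 0, 0, 675840, 0, []⟩) (.N 3 (.L ⟨[(0, 383), (1, 680), (13, 1149), (23, 2040), (39, 2040), (40, 2040), (102, 176), (156, 14608)], 36960, 0, 0, 84480, 0, []⟩) (.L ⟨[(0, 383), (1, 680), (13, 1149), (23, 2040), (39, 2040), (40, 2040), (102, 176), (156, 2816)],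 21120, 0, 0, 0, 0, []⟩))) (.L ⟨[(0, 3611), (11, 8568), (13, 2265), (102, 560), (156, 16800)], 0, 0, 0, 0, 0, []⟩)) (.L ⟨[(0, 1149), (1, 7328), (14, 3447), (23, 21984), (39, 21984), (40, 21984), (102, 1392), (156, 8352)], 167040, 0, 0, 0, 0, []⟩))))) (.L ⟨[(156, 1)], 0, 0, 0, 0, 0, []⟩)) (.N 1 (.N 6 (.N 6 (.N 0 (.N 6 (.L ⟨[(0, 3611), (11, 8568), (13, 2265), (102, 560), (156, 31920)], 134400, 0, 0, 0, 0, []⟩) (.L ⟨[(0, 3611), (11, 8568), (13, 2265), (102, 560), (156, 31920)], 134400, 0, 0, 0, 0, []⟩)) (.L ⟨[(0, 3611), (11, 8568), (13, 2265), (102, 560), (156, 134400)], 0, 0, 0, 0, 0, []⟩)) (.N 0 (.L ⟨[(0, 46943), (11, 111384), (13, 29445), (102, 7280)], 2150400, 0, 0, 0, 0, []⟩) (.N 6 (.L ⟨[(0, 3611), (11, 8568), (13, 2265), (102, 560), (156, 134400)], 0, 0, 0, 0, 0, []⟩) (.L ⟨[(0, 3611), (11, 8568), (13, 2265), (102, 560), (156, 34160)], 134400,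 0, 0, 0, 0, []⟩)))) (.N 6 (.N 0 (.L ⟨[(0, 3611), (11, 8568), (13, 2265), (102, 560)], 134400, 0, 0, 0, 0, []⟩) (.L ⟨[(0, 132711), (1, 148960), (13, 398133), (21, 422100), (23, 24780), (39, 446880), (40, 446880), (48, 44688), (102, 34692), (156, 1144836)], 9515520, 0, 0, 0, 0, []⟩)) (.L ⟨[(0, 158705), (1, 177520), (13, 476115), (21, 507780), (23, 24780), (39, 532560), (40, 532560), (48, 53256), (102, 41300), (156, 991200)], 0, 0, 0, 0, 0, []⟩))) (.L ⟨[(0, 158705), (1, 177520), (13, 476115), (21, 507780), (23, 24780), (39, 532560), (40, 532560), (48, 53256), (102, 41300), (156, 991200)], 0, 0, 0, 0, 0, []⟩))) (.L ⟨[(0, 4152), (1, 12118), (2, 11145), (14, 12456), (23, 36354), (27, 33435), (40, 69789), (42, 48810), (102, 2076), (156, 18684)], 776424, 0, 0, 0, 996480, []⟩)) (.L ⟨[(142, 1)], 0, 0, 0, 0, 960, []⟩)) (.L ⟨[(1, 14000), (23, 37500), (25,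 4500), (40, 42000), (103, 2211)], 0, 0, 0, 0, 0, []⟩)) (.L ⟨[(0, 143445), (1, 96040), (13, 430335), (21, 271600), (23, 16520), (39, 288120), (40, 288120), (48, 28812), (101, 33040), (156, 991200)], 0, 0, 0, 0, 0, []⟩)) (.L ⟨[(0, 433), (13, 1299), (99, 84), (156, 2520)], 0, 0, 0, 0, 0, []⟩))))))) (.L ⟨[(156, 1)], 0, 0, 0, 0, 0, []⟩)) (.N 1 (.N 1 (.L ⟨[], 1, 0, 0, 0, 0, []⟩) (.N 1 (.L ⟨[(0, 6445), (1, 39420), (14, 19335), (21, 118080), (23, 180), (40, 118260), (48, 6445), (103, 3867)], 9899520, 0, 0, 0, 0, []⟩) (.N 6 (.N 6 (.N 0 (.L ⟨[(0, 106035), (1, 426880), (14, 318105), (21, 1214640), (23, 66000), (39, 1280640), (40, 1280640), (48, 128064), (102, 52800), (156, 242000)], 16896000, 0, 0, 0, 0, []⟩) (.L ⟨[(156, 1)], 0, 0, 0, 0, 0, []⟩)) (.L ⟨[(0, 51133), (1, 325248), (14, 153399), (21, 926352), (23, 49392), (40, 975744), (48, 65856), (103, 32928)],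 7902720, 0, 0, 0, 0, []⟩)) (.L ⟨[(0, 11601), (1, 75256), (14, 34803), (21, 208944), (23, 16824), (40, 225768), (48, 11601), (103, 7734)], 1856160, 0, 0, 0, 0, []⟩)))) (.L ⟨[(0, 14415), (1, 55580), (13, 2310), (14, 40935), (21, 159810), (23, 6930), (39, 166740), (40, 166740), (48, 16674), (102, 6930)], 0, 0, 0, 0, 0, []⟩))) (.L ⟨[(156, 1)], 0, 0, 0, 0, 0, []⟩)) (.L ⟨[(1, 2711), (2, 3353), (21, 6729), (23, 1404), (32, 9357), (34, 702), (40, 18192), (42, 8133)], 0, 0, 0, 0, 0, []⟩))) (.L ⟨[(156, 1)], 0, 0, 0, 0, 0, []⟩))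

theorem ok_ray1_2m : tree_ray1_2m.check prm_ray1 ⟨-128, 128, -256, 256, -128, -128, -256, 256, -128, 128, -256, 256, 0, 5376⟩ = true := by decide +kernel

def tree_ray1_2p : Tree := .N 6 (.N 6 (.L ⟨[(156, 1)], 0, 0, 0, 2, 0, []⟩) (.L ⟨[(156, 1)], 0, 0, 0, 0, 0, []⟩)) (.L ⟨[(0, 583), (1, 521), (9, 1515), (11, 234), (20, 1407), (22, 156), (39, 1563), (41, 3312), (156, 2340)], 0, 0, 0, 0, 0, []⟩)

theorem ok_ray1_2p : tree_ray1_2p.check prm_ray1 ⟨-128, 128, -256, 256, 128, 128, -256, 256, -128, 128, -256, 256, 0, 5376⟩ = true := by decide +kernel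

def tree_ray1_3m : Tree := .N 6 (.N 6 (.L ⟨[], 0, 1, 0, 0, 0, []⟩) (.L ⟨[], 0, 1, 0, 0, 0, []⟩)) (.L ⟨[(0, 866), (1, 4330), (11, 2598), (15, 12990), (39, 12990), (67, 315), (156, 11445)], 12600, 201600, 0, 0, 0, []⟩)

theorem ok_ray1_3m : tree_ray1_3m.check prm_ray1 ⟨-128, 128, -256, 256, -128, 128, -256, -256, -128, 128, -256, 256, 0, 5376⟩ = true := by decide +kernel

def tree_ray1_3p : Tree := .N 6 (.N 6 (.L ⟨[(156, 1)], 0, 0, 0, 0, 0, []⟩) (.L ⟨[(156, 1)], 0, 0, 0, 0, 0, []⟩)) (.L ⟨[(1, 125), (26, 375), (107, 84)], 0, 0, 0, 0, 0, []⟩)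

theorem ok_ray1_3p : tree_ray1_3p.check prm_ray1 ⟨-128, 128, -256, 256, -128, 128, 256, 256, -128, 128, -256, 256, 0, 5376⟩ = true := by decide +kernel

def tree_ray1_4m : Tree := .N 6 (.N 6 (.L ⟨[(156, 1)], 0, 0, 0, 0, 0, []⟩) (.L ⟨[(156, 1)], 0, 0, 0, 0, 0, []⟩)) (.N 1 (.L ⟨[(144, 1), (156, 115)], 960, 0, 0, 0, 0, []⟩) (.N 0 (.N 2 (.N 0 (.N 6 (.N 0 (.N 1 (.L ⟨[(0, 210), (2, 980), (14, 630), (27, 2940), (53, 63), (143, 270), (156, 9198)], 552960, 0, 0, 0, 0, []⟩) (.N 3 (.L ⟨[(0, 1), (1, 4), (14, 3), (15, 12), (40, 12), (41, 12), (156, 6)], 120, 0, 0, 0, 0, []⟩) (.N 6 (.N 6 (.L ⟨[(156, 1)], 0, 0, 0, 0, 0, []⟩) (.N 6 (.L ⟨[(156, 1)], 0, 0, 0, 0, 0, []⟩) (.L ⟨[(0, 153), (11, 259), (13, 200), (101, 25), (156, 8000)], 0, 0, 0, 0, 0, []⟩))) (.N 6 (.N 1 (.N 0 (.N 5 (.L ⟨[(0, 30), (2, 140), (14, 90), (27, 420), (53, 9), (156, 117)], 4320, 0, 0, 0,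 0, []⟩) (.N 5 (.N 2 (.N 6 (.N 0 (.N 6 (.N 6 (.L ⟨[(0, 3611), (11, 8568), (13, 2265), (102, 560), (156, 134400)], 0, 0, 0, 0, 0, []⟩) (.N 3 (.L ⟨[(156, 3)], 2, 0, 0, 30, 0, []⟩) (.L ⟨[(0, 36110), (11, 85680), (13, 22650), (54, 10833), (102, 5600), (142, 700), (156, 340200)], 1344000, 0, 0, 0, 0, []⟩))) (.N 1 (.N 1 (.L ⟨[(156, 1)], 30, 0, 0, 0, 0, []⟩) (.N 3 (.L ⟨[(156, 1)], 1, 0, 0, 10, 0, []⟩) (.N 3 (.L ⟨[(0, 365475), (1, 254645), (11, 526869), (13, 569556), (23, 763935), (39, 763935), (40, 763935), (54, 186036), (102, 100344), (142, 9768), (156, 5738700)], 27279360, 0, 0, 21239628, 0, []⟩) (.L ⟨[(0, 998140), (1, 429250), (11, 2994420), (25, 425250), (26, 862500), (39, 1287750), (54, 428217), (100, 243000), (156, 10935000)], 29160000, 0, 0, 0, 0, []⟩)))) (.L ⟨[(0, 3611), (11, 8568), (13, 2265), (102, 560), (156, 16800)], 0, 0, 0, 0, 0, []⟩)))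 (.L ⟨[(156, 1)], 0, 0, 0, 0, 0, []⟩)) (.N 6 (.N 1 (.N 3 (.N 6 (.L ⟨[(0, 108330), (11, 257040), (13, 67950), (53, 32499), (102, 16800), (142, 1120), (156, 1153600)], 4300800, 0, 0, 1394400, 0, []⟩) (.L ⟨[(0, 108330), (11, 257040), (13, 67950), (53, 32499), (102, 16800), (143, 2240), (156, 1155840)], 4300800, 0, 0, 1421280, 0, []⟩)) (.L ⟨[(0, 671890), (1, 45500), (11, 1533420), (13, 482250), (23, 136500), (39, 136500), (40, 136500), (54, 215217), (102, 112000), (142, 10500), (156, 6387500)], 26880000, 0, 0, 0, 0, []⟩)) (.L ⟨[(0, 153), (11, 259), (13, 200), (101, 25), (156, 750)], 0, 0, 0, 0, 0, []⟩)) (.L ⟨[(0, 16510), (2, 16420), (13, 48330), (14, 1200), (27, 49260), (39, 49260), (40, 49260), (53, 4953), (102, 2400), (143, 4800), (156, 141600)], 1152000, 0, 0, 0, 0, []⟩))) (.L ⟨[(1, 292090), (2, 525910), (26, 876270), (29, 1577730), (39, 2454000),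 (53, 87627), (100, 37920), (107, 75840), (142, 75840), (156, 9555840)], 44783520, 0, 0, 145612800, 0, []⟩)) (.L ⟨[(142, 1)], 0, 0, 0, 0, 0, []⟩))) (.L ⟨[(156, 1)], 0, 0, 0, 0, 0, []⟩)) (.L ⟨[(0, 47741), (11, 43848), (13, 99375), (100, 8400), (156, 252000)], 0, 0, 0, 0, 0, []⟩)) (.L ⟨[(0, 8640), (2, 32851), (14, 25920), (27, 98553), (39, 98553), (40, 16863), (53, 2592), (102, 504), (143, 9216), (156, 51192)], 1105920, 0, 0, 0, 0, []⟩))))) (.L ⟨[(156, 1)], 0, 0, 0, 0, 0, []⟩)) (.L ⟨[(0, 90), (2, 392), (12, 27), (14, 243), (27, 1176), (40, 252), (53, 27), (143, 108), (156, 351)], 12960, 0, 0, 0, 0, []⟩)) (.L ⟨[(156, 1)], 0, 0, 0, 0, 0, []⟩)) (.L ⟨[(0, 1692), (1, 45158), (2, 37994), (14, 5076), (20, 135474), (33, 105522), (35, 8460), (39, 249456), (41, 140550), (53, 14055), (156, 49068)], 0, 0, 0, 0, 0, []⟩)) (.L ⟨[(156, 1)], 0, 0, 0, 0, 0, []⟩)))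

theorem ok_ray1_4m : tree_ray1_4m.check prm_ray1 ⟨-128, 128, -256, 256, -128, 128, -256, 256, -128, -128, -256, 256, 0, 5376⟩ = true := by decide +kernel

def tree_ray1_4p : Tree := .N 6 (.N 6 (.L ⟨[(156, 1)], 0, 0, 0, 0, 0, []⟩) (.L ⟨[(156, 1)], 0, 0, 0, 0, 0, []⟩)) (.L ⟨[(0, 14381), (2, 17069), (9, 30267), (11, 12876), (32, 47655), (34, 3552), (39, 51207), (42, 43143), (107, 444), (156, 106560)], 0, 0, 0, 0, 0, []⟩)

theorem ok_ray1_4p : tree_ray1_4p.check prm_ray1 ⟨-128, 128, -256, 256, -128, 128, -256, 256, 128, 128, -256, 256, 0, 5376⟩ = true := by decide +kernel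

def tree_ray1_5m : Tree := .N 6 (.N 6 (.L ⟨[(156, 1)], 0, 0, 0, 0, 0, []⟩) (.L ⟨[(156, 1)], 0, 0, 0, 0, 0, []⟩)) (.L ⟨[(0, 3600), (2, 14780), (13, 6822), (14, 3978), (27, 44340), (39, 44340), (40, 10227), (41, 2340), (42, 9324), (54, 1080), (65, 522), (156, 92160)], 552960, 0, 0, 0, 0, []⟩)

theorem ok_ray1_5m : tree_ray1_5m.check prm_ray1 ⟨-128, 128, -256, 256, -128, 128, -256, 256, -128, 128, -256, -256, 0, 5376⟩ = true := by decide +kernel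

def tree_ray1_5p : Tree := .N 6 (.N 6 (.L ⟨[(156, 1)], 0, 0, 0, 0, 0, []⟩) (.L ⟨[(156, 1)], 0, 0, 0, 0, 0, []⟩)) (.L ⟨[(2, 125), (38, 375), (107, 84)], 0, 0, 0, 0, 0, []⟩)

theorem ok_ray1_5p : tree_ray1_5p.check prm_ray1 ⟨-128, 128, -256, 256, -128, 128, -256, 256, -128, 128, 256, 256, 0, 5376⟩ = true := by decide +kernel

end Pool.Agent.H84.P6
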