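import Pool.Agent.H84.P6.RRows

/-! certificate ray2 (generated) -/

set_option autoImplicit false
set_option maxRecDepth 100000

namespace Pool.Agent.H84.P6

open Pool.Agent.H30.P6 Pool.Agent.H78.P6

def prm_ray2 : Prm := ⟨64, 1024, rR ++ [⟨0, 0, 0, -9, 4, 0, 0, 0, 0, 0, 0, 0, 0, 0, 0, 0, 0, 0, 0, 0, 8⟩], []⟩

def tree_ray2_0m : Tree := .N 6 (.N 6 (.L ⟨[(156, 7)], 30, 0, 0, 30, 0, []⟩) (.L ⟨[(0, 25), (1, 51), (11, 75), (18, 129), (20, 24), (41, 228), (156, 888)], 2880, 336, 0, 672, 0, []⟩)) (.L ⟨[(0, 5880), (1, 12356), (11, 17640), (16, 4620), (18, 32448), (39, 24603), (41, 54708), (65, 210), (156, 136920)], 403200, 0, 0, 0, 0, []⟩)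

theorem ok_ray2_0m : tree_ray2_0m.check prm_ray2 ⟨-64, -64, -128, 128, -64, 64, -128, 128, -64, 64, -128, 128, 0, 1344⟩ = true := by decide +kernel

def tree_ray2_0p : Tree := .N 6 (.N 6 (.L ⟨[(156, 1)], 0, 2, 0, 0, 0, []⟩) (.N 3 (.L ⟨[(156, 1)], 0, 3, 0, 0, 0, []⟩) (.L ⟨[(156, 1)], 0, 0, 0, 0, 0, []⟩))) (.N 2 (.L ⟨[(156, 1)], 0, 2, 0, 0, 0, []⟩) (.N 4 (.L ⟨[(0, 50), (2, 50), (8, 138), (10, 12), (33, 138), (35, 12), (40, 150), (41, 150), (46, 15), (53, 15)], 0, 0, 0, 0, 0, []⟩) (.N 5 (.N 6 (.L ⟨[(0, 2365), (1, 645), (2, 2145), (8, 7095), (15, 1935), (33, 3855), (35, 2580), (41, 9030), (52, 903), (156, 12384)], 0, 0, 247680, 0, 0, []⟩) (.L ⟨[(0, 107500), (2, 106430), (8, 322500), (33, 318000), (35, 1290), (40, 16125), (48, 31929), (51, 32250), (108, 16125)], 0, 0, 15480000, 0, 0, []⟩)) (.N 6 (.N 2 (.L ⟨[(0, 74278), (1, 129967), (2, 64733), (8, 187788),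 (10, 35046), (15, 389901), (37, 194199), (40, 584100), (41, 612735), (47, 58410), (156, 5525586)], 0, 5607360, 5490540, 0, 0, []⟩) (.N 6 (.N 5 (.N 6 (.L ⟨[(1, 19670), (2, 6970), (15, 5460), (16, 53550), (35, 2100), (37, 18810), (41, 59010), (51, 5901), (156, 267540)], 0, 0, 806400, 0, 0, []⟩) (.N 4 (.L ⟨[(1, 7840), (2, 2927), (16, 20790), (18, 2730), (35, 2646), (37, 6135), (41, 23520), (51, 2352), (156, 96726)], 0, 0, 282240, 0, 0, []⟩) (.L ⟨[(1, 700), (2, 200), (15, 2100), (37, 225), (38, 375), (41, 2100), (51, 210), (156, 13818)], 0, 0, 40320, 0, 0, []⟩))) (.L ⟨[(1, 60), (2, 15), (15, 180), (38, 45), (40, 180), (41, 180), (51, 18), (156, 1200)], 0, 0, 595, 0, 0, []⟩)) (.N 5 (.N 2 (.L ⟨[(0, 487700), (1, 1109050), (2, 489830), (8, 1079880), (10, 383220), (15, 3327150), (37, 1341750), (38, 127740), (40, 4796640), (41, 4790250), (46, 479664), (51, 479025),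 (156, 21619995)], 0, 0, 61315200, 0, 0, []⟩) (.N 4 (.N 5 (.L ⟨[(0, 7400), (1, 11350), (2, 8389), (8, 22200), (16, 28425), (18, 5625), (35, 25167), (41, 56250), (51, 5625), (156, 138750)], 0, 0, 900000, 0, 0, []⟩) (.N 6 (.L ⟨[(1, 1190), (2, 418), (15, 420), (16, 3150), (35, 84), (37, 1170), (41, 3570), (51, 357), (156, 16275)], 0, 0, 40320, 0, 0, []⟩) (.L ⟨[(0, 197490), (1, 40100), (2, 82020), (4, 589890), (6, 2580), (15, 120300), (37, 246060), (41, 712770), (46, 36636), (51, 71277), (109, 39216), (156, 769872)], 0, 0, 7925760, 0, 0, []⟩))) (.N 5 (.L ⟨[], 0, 0, 1, 0, 0, []⟩) (.N 6 (.L ⟨[(1, 6580), (2, 1880), (15, 19740), (37, 2115), (38, 3525), (41, 19740), (51, 1974), (156, 124040)], 0, 0, 307200, 0, 0, []⟩) (.N 6 (.L ⟨[(0, 160580), (1, 33040), (2, 56560), (3, 429660), (4, 52080), (15, 99120), (37, 77115), (38, 92565), (41, 580860), (46, 26880), (51,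 58086), (109, 45360), (156, 653520)], 0, 0, 8601600, 0, 0, []⟩) (.L ⟨[(0, 470), (1, 90), (2, 160), (3, 1410), (15, 270), (37, 180), (38, 300), (41, 1680), (46, 75), (50, 168), (109, 150), (156, 2175)], 0, 0, 28800, 0, 0, []⟩)))))) (.N 6 (.L ⟨[(1, 92), (2, 23), (15, 276), (38, 69), (40, 276), (41, 276), (156, 1920)], 0, 0, 0, 0, 0, []⟩) (.L ⟨[(0, 320), (2, 80), (3, 960), (38, 240), (40, 210), (41, 960), (46, 24), (87, 3), (109, 91), (156, 411)], 0, 0, 0, 0, 0, []⟩))))) (.L ⟨[(0, 20810), (2, 6670), (3, 22005), (4, 40425), (37, 16095), (38, 3915), (40, 20010), (41, 62430), (46, 2001), (51, 1740), (109, 4698), (156, 28101)], 0, 0, 668160, 0, 0, []⟩)))))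

theorem ok_ray2_0p : tree_ray2_0p.check prm_ray2 ⟨64, 64, -128, 128, -64, 64, -128, 128, -64, 64, -128, 128, 0, 1344⟩ = true := by decide +kernel

def tree_ray2_1m : Tree := .N 6 (.N 6 (.L ⟨[(156, 1)], 0, 2, 0, 0, 0, []⟩) (.N 3 (.L ⟨[(156, 1)], 0, 3, 0, 0, 0, []⟩) (.L ⟨[(156, 1)], 0, 0, 0, 0, 0, []⟩))) (.N 2 (.L ⟨[(156, 1)], 0, 2, 0, 0, 0, []⟩) (.N 3 (.N 3 (.L ⟨[(0, 88475), (1, 22646), (3, 265425), (22, 67938), (41, 333363), (76, 6732)], 0, 8616960, 0, 0, 0, []⟩) (.L ⟨[(0, 46115), (1, 9792), (2, 1728), (3, 138345), (24, 16632), (26, 12744), (38, 5184), (39, 6840), (44, 3456), (53, 13824), (78, 648)], 0, 1658880, 275616, 0, 0, []⟩)) (.L ⟨[(0, 14), (1, 3), (3, 42), (26, 9)], 0, 0, 0, 0, 0, []⟩)))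

theorem ok_ray2_1m : tree_ray2_1m.check prm_ray2 ⟨-64, 64, -128, -128, -64, 64, -128, 128, -64, 64, -128, 128, 0, 1344⟩ = true := by decide +kernel

def tree_ray2_1p : Tree := .N 6 (.N 6 (.L ⟨[(156, 1)], 0, 2, 0, 0, 0, []⟩) (.L ⟨[(0, 1), (1, 4), (14, 3), (15, 12), (40, 12), (41, 12), (156, 181)], 0, 240, 0, 0, 0, []⟩)) (.L ⟨[(0, 16081), (1, 55591), (14, 48243), (15, 166773), (41, 215016), (90, 1224), (156, 1175040)], 0, 0, 0, 0, 0, []⟩)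

theorem ok_ray2_1p : tree_ray2_1p.check prm_ray2 ⟨-64, 64, 128, 128, -64, 64, -128, 128, -64, 64, -128, 128, 0, 1344⟩ = true := by decide +kernel

def tree_ray2_2m : Tree := .N 6 (.N 6 (.L ⟨[(156, 1)], 0, 2, 0, 0, 0, []⟩) (.L ⟨[(156, 1)], 0, 2, 0, 0, 0, []⟩)) (.L ⟨[(156, 1)], 0, 0, 0, 0, 0, []⟩)

theorem ok_ray2_2m : tree_ray2_2m.check prm_ray2 ⟨-64, 64, -128, 128, -64, -64, -128, 128, -64, 64, -128, 128, 0, 1344⟩ = true := by decide +kernel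

def tree_ray2_2p : Tree := .N 6 (.N 6 (.L ⟨[(156, 1)], 0, 2, 0, 0, 0, []⟩) (.N 3 (.L ⟨[(156, 1)], 0, 3, 0, 0, 0, []⟩) (.L ⟨[(156, 1)], 0, 0, 0, 0, 0, []⟩))) (.N 4 (.L ⟨[(1, 50), (2, 54), (20, 150), (33, 150), (35, 12), (41, 150), (53, 15)], 0, 0, 0, 0, 0, []⟩) (.N 0 (.L ⟨[(0, 3353), (1, 2711), (9, 9357), (11, 702), (20, 6729), (22, 1404), (39, 8133), (41, 18192)], 0, 0, 0, 0, 0, []⟩) (.N 5 (.N 4 (.L ⟨[(1, 50), (2, 54), (20, 150), (33, 150), (35, 12), (41, 150), (53, 15)], 0, 0, 3600, 0, 0, []⟩) (.L ⟨[], 0, 0, 1, 0, 0, []⟩)) (.N 6 (.N 6 (.N 5 (.N 6 (.L ⟨[(1, 19670), (2, 6970), (15, 5460), (16, 53550), (35, 2100), (37, 18810), (41, 59010), (51, 5901), (156, 267540)], 0, 0, 806400, 0, 0, []⟩) (.N 4 (.L ⟨[(1, 7840), (2, 2927), (16, 20790), (18, 2730), (35, 2646), (37, 6135), (41, 23520), (51, 2352), (156, 96726)], 0, 0, 282240, 0, 0, []⟩) (.L ⟨[(1, 700),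 (2, 200), (15, 2100), (37, 225), (38, 375), (41, 2100), (51, 210), (156, 13818)], 0, 0, 40320, 0, 0, []⟩))) (.L ⟨[(1, 60), (2, 15), (15, 180), (38, 45), (40, 180), (41, 180), (51, 18), (156, 1200)], 0, 0, 595, 0, 0, []⟩)) (.N 5 (.N 4 (.N 5 (.L ⟨[(1, 510), (2, 230), (18, 1290), (20, 240), (35, 690), (41, 1530), (51, 153), (156, 3774)], 0, 0, 24480, 0, 0, []⟩) (.N 6 (.L ⟨[(1, 1190), (2, 418), (15, 420), (16, 3150), (35, 84), (37, 1170), (41, 3570), (51, 357), (156, 16275)], 0, 0, 40320, 0, 0, []⟩) (.N 6 (.L ⟨[(1, 350), (2, 128), (16, 1050), (35, 84), (37, 300), (41, 1050), (51, 105), (156, 4508)], 0, 0, 10752, 0, 0, []⟩) (.L ⟨[(1, 15810), (2, 7130), (18, 39990), (20, 7440), (35, 21390), (41, 47430), (51, 4743), (156, 125460)], 0, 0, 293760, 0, 0, []⟩)))) (.N 5 (.L ⟨[], 0, 0, 1, 0, 0, []⟩) (.N 6 (.L ⟨[(1, 6580), (2, 1880), (15, 19740), (37, 2115), (38,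 3525), (41, 19740), (51, 1974), (156, 124040)], 0, 0, 307200, 0, 0, []⟩) (.N 4 (.N 5 (.L ⟨[], 0, 0, 1, 0, 0, []⟩) (.N 3 (.L ⟨[(1, 420), (2, 131), (15, 798), (16, 462), (37, 267), (38, 126), (41, 1260), (51, 126)], 0, 0, 15120, 0, 0, []⟩) (.N 1 (.L ⟨[(0, 140), (2, 40), (3, 420), (37, 45), (38, 75), (41, 420), (51, 42), (156, 126)], 0, 0, 5040, 0, 0, []⟩) (.N 3 (.N 1 (.N 0 (.L ⟨[(156, 4)], 0, 0, 0, 15, 0, []⟩) (.N 1 (.N 3 (.N 3 (.N 1 (.N 6 (.N 6 (.L ⟨[(1, 420), (2, 131), (15, 798), (16, 462), (37, 267), (38, 126), (41, 1260), (51, 126), (156, 6804)], 0, 0, 15120, 0, 0, []⟩) (.L ⟨[(0, 770), (1, 210), (2, 295), (3, 2310), (16, 630), (37, 495), (38, 390), (41, 2940), (51, 294), (109, 42), (156, 13776)], 0, 0, 38430, 40320, 0, []⟩)) (.L ⟨[(0, 11872), (1, 1008), (2, 3851), (3, 35616), (20, 3024), (37, 6462), (38, 5091), (41, 38640), (51, 3864), (109, 840),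 (156, 174048)], 0, 0, 506856, 645120, 0, []⟩)) (.L ⟨[(109, 1)], 0, 0, 0, 960, 0, []⟩)) (.L ⟨[(156, 1)], 0, 0, 0, 0, 0, []⟩)) (.L ⟨[(156, 1)], 0, 0, 0, 0, 0, []⟩)) (.L ⟨[(110, 1), (156, 186)], 0, 0, 0, 960, 0, []⟩))) (.L ⟨[(156, 1)], 0, 0, 0, 60, 0, []⟩)) (.L ⟨[(156, 1)], 0, 0, 0, 0, 0, []⟩))))) (.L ⟨[(1, 14500), (2, 3625), (15, 43500), (38, 10875), (41, 43500), (51, 4350), (87, 174), (156, 274810)], 0, 0, 983040, 0, 0, []⟩))))) (.N 6 (.L ⟨[(1, 92), (2, 23), (15, 276), (38, 69), (40, 276), (41, 276), (156, 1920)], 0, 0, 0, 0, 0, []⟩) (.N 6 (.L ⟨[(1, 9500), (2, 2375), (15, 28500), (38, 7125), (41, 28500), (87, 114), (156, 184320)], 0, 0, 0, 0, 0, []⟩) (.L ⟨[(1, 11375), (2, 3250), (15, 34125), (38, 9750), (41, 34125), (42, 34125), (51, 2989), (87, 273), (156, 215040)], 0, 0, 0, 0, 0, []⟩))))) (.N 5 (.N 4 (.L ⟨[(1, 1452050), (2, 509614), (20, 4117500), (22,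 238650), (35, 1528842), (41, 4356150), (51, 435615), (87, 70950)], 0, 0, 24768000, 0, 0, []⟩) (.N 5 (.L ⟨[], 0, 0, 1, 0, 0, []⟩) (.N 5 (.L ⟨[(1, 39420), (2, 6445), (20, 118080), (22, 180), (38, 19335), (41, 118260), (51, 6445), (87, 3867)], 0, 0, 9899520, 0, 0, []⟩) (.N 1 (.L ⟨[(0, 170660), (1, 7560), (2, 45175), (3, 511980), (22, 22680), (37, 20160), (38, 115365), (41, 534660), (51, 53466), (87, 2520)], 0, 0, 4838400, 0, 0, []⟩) (.N 3 (.L ⟨[(1, 9740), (2, 2515), (15, 29220), (37, 720), (38, 6825), (41, 29220), (50, 2922), (87, 90)], 0, 0, 345600, 0, 0, []⟩) (.N 3 (.N 1 (.N 0 (.L ⟨[(1, 7000), (2, 250), (22, 21000), (38, 750), (39, 21750), (41, 21000), (52, 500), (87, 1047)], 0, 0, 40500, 480000, 0, []⟩) (.N 3 (.N 1 (.N 3 (.L ⟨[(0, 23740), (2, 6515), (3, 71220), (37, 5220), (38, 14325), (41, 71220), (51, 7122), (87, 90), (109, 1890)], 0, 0, 984330, 1382400,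 0, []⟩) (.N 1 (.N 0 (.L ⟨[(1, 3500), (2, 125), (22, 10500), (38, 375), (41, 10500), (51, 125), (87, 567)], 0, 0, 10875, 1920000, 0, []⟩) (.N 4 (.N 0 (.L ⟨[(0, 41070), (1, 51590), (2, 12975), (3, 123210), (22, 154770), (37, 7785), (38, 31140), (39, 193695), (41, 277980), (51, 27798), (87, 7785)], 0, 0, 1852830, 2491200, 0, []⟩) (.N 3 (.L ⟨[(0, 7112), (1, 168), (2, 2119), (3, 21336), (22, 504), (37, 3015), (38, 3342), (41, 21840), (51, 2184), (109, 504)], 0, 0, 288288, 322560, 0, []⟩) (.N 4 (.L ⟨[(0, 362260), (1, 317800), (2, 117810), (3, 1086780), (22, 953400), (37, 143055), (38, 210375), (41, 2040180), (51, 204018), (87, 50490), (109, 25245)], 0, 0, 16156800, 15054435, 0, []⟩) (.L ⟨[(0, 7316), (1, 6384), (2, 2057), (3, 21948), (22, 19152), (38, 6171), (41, 41100), (51, 4110), (87, 1122), (109, 561)], 0, 0, 359040, 306867, 0, []⟩)))) (.L ⟨[(0, 12722),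 (1, 10958), (2, 4884), (3, 38166), (22, 32874), (38, 14652), (41, 71040), (42, 26415), (51, 7104), (88, 2220), (109, 888)], 0, 0, 852480, 582972, 0, []⟩))) (.L ⟨[(1, 6660), (2, 375), (22, 19980), (38, 1125), (41, 19980), (42, 11520), (51, 1998), (87, 1125), (109, 625)], 0, 0, 53125, 480000, 0, []⟩))) (.L ⟨[(110, 1)], 0, 0, 0, 480, 0, []⟩)) (.L ⟨[(1, 2220), (2, 125), (22, 6660), (38, 375), (41, 6660), (42, 3840), (51, 666), (87, 375)], 0, 0, 15000, 0, 0, []⟩))) (.L ⟨[(111, 1)], 0, 0, 0, 960, 0, []⟩)) (.L ⟨[(156, 1)], 0, 0, 0, 0, 0, []⟩))))))) (.L ⟨[(1, 55580), (2, 14415), (20, 159810), (22, 6930), (36, 2310), (38, 40935), (41, 166740), (42, 166740), (51, 16674), (88, 6930)], 0, 0, 0, 0, 0, []⟩))))))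

theorem ok_ray2_2p : tree_ray2_2p.check prm_ray2 ⟨-64, 64, -128, 128, 64, 64, -128, 128, -64, 64, -128, 128, 0, 1344⟩ = true := by decide +kernel

def tree_ray2_3m : Tree := .N 6 (.N 6 (.L ⟨[], 0, 1, 0, 0, 0, []⟩) (.L ⟨[], 0, 1, 0, 0, 0, []⟩)) (.L ⟨[(1, 250), (15, 750), (40, 750), (41, 750), (71, 21)], 0, 13440, 0, 0, 0, []⟩)

theorem ok_ray2_3m : tree_ray2_3m.check prm_ray2 ⟨-64, 64, -128, 128, -64, 64, -128, -128, -64, 64, -128, 128, 0, 1344⟩ = true := by decide +kernel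

def tree_ray2_3p : Tree := .N 6 (.N 6 (.L ⟨[(156, 1)], 0, 0, 0, 0, 0, []⟩) (.L ⟨[(156, 1)], 0, 0, 0, 0, 0, []⟩)) (.L ⟨[(156, 1)], 0, 0, 0, 0, 0, []⟩)

theorem ok_ray2_3p : tree_ray2_3p.check prm_ray2 ⟨-64, 64, -128, 128, -64, 64, 128, 128, -64, 64, -128, 128, 0, 1344⟩ = true := by decide +kernel

def tree_ray2_4m : Tree := .N 6 (.N 6 (.L ⟨[(156, 1)], 0, 2, 0, 0, 0, []⟩) (.L ⟨[(1, 50), (2, 54), (20, 150), (33, 150), (35, 12), (41, 150), (53, 15), (156, 3600)], 0, 7200, 0, 0, 0, []⟩)) (.L ⟨[(1, 50), (2, 54), (20, 150), (33, 150), (35, 12), (41, 150), (52, 15), (156, 915)], 0, 1800, 0, 0, 0, []⟩)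

theorem ok_ray2_4m : tree_ray2_4m.check prm_ray2 ⟨-64, 64, -128, 128, -64, 64, -128, 128, -64, -64, -128, 128, 0, 1344⟩ = true := by decide +kernel

def tree_ray2_4p : Tree := .N 6 (.N 6 (.L ⟨[(156, 1)], 0, 2, 0, 0, 0, []⟩) (.L ⟨[(1, 4), (2, 1), (15, 12), (38, 3), (40, 12), (41, 12), (156, 80)], 0, 0, 320, 0, 0, []⟩)) (.N 5 (.L ⟨[], 0, 0, 1, 0, 0, []⟩) (.N 6 (.N 5 (.L ⟨[], 0, 0, 1, 0, 0, []⟩) (.N 6 (.L ⟨[(1, 12), (2, 3), (15, 36), (38, 9), (40, 36), (41, 36), (156, 250)], 0, 0, 480, 0, 0, []⟩) (.L ⟨[(1, 26992), (2, 13902), (15, 80976), (36, 27855), (38, 13851), (40, 122682), (41, 80976), (42, 80976), (87, 1197), (156, 584136)], 0, 0, 1313280, 0, 0, []⟩))) (.L ⟨[(2, 20), (34, 60), (87, 3)], 0, 0, 720, 0, 0, []⟩)))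

theorem ok_ray2_4p : tree_ray2_4p.check prm_ray2 ⟨-64, 64, -128, 128, -64, 64, -128, 128, 64, 64, -128, 128, 0, 1344⟩ = true := by decide +kernel

def tree_ray2_5m : Tree := .N 6 (.N 6 (.L ⟨[(156, 1)], 0, 2, 0, 0, 0, []⟩) (.N 3 (.L ⟨[(1, 1230), (2, 3500), (22, 2940), (24, 750), (31, 10500), (53, 369), (156, 130257)], 0, 472320, 87699, 0, 0, []⟩) (.L ⟨[(156, 1)], 0, 0, 0, 0, 0, []⟩))) (.N 2 (.L ⟨[(156, 1)], 0, 2, 0, 0, 0, []⟩) (.N 3 (.N 3 (.L ⟨[(1, 33330), (2, 112285), (22, 99990), (27, 336855), (41, 99990), (42, 99990), (53, 9999), (76, 5220), (77, 2610)], 0, 10022400, 0, 0, 0, []⟩) (.L ⟨[(1, 30), (2, 140), (26, 90), (27, 420), (53, 9)], 0, 4320, 153, 0, 0, []⟩)) (.L ⟨[(1, 30), (2, 140), (26, 90), (27, 420), (55, 9), (156, 27)], 0, 0, 81, 0, 0, []⟩)))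

theorem ok_ray2_5m : tree_ray2_5m.check prm_ray2 ⟨-64, 64, -128, 128, -64, 64, -128, 128, -64, 64, -128, -128, 0, 1344⟩ = true := by decide +kernel

def tree_ray2_5p : Tree := .N 6 (.N 6 (.L ⟨[(156, 1)], 0, 2, 0, 0, 0, []⟩) (.L ⟨[(1, 4), (2, 1), (15, 12), (38, 3), (40, 12), (41, 12), (156, 181)], 0, 240, 0, 0, 0, []⟩)) (.L ⟨[(1, 59024), (2, 16081), (15, 177072), (38, 48243), (41, 177072), (90, 1008), (156, 1105920)], 0, 0, 0, 0, 0, []⟩)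

theorem ok_ray2_5p : tree_ray2_5p.check prm_ray2 ⟨-64, 64, -128, 128, -64, 64, -128, 128, -64, 64, 128, 128, 0, 1344⟩ = true := by decide +kernel

end Pool.Agent.H84.P6
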