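import Pool.Agent.H84.P6.RRows

/-! certificate up1 (generated) -/

set_option autoImplicit false
set_option maxRecDepth 100000

namespace Pool.Agent.H84.P6

open Pool.Agent.H30.P6 Pool.Agent.H78.P6

def prm_up1 : Prm := ⟨32, 256, rR ++ [⟨0, 0, 1, 0, 0, 0, 0, 0, 0, 0, 0, 0, 0, 0, 0, 0, 0, 0, 0, 0, 1⟩], []⟩

def tree_up1_0m : Tree := .N 6 (.N 6 (.L ⟨[(156, 1)], 1, 0, 0, 0, 0, []⟩) (.L ⟨[(156, 1)], 1, 0, 0, 0, 0, []⟩)) (.N 1 (.L ⟨[], 1, 0, 0, 0, 0, []⟩) (.L ⟨[(156, 30)], 13, 0, 0, 0, 0, []⟩))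

theorem ok_up1_0m : tree_up1_0m.check prm_up1 ⟨-32, -32, -64, 64, -32, 32, -64, 64, -32, 32, -64, 64, 0, 336⟩ = true := by decide +kernel

def tree_up1_0p : Tree := .N 6 (.N 6 (.L ⟨[(156, 1)], 0, 0, 0, 0, 0, []⟩) (.N 6 (.L ⟨[(156, 1)], 0, 0, 0, 0, 0, []⟩) (.N 2 (.L ⟨[(46, 5), (57, 2), (156, 96)], 0, 48, 0, 0, 0, []⟩) (.N 1 (.N 1 (.N 1 (.N 3 (.N 3 (.L ⟨[], 0, 1, 0, 0, 0, []⟩) (.N 6 (.N 5 (.N 4 (.L ⟨[(0, 4590), (1, 480), (2, 920), (3, 1080), (4, 12690), (26, 1440), (35, 2760), (41, 660), (45, 420), (53, 1521), (156, 230400)], 0, 108540, 78900, 0, 0, []⟩) (.L ⟨[(0, 245), (2, 70), (4, 735), (37, 210), (46, 21), (53, 30), (156, 12720)], 0, 582, 23040, 0, 0, []⟩)) (.L ⟨[(0, 140), (2, 30), (3, 420), (38, 90), (45, 9), (53, 9), (156, 8640)], 0, 216, 180, 0, 0, []⟩)) (.N 5 (.N 4 (.L ⟨[(0, 14494), (1, 1536), (2, 4224), (4, 43482),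 (26, 4608), (33, 3648), (35, 9024), (41, 22992), (45, 1728), (53, 4809), (156, 737280)], 0, 360192, 282624, 0, 0, []⟩) (.L ⟨[(0, 35), (2, 10), (4, 105), (37, 30), (46, 3), (53, 6)], 0, 123, 5760, 0, 0, []⟩)) (.L ⟨[(0, 140), (2, 30), (3, 420), (38, 90), (45, 9), (53, 9), (156, 8640)], 0, 225, 198, 0, 0, []⟩)))) (.N 6 (.L ⟨[(0, 980), (1, 201), (2, 9), (3, 2940), (26, 603), (38, 27), (45, 63), (53, 54), (156, 69120)], 0, 0, 1044, 0, 0, []⟩) (.L ⟨[(0, 140), (1, 30), (3, 420), (26, 90), (45, 9), (53, 9), (156, 8640)], 0, 0, 135, 0, 0, []⟩))) (.L ⟨[(156, 1)], 0, 0, 0, 0, 0, []⟩)) (.L ⟨[(156, 1)], 0, 0, 0, 0, 0, []⟩)) (.L ⟨[(156, 1)], 0, 0, 0, 0, 0, []⟩))))) (.N 4 (.L ⟨[(0, 50), (2, 50), (8, 138), (10, 12), (33, 138), (35, 12), (40, 150), (41, 150), (46, 15), (53, 15)], 0, 0, 0, 0, 0, []⟩) (.N 2 (.L ⟨[(0, 54), (1, 50), (8, 150),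 (10, 12), (21, 150), (40, 150), (46, 15)], 0, 0, 0, 0, 0, []⟩) (.N 1 (.N 5 (.N 4 (.L ⟨[(0, 3077), (1, 153), (2, 2057), (6, 2350), (8, 6881), (15, 459), (33, 3825), (35, 2346), (40, 6630), (41, 4262), (46, 663), (53, 969), (156, 39423)], 0, 0, 195840, 0, 0, []⟩) (.L ⟨[], 0, 0, 1, 0, 0, []⟩)) (.N 6 (.L ⟨[(0, 468), (2, 140), (4, 1170), (6, 234), (35, 24), (37, 396), (40, 420), (41, 321), (46, 42), (52, 48), (156, 23040)], 0, 0, 13908, 0, 0, []⟩) (.L ⟨[(0, 2515), (2, 720), (3, 2028), (4, 5517), (37, 1800), (38, 360), (41, 2088), (46, 216), (156, 138240)], 0, 0, 61776, 0, 0, []⟩))) (.L ⟨[(156, 1)], 0, 0, 0, 0, 0, []⟩))))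

theorem ok_up1_0p : tree_up1_0p.check prm_up1 ⟨32, 32, -64, 64, -32, 32, -64, 64, -32, 32, -64, 64, 0, 336⟩ = true := by decide +kernel

def tree_up1_1m : Tree := .N 6 (.N 6 (.L ⟨[(156, 1)], 0, 0, 0, 0, 0, []⟩) (.N 6 (.L ⟨[(156, 1)], 0, 0, 0, 0, 0, []⟩) (.N 3 (.N 2 (.L ⟨[(0, 490), (1, 105), (3, 1470), (26, 315), (46, 369), (57, 135)], 7080, 28800, 0, 0, 0, []⟩) (.L ⟨[(0, 4025), (1, 735), (2, 315), (3, 12075), (26, 2205), (37, 675), (38, 270), (39, 3150), (41, 9450), (45, 315), (53, 1428)], 0, 172800, 41670, 0, 0, []⟩)) (.L ⟨[(0, 1820), (1, 420), (3, 5460), (24, 135), (26, 1125), (39, 1260), (44, 126)], 0, 0, 0, 0, 0, []⟩)))) (.N 3 (.N 3 (.N 2 (.L ⟨[(0, 112285), (1, 33330), (3, 336855), (23, 99990), (39, 99990), (40, 99990), (46, 9999), (65, 2610), (66, 5220)], 0, 10022400, 0, 0, 0, []⟩) (.L ⟨[(0, 88475), (1, 22646), (3,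 265425), (22, 67938), (41, 333363), (76, 6732)], 0, 8616960, 0, 0, 0, []⟩)) (.L ⟨[(0, 137), (1, 30), (3, 411), (26, 90), (39, 54), (41, 54), (44, 9)], 0, 4320, 0, 0, 0, []⟩)) (.L ⟨[(0, 14), (1, 3), (3, 42), (26, 9)], 0, 0, 0, 0, 0, []⟩))

theorem ok_up1_1m : tree_up1_1m.check prm_up1 ⟨-32, 32, -64, -64, -32, 32, -64, 64, -32, 32, -64, 64, 0, 336⟩ = true := by decide +kernel

def tree_up1_1p : Tree := .N 6 (.N 6 (.L ⟨[(156, 1)], 0, 0, 0, 0, 0, []⟩) (.L ⟨[(156, 1)], 0, 0, 0, 0, 0, []⟩)) (.L ⟨[(156, 1)], 0, 0, 0, 0, 0, []⟩)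

theorem ok_up1_1p : tree_up1_1p.check prm_up1 ⟨-32, 32, 64, 64, -32, 32, -64, 64, -32, 32, -64, 64, 0, 336⟩ = true := by decide +kernel

def tree_up1_2m : Tree := .N 6 (.N 6 (.L ⟨[(156, 1)], 0, 0, 0, 0, 0, []⟩) (.N 6 (.L ⟨[(156, 1)], 0, 0, 0, 0, 0, []⟩) (.N 0 (.L ⟨[(156, 1)], 1, 0, 0, 0, 0, []⟩) (.L ⟨[(46, 55), (57, 22), (156, 1920)], 854, 532, 0, 0, 0, []⟩)))) (.N 1 (.N 0 (.N 0 (.L ⟨[], 1, 0, 0, 0, 0, []⟩) (.L ⟨[(0, 54), (1, 50), (8, 150), (10, 12), (21, 150), (40, 150), (46, 15), (156, 615)], 3600, 0, 0, 0, 0, []⟩)) (.L ⟨[(0, 54), (1, 50), (8, 150), (10, 12), (21, 150), (40, 150), (46, 15), (156, 615)], 1800, 0, 0, 0, 0, []⟩)) (.L ⟨[(156, 1)], 0, 0, 0, 0, 0, []⟩))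

theorem ok_up1_2m : tree_up1_2m.check prm_up1 ⟨-32, 32, -64, 64, -32, -32, -64, 64, -32, 32, -64, 64, 0, 336⟩ = true := by decide +kernel

def tree_up1_2p : Tree := .N 6 (.N 6 (.L ⟨[(156, 1)], 0, 0, 0, 0, 0, []⟩) (.N 6 (.L ⟨[(156, 1)], 0, 0, 0, 0, 0, []⟩) (.N 5 (.N 4 (.L ⟨[(0, 37810), (1, 20580), (2, 22820), (3, 113430), (22, 61740), (35, 68460), (39, 91170), (41, 175170), (45, 13020), (53, 35367), (58, 7140), (156, 3225600)], 0, 1126860, 1914360, 0, 0, []⟩) (.L ⟨[(0, 7280), (1, 1400), (2, 2805), (3, 21840), (22, 4200), (37, 8415), (41, 26040), (51, 2604), (156, 716100)], 0, 49476, 1249920, 0, 0, []⟩)) (.L ⟨[(0, 34006), (1, 714), (2, 9786), (3, 102018), (22, 2142), (37, 11331), (38, 18027), (39, 25179), (41, 104160), (45, 3150), (51, 10416), (156, 2580480)], 0, 0, 442932, 0, 0, []⟩)))) (.N 4 (.L ⟨[(1, 50), (2, 54), (20,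 150), (33, 150), (35, 12), (41, 150), (53, 15)], 0, 0, 0, 0, 0, []⟩) (.N 5 (.N 4 (.L ⟨[(0, 3225), (1, 18275), (2, 17691), (3, 9675), (20, 54825), (33, 38625), (35, 14448), (41, 64500), (53, 6450), (156, 258000)], 0, 0, 1548000, 0, 0, []⟩) (.L ⟨[], 0, 0, 1, 0, 0, []⟩)) (.L ⟨[(0, 445620), (1, 75600), (2, 163495), (3, 1336860), (20, 142800), (22, 84000), (37, 389685), (38, 100800), (41, 1563660), (51, 156366), (156, 32256000)], 0, 0, 16304400, 0, 0, []⟩)))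

theorem ok_up1_2p : tree_up1_2p.check prm_up1 ⟨-32, 32, -64, 64, 32, 32, -64, 64, -32, 32, -64, 64, 0, 336⟩ = true := by decide +kernel

def tree_up1_3m : Tree := .N 6 (.N 6 (.L ⟨[], 0, 1, 0, 0, 0, []⟩) (.L ⟨[], 0, 1, 0, 0, 0, []⟩)) (.L ⟨[(1, 250), (15, 750), (40, 750), (41, 750), (71, 21)], 0, 13440, 0, 0, 0, []⟩)

theorem ok_up1_3m : tree_up1_3m.check prm_up1 ⟨-32, 32, -64, 64, -32, 32, -64, -64, -32, 32, -64, 64, 0, 336⟩ = true := by decide +kernel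

def tree_up1_3p : Tree := .N 6 (.N 6 (.L ⟨[(156, 1)], 0, 0, 0, 0, 0, []⟩) (.L ⟨[(0, 14), (1, 3), (3, 42), (26, 9), (156, 1440)], 0, 0, 0, 0, 0, []⟩)) (.L ⟨[(0, 14), (1, 3), (3, 42), (26, 9), (156, 720)], 0, 0, 0, 0, 0, []⟩)

theorem ok_up1_3p : tree_up1_3p.check prm_up1 ⟨-32, 32, -64, 64, -32, 32, 64, 64, -32, 32, -64, 64, 0, 336⟩ = true := by decide +kernel

def tree_up1_4m : Tree := .N 6 (.N 6 (.L ⟨[(156, 1)], 0, 0, 0, 0, 0, []⟩) (.N 6 (.L ⟨[(156, 1)], 0, 0, 0, 0, 0, []⟩) (.N 0 (.L ⟨[(156, 1)], 1, 0, 0, 0, 0, []⟩) (.N 1 (.N 1 (.N 0 (.N 1 (.N 0 (.L ⟨[(0, 130), (2, 110), (6, 42), (8, 348), (33, 300), (35, 30), (40, 144), (46, 33), (53, 39)], 23040, 657, 0, 0, 0, []⟩) (.N 6 (.N 3 (.L ⟨[(0, 6000), (2, 5150), (6, 2962), (8, 15038), (33, 14010), (35, 1440), (40, 1709), (46, 1545), (53, 1800), (156, 93735)], 230400, 40980,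 0, 0, 0, []⟩) (.L ⟨[(0, 16630), (1, 3360), (2, 1440), (3, 4440), (4, 45450), (25, 7200), (26, 2880), (35, 4320), (46, 1440), (53, 5997), (156, 691200)], 146880, 0, 0, 0, 0, []⟩)) (.L ⟨[(0, 40), (2, 40), (8, 120), (33, 108), (35, 12), (40, 43), (41, 107), (46, 12), (53, 12), (156, 192)], 1440, 96, 0, 0, 0, []⟩))) (.L ⟨[(156, 1)], 0, 0, 0, 0, 0, []⟩)) (.L ⟨[(0, 700), (2, 600), (6, 317), (8, 1783), (33, 1635), (35, 165), (40, 319), (46, 180), (53, 210), (156, 7200)], 0, 3600, 0, 0, 0, []⟩)) (.L ⟨[(156, 1)], 0, 0, 0, 0, 0, []⟩)) (.L ⟨[(156, 1)], 0, 0, 0, 0, 0, []⟩))))) (.N 1 (.N 0 (.N 0 (.L ⟨[], 1, 0, 0, 0, 0, []⟩) (.L ⟨[(0, 50), (2, 50), (8, 138), (10, 12), (33, 138), (35, 12), (40, 150), (41, 150), (46, 15), (53, 15), (156, 660)], 3600, 0, 0, 0, 0, []⟩)) (.L ⟨[(0, 50), (2, 50), (8, 138), (10, 12), (33, 138), (35, 12), (40,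 150), (41, 150), (46, 15), (53, 15), (156, 615)], 1800, 0, 0, 0, 0, []⟩)) (.L ⟨[(156, 1)], 0, 0, 0, 0, 0, []⟩))

theorem ok_up1_4m : tree_up1_4m.check prm_up1 ⟨-32, 32, -64, 64, -32, 32, -64, 64, -32, -32, -64, 64, 0, 336⟩ = true := by decide +kernel

def tree_up1_4p : Tree := .N 6 (.N 6 (.L ⟨[(156, 1)], 0, 0, 0, 0, 0, []⟩) (.L ⟨[(0, 14), (2, 3), (3, 42), (38, 9), (156, 1440)], 0, 0, 1440, 0, 0, []⟩)) (.N 5 (.L ⟨[], 0, 0, 1, 0, 0, []⟩) (.L ⟨[(0, 14), (2, 3), (3, 42), (38, 9), (156, 960)], 0, 0, 452, 0, 0, []⟩))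

theorem ok_up1_4p : tree_up1_4p.check prm_up1 ⟨-32, 32, -64, 64, -32, 32, -64, 64, 32, 32, -64, 64, 0, 336⟩ = true := by decide +kernel

def tree_up1_5m : Tree := .N 6 (.N 6 (.L ⟨[(156, 1)], 0, 0, 0, 0, 0, []⟩) (.N 6 (.L ⟨[(156, 1)], 0, 0, 0, 0, 0, []⟩) (.N 3 (.N 2 (.L ⟨[(0, 240), (1, 880), (2, 3440), (10, 720), (25, 1125), (26, 1515), (27, 10320), (42, 1500), (46, 1296), (54, 336), (156, 52512)], 45360, 184320, 0, 0, 0, []⟩) (.L ⟨[(1, 50), (2, 150), (24, 125), (26, 25), (27, 155), (29, 295), (39, 530), (41, 150), (45, 60), (53, 15), (156, 2617)], 0, 7680, 1890, 0, 0, []⟩)) (.L ⟨[(1, 10), (2, 45), (26, 30), (27, 135), (39, 30), (42, 30), (44, 3), (55, 3), (156, 90)], 0, 0, 0, 0, 0, []⟩)))) (.N 3 (.N 3 (.N 2 (.L ⟨[(1, 22646), (2, 88475), (23, 67938), (27, 265425), (40, 333363), (66, 6732)], 0, 8616960, 0, 0, 0, []⟩) (.L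 ⟨[(1, 33330), (2, 112285), (22, 99990), (27, 336855), (41, 99990), (42, 99990), (53, 9999), (76, 5220), (77, 2610)], 0, 10022400, 0, 0, 0, []⟩)) (.L ⟨[(1, 30), (2, 137), (26, 90), (27, 411), (40, 54), (42, 54), (55, 9)], 0, 4320, 0, 0, 0, []⟩)) (.L ⟨[(1, 3), (2, 14), (26, 9), (27, 42)], 0, 0, 0, 0, 0, []⟩))

theorem ok_up1_5m : tree_up1_5m.check prm_up1 ⟨-32, 32, -64, 64, -32, 32, -64, 64, -32, 32, -64, -64, 0, 336⟩ = true := by decide +kernel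

def tree_up1_5p : Tree := .N 6 (.N 6 (.L ⟨[(156, 1)], 0, 0, 0, 0, 0, []⟩) (.L ⟨[(0, 14), (2, 3), (3, 42), (38, 9), (156, 1440)], 0, 0, 0, 0, 0, []⟩)) (.L ⟨[(0, 14), (2, 3), (3, 42), (38, 9), (156, 720)], 0, 0, 0, 0, 0, []⟩)

theorem ok_up1_5p : tree_up1_5p.check prm_up1 ⟨-32, 32, -64, 64, -32, 32, -64, 64, -32, 32, 64, 64, 0, 336⟩ = true := by decide +kernel

end Pool.Agent.H84.P6
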