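import Pool.Agent.H78.P6.Dom
import Pool.Agent.H84.P6.RT_up1
import Pool.Agent.H84.P6.RT_ray1
import Pool.Agent.H84.P6.RT_ray2
import Pool.Agent.H84.P6.RT_l2
import Pool.Agent.H84.P6.RT_pair
import Pool.Agent.H84.P6.RT_R6
import Pool.Agent.H84.P6.RT_c1
import Pool.Agent.H84.P6.RT_c3
import Pool.Agent.H84.P6.RT_c4
import Pool.Agent.H84.P6.RT_c5
import Pool.Agent.H84.P6.RT_c6
import Pool.Agent.H84.P6.RT_c7

/-! conclusions of the certificates (generated) -/

set_option autoImplicit false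

namespace Pool.Agent.H84.P6

open Pool.Agent.H30.P6 Pool.Agent.H78.P6

theorem no_up1 {z : Pt} (hz : Hyp prm_up1 z) (hb : Bd z) : False := by
  obtain ⟨T, W0, W1, W2, W3, W4, W5, hT, hs, h⟩ := cube_boxes 32 256 336 (by norm_num) (by norm_num) (by norm_num) hb
  have S := fun t b h1 h2 => tree_sound (P := prm_up1) (by decide) (by decide) hz hT hs t b h1 h2
  rcases h with h | h | h | h | h | h | h | h | h | h | h | h
  · exact S _ _ ok_up1_0m h
  · exact S _ _ ok_up1_0p h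
  · exact S _ _ ok_up1_1m h
  · exact S _ _ ok_up1_1p h
  · exact S _ _ ok_up1_2m h
  · exact S _ _ ok_up1_2p h
  · exact S _ _ ok_up1_3m h
  · exact S _ _ ok_up1_3p h
  · exact S _ _ ok_up1_4m h
  · exact S _ _ ok_up1_4p h
  · exact S _ _ ok_up1_5m h
  · exact S _ _ ok_up1_5p h

theorem no_ray1 {z : Pt} (hz : Hyp prm_ray1 z) (hb : Bd z) : False := by
  obtain ⟨T, W0, W1, W2, W3, W4, W5, hT, hs, h⟩ := cube_boxes 128 4096 5376 (by norm_num) (by norm_num) (by norm_num) hb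
  have S := fun t b h1 h2 => tree_sound (P := prm_ray1) (by decide) (by decide) hz hT hs t b h1 h2
  rcases h with h | h | h | h | h | h | h | h | h | h | h | h
  · exact S _ _ ok_ray1_0m h
  · exact S _ _ ok_ray1_0p h
  · exact S _ _ ok_ray1_1m h
  · exact S _ _ ok_ray1_1p h
  · exact S _ _ ok_ray1_2m h
  · exact S _ _ ok_ray1_2p h
  · exact S _ _ ok_ray1_3m h
  · exact S _ _ ok_ray1_3p h
  · exact S _ _ ok_ray1_4m h
  · exact S _ _ ok_ray1_4p h
  · exact S _ _ ok_ray1_5m h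
  · exact S _ _ ok_ray1_5p h

theorem no_ray2 {z : Pt} (hz : Hyp prm_ray2 z) (hb : Bd z) : False := by
  obtain ⟨T, W0, W1, W2, W3, W4, W5, hT, hs, h⟩ := cube_boxes 64 1024 1344 (by norm_num) (by norm_num) (by norm_num) hb
  have S := fun t b h1 h2 => tree_sound (P := prm_ray2) (by decide) (by decide) hz hT hs t b h1 h2
  rcases h with h | h | h | h | h | h | h | h | h | h | h | h
  · exact S _ _ ok_ray2_0m h
  · exact S _ _ ok_ray2_0p h
  · exact S _ _ ok_ray2_1m h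
  · exact S _ _ ok_ray2_1p h
  · exact S _ _ ok_ray2_2m h
  · exact S _ _ ok_ray2_2p h
  · exact S _ _ ok_ray2_3m h
  · exact S _ _ ok_ray2_3p h
  · exact S _ _ ok_ray2_4m h
  · exact S _ _ ok_ray2_4p h
  · exact S _ _ ok_ray2_5m h
  · exact S _ _ ok_ray2_5p h

theorem no_l2 {z : Pt} (hz : Hyp prm_l2 z) (hb : Bd z) (h2 : 0 ≤ z.X2) : False := by
  obtain ⟨T, W0, W1, W2, W3, W4, W5, hT, hs, h⟩ := cube_boxes 2048 131072 172032 (by norm_num) (by norm_num) (by norm_num) hb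
  have S := fun t b h1 h2 => tree_sound (P := prm_l2) (by decide) (by decide) hz hT hs t b h1 h2
  have p2 := hs.pos2 (by norm_num) hT h2
  rcases h with h | h | h | h | h | h | h | h | h | h | h | h
  · exact S _ _ ok_l2_0m (h.pos2 p2)
  · exact S _ _ ok_l2_0p (h.pos2 p2)
  · exact S _ _ ok_l2_1m (h.pos2 p2)
  · exact S _ _ ok_l2_1p (h.pos2 p2)
  · have := h.h2.2; push_cast at this; linarith
  · exact S _ _ ok_l2_2p h
  · exact S _ _ ok_l2_3m (h.pos2 p2)
  · exact S _ _ ok_l2_3p (h.pos2 p2)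
  · exact S _ _ ok_l2_4m (h.pos2 p2)
  · exact S _ _ ok_l2_4p (h.pos2 p2)
  · exact S _ _ ok_l2_5m (h.pos2 p2)
  · exact S _ _ ok_l2_5p (h.pos2 p2)

theorem no_pair {z : Pt} (hz : Hyp prm_pair z) (hb : Bd z) : False := by
  obtain ⟨T, W0, W1, W2, W3, W4, W5, hT, hs, h⟩ := cube_boxes 32 1024 1344 (by norm_num) (by norm_num) (by norm_num) hb
  have S := fun t b h1 h2 => tree_sound (P := prm_pair) (by decide) (by decide) hz hT hs t b h1 h2
  rcases h with h | h | h | h | h | h | h | h | h | h | h | h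
  · exact S _ _ ok_pair_0m h
  · exact S _ _ ok_pair_0p h
  · exact S _ _ ok_pair_1m h
  · exact S _ _ ok_pair_1p h
  · exact S _ _ ok_pair_2m h
  · exact S _ _ ok_pair_2p h
  · exact S _ _ ok_pair_3m h
  · exact S _ _ ok_pair_3p h
  · exact S _ _ ok_pair_4m h
  · exact S _ _ ok_pair_4p h
  · exact S _ _ ok_pair_5m h
  · exact S _ _ ok_pair_5p h

theorem no_R6 {z : Pt} (hz : Hyp prm_R6 z) (hb : Bd z) : False := by
  obtain ⟨T, W0, W1, W2, W3, W4, W5, hT, hs, h⟩ := cube_boxes 32 1024 1344 (by norm_num) (by norm_num) (by norm_num) hb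
  have S := fun t b h1 h2 => tree_sound (P := prm_R6) (by decide) (by decide) hz hT hs t b h1 h2
  rcases h with h | h | h | h | h | h | h | h | h | h | h | h
  · exact S _ _ ok_R6_0m h
  · exact S _ _ ok_R6_0p h
  · exact S _ _ ok_R6_1m h
  · exact S _ _ ok_R6_1p h
  · exact S _ _ ok_R6_2m h
  · exact S _ _ ok_R6_2p h
  · exact S _ _ ok_R6_3m h
  · exact S _ _ ok_R6_3p h
  · exact S _ _ ok_R6_4m h
  · exact S _ _ ok_R6_4p h
  · exact S _ _ ok_R6_5m h
  · exact S _ _ ok_R6_5p h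

theorem no_c1 {z : Pt} (hz : Hyp prm_c1 z) (hb : Bd z) : False := by
  obtain ⟨T, W0, W1, W2, W3, W4, W5, hT, hs, h⟩ := cube_boxes 32 4096 5376 (by norm_num) (by norm_num) (by norm_num) hb
  have S := fun t b h1 h2 => tree_sound (P := prm_c1) (by decide) (by decide) hz hT hs t b h1 h2
  rcases h with h | h | h | h | h | h | h | h | h | h | h | h
  · exact S _ _ ok_c1_0m h
  · exact S _ _ ok_c1_0p h
  · exact S _ _ ok_c1_1m h
  · exact S _ _ ok_c1_1p h
  · exact S _ _ ok_c1_2m h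
  · exact S _ _ ok_c1_2p h
  · exact S _ _ ok_c1_3m h
  · exact S _ _ ok_c1_3p h
  · exact S _ _ ok_c1_4m h
  · exact S _ _ ok_c1_4p h
  · exact S _ _ ok_c1_5m h
  · exact S _ _ ok_c1_5p h

theorem no_c3 {z : Pt} (hz : Hyp prm_c3 z) (hb : Bd z) : False := by
  obtain ⟨T, W0, W1, W2, W3, W4, W5, hT, hs, h⟩ := cube_boxes 64 1024 1344 (by norm_num) (by norm_num) (by norm_num) hb
  have S := fun t b h1 h2 => tree_sound (P := prm_c3) (by decide) (by decide) hz hT hs t b h1 h2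
  rcases h with h | h | h | h | h | h | h | h | h | h | h | h
  · exact S _ _ ok_c3_0m h
  · exact S _ _ ok_c3_0p h
  · exact S _ _ ok_c3_1m h
  · exact S _ _ ok_c3_1p h
  · exact S _ _ ok_c3_2m h
  · exact S _ _ ok_c3_2p h
  · exact S _ _ ok_c3_3m h
  · exact S _ _ ok_c3_3p h
  · exact S _ _ ok_c3_4m h
  · exact S _ _ ok_c3_4p h
  · exact S _ _ ok_c3_5m h
  · exact S _ _ ok_c3_5p h

theorem no_c4 {z : Pt} (hz : Hyp prm_c4 z) (hb : Bd z) : False := by
  obtain ⟨T, W0, W1, W2, W3, W4, W5, hT, hs, h⟩ := cube_boxes 32 1024 1344 (by norm_num) (by norm_num) (by norm_num) hb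
  have S := fun t b h1 h2 => tree_sound (P := prm_c4) (by decide) (by decide) hz hT hs t b h1 h2
  rcases h with h | h | h | h | h | h | h | h | h | h | h | h
  · exact S _ _ ok_c4_0m h
  · exact S _ _ ok_c4_0p h
  · exact S _ _ ok_c4_1m h
  · exact S _ _ ok_c4_1p h
  · exact S _ _ ok_c4_2m h
  · exact S _ _ ok_c4_2p h
  · exact S _ _ ok_c4_3m h
  · exact S _ _ ok_c4_3p h
  · exact S _ _ ok_c4_4m h
  · exact S _ _ ok_c4_4p h
  · exact S _ _ ok_c4_5m h
  · exact S _ _ ok_c4_5p h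

theorem no_c5 {z : Pt} (hz : Hyp prm_c5 z) (hb : Bd z) : False := by
  obtain ⟨T, W0, W1, W2, W3, W4, W5, hT, hs, h⟩ := cube_boxes 32 256 336 (by norm_num) (by norm_num) (by norm_num) hb
  have S := fun t b h1 h2 => tree_sound (P := prm_c5) (by decide) (by decide) hz hT hs t b h1 h2
  rcases h with h | h | h | h | h | h | h | h | h | h | h | h
  · exact S _ _ ok_c5_0m h
  · exact S _ _ ok_c5_0p h
  · exact S _ _ ok_c5_1m h
  · exact S _ _ ok_c5_1p h
  · exact S _ _ ok_c5_2m h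
  · exact S _ _ ok_c5_2p h
  · exact S _ _ ok_c5_3m h
  · exact S _ _ ok_c5_3p h
  · exact S _ _ ok_c5_4m h
  · exact S _ _ ok_c5_4p h
  · exact S _ _ ok_c5_5m h
  · exact S _ _ ok_c5_5p h

theorem no_c6 {z : Pt} (hz : Hyp prm_c6 z) (hb : Bd z) : False := by
  obtain ⟨T, W0, W1, W2, W3, W4, W5, hT, hs, h⟩ := cube_boxes 32 256 336 (by norm_num) (by norm_num) (by norm_num) hb
  have S := fun t b h1 h2 => tree_sound (P := prm_c6) (by decide) (by decide) hz hT hs t b h1 h2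
  rcases h with h | h | h | h | h | h | h | h | h | h | h | h
  · exact S _ _ ok_c6_0m h
  · exact S _ _ ok_c6_0p h
  · exact S _ _ ok_c6_1m h
  · exact S _ _ ok_c6_1p h
  · exact S _ _ ok_c6_2m h
  · exact S _ _ ok_c6_2p h
  · exact S _ _ ok_c6_3m h
  · exact S _ _ ok_c6_3p h
  · exact S _ _ ok_c6_4m h
  · exact S _ _ ok_c6_4p h
  · exact S _ _ ok_c6_5m h
  · exact S _ _ ok_c6_5p h

theorem no_c7 {z : Pt} (hz : Hyp prm_c7 z) (hb : Bd z) : False := by
  obtain ⟨T, W0, W1, W2, W3, W4, W5, hT, hs, h⟩ := cube_boxes 32 256 336 (by norm_num) (by norm_num) (by norm_num) hb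
  have S := fun t b h1 h2 => tree_sound (P := prm_c7) (by decide) (by decide) hz hT hs t b h1 h2
  rcases h with h | h | h | h | h | h | h | h | h | h | h | h
  · exact S _ _ ok_c7_0m h
  · exact S _ _ ok_c7_0p h
  · exact S _ _ ok_c7_1m h
  · exact S _ _ ok_c7_1p h
  · exact S _ _ ok_c7_2m h
  · exact S _ _ ok_c7_2p h
  · exact S _ _ ok_c7_3m h
  · exact S _ _ ok_c7_3p h
  · exact S _ _ ok_c7_4m h
  · exact S _ _ ok_c7_4p h
  · exact S _ _ ok_c7_5m h
  · exact S _ _ ok_c7_5p h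

end Pool.Agent.H84.P6
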