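import Pool.Agent.H84.P6.RNo
import Pool.Agent.H78.P6.T_M1

/-!
# RS1: the certificates of the real apex, in rational coordinates (radius 709/1000)
-/

set_option autoImplicit false

noncomputable section

namespace Pool.Agent.H84.P6

open Pool.Agent.H30.P6 Pool.Agent.H78.P6

theorem uDat_ok : ∀ t ∈ uDat, okT 502681 250000 t = true := by decide +kernel
theorem lDat_ok : ∀ t ∈ lDat, okT 12 1 t = true := by decide +kernel
theorem gDat_c1_ok : ∀ t ∈ gDat_c1, okT 5408 1000 t = true := by decide +kernel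
theorem gDat_c3_ok : ∀ t ∈ gDat_c3, okT 8404 1000 t = true := by decide +kernel
theorem gDat_c4_ok : ∀ t ∈ gDat_c4, okT 8972 1000 t = true := by decide +kernel
theorem gDat_c5_ok : ∀ t ∈ gDat_c5, okT 10696 1000 t = true := by decide +kernel
theorem gDat_c6_ok : ∀ t ∈ gDat_c6, okT 13792 1000 t = true := by decide +kernel
theorem gDat_c7_ok : ∀ t ∈ gDat_c7, okT 12572 1000 t = true := by decide +kernel

theorem gRow_ev (t : Int × Int × Int) (z : Pt) :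
    (gRow t).ev z = (t.1 : ℝ) * (2 + z.X1 - z.X3) + (t.2.1 : ℝ) * (z.Y1 - z.Y3) - (t.2.2 : ℝ) := by
  have e : ((min (2 * t.1 - t.2.2) 0 : ℤ) : ℝ) + ((max (2 * t.1 - t.2.2) 0 : ℤ) : ℝ) = 2 * (t.1 : ℝ) - (t.2.2 : ℝ) := by
    rw [← Int.cast_add, min_add_max]; push_cast; ring
  simp only [gRow, Row.ev]
  push_cast at e ⊢
  linarith

theorem rU_le {z : Pt} (h : 3 * z.a ^ 2 + z.b ^ 2 ≤ 502681 / 250000) (hb : -(289 / 250) ≤ z.b) :
    ∀ R ∈ rU, R.ev z ≤ 0 := by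
  intro R hR
  rw [rU, List.mem_append, List.mem_singleton] at hR
  rcases hR with hR | rfl
  · obtain ⟨t, ht, rfl⟩ := List.mem_map.1 hR
    have := okT_le (by norm_num) (uDat_ok t ht) (x := z.a) (y := z.b) (by push_cast; exact h)
    rw [uRow_ev]; linarith
  · rw [bRow_ev]; linarith

theorem rL_le {z : Pt} (h1 : 3 * (1 + z.X1) ^ 2 + (1 + z.Y1) ^ 2 ≤ 12) (h3 : 3 * (-1 + z.X3) ^ 2 + (1 + z.Y3) ^ 2 ≤ 12) :
    ∀ R ∈ rL, R.ev z ≤ 0 := by
  intro R hR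
  rw [rL, List.mem_append] at hR
  rcases hR with hR | hR
  · obtain ⟨t, ht, rfl⟩ := List.mem_map.1 hR
    have := okT_le (by norm_num) (lDat_ok t ht) (x := 1 + z.X1) (y := 1 + z.Y1) (by push_cast; linarith)
    rw [lRow1_ev]; linarith
  · obtain ⟨t, ht, rfl⟩ := List.mem_map.1 hR
    have := okT_le (by norm_num) (lDat_ok t ht) (x := -1 + z.X3) (y := 1 + z.Y3) (by push_cast; linarith)
    rw [lRow3_ev]; linarith

theorem gD_le {z : Pt} {s : Int} {l : List (Int × Int × Int)} (hl : ∀ t ∈ l, okT s 1000 t = true)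
    (h : 3 * (2 + z.X1 - z.X3) ^ 2 + (z.Y1 - z.Y3) ^ 2 ≤ (s : ℝ) / 1000) : ∀ R ∈ l.map gRow, R.ev z ≤ 0 := by
  intro R hR
  obtain ⟨t, ht, rfl⟩ := List.mem_map.1 hR
  have := okT_le (by norm_num) (hl t ht) (x := 2 + z.X1 - z.X3) (y := z.Y1 - z.Y3) (by push_cast; exact h)
  rw [gRow_ev]; linarith

theorem dom_bd' {a b X1 Y1 X2 Y2 X3 Y3 V1 V2 V3 p q r s h k E : ℝ}
    (c : Dom a b X1 Y1 X2 Y2 X3 Y3 V1 V2 V3 p q r s h k) (hu : 3 * a ^ 2 + b ^ 2 ≤ 202 / 100)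
    (ne : ¬ (X1 = 0 ∧ Y1 = 0 ∧ X2 = 0 ∧ Y2 = 0 ∧ X3 = 0 ∧ Y3 = 0)) :
    Bd (Cfg.pt a b X1 Y1 X2 Y2 X3 Y3 V1 V2 V3 p q r s h k E) := by
  have b1 : V1 ≤ 1 / 3 := by linarith [c.o1, c.r0, c.s0, c.k1.1]
  have b2 : V2 ≤ 1 / 3 := by linarith [c.o2, c.p0, c.q0, c.r0, c.s0, c.h1.1, c.k1.1]
  have b3 : V3 ≤ 1 / 3 := by linarith [c.o3, c.p0, c.q0, c.h1.1]
  obtain ⟨x1, y1⟩ := vle_bd c.v1 b1
  obtain ⟨x2, y2⟩ := vle_bd c.v2 b2
  obtain ⟨x3, y3⟩ := vle_bd c.v3 b3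
  have ha : |a| ≤ 83 / 100 := by rw [abs_le]; constructor <;> nlinarith [sq_nonneg b]
  have hb : |b| ≤ 3 / 2 := by rw [abs_le]; constructor <;> nlinarith [sq_nonneg a]
  rw [abs_le] at x1 y1 x2 y2 x3 y3 ha hb
  refine ⟨ne, ?_, ?_, ?_, ?_, ?_, ?_⟩ <;> simp only [Cfg.pt] <;> rw [abs_le] <;> constructor <;> linarith

/-- the real apex: `‖y - site‖ ≤ 709/1000`, not too low, legs `≤ √3` -/
structure DR (a b X1 Y1 X2 Y2 X3 Y3 V1 V2 V3 p q r s h k : ℝ) : Prop where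
  d : Dom a b X1 Y1 X2 Y2 X3 Y3 V1 V2 V3 p q r s h k
  u : 3 * a ^ 2 + b ^ 2 ≤ 502681 / 250000
  b : -(289 / 250) ≤ b
  l1 : 3 * (1 + X1) ^ 2 + (1 + Y1) ^ 2 ≤ 12
  l3 : 3 * (-1 + X3) ^ 2 + (1 + Y3) ^ 2 ≤ 12

variable {a b X1 Y1 X2 Y2 X3 Y3 V1 V2 V3 p q r s h k : ℝ}

theorem DR.mirror (c : DR a b X1 Y1 X2 Y2 X3 Y3 V1 V2 V3 p q r s h k) :
    DR (-a) b (-X3) Y3 (-X2) Y2 (-X1) Y1 V3 V2 V1 s r q p k h where
  d := c.d.mirror
  u := by have := c.u; linarith [neg_sq a]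
  b := c.b
  l1 := by have := c.l3; nlinarith
  l3 := by have := c.l1; nlinarith

theorem DR.rows (c : DR a b X1 Y1 X2 Y2 X3 Y3 V1 V2 V3 p q r s h k) (E : ℝ) :
    ∀ R ∈ rR, R.ev (Cfg.pt a b X1 Y1 X2 Y2 X3 Y3 V1 V2 V3 p q r s h k E) ≤ 0 := by
  intro R hR
  rw [rR, List.mem_append, List.mem_append] at hR
  rcases hR with hR | hR | hR
  · exact rowsC_le c.d R hR
  · exact rU_le (z := Cfg.pt a b X1 Y1 X2 Y2 X3 Y3 V1 V2 V3 p q r s h k E) c.u c.b R hR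
  · exact rL_le (z := Cfg.pt a b X1 Y1 X2 Y2 X3 Y3 V1 V2 V3 p q r s h k E) c.l1 c.l3 R hR

theorem DR.bd (c : DR a b X1 Y1 X2 Y2 X3 Y3 V1 V2 V3 p q r s h k) (E : ℝ)
    (ne : ¬ (X1 = 0 ∧ Y1 = 0 ∧ X2 = 0 ∧ Y2 = 0 ∧ X3 = 0 ∧ Y3 = 0)) :
    Bd (Cfg.pt a b X1 Y1 X2 Y2 X3 Y3 V1 V2 V3 p q r s h k E) := dom_bd' c.d (by linarith [c.u]) ne

theorem DR.up1 (c : DR a b X1 Y1 X2 Y2 X3 Y3 V1 V2 V3 p q r s h k) : 0 < 1 + Y1 := by
  by_contra hcon
  push Not at hcon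
  refine no_up1 (hyp_of 0 c.d (P := prm_up1) ?_ ?_) (c.bd 0 ?_)
  · intro R hR
    rw [prm_up1] at hR
    rcases List.mem_append.1 hR with hR | hR
    · exact c.rows 0 R hR
    · rw [List.mem_singleton] at hR
      subst hR
      simp only [Row.ev, Cfg.pt]; push_cast; linarith
  · intro f hf; simp [prm_up1] at hf
  · rintro ⟨-, h1, -⟩; linarith

theorem DR.ray1 (c : DR a b X1 Y1 X2 Y2 X3 Y3 V1 V2 V3 p q r s h k) : 2 * (1 + Y1) < 25 * (1 + X1) := by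
  by_contra hcon
  push Not at hcon
  refine no_ray1 (hyp_of 0 c.d (P := prm_ray1) ?_ ?_) (c.bd 0 ?_)
  · intro R hR
    rw [prm_ray1] at hR
    rcases List.mem_append.1 hR with hR | hR
    · exact c.rows 0 R hR
    · rw [List.mem_singleton] at hR
      subst hR
      simp only [Row.ev, Cfg.pt]; push_cast; linarith
  · intro f hf; simp [prm_ray1] at hf
  · rintro ⟨h0, h1, -⟩; rw [h0, h1] at hcon; linarith

theorem DR.ray2 (c : DR a b X1 Y1 X2 Y2 X3 Y3 V1 V2 V3 p q r s h k) : 9 * X2 < 4 * (2 + Y2) := by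
  by_contra hcon
  push Not at hcon
  refine no_ray2 (hyp_of 0 c.d (P := prm_ray2) ?_ ?_) (c.bd 0 ?_)
  · intro R hR
    rw [prm_ray2] at hR
    rcases List.mem_append.1 hR with hR | hR
    · exact c.rows 0 R hR
    · rw [List.mem_singleton] at hR
      subst hR
      simp only [Row.ev, Cfg.pt]; push_cast; linarith
  · intro f hf; simp [prm_ray2] at hf
  · rintro ⟨-, -, h0, h1, -⟩; rw [h0, h1] at hcon; linarith

theorem DR.pair (c : DR a b X1 Y1 X2 Y2 X3 Y3 V1 V2 V3 p q r s h k) (h1 : 52 / 5 ≤ 3 * (1 + X1) ^ 2 + (1 + Y1) ^ 2)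
    (h3 : 9 ≤ 3 * (-1 + X3) ^ 2 + (1 + Y3) ^ 2) : False := by
  refine no_pair (hyp_of 0 c.d (P := prm_pair) ?_ ?_) (c.bd 0 ?_)
  · intro R hR
    rw [prm_pair] at hR
    rcases List.mem_append.1 hR with hR | hR
    · exact c.rows 0 R hR
    · simp at hR
  · intro f hf
    simp only [prm_pair, List.mem_cons, List.not_mem_nil, or_false] at hf
    rcases hf with rfl | rfl
    · refine ⟨by norm_num, ?_⟩
      simp only [gq, Cfg.pt]; push_cast; nlinarith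
    · refine ⟨by norm_num, ?_⟩
      simp only [gq, Cfg.pt]; push_cast; nlinarith
  · rintro ⟨h0, h0', -⟩; rw [h0, h0'] at h1; norm_num at h1

theorem DR.l2_aux (c : DR a b X1 Y1 X2 Y2 X3 Y3 V1 V2 V3 p q r s h k) (hX : 0 ≤ X2) : 3 * X2 ^ 2 + (2 + Y2) ^ 2 < 12 := by
  by_contra hcon
  push Not at hcon
  refine no_l2 (hyp_of 0 c.d (P := prm_l2) ?_ ?_) (c.bd 0 ?_) hX
  · intro R hR
    rw [prm_l2] at hR
    rcases List.mem_append.1 hR with hR | hR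
    · exact c.rows 0 R hR
    · simp at hR
  · intro f hf
    simp only [prm_l2, List.mem_cons, List.not_mem_nil, or_false] at hf
    subst hf
    refine ⟨by norm_num, ?_⟩
    simp only [gq, Cfg.pt]; push_cast; nlinarith
  · rintro ⟨-, -, h0, h0', -⟩; rw [h0, h0'] at hcon; norm_num at hcon

theorem DR.l2 (c : DR a b X1 Y1 X2 Y2 X3 Y3 V1 V2 V3 p q r s h k) : 3 * X2 ^ 2 + (2 + Y2) ^ 2 < 12 := by
  rcases le_total 0 X2 with hX | hX
  · exact c.l2_aux hX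
  · have := c.mirror.l2_aux (by linarith)
    nlinarith

/-- the energy of a fan with a long leg -/
theorem DR.R6 (c : DR a b X1 Y1 X2 Y2 X3 Y3 V1 V2 V3 p q r s h k) {E : ℝ}
    (o1 : fan X1 Y1 X2 Y2 X3 Y3 + V1 + r + s + k ≤ E)
    (o2 : fan X1 Y1 X2 Y2 X3 Y3 + V2 + p + q + r + s + h + k ≤ E)
    (o3 : fan X1 Y1 X2 Y2 X3 Y3 + V3 + p + q + h ≤ E)
    (h1 : 32 / 3 ≤ 3 * (1 + X1) ^ 2 + (1 + Y1) ^ 2) : 193 / 500 < E := by
  by_contra hcon
  push Not at hcon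
  refine no_R6 (hyp_of E c.d (P := prm_R6) ?_ ?_) (c.bd E ?_)
  · intro R hR
    rw [prm_R6] at hR
    rcases List.mem_append.1 hR with hR | hR
    · exact c.rows E R hR
    · simp only [List.mem_cons, List.not_mem_nil, or_false] at hR
      rcases hR with rfl | rfl | rfl | rfl
      · simp only [Row.ev, Cfg.pt]; push_cast; linarith
      · simp only [Row.ev, Cfg.pt]; push_cast; linarith
      · simp only [Row.ev, Cfg.pt]; push_cast; linarith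
      · simp only [Row.ev, Cfg.pt]; push_cast; linarith
  · intro f hf
    simp only [prm_R6, List.mem_cons, List.not_mem_nil, or_false] at hf
    subst hf
    refine ⟨by norm_num, ?_⟩
    simp only [gq, Cfg.pt]; push_cast; nlinarith
  · rintro ⟨h0, h0', -⟩; rw [h0, h0'] at h1; norm_num at h1

/-- the square of the distance of the outer frames, times 4 -/
def G13 (X1 Y1 X3 Y3 : ℝ) : ℝ := 3 * (2 + X1 - X3) ^ 2 + (Y1 - Y3) ^ 2

theorem DR.c1 (c : DR a b X1 Y1 X2 Y2 X3 Y3 V1 V2 V3 p q r s h k) : 5408 / 1000 < G13 X1 Y1 X3 Y3 := by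
  by_contra hcon
  push Not at hcon
  refine no_c1 (hyp_of 0 c.d (P := prm_c1) ?_ ?_) (c.bd 0 ?_)
  · intro R hR
    rw [prm_c1] at hR
    rcases List.mem_append.1 hR with hR | hR
    · exact c.rows 0 R hR
    · exact gD_le (z := Cfg.pt a b X1 Y1 X2 Y2 X3 Y3 V1 V2 V3 p q r s h k 0) gDat_c1_ok
        (by push_cast; exact hcon) R hR
  · intro f hf
    simp [prm_c1] at hf
  · rintro ⟨h0, h0', -, -, h3, h3'⟩
    rw [G13, h0, h0', h3, h3'] at hcon; norm_num at hcon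

theorem DR.c3 (c : DR a b X1 Y1 X2 Y2 X3 Y3 V1 V2 V3 p q r s h k) (h1 : 104 / 10 ≤ 3 * (1 + X1) ^ 2 + (1 + Y1) ^ 2) :
    8404 / 1000 < G13 X1 Y1 X3 Y3 := by
  by_contra hcon
  push Not at hcon
  refine no_c3 (hyp_of 0 c.d (P := prm_c3) ?_ ?_) (c.bd 0 ?_)
  · intro R hR
    rw [prm_c3] at hR
    rcases List.mem_append.1 hR with hR | hR
    · exact c.rows 0 R hR
    · exact gD_le (z := Cfg.pt a b X1 Y1 X2 Y2 X3 Y3 V1 V2 V3 p q r s h k 0) gDat_c3_ok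
        (by push_cast; exact hcon) R hR
  · intro f hf
    simp only [prm_c3, List.mem_cons, List.not_mem_nil, or_false] at hf
    subst hf
    refine ⟨by norm_num, ?_⟩
    simp only [gq, Cfg.pt]; push_cast; nlinarith
  · rintro ⟨h0, h0', -, -, h3, h3'⟩
    rw [G13, h0, h0', h3, h3'] at hcon; norm_num at hcon

theorem DR.c4 (c : DR a b X1 Y1 X2 Y2 X3 Y3 V1 V2 V3 p q r s h k) (h1 : 88 / 10 ≤ 3 * (1 + X1) ^ 2 + (1 + Y1) ^ 2)
    (h3 : 65 / 10 ≤ 3 * (-1 + X3) ^ 2 + (1 + Y3) ^ 2) : 8972 / 1000 < G13 X1 Y1 X3 Y3 := by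
  by_contra hcon
  push Not at hcon
  refine no_c4 (hyp_of 0 c.d (P := prm_c4) ?_ ?_) (c.bd 0 ?_)
  · intro R hR
    rw [prm_c4] at hR
    rcases List.mem_append.1 hR with hR | hR
    · exact c.rows 0 R hR
    · exact gD_le (z := Cfg.pt a b X1 Y1 X2 Y2 X3 Y3 V1 V2 V3 p q r s h k 0) gDat_c4_ok
        (by push_cast; exact hcon) R hR
  · intro f hf
    simp only [prm_c4, List.mem_cons, List.not_mem_nil, or_false] at hf
    rcases hf with rfl | rfl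
    · refine ⟨by norm_num, ?_⟩
      simp only [gq, Cfg.pt]; push_cast; nlinarith
    · refine ⟨by norm_num, ?_⟩
      simp only [gq, Cfg.pt]; push_cast; nlinarith
  · rintro ⟨h0, h0', -, -, h3, h3'⟩
    rw [G13, h0, h0', h3, h3'] at hcon; norm_num at hcon

theorem DR.c5 (c : DR a b X1 Y1 X2 Y2 X3 Y3 V1 V2 V3 p q r s h k) (h1 : 104 / 10 ≤ 3 * (1 + X1) ^ 2 + (1 + Y1) ^ 2)
    (h3 : 65 / 10 ≤ 3 * (-1 + X3) ^ 2 + (1 + Y3) ^ 2) : 10696 / 1000 < G13 X1 Y1 X3 Y3 := by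
  by_contra hcon
  push Not at hcon
  refine no_c5 (hyp_of 0 c.d (P := prm_c5) ?_ ?_) (c.bd 0 ?_)
  · intro R hR
    rw [prm_c5] at hR
    rcases List.mem_append.1 hR with hR | hR
    · exact c.rows 0 R hR
    · exact gD_le (z := Cfg.pt a b X1 Y1 X2 Y2 X3 Y3 V1 V2 V3 p q r s h k 0) gDat_c5_ok
        (by push_cast; exact hcon) R hR
  · intro f hf
    simp only [prm_c5, List.mem_cons, List.not_mem_nil, or_false] at hf
    rcases hf with rfl | rfl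
    · refine ⟨by norm_num, ?_⟩
      simp only [gq, Cfg.pt]; push_cast; nlinarith
    · refine ⟨by norm_num, ?_⟩
      simp only [gq, Cfg.pt]; push_cast; nlinarith
  · rintro ⟨h0, h0', -, -, h3, h3'⟩
    rw [h0, h0'] at h1; norm_num at h1

theorem DR.c6 (c : DR a b X1 Y1 X2 Y2 X3 Y3 V1 V2 V3 p q r s h k) (h1 : 104 / 10 ≤ 3 * (1 + X1) ^ 2 + (1 + Y1) ^ 2)
    (h3 : 775 / 100 ≤ 3 * (-1 + X3) ^ 2 + (1 + Y3) ^ 2) : 13792 / 1000 < G13 X1 Y1 X3 Y3 := by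
  by_contra hcon
  push Not at hcon
  refine no_c6 (hyp_of 0 c.d (P := prm_c6) ?_ ?_) (c.bd 0 ?_)
  · intro R hR
    rw [prm_c6] at hR
    rcases List.mem_append.1 hR with hR | hR
    · exact c.rows 0 R hR
    · exact gD_le (z := Cfg.pt a b X1 Y1 X2 Y2 X3 Y3 V1 V2 V3 p q r s h k 0) gDat_c6_ok
        (by push_cast; exact hcon) R hR
  · intro f hf
    simp only [prm_c6, List.mem_cons, List.not_mem_nil, or_false] at hf
    rcases hf with rfl | rfl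
    · refine ⟨by norm_num, ?_⟩
      simp only [gq, Cfg.pt]; push_cast; nlinarith
    · refine ⟨by norm_num, ?_⟩
      simp only [gq, Cfg.pt]; push_cast; nlinarith
  · rintro ⟨h0, h0', -, -, h3, h3'⟩
    rw [h0, h0'] at h1; norm_num at h1

theorem DR.c7 (c : DR a b X1 Y1 X2 Y2 X3 Y3 V1 V2 V3 p q r s h k) (h1 : 88 / 10 ≤ 3 * (1 + X1) ^ 2 + (1 + Y1) ^ 2)
    (h3 : 9 ≤ 3 * (-1 + X3) ^ 2 + (1 + Y3) ^ 2) : 12572 / 1000 < G13 X1 Y1 X3 Y3 := by
  by_contra hcon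
  push Not at hcon
  refine no_c7 (hyp_of 0 c.d (P := prm_c7) ?_ ?_) (c.bd 0 ?_)
  · intro R hR
    rw [prm_c7] at hR
    rcases List.mem_append.1 hR with hR | hR
    · exact c.rows 0 R hR
    · exact gD_le (z := Cfg.pt a b X1 Y1 X2 Y2 X3 Y3 V1 V2 V3 p q r s h k 0) gDat_c7_ok
        (by push_cast; exact hcon) R hR
  · intro f hf
    simp only [prm_c7, List.mem_cons, List.not_mem_nil, or_false] at hf
    rcases hf with rfl | rfl
    · refine ⟨by norm_num, ?_⟩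
      simp only [gq, Cfg.pt]; push_cast; nlinarith
    · refine ⟨by norm_num, ?_⟩
      simp only [gq, Cfg.pt]; push_cast; nlinarith
  · rintro ⟨h0, h0', -, -, h3, h3'⟩
    rw [h0, h0'] at h1; norm_num at h1

theorem no_M1 {z : Pt} (hz : Hyp prm_M1 z) (hb : Bd z) : False := by
  obtain ⟨T, W0, W1, W2, W3, W4, W5, hT, hs, h⟩ := cube_boxes 64 512 672 (by norm_num) (by norm_num) (by norm_num) hb
  have S := fun t b h1 h2 => tree_sound (P := prm_M1) (by decide) (by decide) hz hT hs t b h1 h2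
  rcases h with h | h | h | h | h | h | h | h | h | h | h | h
  · exact S _ _ ok_M1_0m h
  · exact S _ _ ok_M1_0p h
  · exact S _ _ ok_M1_1m h
  · exact S _ _ ok_M1_1p h
  · exact S _ _ ok_M1_2m h
  · exact S _ _ ok_M1_2p h
  · exact S _ _ ok_M1_3m h
  · exact S _ _ ok_M1_3p h
  · exact S _ _ ok_M1_4m h
  · exact S _ _ ok_M1_4p h
  · exact S _ _ ok_M1_5m h
  · exact S _ _ ok_M1_5p h

/-- matched apex: the legs are shorter than `√3` -/
theorem dom_M1 (c : Dom a b X1 Y1 X2 Y2 X3 Y3 V1 V2 V3 p q r s h k) (hu : 3 * a ^ 2 + b ^ 2 ≤ 1) :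
    3 * (1 + X1) ^ 2 + (1 + Y1) ^ 2 < 12 := by
  by_contra hcon
  push Not at hcon
  refine no_M1 (hyp_of 0 c (P := prm_M1) ?_ ?_) (dom_bd c (by linarith) ?_)
  · intro R hR
    rw [prm_M1] at hR
    rcases List.mem_append.1 hR with hR | hR
    · rw [rowsM, List.mem_append] at hR
      rcases hR with hR | hR
      · exact rowsC_le c R hR
      · exact rowsU5_le (z := Cfg.pt a b X1 Y1 X2 Y2 X3 Y3 V1 V2 V3 p q r s h k 0) hu R hR
    · simp at hR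
  · intro f hf
    simp only [prm_M1, List.mem_cons, List.not_mem_nil, or_false] at hf
    subst hf
    refine ⟨by norm_num, ?_⟩
    simp only [gq, Cfg.pt]; push_cast; nlinarith
  · rintro ⟨h0, h0', -⟩; rw [h0, h0'] at hcon; norm_num at hcon

end Pool.Agent.H84.P6
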