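import Pool.Agent.H84.P6.Defs

/-!
# SC: reduction to opposite side 1
`θ ↦ S r s θ` is concave on `[0,π]` (`strictConcaveOn_sin_Icc`).  Let `c0 = (r²+s²-1)/(2rs)`, `θ0 = arccos c0`.  `h` says
`cos θ ≤ c0`, hence `θ0 ≤ θ` (`-1 ≤ c0 ≤ 1` by `h1`, `h2`).  `S r s θ0 = S0 r s` because
`r s sin θ0 = r s √(1-c0²) = √(((r+s)²-1)(1-(r-s)²))/2`, and `S r s (2π/3) = rs/2 - 1/3` (`sin (2π/3) = √3/2`).
So `S r s θ ≥ min (S r s θ0) (S r s (2π/3))` (`ConcaveOn.min_le_of_mem_Icc`).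
-/

set_option autoImplicit false

open Real

noncomputable section

namespace Pool.Agent.H84.P6

theorem SC {r s θ : ℝ} (hr : 0 < r) (hs : 0 < s) (h1 : 1 < r + s) (h2 : (r - s) ^ 2 ≤ 1)
    (hθ0 : 0 ≤ θ) (hθ : θ ≤ 2 * π / 3) (h : 1 ≤ r ^ 2 + s ^ 2 - 2 * r * s * Real.cos θ) :
    min (S0 r s) (r * s / 2 - 1 / 3) ≤ S r s θ := by
  have hrs : 0 < r * s := mul_pos hr hs
  have hrs2 : 0 < 2 * r * s := by nlinarith
  have hpi := Real.pi_pos
  have h3 : (0 : ℝ) < √3 := Real.sqrt_pos.mpr (by norm_num)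
  set c0 : ℝ := (r ^ 2 + s ^ 2 - 1) / (2 * r * s) with hc0
  have hcm : -1 ≤ c0 := by
    rw [hc0, le_div_iff₀ hrs2]
    nlinarith
  have hcp : c0 ≤ 1 := by
    rw [hc0, div_le_one hrs2]
    nlinarith
  have hθπ : θ ≤ π := by linarith
  have hcos : Real.cos θ ≤ c0 := by
    rw [hc0, le_div_iff₀ hrs2]
    nlinarith
  have hle : Real.arccos c0 ≤ θ := by
    have := Real.antitone_arccos hcos
    rwa [Real.arccos_cos hθ0 hθπ] at this
  have hconc : ConcaveOn ℝ (Set.Icc 0 π) (fun t => S r s t) := by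
    have hc1 : ConcaveOn ℝ (Set.Icc 0 π) (fun t => (r * s / √3) • Real.sin t) :=
      strictConcaveOn_sin_Icc.concaveOn.smul (by positivity)
    refine ⟨convex_Icc _ _, ?_⟩
    intro x hx y hy a b ha hb hab
    have h := hc1.2 hx hy ha hb hab
    simp only [smul_eq_mul, S] at h ⊢
    have e1 : r * s * Real.sin x / √3 = r * s / √3 * Real.sin x := by ring
    have e2 : r * s * Real.sin y / √3 = r * s / √3 * Real.sin y := by ring
    have e3 : r * s * Real.sin (a * x + b * y) / √3 = r * s / √3 * Real.sin (a * x + b * y) := by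
      ring
    rw [e1, e2, e3]
    have hb' : b = 1 - a := by linarith
    subst hb'
    have e4 : (a * x + (1 - a) * y) / (2 * π) = a * (x / (2 * π)) + (1 - a) * (y / (2 * π)) := by
      ring
    rw [e4]
    nlinarith
  have hmin := hconc.min_le_of_mem_Icc (x := Real.arccos c0) (y := 2 * π / 3) (z := θ)
    ⟨Real.arccos_nonneg _, Real.arccos_le_pi _⟩ ⟨by positivity, by linarith⟩ ⟨hle, hθ⟩
  have hS0 : S r s (Real.arccos c0) = S0 r s := by
    unfold S S0
    rw [Real.sin_arccos, ← hc0]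
    have hX : ((r + s) ^ 2 - 1) * (1 - (r - s) ^ 2) = (2 * (r * s)) ^ 2 * (1 - c0 ^ 2) := by
      rw [hc0]
      field_simp
      ring
    rw [hX, Real.sqrt_mul (by positivity), Real.sqrt_sq (by positivity)]
    field_simp
  have hS1 : S r s (2 * π / 3) = r * s / 2 - 1 / 3 := by
    unfold S
    have hsin : Real.sin (2 * π / 3) = √3 / 2 := by
      rw [show 2 * π / 3 = π - π / 3 by ring, Real.sin_pi_sub, Real.sin_pi_div_three]
    rw [hsin]
    field_simp
    ring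
  rw [← hS0, ← hS1]
  exact hmin

end Pool.Agent.H84.P6
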