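import Pool.Agent.H84.P6.PP
import Pool.Agent.H84.P6.SC
import Pool.Agent.H84.P6.MM
import Pool.Agent.H84.P6.OC
import Pool.Agent.H84.P6.OE1
import Pool.Agent.H84.P6.OE2

/-!
# SBD: the bound for one triangle with virtual apex
-/

set_option autoImplicit false

open Real

noncomputable section

namespace Pool.Agent.H84.P6

theorem SBD {r s θ : ℝ} (hr : 0.5238 ≤ r) (hr1 : r ≤ 1.282) (hs : 0.649 ≤ s) (hs1 : s ≤ 1.1135)
    (hθ0 : 0 ≤ θ) (hθ : θ ≤ 2 * π / 3) (h : 1 ≤ r ^ 2 + s ^ 2 - 2 * r * s * Real.cos θ) :
    -Bd (1 - r) (1 - s) ≤ S r s θ := by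
  have hsum : 1 < r + s := by norm_num at hr hs ⊢; linarith
  have hd : (r - s) ^ 2 ≤ 1 := by
    have h1 : r - s ≤ 1 := by norm_num at hr hs hr1 hs1 ⊢; linarith
    have h2 : -1 ≤ r - s := by norm_num at hr hs hr1 hs1 ⊢; linarith
    nlinarith
  have hsc := SC (by norm_num at hr; linarith) (by norm_num at hs; linarith) hsum hd hθ0 hθ h
  rcases le_total r 1 with hr' | hr'
  · rcases le_total s 1 with hs' | hs'
    · -- both at most 1
      have hpp := PP (r := r) (s := s) (by norm_num at hr; linarith) hr' (by norm_num at hs; linarith) hs' hsum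
      have hB : Bd (1 - r) (1 - s) = (2 - r - s) / 4 + (r - s) ^ 2 / 4 := by
        unfold Bd
        rw [if_pos (by linarith), if_pos (by linarith)]; ring
      rw [hB]
      refine le_trans ?_ hsc
      apply le_min
      · linarith
      · norm_num at hr hs ⊢
        nlinarith [mul_nonneg (sub_nonneg.2 hr) (sub_nonneg.2 hr'), mul_nonneg (sub_nonneg.2 hs) (sub_nonneg.2 hs')]
    · rcases eq_or_lt_of_le hs' with he | hlt
      · subst he
        have hpp := PP (r := r) (s := 1) (by norm_num at hr; linarith) hr' (by norm_num) le_rfl hsum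
        have hB : Bd (1 - r) (1 - 1) = (2 - r - 1) / 4 + (r - 1) ^ 2 / 4 := by
          unfold Bd
          rw [if_pos (by linarith), if_pos (by linarith)]; ring
        rw [hB]
        refine le_trans ?_ hsc
        apply le_min
        · linarith
        · norm_num at hr hs ⊢
          nlinarith [mul_nonneg (sub_nonneg.2 hr) (sub_nonneg.2 hr')]
      · have hoc := OC (s := r) (κ := 1 / 4) (R := 1.1135) (r := s) (by norm_num at hr ⊢; linarith) hr'
          (by norm_num) hs' hs1 (by norm_num) (OE2 hr hr')
        have hB : Bd (1 - r) (1 - s) = (1 - r) / 4 + (1 - r) ^ 2 / 4 + 1 / 4 * (s - 1) := by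
          unfold Bd
          rw [if_pos (by linarith), if_neg (by linarith)]; ring
        rw [hB]
        refine le_trans ?_ hsc
        apply le_min
        · rw [S0_comm r s]; linarith
        · norm_num at hr hs ⊢
          nlinarith [mul_nonneg (sub_nonneg.2 hr) (sub_nonneg.2 hr'), mul_nonneg (sub_nonneg.2 hr) (sub_nonneg.2 hs')]
  · rcases eq_or_lt_of_le hr' with he | hlt
    · subst he
      rcases le_total s 1 with hs' | hs'
      · have hpp := PP (r := 1) (s := s) (by norm_num) le_rfl (by norm_num at hs; linarith) hs' hsum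
        have hB : Bd (1 - 1) (1 - s) = (2 - 1 - s) / 4 + (1 - s) ^ 2 / 4 := by
          unfold Bd
          rw [if_pos (by linarith), if_pos (by linarith)]; ring
        rw [hB]
        refine le_trans ?_ hsc
        apply le_min
        · linarith
        · norm_num at hr hs ⊢
          nlinarith [mul_nonneg (sub_nonneg.2 hs) (sub_nonneg.2 hs')]
      · have hmm := MM (r := 1) (s := s) le_rfl hs' (by norm_num at hs1 ⊢; linarith) hθ0 hθ h
        refine le_trans ?_ hmm
        unfold Bd
        rcases eq_or_lt_of_le hs' with he2 | hlt2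
        · subst he2
          norm_num
        · rw [if_pos (by linarith), if_neg (by linarith)]
          norm_num
          linarith
    · rcases le_total s 1 with hs' | hs'
      · have hoc := OC (s := s) (κ := 11 / 50) (R := 1.282) (r := r) (by norm_num at hs ⊢; linarith) hs'
          (by norm_num) hr' hr1 (by norm_num) (OE1 hs hs')
        have hB : Bd (1 - r) (1 - s) = (1 - s) / 4 + (1 - s) ^ 2 / 4 + 11 / 50 * (r - 1) := by
          unfold Bd
          rw [if_neg (by linarith), if_pos (by linarith)]; ring
        rw [hB]
        refine le_trans ?_ hsc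
        apply le_min
        · linarith
        · norm_num at hr hs ⊢
          nlinarith [mul_nonneg (sub_nonneg.2 hs) (sub_nonneg.2 hs'), mul_nonneg (sub_nonneg.2 hs) (sub_nonneg.2 hr')]
      · have hmm := MM (r := r) (s := s) hr' hs' (by
          have := mul_le_mul hr1 hs1 (by linarith) (by norm_num)
          norm_num at this ⊢; linarith) hθ0 hθ h
        refine le_trans ?_ hmm
        unfold Bd
        rw [if_neg (by linarith)]
        rcases eq_or_lt_of_le hs' with he2 | hlt2
        · subst he2
          norm_num
          linarith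
        · rw [if_neg (by linarith)]
          norm_num

end Pool.Agent.H84.P6
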