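import Pool.Agent.H84.P6.Defs

/-!
# VB: the potential controls the radii from below
`v = (x,y)` is the displacement of the frame `d1 = (√3/2,1/2)` resp. `d2 = (0,1)`, `r` the distance of the displaced frame from 0.
* `VB1`: `x1 = (√3/2+x, 1/2+y) = a d1 + b (-1/2,√3/2)`, `a ≤ r`.  If `b ≥ 0` use the face `8/5(-(√3/2)x+y/2) = 8/5 (1/2 - a/2 + √3/2 b)
  ≥ 4/5 (1-a)`; if `b ≤ 0` the face `-x/√3-2/5 y = 7/10 - 7/10 a - (√3/5-1/(2√3)) b ≥ 7/10 (1-a)`.  If `1 - r < 0` use `Vh ≥ 0`.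
* `VB2`: `-(19/20) y = 19/20 (1 - (1+y)) ≥ 19/20 (1-r)`.
-/

set_option autoImplicit false

open Real

noncomputable section

namespace Pool.Agent.H84.P6

theorem VB1 {x y r : ℝ} (hr : 0 ≤ r) (hn : r ^ 2 = (√3 / 2 + x) ^ 2 + (1 / 2 + y) ^ 2) :
    7 / 10 * (1 - r) ≤ Vh x y := by
  have h0 : 0 ≤ Vh x y := le_max_left _ _
  have h3 : -x / √3 - 2 / 5 * y ≤ Vh x y :=
    (le_max_left _ _).trans ((le_max_right _ _).trans ((le_max_right _ _).trans (le_max_right _ _)))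
  have h5 : 8 / 5 * (-(√3 / 2) * x + y / 2) ≤ Vh x y :=
    (le_max_left _ _).trans ((le_max_right _ _).trans ((le_max_right _ _).trans
      ((le_max_right _ _).trans ((le_max_right _ _).trans (le_max_right _ _)))))
  rcases le_or_gt (1 - r) 0 with hr1 | hr1
  · linarith
  have hs := sq3
  have hlo := sq3_lo
  have hhi := sq3_hi
  obtain ⟨a, ha⟩ : ∃ a, a = (√3 / 2 + x) * (√3 / 2) + (1 / 2 + y) / 2 := ⟨_, rfl⟩
  obtain ⟨b, hb⟩ : ∃ b, b = -(√3 / 2 + x) / 2 + (1 / 2 + y) * (√3 / 2) := ⟨_, rfl⟩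
  have hab : a ^ 2 + b ^ 2 = r ^ 2 := by
    rw [ha, hb, hn]
    linear_combination (((√3 / 2 + x) ^ 2 + (1 / 2 + y) ^ 2) / 4) * hs
  have har : a ≤ r := by
    have h : a ^ 2 ≤ r ^ 2 := by nlinarith [sq_nonneg b]
    exact (abs_le_of_sq_le_sq' h hr).2
  have hx : x = a * (√3 / 2) - b / 2 - √3 / 2 := by
    rw [ha, hb]
    linear_combination (-(√3 / 2 + x) / 4) * hs
  have hy : y = a / 2 + b * (√3 / 2) - 1 / 2 := by
    rw [ha, hb]
    linear_combination (-(1 / 2 + y) / 4) * hs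
  rcases le_or_gt 0 b with hb0 | hb0
  · have e : 8 / 5 * (-(√3 / 2) * x + y / 2) = 4 / 5 * (1 - a) + 4 / 5 * (√3 * b) := by
      rw [hx, hy]
      linear_combination (-(2 / 5) * a + 2 / 5) * hs
    have h6 : 0 ≤ √3 * b := mul_nonneg (by linarith) hb0
    rw [e] at h5
    linarith
  · have e1 : -x / √3 = -x * √3 / 3 := by
      rw [div_eq_div_iff (by linarith) (by norm_num)]
      linear_combination (x) * hs
    have e : -x * √3 / 3 - 2 / 5 * y = 7 / 10 * (1 - a) - √3 / 30 * b := by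
      rw [hx, hy]
      linear_combination (-a / 6 + 1 / 6) * hs
    have h6 : √3 / 30 * b ≤ 0 := mul_nonpos_of_nonneg_of_nonpos (by linarith) hb0.le
    rw [e1, e] at h3
    linarith

theorem VB2 {x y r : ℝ} (hr : 0 ≤ r) (hn : r ^ 2 = x ^ 2 + (1 + y) ^ 2) :
    19 / 20 * (1 - r) ≤ Vh x y := by
  have h1 : -(19 / 20) * y ≤ Vh x y := (le_max_left _ _).trans (le_max_right _ _)
  have h2 : 1 + y ≤ r := by
    have h : (1 + y) ^ 2 ≤ r ^ 2 := by nlinarith [sq_nonneg x]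
    exact (abs_le_of_sq_le_sq' h hr).2
  linarith

end Pool.Agent.H84.P6
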