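import Pool.Agent.H84.P6.Defs

/-!
# VO: the potential controls the radii from above
`v = (x,y)` is the displacement of the frame `d1 = (√3/2,1/2)` resp. `d2 = (0,1)`, `r` the distance of the displaced frame from 0.
* `VO1`: with `V = Vh x y ≤ 1/3`: all seven linear forms are `≤ V`; show `(√3/2+x)²+(1/2+y)² ≤ (1 + V/1.18)²`, i.e.
  `√3 x + y + x² + y² ≤ 2V/1.18 + V²/1.18²`.  The left side is convex in `(x,y)`, so only the vertices of the polygon `{Vh ≤ V}`
  matter (multiples `3V` of `(±.3937,-.2652)`, `(±.3342,-.3509)`, `(±.1840,.0980)`); worst: `(.3937,-.2652)` with `1.1847` instead of `1.18`.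
  (Suggestion: `nlinarith` with products of pairs of constraints; or write `(x,y)` by cases.)  `r ≤ 1.282` from the same vertex
  (`r = 1.28138` there).
* `VO2`: similarly `2y + x² + y² ≤ 2V/2.94 + V²/2.94²`, worst vertex `(±.1840,.0980)`: `2.9494`; `r ≤ 1.1135` (`1.11334` there).
-/

set_option autoImplicit false

open Real

noncomputable section

namespace Pool.Agent.H84.P6

theorem VO_cons {x y : ℝ} : 0 ≤ Vh x y ∧ -(19 / 20) * y ≤ Vh x y ∧ x / √3 - 2 / 5 * y ≤ Vh x y ∧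
    -x / √3 - 2 / 5 * y ≤ Vh x y ∧ 8 / 5 * (√3 / 2 * x + y / 2) ≤ Vh x y ∧
    8 / 5 * (-(√3 / 2) * x + y / 2) ≤ Vh x y ∧ 17 / 5 * y ≤ Vh x y := by
  unfold Vh
  refine ⟨le_max_left _ _, ?_, ?_, ?_, ?_, ?_, ?_⟩
  · exact le_max_of_le_right (le_max_left _ _)
  · exact le_max_of_le_right (le_max_of_le_right (le_max_left _ _))
  · exact le_max_of_le_right (le_max_of_le_right (le_max_of_le_right (le_max_left _ _)))
  · exact le_max_of_le_right (le_max_of_le_right (le_max_of_le_right (le_max_of_le_right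
      (le_max_left _ _))))
  · exact le_max_of_le_right (le_max_of_le_right (le_max_of_le_right (le_max_of_le_right
      (le_max_of_le_right (le_max_left _ _)))))
  · exact le_max_of_le_right (le_max_of_le_right (le_max_of_le_right (le_max_of_le_right
      (le_max_of_le_right (le_max_right _ _)))))

/-- the constraints in terms of `X = √3 x` -/
theorem VO_lin {x y : ℝ} : 0 ≤ Vh x y ∧ -(19 / 20) * y ≤ Vh x y ∧
    (√3 * x) / 3 - 2 / 5 * y ≤ Vh x y ∧ -(√3 * x) / 3 - 2 / 5 * y ≤ Vh x y ∧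
    √3 * x + y ≤ 5 / 4 * Vh x y ∧ -(√3 * x) + y ≤ 5 / 4 * Vh x y ∧ 17 / 5 * y ≤ Vh x y := by
  obtain ⟨h0, h1, h2, h3, h4, h5, h6⟩ := VO_cons (x := x) (y := y)
  have e : x / √3 = (√3 * x) / 3 := by
    have h := sq3
    have hp : (0 : ℝ) < √3 := by positivity
    field_simp
    nlinarith
  have e' : -x / √3 = -(√3 * x) / 3 := by
    rw [neg_div, e]
    ring
  rw [e] at h2
  rw [e'] at h3
  refine ⟨h0, h1, h2, h3, ?_, ?_, h6⟩
  · linarith
  · linarith

theorem VO_sq {x : ℝ} : (√3 * x) ^ 2 = 3 * x ^ 2 := by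
  rw [mul_pow, sq3]

theorem VO_f1 {X y V : ℝ} (h0 : 0 ≤ V) (hV : V ≤ 1 / 3) (h1 : -(19 / 20) * y ≤ V)
    (h2 : X / 3 - 2 / 5 * y ≤ V) (h3 : -X / 3 - 2 / 5 * y ≤ V) (h4 : X + y ≤ 5 / 4 * V)
    (h6 : 17 / 5 * y ≤ V) : X + y + X ^ 2 / 3 + y ^ 2 ≤ 5 / 4 * V + 2.03 * V ^ 2 := by
  have hy1 : y ≤ 5 / 17 * V := by linarith
  have hy2 : -(20 / 19) * V ≤ y := by linarith
  have hyy : y ^ 2 ≤ 1.109 * V ^ 2 := by
    have h7 : 0 ≤ (5 / 17 * V - y) * (y + 20 / 19 * V) := mul_nonneg (by linarith) (by linarith)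
    have h8 : 0 ≤ V * (y + 20 / 19 * V) := mul_nonneg h0 (by linarith)
    nlinarith
  rcases le_total X 0 with hX | hX
  · have h7 : X * (1 + X / 3) ≤ 0 := mul_nonpos_of_nonpos_of_nonneg hX (by linarith)
    nlinarith
  · rcases le_total y (-(35 / 44) * V) with hy | hy
    · -- `X ≤ 3 V + 6/5 y`
      have hW : X ≤ 3 * V + 6 / 5 * y := by linarith
      have h7 : 0 ≤ (3 * V + 6 / 5 * y - X) * (3 * V + 6 / 5 * y + X) :=
        mul_nonneg (by linarith) (by linarith)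
      have h8 : X ^ 2 ≤ (3 * V + 6 / 5 * y) ^ 2 := by nlinarith
      have h9 : 0 ≤ (-(35 / 44) * V - y) * (y + 20 / 19 * V) :=
        mul_nonneg (by linarith) (by linarith)
      have h10 : 0 ≤ (-(35 / 44) * V - y) * (1 / 3 - V) := mul_nonneg (by linarith) (by linarith)
      nlinarith
    · have hW : X ≤ 5 / 4 * V - y := by linarith
      have h7 : 0 ≤ (5 / 4 * V - y - X) * (5 / 4 * V - y + X) :=
        mul_nonneg (by linarith) (by linarith)
      have h8 : X ^ 2 ≤ (5 / 4 * V - y) ^ 2 := by nlinarith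
      have h9 : 0 ≤ (y + 35 / 44 * V) * (5 / 17 * V - y) :=
        mul_nonneg (by linarith) (by linarith)
      nlinarith

theorem VO1 {x y r : ℝ} (hr : 0 ≤ r) (hn : r ^ 2 = (√3 / 2 + x) ^ 2 + (1 / 2 + y) ^ 2)
    (h : Vh x y ≤ 1 / 3) : 59 / 50 * (r - 1) ≤ Vh x y ∧ r ≤ 1.282 := by
  obtain ⟨h0, h1, h2, h3, h4, -, h6⟩ := VO_lin (x := x) (y := y)
  have hf := VO_f1 h0 h h1 h2 h3 h4 h6
  rw [VO_sq] at hf
  have hs := sq3
  have e : r ^ 2 = 1 + (√3 * x + y + 3 * x ^ 2 / 3 + y ^ 2) := by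
    rw [hn]
    linear_combination hs / 4
  set V := Vh x y with hVdef
  constructor
  · have h7 : r ≤ 1 + V * (50 / 59) := by
      apply le_of_sq_le_sq _ (by positivity)
      nlinarith [mul_nonneg h0 (sub_nonneg.2 h)]
    linarith
  · apply le_of_sq_le_sq _ (by norm_num)
    nlinarith [mul_nonneg h0 (sub_nonneg.2 h)]

theorem VO2 {x y r : ℝ} (hr : 0 ≤ r) (hn : r ^ 2 = x ^ 2 + (1 + y) ^ 2)
    (h : Vh x y ≤ 1 / 3) : 147 / 50 * (r - 1) ≤ Vh x y ∧ r ≤ 1.1135 := by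
  obtain ⟨h0, h1, h2, h3, h4, h5, h6⟩ := VO_lin (x := x) (y := y)
  set V := Vh x y with hVdef
  have hy1 : y ≤ 5 / 17 * V := by linarith
  have hy2 : -(20 / 19) * V ≤ y := by linarith
  have h7 : 0 ≤ (5 / 4 * V - y - √3 * x) * (5 / 4 * V - y + √3 * x) :=
    mul_nonneg (by linarith) (by linarith)
  have h8 : 3 * x ^ 2 ≤ (5 / 4 * V - y) ^ 2 := by
    rw [← VO_sq]
    nlinarith
  have h9 : 0 ≤ (5 / 17 * V - y) * (2 - (5 / 2 * V - 5 / 17 * V - y) / 3 + 5 / 17 * V + y) :=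
    mul_nonneg (by linarith) (by linarith)
  have hf : r ^ 2 ≤ 1 + 10 / 17 * V + 0.3911 * V ^ 2 := by
    rw [hn]
    nlinarith [sq_nonneg V]
  constructor
  · have h10 : r ≤ 1 + V * (50 / 147) := by
      apply le_of_sq_le_sq _ (by positivity)
      nlinarith [mul_nonneg h0 (sub_nonneg.2 h)]
    linarith
  · apply le_of_sq_le_sq _ (by norm_num)
    nlinarith [mul_nonneg h0 (sub_nonneg.2 h)]

end Pool.Agent.H84.P6
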