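import Pool.Agent.H84.P6.SBD
import Pool.Agent.H84.P6.ANG
import Pool.Agent.H84.P6.VB
import Pool.Agent.H84.P6.VO
import Pool.Agent.H84.P6.FI

/-!
# VOID: the terminal inequality (c) of the three-wedge scheme

`a = 0` is the virtual apex, `x1 = d1 + (u1,w1)`, `x2 = d2 + (u2,w2)`, `x3 = d3 + (u3,w3)` with `d1, d2, d3` the unit vectors at
30, 90, 150 degrees; `|x2-x1| ≥ 1`, `|x3-x2| ≥ 1`, the potential `Vh` of the three displacements is at most `1/3`.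
-/

set_option autoImplicit false

open Real

noncomputable section

namespace Pool.Agent.H84.P6

/-- the angle between the vectors `(a,b)` and `(c,d)` -/
def angl (a b c d : ℝ) : ℝ :=
  Real.arccos ((a * c + b * d) / (√(a ^ 2 + b ^ 2) * √(c ^ 2 + d ^ 2)))

/-- the waste of one triangle in coordinates -/
theorem VOID_tri {u1 w1 u2 w2 : ℝ} (h1 : Vh u1 w1 ≤ 1 / 3) (h2 : Vh u2 w2 ≤ 1 / 3)
    (h12 : 1 ≤ (u2 - (√3 / 2 + u1)) ^ 2 + ((1 + w2) - (1 / 2 + w1)) ^ 2) :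
    ∃ P1 P2 : ℝ, P1 = 1 - √((√3 / 2 + u1) ^ 2 + (1 / 2 + w1) ^ 2) ∧ P2 = 1 - √(u2 ^ 2 + (1 + w2) ^ 2) ∧
      P1 ≤ 0.4762 ∧ -0.282 ≤ P1 ∧ P2 ≤ 0.351 ∧ -0.1135 ≤ P2 ∧
      7 / 10 * P1 ≤ Vh u1 w1 ∧ 59 / 50 * (-P1) ≤ Vh u1 w1 ∧
      19 / 20 * P2 ≤ Vh u2 w2 ∧ 147 / 50 * (-P2) ≤ Vh u2 w2 ∧
      P1 ≤ -(√3 / 2 * u1 + w1 / 2) ∧ P2 ≤ -w2 ∧
      2 / 3 - Bd P1 P2 ≤ ((√3 / 2 + u1) * (1 + w2) - (1 / 2 + w1) * u2) / √3
        + angl (√3 / 2 + u1) (1 / 2 + w1) u2 (1 + w2) / (2 * π) := by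
  set r := √((√3 / 2 + u1) ^ 2 + (1 / 2 + w1) ^ 2) with hr
  set s := √(u2 ^ 2 + (1 + w2) ^ 2) with hs
  have hr2 : r ^ 2 = (√3 / 2 + u1) ^ 2 + (1 / 2 + w1) ^ 2 := Real.sq_sqrt (by positivity)
  have hs2 : s ^ 2 = u2 ^ 2 + (1 + w2) ^ 2 := Real.sq_sqrt (by positivity)
  have hr0 : 0 ≤ r := Real.sqrt_nonneg _
  have hs0 : 0 ≤ s := Real.sqrt_nonneg _
  have a1 := VB1 hr0 hr2
  have a2 := VB2 hs0 hs2
  obtain ⟨b1, b2⟩ := VO1 hr0 hr2 h1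
  obtain ⟨c1, c2⟩ := VO2 hs0 hs2 h2
  obtain ⟨k1, k2⟩ := ANG h1 h2
  have q3 := sq3
  have hrlo : 0.5238 ≤ r := by norm_num; linarith
  have hslo : 0.649 ≤ s := by norm_num; linarith
  have hrp : 0 < r := by norm_num at hrlo; linarith
  have hsp : 0 < s := by norm_num at hslo; linarith
  have hrs : 0 < r * s := mul_pos hrp hsp
  obtain ⟨b3, b4, b5⟩ := Vh_box h1
  obtain ⟨c3, c4, c5⟩ := Vh_box h2
  rw [abs_le] at b3 c3
  have g1 := sq3_lo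
  have g2 := sq3_hi
  -- projections
  have p1 : 1 + (√3 / 2 * u1 + w1 / 2) ≤ r := by
    apply Real.le_sqrt_of_sq_le
    have id1 : 1 + (√3 / 2 * u1 + w1 / 2) = √3 / 2 * (√3 / 2 + u1) + 1 / 2 * (1 / 2 + w1) := by
      linear_combination (-(1 / 4)) * q3
    have id2 : (√3 / 2 * (√3 / 2 + u1) + 1 / 2 * (1 / 2 + w1)) ^ 2
        + (√3 / 2 * (1 / 2 + w1) - 1 / 2 * (√3 / 2 + u1)) ^ 2
        = (√3 / 2 + u1) ^ 2 + (1 / 2 + w1) ^ 2 := by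
      linear_combination (((√3 / 2 + u1) ^ 2 + (1 / 2 + w1) ^ 2) / 4) * q3
    rw [id1]
    linarith [sq_nonneg (√3 / 2 * (1 / 2 + w1) - 1 / 2 * (√3 / 2 + u1))]
  have p2 : 1 + w2 ≤ s := by
    apply Real.le_sqrt_of_sq_le
    linarith [sq_nonneg u2]
  have hxr : √3 / 2 + u1 ≤ r := by
    apply Real.le_sqrt_of_sq_le
    linarith [sq_nonneg (1 / 2 + w1)]
  set D := (√3 / 2 + u1) * u2 + (1 / 2 + w1) * (1 + w2) with hD
  set C := (√3 / 2 + u1) * (1 + w2) - (1 / 2 + w1) * u2 with hC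
  have lag : D ^ 2 + C ^ 2 = (r * s) ^ 2 := by
    rw [mul_pow, hr2, hs2, hD, hC]; ring
  set θ := angl (√3 / 2 + u1) (1 / 2 + w1) u2 (1 + w2) with hθ
  have hθd : θ = Real.arccos (D / (r * s)) := rfl
  have hcl : -1 ≤ D / (r * s) := by
    rw [le_div_iff₀ hrs]
    have := abs_le_of_sq_le_sq' (show D ^ 2 ≤ (r * s) ^ 2 by linarith [sq_nonneg C]) hrs.le
    linarith [this.1]
  have hcu : D / (r * s) ≤ 1 := by
    rw [div_le_iff₀ hrs]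
    have := abs_le_of_sq_le_sq' (show D ^ 2 ≤ (r * s) ^ 2 by linarith [sq_nonneg C]) hrs.le
    linarith [this.2]
  have hcos : Real.cos θ = D / (r * s) := by rw [hθd]; exact Real.cos_arccos hcl hcu
  have hcos' : r * s * Real.cos θ = D := by rw [hcos]; field_simp
  have hsin : r * s * Real.sin θ = C := by
    rw [hθd, Real.sin_arccos]
    have : 1 - (D / (r * s)) ^ 2 = (C / (r * s)) ^ 2 := by
      rw [div_pow, div_pow, ← lag]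
      have : D ^ 2 + C ^ 2 ≠ 0 := by rw [lag]; positivity
      field_simp
      ring
    rw [this, Real.sqrt_sq (div_nonneg k1.le hrs.le)]
    field_simp
  have hθ0 : 0 ≤ θ := Real.arccos_nonneg _
  have hθ1 : θ ≤ 2 * π / 3 := by
    have hc3 : Real.cos (2 * π / 3) = -(1 / 2) := by
      rw [show 2 * π / 3 = π - π / 3 by ring, Real.cos_pi_sub, Real.cos_pi_div_three]
    have h3 : Real.arccos (Real.cos (2 * π / 3)) = 2 * π / 3 :=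
      Real.arccos_cos (by positivity) (by linarith [Real.pi_pos])
    rw [← h3, hθd, hc3]
    apply Real.arccos_le_arccos
    rw [le_div_iff₀ hrs]
    have : (√3 / 2 + u1) * (1 + w2) ≤ r * s := mul_le_mul hxr p2 (by linarith) hr0
    linarith
  have hside : 1 ≤ r ^ 2 + s ^ 2 - 2 * r * s * Real.cos θ := by
    have : 2 * r * s * Real.cos θ = 2 * D := by rw [← hcos']; ring
    rw [this, hr2, hs2, hD]
    refine h12.trans (le_of_eq ?_)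
    ring
  have key := SBD hrlo b2 hslo c2 hθ0 hθ1 hside
  refine ⟨1 - r, 1 - s, rfl, rfl, by norm_num at hrlo ⊢; linarith, by norm_num at b2 ⊢; linarith,
    by norm_num at hslo ⊢; linarith, by norm_num at c2 ⊢; linarith, a1, by linarith, a2, by linarith,
    by linarith, by linarith, ?_⟩
  have hS : S r s θ = C / √3 + θ / (2 * π) - 2 / 3 := by
    unfold S; rw [hsin]
  rw [hS] at key
  linarith

theorem angl_symm_neg (a b c d : ℝ) : angl (-a) b (-c) d = angl a b c d := by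
  unfold angl
  rw [show -a * -c + b * d = a * c + b * d by ring, neg_sq, neg_sq]

/-- **The terminal inequality (void case).** -/
theorem VOID {u1 w1 u2 w2 u3 w3 σ1 σ3 Φ : ℝ}
    (h1 : Vh u1 w1 ≤ 1 / 3) (h2 : Vh u2 w2 ≤ 1 / 3) (h3 : Vh u3 w3 ≤ 1 / 3)
    (h12 : 1 ≤ (u2 - (√3 / 2 + u1)) ^ 2 + ((1 + w2) - (1 / 2 + w1)) ^ 2)
    (h23 : 1 ≤ (u2 - (-(√3 / 2) + u3)) ^ 2 + ((1 + w2) - (1 / 2 + w3)) ^ 2)
    (hσ1 : 31 / 200 * (max (-(√3 / 2 * u1 + w1 / 2)) 0 + max (-(√3 / 2 * u2 + w2 / 2)) 0) ≤ σ1)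
    (hσ3 : 31 / 200 * (max (-(-(√3 / 2) * u3 + w3 / 2)) 0 + max (-(-(√3 / 2) * u2 + w2 / 2)) 0) ≤ σ3)
    (hΦ1 : Vh u1 w1 + σ3 ≤ Φ) (hΦ3 : Vh u3 w3 + σ1 ≤ Φ) (hΦ2 : Vh u2 w2 + σ1 + σ3 ≤ Φ) :
    1 / 3 ≤ (((√3 / 2 + u1) * (1 + w2) - (1 / 2 + w1) * u2)
          + (u2 * (1 / 2 + w3) - (1 + w2) * (-(√3 / 2) + u3))) / √3 - 1
        + (angl (√3 / 2 + u1) (1 / 2 + w1) u2 (1 + w2)
          + angl u2 (1 + w2) (-(√3 / 2) + u3) (1 / 2 + w3)) / (2 * π) + Φ ∧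
    ((((√3 / 2 + u1) * (1 + w2) - (1 / 2 + w1) * u2)
          + (u2 * (1 / 2 + w3) - (1 + w2) * (-(√3 / 2) + u3))) / √3 - 1
        + (angl (√3 / 2 + u1) (1 / 2 + w1) u2 (1 + w2)
          + angl u2 (1 + w2) (-(√3 / 2) + u3) (1 / 2 + w3)) / (2 * π) + Φ = 1 / 3 →
      (u1 = 0 ∧ w1 = 0) ∧ (u2 = 0 ∧ w2 = 0) ∧ (u3 = 0 ∧ w3 = 0)) := by
  have h3' : Vh (-u3) w3 ≤ 1 / 3 := by rwa [Vh_neg]
  have h2' : Vh (-u2) w2 ≤ 1 / 3 := by rwa [Vh_neg]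
  obtain ⟨P1, P2, e1, e2, a1, a2, a3, a4, a5, a6, a7, a8, a9, a10, a11⟩ := VOID_tri h1 h2 h12
  obtain ⟨P3, Q2, f1, f2, b1, b2, b3, b4, b5, b6, b7, b8, b9, b10, b11⟩ :=
    VOID_tri (u1 := -u3) (w1 := w3) (u2 := -u2) (w2 := w2) h3' h2'
      (by refine h23.trans (le_of_eq ?_); ring)
  have hQ : P2 = Q2 := by rw [f2, e2, neg_sq]
  subst hQ
  rw [Vh_neg] at b5 b6
  have hang : angl (√3 / 2 + -u3) (1 / 2 + w3) (-u2) (1 + w2)
      = angl u2 (1 + w2) (-(√3 / 2) + u3) (1 / 2 + w3) := by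
    rw [show √3 / 2 + -u3 = -(-(√3 / 2) + u3) by ring, angl_symm_neg]
    unfold angl
    rw [mul_comm (-(√3 / 2) + u3) u2, mul_comm (1 / 2 + w3) (1 + w2), mul_comm (√_) (√_)]
  rw [hang] at b11
  have m1 : max P1 0 ≤ max (-(√3 / 2 * u1 + w1 / 2)) 0 := max_le_max a9 le_rfl
  have m3 : max P3 0 ≤ max (-(-(√3 / 2) * u3 + w3 / 2)) 0 := by
    apply max_le_max _ le_rfl
    linarith
  have m2 : max P2 0 ≤ max (-(√3 / 2 * u2 + w2 / 2)) 0 + max (-(-(√3 / 2) * u2 + w2 / 2)) 0 := by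
    apply max_le
    · linarith [le_max_left (-(√3 / 2 * u2 + w2 / 2)) 0, le_max_left (-(-(√3 / 2) * u2 + w2 / 2)) 0]
    · linarith [le_max_right (-(√3 / 2 * u2 + w2 / 2)) 0, le_max_right (-(-(√3 / 2) * u2 + w2 / 2)) 0]
  have n1 := le_max_right (-(√3 / 2 * u2 + w2 / 2)) 0
  have n2 := le_max_right (-(-(√3 / 2) * u2 + w2 / 2)) 0
  obtain ⟨key, keq⟩ := FI a1 a2 b1 b2 a3 a4 a5 a6 b5 b6 a7 a8
    (hσ1 := by linarith) (hσ3 := by linarith) (hσ := by linarith) hΦ1 hΦ3 hΦ2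
  have hsum : (((√3 / 2 + u1) * (1 + w2) - (1 / 2 + w1) * u2)
          + (u2 * (1 / 2 + w3) - (1 + w2) * (-(√3 / 2) + u3))) / √3 - 1
        + (angl (√3 / 2 + u1) (1 / 2 + w1) u2 (1 + w2)
          + angl u2 (1 + w2) (-(√3 / 2) + u3) (1 / 2 + w3)) / (2 * π) + Φ
      = (((√3 / 2 + u1) * (1 + w2) - (1 / 2 + w1) * u2) / √3
        + angl (√3 / 2 + u1) (1 / 2 + w1) u2 (1 + w2) / (2 * π))
        + (((√3 / 2 + -u3) * (1 + w2) - (1 / 2 + w3) * -u2) / √3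
        + angl u2 (1 + w2) (-(√3 / 2) + u3) (1 / 2 + w3) / (2 * π)) - 1 + Φ := by
    ring
  rw [hsum]
  refine ⟨by linarith, fun heq => ?_⟩
  obtain ⟨z1, z2, z3⟩ := keq (by linarith)
  have hBd : Bd (0 : ℝ) 0 = 0 := by unfold Bd; norm_num
  have hΦ0 : Φ ≤ 0 := by
    rw [z1, z2] at a11
    rw [z2, z3] at b11
    rw [hBd] at a11 b11
    linarith
  have v1 := (Vh_faces u1 w1).1
  have v2 := (Vh_faces u2 w2).1
  have v3 := (Vh_faces u3 w3).1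
  have t1 : 0 ≤ σ1 := by
    linarith [le_max_right (-(√3 / 2 * u1 + w1 / 2)) 0]
  have t3 : 0 ≤ σ3 := by
    linarith [le_max_right (-(-(√3 / 2) * u3 + w3 / 2)) 0]
  exact ⟨Vh_eq_zero (by linarith), Vh_eq_zero (by linarith), Vh_eq_zero (by linarith)⟩

end Pool.Agent.H84.P6
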