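import Pool.Agent.H84.P6.VOIDC
import Pool.Agent.H84.P6.FIS

/-!
# VOIDS: the void inequality with slack
-/

set_option autoImplicit false

open Real Pool.Agent.H20.AL Pool.Agent.H63.P6

noncomputable section

namespace Pool.Agent.H84.P6

theorem FIS {P1 P2 P3 V1 V2 V3 σ1 σ3 Φ : ℝ}
    (h1 : P1 ≤ 0.4762) (h1' : -0.282 ≤ P1) (h3 : P3 ≤ 0.4762) (h3' : -0.282 ≤ P3)
    (h2 : P2 ≤ 0.351) (h2' : -0.1135 ≤ P2)
    (hV1 : 7 / 10 * P1 ≤ V1) (hV1' : 59 / 50 * (-P1) ≤ V1)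
    (hV3 : 7 / 10 * P3 ≤ V3) (hV3' : 59 / 50 * (-P3) ≤ V3)
    (hV2 : 19 / 20 * P2 ≤ V2) (hV2' : 147 / 50 * (-P2) ≤ V2)
    (hσ1 : 31 / 200 * max P1 0 ≤ σ1) (hσ3 : 31 / 200 * max P3 0 ≤ σ3)
    (hσ : 31 / 200 * (max P1 0 + max P2 0 + max P3 0) ≤ σ1 + σ3)
    (hΦ1 : V1 + σ3 ≤ Φ) (hΦ3 : V3 + σ1 ≤ Φ) (hΦ2 : V2 + σ1 + σ3 ≤ Φ) :
    Bd P1 P2 + Bd P3 P2 + (|P1| + |P2| + |P3|) / 100 ≤ Φ := by
  rcases le_total P3 P1 with h | h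
  · exact FIS_aux h h1 h1' h3 h3' h2 h2' hV1 hV1' hV3 hV3' hV2 hV2' hσ1 hσ3 hσ hΦ1 hΦ3 hΦ2
  · have := FIS_aux h h3 h3' h1 h1' h2 h2' hV3 hV3' hV1 hV1' hV2 hV2' hσ3 hσ1 (by linarith) hΦ3 hΦ1
      (by linarith)
    linarith

/-- the terminal inequality (void case) with slack -/
theorem VOIDS0 {u1 w1 u2 w2 u3 w3 σ1 σ3 Φ : ℝ}
    (h1 : Vh u1 w1 ≤ 1 / 3) (h2 : Vh u2 w2 ≤ 1 / 3) (h3 : Vh u3 w3 ≤ 1 / 3)
    (h12 : 1 ≤ (u2 - (√3 / 2 + u1)) ^ 2 + ((1 + w2) - (1 / 2 + w1)) ^ 2)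
    (h23 : 1 ≤ (u2 - (-(√3 / 2) + u3)) ^ 2 + ((1 + w2) - (1 / 2 + w3)) ^ 2)
    (hσ1 : 31 / 200 * (max (-(√3 / 2 * u1 + w1 / 2)) 0 + max (-(√3 / 2 * u2 + w2 / 2)) 0) ≤ σ1)
    (hσ3 : 31 / 200 * (max (-(-(√3 / 2) * u3 + w3 / 2)) 0 + max (-(-(√3 / 2) * u2 + w2 / 2)) 0) ≤ σ3)
    (hΦ1 : Vh u1 w1 + σ3 ≤ Φ) (hΦ3 : Vh u3 w3 + σ1 ≤ Φ) (hΦ2 : Vh u2 w2 + σ1 + σ3 ≤ Φ) :
    1 / 3 + (|1 - √((√3 / 2 + u1) ^ 2 + (1 / 2 + w1) ^ 2)| + |1 - √(u2 ^ 2 + (1 + w2) ^ 2)|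
          + |1 - √((-(√3 / 2) + u3) ^ 2 + (1 / 2 + w3) ^ 2)|) / 100
      ≤ (((√3 / 2 + u1) * (1 + w2) - (1 / 2 + w1) * u2)
          + (u2 * (1 / 2 + w3) - (1 + w2) * (-(√3 / 2) + u3))) / √3 - 1
        + (angl (√3 / 2 + u1) (1 / 2 + w1) u2 (1 + w2)
          + angl u2 (1 + w2) (-(√3 / 2) + u3) (1 / 2 + w3)) / (2 * π) + Φ := by
  have h3' : Vh (-u3) w3 ≤ 1 / 3 := by rwa [Vh_neg]
  have h2' : Vh (-u2) w2 ≤ 1 / 3 := by rwa [Vh_neg]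
  obtain ⟨P1, P2, e1, e2, a1, a2, a3, a4, a5, a6, a7, a8, a9, a10, a11⟩ := VOID_tri h1 h2 h12
  obtain ⟨P3, Q2, f1, f2, b1, b2, b3, b4, b5, b6, b7, b8, b9, b10, b11⟩ :=
    VOID_tri (u1 := -u3) (w1 := w3) (u2 := -u2) (w2 := w2) h3' h2'
      (by refine h23.trans (le_of_eq ?_); ring)
  have hQ : P2 = Q2 := by rw [f2, e2, neg_sq]
  subst hQ
  rw [Vh_neg] at b5 b6
  have hang : angl (√3 / 2 + -u3) (1 / 2 + w3) (-u2) (1 + w2)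
      = angl u2 (1 + w2) (-(√3 / 2) + u3) (1 / 2 + w3) := by
    rw [show √3 / 2 + -u3 = -(-(√3 / 2) + u3) by ring, angl_symm_neg]
    unfold angl
    rw [mul_comm (-(√3 / 2) + u3) u2, mul_comm (1 / 2 + w3) (1 + w2), mul_comm (√_) (√_)]
  rw [hang] at b11
  have m1 : max P1 0 ≤ max (-(√3 / 2 * u1 + w1 / 2)) 0 := max_le_max a9 le_rfl
  have m3 : max P3 0 ≤ max (-(-(√3 / 2) * u3 + w3 / 2)) 0 := by
    apply max_le_max _ le_rfl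
    linarith
  have m2 : max P2 0 ≤ max (-(√3 / 2 * u2 + w2 / 2)) 0 + max (-(-(√3 / 2) * u2 + w2 / 2)) 0 := by
    apply max_le
    · linarith [le_max_left (-(√3 / 2 * u2 + w2 / 2)) 0, le_max_left (-(-(√3 / 2) * u2 + w2 / 2)) 0]
    · linarith [le_max_right (-(√3 / 2 * u2 + w2 / 2)) 0, le_max_right (-(-(√3 / 2) * u2 + w2 / 2)) 0]
  have n1 := le_max_right (-(√3 / 2 * u2 + w2 / 2)) 0
  have n2 := le_max_right (-(-(√3 / 2) * u2 + w2 / 2)) 0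
  have key := FIS a1 a2 b1 b2 a3 a4 a5 a6 b5 b6 a7 a8
    (hσ1 := by linarith) (hσ3 := by linarith) (hσ := by linarith) hΦ1 hΦ3 hΦ2
  have hsum : (((√3 / 2 + u1) * (1 + w2) - (1 / 2 + w1) * u2)
          + (u2 * (1 / 2 + w3) - (1 + w2) * (-(√3 / 2) + u3))) / √3 - 1
        + (angl (√3 / 2 + u1) (1 / 2 + w1) u2 (1 + w2)
          + angl u2 (1 + w2) (-(√3 / 2) + u3) (1 / 2 + w3)) / (2 * π) + Φ
      = (((√3 / 2 + u1) * (1 + w2) - (1 / 2 + w1) * u2) / √3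
        + angl (√3 / 2 + u1) (1 / 2 + w1) u2 (1 + w2) / (2 * π))
        + (((√3 / 2 + -u3) * (1 + w2) - (1 / 2 + w3) * -u2) / √3
        + angl u2 (1 + w2) (-(√3 / 2) + u3) (1 / 2 + w3) / (2 * π)) - 1 + Φ := by
    ring
  rw [hsum, ← e1, ← e2]
  have f3 : 1 - √((-(√3 / 2) + u3) ^ 2 + (1 / 2 + w3) ^ 2) = P3 := by
    rw [f1, show (-(√3 / 2) + u3) ^ 2 = (√3 / 2 + -u3) ^ 2 by ring]
  rw [f3]
  linarith

/-- **The void inequality with slack.**  `V` is any potential `≥ Vh`, `κ ≥ 31/200`. -/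
theorem VOIDS {V : ℂ → ℝ} {κ : ℝ} (hV : ∀ u : ℂ, Vh u.re u.im ≤ V u) (hκ : 31 / 200 ≤ κ)
    {v1 v2 v3 : ℂ} (h1 : V v1 ≤ 1 / 3) (h2 : V v2 ≤ 1 / 3) (h3 : V v3 ≤ 1 / 3)
    (h12 : 1 ≤ ‖(d2 + v2) - (d1 + v1)‖) (h23 : 1 ≤ ‖(d3 + v3) - (d2 + v2)‖) :
    1 / 3 + (|1 - ‖d1 + v1‖| + |1 - ‖d2 + v2‖| + |1 - ‖d3 + v3‖|) / 100
      ≤ fanw (d1 + v1) (d2 + v2) (d3 + v3)
        + (Real.arccos (dt (d1 + v1) (d2 + v2) / (‖d1 + v1‖ * ‖d2 + v2‖))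
          + Real.arccos (dt (d2 + v2) (d3 + v3) / (‖d2 + v2‖ * ‖d3 + v3‖))) / (2 * π)
        + Phi V κ v1 v2 v3 := by
  set σ1 := sig κ d1 v1 v2 ‖(d2 + v2) - (d1 + v1)‖ with hσ1
  set σ3 := sig κ d3 v3 v2 ‖(d3 + v3) - (d2 + v2)‖ with hσ3
  set Φ := Phi V κ v1 v2 v3 with hΦ
  have hsig : ∀ (d a b : ℂ) (l : ℝ), 1 ≤ l →
      31 / 200 * (max (-(dt a d)) 0 + max (-(dt b d)) 0) ≤ sig κ d a b l := by
    intro d a b l hl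
    unfold sig
    have n1 := le_max_right (-(dt a d)) 0
    have n2 := le_max_right (-(dt b d)) 0
    have hκ0 : 0 ≤ κ := by linarith
    calc 31 / 200 * (max (-(dt a d)) 0 + max (-(dt b d)) 0)
        ≤ κ * (max (-(dt a d)) 0 + max (-(dt b d)) 0) := by
          apply mul_le_mul_of_nonneg_right hκ; linarith
      _ ≤ _ := by
          apply mul_le_mul_of_nonneg_left _ hκ0; linarith
  have e1r : (d1 + v1).re = √3 / 2 + v1.re := by simp [d1]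
  have e1i : (d1 + v1).im = 1 / 2 + v1.im := by simp [d1]
  have e2r : (d2 + v2).re = v2.re := by simp [d2]
  have e2i : (d2 + v2).im = 1 + v2.im := by simp [d2]
  have e3r : (d3 + v3).re = -(√3 / 2) + v3.re := by simp [d3]
  have e3i : (d3 + v3).im = 1 / 2 + v3.im := by simp [d3]
  have hsq : ∀ z : ℂ, 1 ≤ ‖z‖ → 1 ≤ z.re ^ 2 + z.im ^ 2 := by
    intro z hz
    rw [← nsq]; nlinarith
  have t1 := hsig d1 v1 v2 _ h12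
  have t3 := hsig d3 v3 v2 _ h23
  have Φ1 : V v1 + σ3 ≤ Φ := le_max_left _ _
  have Φ3 : V v3 + σ1 ≤ Φ := (le_max_left _ _).trans (le_max_right _ _)
  have Φ2 : V v2 + σ1 + σ3 ≤ Φ := (le_max_right _ _).trans (le_max_right _ _)
  have g1 := hV v1
  have g2 := hV v2
  have g3 := hV v3
  have k12 := hsq _ h12
  have k23 := hsq _ h23
  have key := VOIDS0 (u1 := v1.re) (w1 := v1.im) (u2 := v2.re) (w2 := v2.im) (u3 := v3.re) (w3 := v3.im)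
    (σ1 := σ1) (σ3 := σ3) (Φ := Φ) (g1.trans h1) (g2.trans h2) (g3.trans h3)
    (by
      refine k12.trans (le_of_eq ?_)
      rw [Complex.sub_re, Complex.sub_im, e1r, e1i, e2r, e2i])
    (by
      refine k23.trans (le_of_eq ?_)
      rw [Complex.sub_re, Complex.sub_im, e3r, e3i, e2r, e2i]; ring)
    (by
      refine le_trans (le_of_eq ?_) t1
      simp only [dt, d1]
      rw [show v1.re * (√3 / 2) + v1.im * (1 / 2) = √3 / 2 * v1.re + v1.im / 2 by ring,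
        show v2.re * (√3 / 2) + v2.im * (1 / 2) = √3 / 2 * v2.re + v2.im / 2 by ring])
    (by
      refine le_trans (le_of_eq ?_) t3
      simp only [dt, d3]
      rw [show v3.re * (-(√3 / 2)) + v3.im * (1 / 2) = -(√3 / 2) * v3.re + v3.im / 2 by ring,
        show v2.re * (-(√3 / 2)) + v2.im * (1 / 2) = -(√3 / 2) * v2.re + v2.im / 2 by ring])
    (by linarith) (by linarith) (by linarith)
  have a12 : angl (√3 / 2 + v1.re) (1 / 2 + v1.im) v2.re (1 + v2.im)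
      = Real.arccos (dt (d1 + v1) (d2 + v2) / (‖d1 + v1‖ * ‖d2 + v2‖)) := by
    unfold angl
    rw [cnorm _ _ _ e1r e1i, cnorm _ _ _ e2r e2i]
    unfold dt
    rw [e1r, e1i, e2r, e2i]
  have a23 : angl v2.re (1 + v2.im) (-(√3 / 2) + v3.re) (1 / 2 + v3.im)
      = Real.arccos (dt (d2 + v2) (d3 + v3) / (‖d2 + v2‖ * ‖d3 + v3‖)) := by
    unfold angl
    rw [cnorm _ _ _ e2r e2i, cnorm _ _ _ e3r e3i]
    unfold dt
    rw [e2r, e2i, e3r, e3i]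
  have hf : fanw (d1 + v1) (d2 + v2) (d3 + v3)
      = (((√3 / 2 + v1.re) * (1 + v2.im) - (1 / 2 + v1.im) * v2.re)
          + (v2.re * (1 / 2 + v3.im) - (1 + v2.im) * (-(√3 / 2) + v3.re))) / √3 - 1 := by
    unfold fanw cr
    rw [e1r, e1i, e2r, e2i, e3r, e3i]
  rw [a12, a23, ← hf, cnorm _ _ _ e1r e1i, cnorm _ _ _ e2r e2i, cnorm _ _ _ e3r e3i] at key
  exact key

end Pool.Agent.H84.P6
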